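import Mathlib

/-!
# Orbits of a point avoiding another point modulo primes (MP_df4dfc_nt): definitions
-/

set_option autoImplicit false

open NumberField IsDedekindDomain Filter

noncomputable section

namespace Pool.Agent.T4h89.OM

variable {n : ℕ}

/-- the vector of the values of the polynomials `F` at `x` -/
def ev {R : Type} [CommRing R] (F : Fin n → MvPolynomial (Fin n) R) (x : Fin n → R) : Fin n → R :=
  fun i => MvPolynomial.eval x (F i)

/-- the vectors `x` and `y` are proportional -/
def Par {R : Type} [CommRing R] (x y : Fin n → R) : Prop := ∀ i j, x i * y j = x j * y i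

/-- `F` defines a morphism of degree `d` of the projective space of dimension `n - 1` over `K`:
forms of degree `d` without common zero except `0` in the algebraic closure of `K`. -/
structure IsMor {K : Type} [Field K] (d : ℕ) (F : Fin n → MvPolynomial (Fin n) K) : Prop where
  hom : ∀ i, (F i).IsHomogeneous d
  zero : ∀ x : Fin n → AlgebraicClosure K, (∀ i, MvPolynomial.aeval x (F i) = 0) → x = 0

section nf

variable {K : Type} [Field K] [NumberField K]

/-- the points with the homogeneous coordinates `x` and `y` have the same reduction modulo `v`: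
there are multiples `a x` and `b y`, integral at `v` with at least one unit coordinate, which are
congruent modulo `v` -/
def Cong (v : HeightOneSpectrum (𝓞 K)) (x y : Fin n → K) : Prop :=
  ∃ a b : K, (∀ i, v.valuation K (a * x i) ≤ 1) ∧ (∃ i, v.valuation K (a * x i) = 1) ∧
    (∀ i, v.valuation K (b * y i) ≤ 1) ∧ (∃ i, v.valuation K (b * y i) = 1) ∧
    ∀ i, v.valuation K (a * x i - b * y i) < 1

/-- the set of the prime ideals modulo which no iterate of `F` maps `γ₁` to `γ₂` -/
def Avoid (F : Fin n → MvPolynomial (Fin n) K) (γ₁ γ₂ : Fin n → K) :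
    Set (HeightOneSpectrum (𝓞 K)) := {v | ∀ m : ℕ, ¬ Cong v ((ev F)^[m] γ₁) γ₂}

/-- the set `S` of prime ideals has positive (lower) density -/
def PosDens (S : Set (HeightOneSpectrum (𝓞 K))) : Prop :=
  ∃ c : ℝ, 0 < c ∧ ∀ᶠ x : ℕ in atTop,
    c * (Nat.card {v : HeightOneSpectrum (𝓞 K) // Ideal.absNorm v.asIdeal ≤ x} : ℝ) ≤
      Nat.card {v : HeightOneSpectrum (𝓞 K) // v ∈ S ∧ Ideal.absNorm v.asIdeal ≤ x}

/-- `F` has good reduction at `v`: for some multiple `c F` with `v`-integral coefficients the powers
`X_i ^ r` are combinations of the `c F_j` with `v`-integral coefficients (equivalently, the reduction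
of `c F` modulo `v` is a morphism) -/
def GoodRed (v : HeightOneSpectrum (𝓞 K)) (F : Fin n → MvPolynomial (Fin n) K) : Prop :=
  ∃ c : K, (∀ i m, v.valuation K (c * (F i).coeff m) ≤ 1) ∧
    ∃ (r : ℕ) (G : Fin n → Fin n → MvPolynomial (Fin n) K),
      (∀ i j m, v.valuation K ((G i j).coeff m) ≤ 1) ∧
      ∀ i, MvPolynomial.X i ^ r = ∑ j, G i j * (MvPolynomial.C c * F j)

end nf

end Pool.Agent.T4h89.OM
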