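import Pool.Agent.T4h89.OM.Stm
import Pool.Agent.K3h73.RS.Cheb

set_option autoImplicit false

open NumberField IsDedekindDomain Filter

namespace Pool.Agent.T4h89.OM

lemma CHO.key {K : Type} [Field K] [NumberField K] (L : IntermediateField K (AlgebraicClosure K))
    [NumberField L] (σ : L ≃ₐ[K] L) (v : HeightOneSpectrum (𝓞 K)) (P : HeightOneSpectrum (𝓞 L))
    (hP : P.asIdeal.comap (algebraMap (𝓞 K) (𝓞 L)) = v.asIdeal)
    (hPx : ∀ x : 𝓞 L, P.valuation L (σ (x : L) - (x : L) ^ (Ideal.absNorm v.asIdeal)) < 1) :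
    ∃ Q : Ideal (𝓞 (AlgebraicClosure K)), Q.IsMaximal ∧
        Q.comap (algebraMap (𝓞 K) (𝓞 (AlgebraicClosure K))) = v.asIdeal ∧
        ∀ (x x' : 𝓞 (AlgebraicClosure K)) (y : L), ((x : AlgebraicClosure K)) = y →
          (x' : AlgebraicClosure K) = σ y → x' - x ^ (Ideal.absNorm v.asIdeal) ∈ Q := by
  haveI : P.asIdeal.IsMaximal := P.isMaximal
  have hint : Algebra.IsIntegral (𝓞 L) (𝓞 (AlgebraicClosure K)) := by
    constructor
    intro x
    have h1 : IsIntegral ℤ x := by
      have h2 : IsIntegral ℤ (x : AlgebraicClosure K) := x.2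
      exact (isIntegral_algebraMap_iff (A := 𝓞 (AlgebraicClosure K)) (B := AlgebraicClosure K)
        RingOfIntegers.coe_injective).1 h2
    exact h1.tower_top
  have hinj : Function.Injective (algebraMap (𝓞 L) (𝓞 (AlgebraicClosure K))) := by
    intro a b hab
    apply RingOfIntegers.ext
    have h1 := congrArg (fun z : 𝓞 (AlgebraicClosure K) => (z : AlgebraicClosure K)) hab
    exact (algebraMap L (AlgebraicClosure K)).injective h1
  obtain ⟨Q, hQ, hQP⟩ := Ideal.exists_ideal_over_maximal_of_isIntegral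
    (S := 𝓞 (AlgebraicClosure K)) P.asIdeal (by
      rw [(RingHom.injective_iff_ker_eq_bot _).1 hinj]
      exact bot_le)
  refine ⟨Q, hQ, ?_, ?_⟩
  · rw [← hP, ← hQP, Ideal.comap_comap]
    congr 1
  · intro x x' y hx hx'
    have hy : IsIntegral ℤ y := by
      have h2 : IsIntegral ℤ (x : AlgebraicClosure K) := x.2
      rw [hx] at h2
      exact (isIntegral_algebraMap_iff (A := L) (B := AlgebraicClosure K)
        (algebraMap L (AlgebraicClosure K)).injective).1 h2
    have hy' : IsIntegral ℤ (σ y) := hy.map (σ.toRingEquiv.toRingHom.toIntAlgHom)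
    let y0 : 𝓞 L := ⟨y, hy⟩
    let y1 : 𝓞 L := ⟨σ y, hy'⟩
    have e0 : algebraMap (𝓞 L) (𝓞 (AlgebraicClosure K)) y0 = x := by
      apply RingOfIntegers.ext
      exact hx.symm
    have e1 : algebraMap (𝓞 L) (𝓞 (AlgebraicClosure K)) y1 = x' := by
      apply RingOfIntegers.ext
      exact hx'.symm
    have h3 := hPx y0
    have h4 : σ (y0 : L) - (y0 : L) ^ (Ideal.absNorm v.asIdeal) =
        algebraMap (𝓞 L) L (y1 - y0 ^ (Ideal.absNorm v.asIdeal)) := by
      rw [map_sub, map_pow]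
      rfl
    rw [h4, HeightOneSpectrum.valuation_lt_one_iff_mem, ← hQP, Ideal.mem_comap, map_sub, map_pow,
      e0, e1] at h3
    exact h3

lemma CHO.mono {K : Type} [Field K] [NumberField K] {P P' : HeightOneSpectrum (𝓞 K) → Prop}
    (hPP : ∀ v, P v → P' v) (h : Pool.Agent.K3h30.RS.PosProportion P) :
    Pool.Agent.K3h30.RS.PosProportion P' := by
  obtain ⟨c, hc, h⟩ := h
  refine ⟨c, hc, ?_⟩
  filter_upwards [h] with X hX
  refine hX.trans ?_
  have hfin : {v : HeightOneSpectrum (𝓞 K) | Ideal.absNorm v.asIdeal ≤ X}.Finite := by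
    have h := Ideal.finite_setOfPred_absNorm_le (S := 𝓞 K) X
    refine Set.Finite.of_finite_image (f := fun v : HeightOneSpectrum (𝓞 K) => v.asIdeal)
      (h.subset ?_) ?_
    · rintro I ⟨v, hv1, rfl⟩
      exact hv1
    · intro a _ b _ hab
      exact HeightOneSpectrum.ext hab
  have hfin' : {v : HeightOneSpectrum (𝓞 K) | P' v ∧ Ideal.absNorm v.asIdeal ≤ X}.Finite :=
    hfin.subset fun v hv => hv.2
  haveI : Finite {v : HeightOneSpectrum (𝓞 K) // P' v ∧ Ideal.absNorm v.asIdeal ≤ X} :=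
    hfin'.to_subtype
  refine Nat.cast_le.2 (Nat.card_le_card_of_injective
    (fun v => (⟨v.1, hPP v.1 v.2.1, v.2.2⟩ : {v : HeightOneSpectrum (𝓞 K) //
      P' v ∧ Ideal.absNorm v.asIdeal ≤ X})) ?_)
  intro a b hab
  exact Subtype.ext (congrArg (fun z => z.1) hab)

theorem t_CHO : S_CHO := by
  intro K _ _ L _ σ bad
  haveI : NumberField L := NumberField.of_module_finite K L
  refine CHO.mono ?_ (Pool.Agent.K3h73.RS.t_CHEB K L σ bad)
  rintro v ⟨hv, P, ⟨v', hv', hP⟩, hPx⟩
  rw [Set.mem_singleton_iff] at hv'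
  subst hv'
  exact ⟨hv, CHO.key L σ v' P hP hPx⟩

end Pool.Agent.T4h89.OM
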