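import Pool.Agent.T4h89.OM.Stm

/-! Task CNG. -/

set_option autoImplicit false

open NumberField IsDedekindDomain

namespace Pool.Agent.T4h89.OM

namespace CNGaux

/-- if `x' = a x` and `p = a0 x` both are integral with a unit coordinate, `x' = α p` with a unit `α` -/
theorem unit_ratio {K : Type} [Field K] {Γ : Type} [LinearOrderedCommGroupWithZero Γ]
    (w : Valuation K Γ) {n : ℕ} (x : Fin n → K) (a a0 : K)
    (h1 : ∀ i, w (a * x i) ≤ 1) (h2 : ∃ i, w (a * x i) = 1)
    (h3 : ∀ i, w (a0 * x i) ≤ 1) (h4 : ∃ i, w (a0 * x i) = 1) :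
    a0 ≠ 0 ∧ w (a / a0) = 1 := by
  obtain ⟨i, hi⟩ := h2
  obtain ⟨j, hj⟩ := h4
  have ha0 : a0 ≠ 0 := by
    rintro rfl
    rw [zero_mul, map_zero] at hj
    exact zero_ne_one hj
  refine ⟨ha0, le_antisymm ?_ ?_⟩
  · have e : a * x j = (a / a0) * (a0 * x j) := by
      rw [← mul_assoc, div_mul_cancel₀ _ ha0]
    have h5 := h1 j
    rwa [e, map_mul, hj, mul_one] at h5
  · have e : a * x i = (a / a0) * (a0 * x i) := by
      rw [← mul_assoc, div_mul_cancel₀ _ ha0]
    rw [e, map_mul] at hi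
    calc (1 : Γ) = w (a / a0) * w (a0 * x i) := hi.symm
      _ ≤ w (a / a0) * 1 := mul_le_mul_right (h3 i) _
      _ = w (a / a0) := mul_one _

end CNGaux

open CNGaux

theorem t_CNG : S_CNG := by
  intro K _ _ n v x y x' y' a b ha hb hx' hy' hux huy
  have hx1 : ∀ i, v.valuation K (a * x i) ≤ 1 := fun i => by
    rw [← hx' i]; exact v.valuation_le_one _
  have hy1 : ∀ i, v.valuation K (b * y i) ≤ 1 := fun i => by
    rw [← hy' i]; exact v.valuation_le_one _
  have hx2 : ∃ i, v.valuation K (a * x i) = 1 := by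
    obtain ⟨i, hi⟩ := hux
    exact ⟨i, by rw [← hx' i]; exact v.valuation_eq_one_iff_notMem.2 hi⟩
  have hy2 : ∃ i, v.valuation K (b * y i) = 1 := by
    obtain ⟨i, hi⟩ := huy
    exact ⟨i, by rw [← hy' i]; exact v.valuation_eq_one_iff_notMem.2 hi⟩
  constructor
  · rintro ⟨a0, b0, h1, h2, h3, h4, h5⟩ i j
    obtain ⟨ha0, hα⟩ := unit_ratio (v.valuation K) x a a0 hx1 hx2 h1 h2
    obtain ⟨hb0, hβ⟩ := unit_ratio (v.valuation K) y b b0 hy1 hy2 h3 h4
    rw [← v.valuation_lt_one_iff_mem (K := K)]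
    have e : algebraMap (𝓞 K) K (x' i * y' j - x' j * y' i) = (a / a0) * (b / b0) *
        ((a0 * x i - b0 * y i) * (b0 * y j) - (a0 * x j - b0 * y j) * (b0 * y i)) := by
      rw [map_sub, map_mul, map_mul]
      change (x' i : K) * (y' j : K) - (x' j : K) * (y' i : K) = _
      rw [hx' i, hx' j, hy' i, hy' j]
      field_simp
      ring
    change v.valuation K (algebraMap (𝓞 K) K (x' i * y' j - x' j * y' i)) < 1
    rw [e, map_mul, map_mul, hα, hβ, one_mul, one_mul]
    have hlt : ∀ k l, v.valuation K ((a0 * x k - b0 * y k) * (b0 * y l)) < 1 := by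
      intro k l
      rw [map_mul]
      exact mul_lt_one_of_lt_of_le (h5 k) (h3 l)
    exact (Valuation.map_sub_lt _ (hlt i j) (hlt j i))
  · intro h
    obtain ⟨i0, hi0⟩ := huy
    obtain ⟨k, hk⟩ := hux
    have hxi0 : x' i0 ∉ v.asIdeal := by
      intro hcon
      have h1 := h k i0
      have h2 : x' k * y' i0 ∈ v.asIdeal := by
        have h3 := v.asIdeal.add_mem h1 (v.asIdeal.mul_mem_right (y' k) hcon)
        rwa [sub_add_cancel] at h3
      rcases v.isPrime.mem_or_mem h2 with h3 | h3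
      · exact hk h3
      · exact hi0 h3
    have ex : ∀ i, (y' i0 : K) * a * x i = algebraMap (𝓞 K) K (y' i0 * x' i) := by
      intro i
      rw [map_mul]
      change _ = (y' i0 : K) * (x' i : K)
      rw [hx' i, mul_assoc]
    have ey : ∀ i, (x' i0 : K) * b * y i = algebraMap (𝓞 K) K (x' i0 * y' i) := by
      intro i
      rw [map_mul]
      change _ = (x' i0 : K) * (y' i : K)
      rw [hy' i, mul_assoc]
    refine ⟨(y' i0 : K) * a, (x' i0 : K) * b, fun i => ?_, ⟨i0, ?_⟩, fun i => ?_, ⟨i0, ?_⟩,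
      fun i => ?_⟩
    · rw [ex]; exact v.valuation_le_one _
    · rw [ex]
      exact v.valuation_eq_one_iff_notMem.2 fun hm =>
        (v.isPrime.mem_or_mem hm).elim hi0 hxi0
    · rw [ey]; exact v.valuation_le_one _
    · rw [ey]
      exact v.valuation_eq_one_iff_notMem.2 fun hm =>
        (v.isPrime.mem_or_mem hm).elim hxi0 hi0
    · rw [ex, ey, ← map_sub, v.valuation_lt_one_iff_mem]
      have e : y' i0 * x' i - x' i0 * y' i = x' i * y' i0 - x' i0 * y' i := by ring
      rw [e]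
      exact h i i0

end Pool.Agent.T4h89.OM
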