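import Pool.Agent.T4h89.OM.Lem

/-!
# Orbits of a point avoiding another point modulo primes: the main criterion, integral form
-/

set_option autoImplicit false

open NumberField IsDedekindDomain Filter

noncomputable section

namespace Pool.Agent.T4h89.OM

open Pool.Agent.K3h30.RS (PosProportion)

section general

variable {Ω : Type} [Field Ω] [CharZero Ω] [Algebra.IsAlgebraic ℚ Ω]

/-- a nonzero algebraic integer divides a nonzero natural number -/
lemma exists_nat_dvd (x : 𝓞 Ω) (hx : x ≠ 0) : ∃ D : ℕ, D ≠ 0 ∧ x ∣ (D : 𝓞 Ω) := by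
  have h1 : IsAlgebraic ℚ ((x : Ω)⁻¹) := Algebra.IsAlgebraic.isAlgebraic _
  have h2 : IsAlgebraic ℤ ((x : Ω)⁻¹) := (IsFractionRing.isAlgebraic_iff ℤ ℚ Ω).2 h1
  obtain ⟨y, hy, hint⟩ := h2.exists_integral_multiple
  have hx' : (x : Ω) ≠ 0 := by
    intro h
    exact hx (RingOfIntegers.ext (by simpa using h))
  refine ⟨y.natAbs, by simpa using hy, ?_⟩
  have h3 : x ∣ (y : 𝓞 Ω) := by
    obtain ⟨w, hw⟩ : ∃ w : 𝓞 Ω, (w : Ω) = y • (x : Ω)⁻¹ := ⟨⟨_, hint⟩, rfl⟩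
    refine ⟨w, ?_⟩
    apply RingOfIntegers.coe_injective
    have hw' : algebraMap (𝓞 Ω) Ω w = y • (x : Ω)⁻¹ := hw
    rw [map_mul, map_intCast, hw', zsmul_eq_mul]
    change (y : Ω) = (x : Ω) * ((y : Ω) * (x : Ω)⁻¹)
    field_simp
  have h4 : (y : 𝓞 Ω) ∣ ((y.natAbs : ℕ) : 𝓞 Ω) := by
    have h5 : y ∣ (y.natAbs : ℤ) := Int.dvd_natAbs_self
    have h6 := map_dvd (Int.castRingHom (𝓞 Ω)) h5
    simpa using h6
  exact h3.trans h4

lemma exists_common {α : Type*} (s : Finset α) (P : α → ℕ → Prop)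
    (hmono : ∀ x D D', D ∣ D' → P x D → P x D') (h : ∀ x ∈ s, ∃ D : ℕ, D ≠ 0 ∧ P x D) :
    ∃ D : ℕ, D ≠ 0 ∧ ∀ x ∈ s, P x D := by
  classical
  induction s using Finset.induction_on with
  | empty => exact ⟨1, one_ne_zero, by simp⟩
  | insert a s ha ih =>
    obtain ⟨D1, h1, h1'⟩ := ih fun x hx => h x (Finset.mem_insert_of_mem hx)
    obtain ⟨D2, h2, h2'⟩ := h a (Finset.mem_insert_self _ _)
    refine ⟨D1 * D2, mul_ne_zero h1 h2, fun x hx => ?_⟩
    rcases Finset.mem_insert.1 hx with rfl | hx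
    · exact hmono _ _ _ (Dvd.intro_left _ rfl) h2'
    · exact hmono _ _ _ (Dvd.intro _ rfl) (h1' x hx)

lemma cast_ne_of_dvd {k : Type} [Field k] {D D' : ℕ} (h : D ∣ D') (h' : (D' : k) ≠ 0) : (D : k) ≠ 0 := by
  obtain ⟨c, rfl⟩ := h
  intro h0
  apply h'
  rw [Nat.cast_mul, h0, zero_mul]

lemma nz_elt (x : 𝓞 Ω) (hx : x ≠ 0) :
    ∃ D : ℕ, D ≠ 0 ∧ ∀ (k : Type) [Field k] (φ : 𝓞 Ω →+* k), (D : k) ≠ 0 → φ x ≠ 0 := by
  obtain ⟨D, hD, c, hc⟩ := exists_nat_dvd x hx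
  refine ⟨D, hD, fun k _ φ hk h0 => hk ?_⟩
  have := congrArg φ hc
  rw [map_natCast, map_mul, h0, zero_mul] at this
  exact this

variable {n : ℕ}

lemma nz_vec (x : Fin n → 𝓞 Ω) (hx : x ≠ 0) :
    ∃ D : ℕ, D ≠ 0 ∧ ∀ (k : Type) [Field k] (φ : 𝓞 Ω →+* k), (D : k) ≠ 0 → φ ∘ x ≠ 0 := by
  obtain ⟨i, hi⟩ := Function.ne_iff.1 hx
  obtain ⟨D, hD, h⟩ := nz_elt (x i) hi
  refine ⟨D, hD, fun k _ φ hk h0 => h k φ hk ?_⟩
  exact congrFun h0 i

lemma npar_vec (x y : Fin n → 𝓞 Ω) (hxy : ¬ Par x y) :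
    ∃ D : ℕ, D ≠ 0 ∧ ∀ (k : Type) [Field k] (φ : 𝓞 Ω →+* k), (D : k) ≠ 0 → ¬ Par (φ ∘ x) (φ ∘ y) := by
  unfold Par at hxy
  push Not at hxy
  obtain ⟨i, j, hij⟩ := hxy
  obtain ⟨D, hD, h⟩ := nz_elt (x i * y j - x j * y i) (sub_ne_zero.2 hij)
  refine ⟨D, hD, fun k _ φ hk h0 => h k φ hk ?_⟩
  rw [map_sub, map_mul, map_mul, sub_eq_zero]
  exact h0 i j

/-- the points which some iterate maps to a point of `C` -/
lemma iter_step (hSTEP : S_STEP) (hGOOD : S_GOOD) [IsAlgClosed Ω] {d : ℕ} (hd : 1 ≤ d)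
    (F : Fin n → MvPolynomial (Fin n) (𝓞 Ω)) (hF : ∀ i, (F i).IsHomogeneous d)
    (hz : ∀ x : Fin n → Ω, (∀ i, MvPolynomial.aeval x (F i) = 0) → x = 0)
    (C : Finset (Fin n → 𝓞 Ω)) (hC : ∀ c ∈ C, c ≠ 0) (j : ℕ) :
    ∃ (T : Finset (Fin n → 𝓞 Ω)) (D : ℕ), D ≠ 0 ∧
      (∀ t ∈ T, t ≠ 0 ∧ ∃ c ∈ C, Par ((ev F)^[j] t) c) ∧
      ∀ (k : Type) [Field k] (φ : 𝓞 Ω →+* k), (D : k) ≠ 0 → (∀ t ∈ T, φ ∘ t ≠ 0) ∧
        ∀ z : Fin n → k, z ≠ 0 → ∀ c ∈ C, Par ((ev (mapF φ F))^[j] z) (φ ∘ c) →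
          ∃ t ∈ T, Par z (φ ∘ t) := by
  classical
  have h0 : ∀ x : Fin n → 𝓞 Ω, ev F x = 0 → x = 0 := by
    intro x hx
    have h1 := hz (fun i => (x i : Ω)) (fun i => by
      have h2 := congrFun hx i
      have h3 : MvPolynomial.aeval (fun i => (x i : Ω)) (F i) = ((MvPolynomial.eval x (F i) : 𝓞 Ω) : Ω) := by
        have := MvPolynomial.aeval_algebraMap_apply (B := Ω) x (F i)
        exact this
      rw [h3]
      change ((ev F x i : 𝓞 Ω) : Ω) = 0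
      rw [h2]
      simp)
    funext i
    apply RingOfIntegers.ext
    have := congrFun h1 i
    simpa using this
  induction j with
  | zero =>
    obtain ⟨D, hD, h⟩ := exists_common C (fun c D => ∀ (k : Type) [Field k] (φ : 𝓞 Ω →+* k),
      (D : k) ≠ 0 → φ ∘ c ≠ 0) (fun c D D' hdvd h k _ φ hk => h k φ (cast_ne_of_dvd hdvd hk))
      (fun c hc => nz_vec c (hC c hc))
    refine ⟨C, D, hD, fun t ht => ⟨hC t ht, t, ht, Par.refl t⟩, fun k _ φ hk => ⟨fun t ht => h t ht k φ hk, ?_⟩⟩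
    intro z hz c hc hzc
    exact ⟨c, hc, hzc⟩
  | succ j ih =>
    obtain ⟨T, D, hD, hT1, hT2⟩ := ih
    obtain ⟨Dg, hDg, hgood⟩ := hGOOD Ω n F hz
    obtain ⟨T', D', hD', hT1', hT2'⟩ := hSTEP Ω n d hd F hF hz T (fun t ht => (hT1 t ht).1)
    refine ⟨T', D * (Dg * D'), mul_ne_zero hD (mul_ne_zero hDg hD'), ?_, ?_⟩
    · intro t ht
      obtain ⟨ht0, w, hw, hpar⟩ := hT1' t ht
      refine ⟨ht0, ?_⟩
      obtain ⟨hw0, c, hc, hcw⟩ := hT1 w hw
      refine ⟨c, hc, ?_⟩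
      rw [Function.iterate_succ_apply]
      exact (hpar.iter hd hF j).trans hcw (iter_ne_zero h0 hw0 j)
    · intro k _ φ hk
      have hk1 : (D : k) ≠ 0 := cast_ne_of_dvd (Dvd.intro _ rfl) hk
      have hk2 : (Dg : k) ≠ 0 := cast_ne_of_dvd ((Dvd.intro _ rfl : Dg ∣ Dg * D').trans (Dvd.intro_left _ rfl)) hk
      have hk3 : (D' : k) ≠ 0 := cast_ne_of_dvd ((Dvd.intro_left _ rfl : D' ∣ Dg * D').trans (Dvd.intro_left _ rfl)) hk
      refine ⟨(hT2' k φ hk3).1, ?_⟩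
      intro z hz0 c hc hzc
      rw [Function.iterate_succ_apply] at hzc
      have hz1 : ev (mapF φ F) z ≠ 0 := fun h => hz0 (hgood k φ hk2 z h)
      obtain ⟨w, hw, hzw⟩ := (hT2 k φ hk1).2 _ hz1 c hc hzc
      exact (hT2' k φ hk3).2 z hz0 w hw hzw

end general

section frob

variable {K : Type} [Field K] [NumberField K]

/-- the Frobenius homomorphism of the residue field which fixes the residue field of `v` -/
lemma frob_hom (v : HeightOneSpectrum (𝓞 K)) {k : Type} [Field k] (ψ : 𝓞 K →+* k)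
    (hψ : RingHom.ker ψ = v.asIdeal) :
    ∃ fr : k →+* k, (∀ x, fr x = x ^ (Ideal.absNorm v.asIdeal)) ∧
      (∀ c : 𝓞 K, ψ c ^ (Ideal.absNorm v.asIdeal) = ψ c) ∧ 2 ≤ Ideal.absNorm v.asIdeal := by
  classical
  have hmax : v.asIdeal.IsMaximal := v.isMaximal
  let _ : Field (𝓞 K ⧸ v.asIdeal) := Ideal.Quotient.field v.asIdeal
  have hfin : Finite (𝓞 K ⧸ v.asIdeal) := Ring.HasFiniteQuotients.finiteQuotient v.ne_bot
  let _ := Fintype.ofFinite (𝓞 K ⧸ v.asIdeal)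
  have hN : Ideal.absNorm v.asIdeal = Fintype.card (𝓞 K ⧸ v.asIdeal) := by
    rw [Ideal.absNorm_apply, Submodule.cardQuot_apply, Nat.card_eq_fintype_card]
  obtain ⟨p, hp⟩ := CharP.exists (𝓞 K ⧸ v.asIdeal)
  obtain ⟨f, hpr, hf⟩ := FiniteField.card (𝓞 K ⧸ v.asIdeal) p
  have hpF : Fact p.Prime := ⟨hpr⟩
  have hfix : ∀ c : 𝓞 K, ψ c ^ (Ideal.absNorm v.asIdeal) = ψ c := by
    intro c
    have h1 : (Ideal.Quotient.mk v.asIdeal c) ^ (Fintype.card (𝓞 K ⧸ v.asIdeal)) =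
        Ideal.Quotient.mk v.asIdeal c := FiniteField.pow_card _
    rw [← hN, ← map_pow, Ideal.Quotient.eq] at h1
    have h2 : c ^ (Ideal.absNorm v.asIdeal) - c ∈ RingHom.ker ψ := by
      rw [hψ]
      exact h1
    rw [RingHom.mem_ker, map_sub, map_pow, sub_eq_zero] at h2
    exact h2
  have hchar : CharP k p := by
    rw [CharP.charP_iff_prime_eq_zero hpr]
    have h1 : ((p : ℕ) : 𝓞 K) ∈ v.asIdeal := by
      rw [← Ideal.Quotient.eq_zero_iff_mem, map_natCast, CharP.cast_eq_zero]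
    rw [← hψ, RingHom.mem_ker, map_natCast] at h1
    exact h1
  refine ⟨iterateFrobenius k p f, fun x => ?_, hfix, ?_⟩
  · rw [iterateFrobenius_def, hN, hf]
  · rw [hN]
    exact Fintype.one_lt_card

/-- the vectors of a field with entries in a finite subset of roots of `X ^ q - X` -/
lemma fixed_finite {n : ℕ} (k : Type) [Field k] (q : ℕ) (hq : 2 ≤ q) :
    Finite {z : Fin n → k // z ≠ 0 ∧ ∀ i, z i ^ q = z i} ∧
      Nat.card {z : Fin n → k // z ≠ 0 ∧ ∀ i, z i ^ q = z i} ≤ q ^ n := by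
  classical
  have hp0 : (Polynomial.X ^ q - Polynomial.X : Polynomial k) ≠ 0 :=
    FiniteField.X_pow_card_sub_X_ne_zero k (by omega)
  set R : Finset k := (Polynomial.X ^ q - Polynomial.X : Polynomial k).roots.toFinset with hR
  have hmem : ∀ x : k, x ^ q = x → x ∈ R := by
    intro x hx
    rw [hR, Multiset.mem_toFinset, Polynomial.mem_roots hp0]
    simp [Polynomial.IsRoot.def, hx]
  have hcard : R.card ≤ q := by
    refine (Multiset.toFinset_card_le _).trans ((Polynomial.card_roots' _).trans ?_)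
    rw [FiniteField.X_pow_card_sub_X_natDegree_eq k (by omega)]
  let e : {z : Fin n → k // z ≠ 0 ∧ ∀ i, z i ^ q = z i} → (Fin n → R) :=
    fun z i => ⟨z.1 i, hmem _ (z.2.2 i)⟩
  have he : Function.Injective e := by
    intro z w h
    apply Subtype.ext
    funext i
    exact congrArg Subtype.val (congrFun h i)
  refine ⟨Finite.of_injective e he, ?_⟩
  refine (Nat.card_le_card_of_injective e he).trans ?_
  rw [Nat.card_eq_fintype_card, Fintype.card_fun, Fintype.card_coe, Fintype.card_fin]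
  exact Nat.pow_le_pow_left hcard n

omit [NumberField K] in
lemma ev_fixed {n : ℕ} {k : Type} [Field k] {q : ℕ} (ψ : 𝓞 K →+* k) (fr : k →+* k)
    (hfr : ∀ x, fr x = x ^ q) (hψ : ∀ c : 𝓞 K, ψ c ^ q = ψ c)
    (F : Fin n → MvPolynomial (Fin n) (𝓞 K)) (z : Fin n → k) (hz : ∀ i, z i ^ q = z i) :
    ∀ i, ev (mapF ψ F) z i ^ q = ev (mapF ψ F) z i := by
  intro i
  have h1 : mapF fr (mapF ψ F) = mapF ψ F := by
    rw [mapF_mapF]
    have : fr.comp ψ = ψ := by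
      ext c
      rw [RingHom.comp_apply, hfr, hψ]
    rw [this]
  have h2 : fr ∘ z = z := by
    funext j
    rw [Function.comp_apply, hfr, hz]
  have h3 := ev_mapF fr (mapF ψ F) z
  rw [h1, h2] at h3
  have h4 := congrFun h3 i
  rw [Function.comp_apply, hfr] at h4
  exact h4.symm

end frob

section core

variable {K : Type} [Field K] [NumberField K]

omit [NumberField K] in
/-- the map to the residue field of a maximal ideal of the ring of all algebraic integers -/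
lemma ker_comp (v : HeightOneSpectrum (𝓞 K)) (Q : Ideal (𝓞 (AlgebraicClosure K)))
    (hQv : Q.comap (algebraMap (𝓞 K) (𝓞 (AlgebraicClosure K))) = v.asIdeal) :
    RingHom.ker ((Ideal.Quotient.mk Q).comp (algebraMap (𝓞 K) (𝓞 (AlgebraicClosure K)))) =
      v.asIdeal := by
  rw [← RingHom.comap_ker, Ideal.mk_ker, hQv]

/-- a vector fixed by the Frobenius automorphism up to proportionality does not enter `C` late -/
lemma claimA (hFRB : S_FRB) (hENT : S_ENT) {n d : ℕ} (hd : 1 ≤ d)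
    (F : Fin n → MvPolynomial (Fin n) (𝓞 K)) (hF : ∀ i, (F i).IsHomogeneous d)
    (C : Finset (Fin n → 𝓞 K)) (v₀ : HeightOneSpectrum (𝓞 K))
    (hv₀ : ∀ Q : Ideal (𝓞 (AlgebraicClosure K)), Q.IsMaximal →
      Q.comap (algebraMap (𝓞 K) (𝓞 (AlgebraicClosure K))) = v₀.asIdeal →
      (∀ z : Fin n → 𝓞 (AlgebraicClosure K),
        (∀ i, ev (mapF (algebraMap (𝓞 K) (𝓞 (AlgebraicClosure K))) F) z i ∈ Q) → ∀ i, z i ∈ Q) ∧
      ∀ a : Fin n → 𝓞 (AlgebraicClosure K), (∃ i, a i ∉ Q) → ∀ M : ℕ,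
        (∃ c ∈ C, Par ((ev (mapF (algebraMap (𝓞 K) (𝓞 (AlgebraicClosure K))) F))^[M + 1] a)
          (algebraMap (𝓞 K) (𝓞 (AlgebraicClosure K)) ∘ c)) →
        (∀ c ∈ C, ¬ Par ((ev (mapF (algebraMap (𝓞 K) (𝓞 (AlgebraicClosure K))) F))^[M] a)
          (algebraMap (𝓞 K) (𝓞 (AlgebraicClosure K)) ∘ c)) →
        ∀ j ≤ M, ∀ c ∈ C, ¬ ParMod Q
          ((ev (mapF (algebraMap (𝓞 K) (𝓞 (AlgebraicClosure K))) F))^[j] a)
          (algebraMap (𝓞 K) (𝓞 (AlgebraicClosure K)) ∘ c))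
    (h0 : ∀ x : Fin n → 𝓞 (AlgebraicClosure K),
      ev (mapF (algebraMap (𝓞 K) (𝓞 (AlgebraicClosure K))) F) x = 0 → x = 0)
    (L : IntermediateField K (AlgebraicClosure K)) [FiniteDimensional K L] [Normal K L] :
    ∃ σ : L ≃ₐ[K] L, ∀ (t : Fin n → 𝓞 (AlgebraicClosure K)) (tL : Fin n → L),
      (∀ i, (tL i : AlgebraicClosure K) = t i) → t ≠ 0 → ∀ M : ℕ, Ideal.absNorm v₀.asIdeal ^ n ≤ M + 1 →
      (∃ c ∈ C, Par ((ev (mapF (algebraMap (𝓞 K) (𝓞 (AlgebraicClosure K))) F))^[M + 1] t)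
          (algebraMap (𝓞 K) (𝓞 (AlgebraicClosure K)) ∘ c)) →
      (∀ c ∈ C, ¬ Par ((ev (mapF (algebraMap (𝓞 K) (𝓞 (AlgebraicClosure K))) F))^[M] t)
          (algebraMap (𝓞 K) (𝓞 (AlgebraicClosure K)) ∘ c)) →
      ¬ Par (fun i => σ (tL i)) tL := by
  obtain ⟨σ, Q, hQ, hQv, hfrb⟩ := hFRB K L v₀
  refine ⟨σ, ?_⟩
  intro t tL htL ht0 M hM hent hnent hpar
  have htL0 : tL ≠ 0 := by
    intro h
    apply ht0
    funext i
    apply RingOfIntegers.coe_injective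
    have h1 : (tL i : AlgebraicClosure K) =
        algebraMap (𝓞 (AlgebraicClosure K)) (AlgebraicClosure K) (t i) := htL i
    rw [h] at h1
    rw [← h1]
    simp
  obtain ⟨a, y, ha, ha0, hy0, hay, hyq⟩ := hfrb n tL htL0 hpar
  obtain ⟨ι, hι⟩ : ∃ ι : 𝓞 K →+* 𝓞 (AlgebraicClosure K),
      ι = algebraMap (𝓞 K) (𝓞 (AlgebraicClosure K)) := ⟨_, rfl⟩
  rw [← hι] at hv₀ h0 hent hnent
  obtain ⟨FO, hFO⟩ : ∃ FO, FO = mapF ι F := ⟨_, rfl⟩
  have hFOh : ∀ i, (FO i).IsHomogeneous d := by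
    rw [hFO]
    exact hom_mapF ι hF
  rw [← hFO] at hv₀ h0 hent hnent
  -- `a` is proportional to `t`
  have hat : Par a t := by
    apply par_of_map (algebraMap (𝓞 (AlgebraicClosure K)) (AlgebraicClosure K))
      RingOfIntegers.coe_injective
    have e1 : (fun i => ((tL i : L) : AlgebraicClosure K)) =
        (algebraMap (𝓞 (AlgebraicClosure K)) (AlgebraicClosure K)) ∘ t := by
      funext i
      exact htL i
    rw [← e1]
    exact ha
  have ha00 : a ≠ 0 := by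
    intro h
    obtain ⟨i, hi⟩ := ha0
    apply hi
    rw [h]
    exact Q.zero_mem
  obtain ⟨hgood, hsep⟩ := hv₀ Q hQ (hι ▸ hQv)
  have hent' : ∃ c ∈ C, Par ((ev FO)^[M + 1] a) (ι ∘ c) := by
    obtain ⟨c, hc, hcp⟩ := hent
    exact ⟨c, hc, (hat.iter hd hFOh (M + 1)).trans hcp (iter_ne_zero h0 ht0 _)⟩
  have hnent' : ∀ c ∈ C, ¬ Par ((ev FO)^[M] a) (ι ∘ c) := by
    intro c hc hcp
    exact hnent c hc ((hat.symm.iter hd hFOh M).trans hcp (iter_ne_zero h0 ha00 _))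
  have hno := hsep a ha0 M hent' hnent'
  -- the residue field
  let _ : Field (𝓞 (AlgebraicClosure K) ⧸ Q) := Ideal.Quotient.field Q
  obtain ⟨φ, hφ⟩ : ∃ φ : 𝓞 (AlgebraicClosure K) →+* (𝓞 (AlgebraicClosure K) ⧸ Q),
      φ = Ideal.Quotient.mk Q := ⟨_, rfl⟩
  have hφQ : ∀ x, φ x = 0 ↔ x ∈ Q := fun x => by rw [hφ, Ideal.Quotient.eq_zero_iff_mem]
  have hker : RingHom.ker φ = Q := by rw [hφ, Ideal.mk_ker]
  have hsurj : Function.Surjective φ := by rw [hφ]; exact Ideal.Quotient.mk_surjective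
  have hkerι : RingHom.ker (φ.comp ι) = v₀.asIdeal := by rw [hφ, hι]; exact ker_comp v₀ Q hQv
  obtain ⟨fr, hfr, hfix, hq2⟩ := frob_hom v₀ (φ.comp ι) hkerι
  obtain ⟨q, hq⟩ : ∃ q, q = Ideal.absNorm v₀.asIdeal := ⟨_, rfl⟩
  rw [← hq] at hM hyq hfr hfix hq2
  have hcomp : mapF φ FO = mapF (φ.comp ι) F := by rw [hFO, mapF_mapF]
  have hgk : ∀ z : Fin n → (𝓞 (AlgebraicClosure K) ⧸ Q), ev (mapF φ FO) z = 0 → z = 0 := by
    intro z hz
    obtain ⟨w, hw⟩ := hsurj.comp_left z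
    change φ ∘ w = z at hw
    rw [← hw, ev_mapF] at hz
    have h1 := hgood w (fun i => (hφQ _).1 (congrFun hz i))
    rw [← hw]
    funext i
    exact (hφQ _).2 (h1 i)
  have hkh : ∀ i, (mapF φ FO i).IsHomogeneous d := hom_mapF φ hFOh
  have hka : φ ∘ a ≠ 0 := by
    intro h
    obtain ⟨i, hi⟩ := ha0
    exact hi ((hφQ _).1 (congrFun h i))
  have hky : φ ∘ y ≠ 0 := by
    intro h
    obtain ⟨i, hi⟩ := hy0
    exact hi ((hφQ _).1 (congrFun h i))
  have hay' : Par (φ ∘ a) (φ ∘ y) := by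
    rw [par_map_iff, hker]
    exact hay
  have hyq' : ∀ i, (φ ∘ y) i ^ q = (φ ∘ y) i := by
    intro i
    have h1 := (hφQ _).2 (hyq i)
    rw [map_sub, map_pow, sub_eq_zero] at h1
    exact h1
  obtain ⟨hfinV, hcardV⟩ := fixed_finite (n := n) (𝓞 (AlgebraicClosure K) ⧸ Q) q hq2
  let g : {z : Fin n → (𝓞 (AlgebraicClosure K) ⧸ Q) // z ≠ 0 ∧ ∀ i, z i ^ q = z i} →
      {z : Fin n → (𝓞 (AlgebraicClosure K) ⧸ Q) // z ≠ 0 ∧ ∀ i, z i ^ q = z i} := fun z =>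
    ⟨ev (mapF φ FO) z.1, fun h => z.2.1 (hgk _ h), by
      rw [hcomp]
      exact ev_fixed (φ.comp ι) fr hfr hfix F z.1 z.2.2⟩
  have hgit : ∀ (j : ℕ) z, (g^[j] z).1 = (ev (mapF φ FO))^[j] z.1 := by
    intro j z
    induction j with
    | zero => rfl
    | succ j ih =>
      rw [Function.iterate_succ_apply', Function.iterate_succ_apply', ← ih]
  obtain ⟨c, hc, hcp⟩ := hent'
  have hMM : (ev (mapF φ FO))^[M + 1] (φ ∘ a) ≠ 0 := iter_ne_zero hgk hka _
  obtain ⟨j, hj, c', hc', hjc⟩ := hENT _ g {z | ∃ c ∈ C, Par z.1 (φ ∘ (ι ∘ c))} ⟨φ ∘ y, hky, hyq'⟩ (M + 1)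
    (hcardV.trans hM) (by
      refine ⟨c, hc, ?_⟩
      rw [hgit]
      refine (hay'.symm.iter hd hkh (M + 1)).trans ?_ hMM
      rw [ev_mapF_iter]
      exact hcp.map φ)
  rw [hgit] at hjc
  refine hno j (by omega) c' hc' ?_
  rw [← hker, ← par_map_iff, ← ev_mapF_iter]
  refine (hay'.iter hd hkh j).trans hjc (iter_ne_zero hgk hky _)

/-- the main criterion -/
theorem t_CORE (hSTEP : S_STEP) (hGOOD : S_GOOD) (hFRB : S_FRB) (hCHO : S_CHO) (hENT : S_ENT) :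
    S_CORE := by
  classical
  intro K _ _ n d hd F hF hz C hC v₀ hv₀ γ hγ hav
  have halg : Algebra.IsAlgebraic ℚ (AlgebraicClosure K) := Algebra.IsAlgebraic.trans ℚ K _
  obtain ⟨ι, hι⟩ : ∃ ι : 𝓞 K →+* 𝓞 (AlgebraicClosure K),
      ι = algebraMap (𝓞 K) (𝓞 (AlgebraicClosure K)) := ⟨_, rfl⟩
  have hιinj : Function.Injective ι := by
    rw [hι]
    exact FaithfulSMul.algebraMap_injective _ _
  obtain ⟨FO, hFO⟩ : ∃ FO, FO = mapF ι F := ⟨_, rfl⟩
  have hFOh : ∀ i, (FO i).IsHomogeneous d := by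
    rw [hFO]
    exact hom_mapF ι hF
  have hzO : ∀ x : Fin n → AlgebraicClosure K, (∀ i, MvPolynomial.aeval x (FO i) = 0) → x = 0 := by
    intro x hx
    apply hz x
    intro i
    have h1 := hx i
    rw [hFO, hι] at h1
    change MvPolynomial.aeval x (MvPolynomial.map (algebraMap (𝓞 K) (𝓞 (AlgebraicClosure K))) (F i)) = 0 at h1
    rw [MvPolynomial.aeval_map_algebraMap] at h1
    exact h1
  have h0 : ∀ x : Fin n → 𝓞 (AlgebraicClosure K), ev FO x = 0 → x = 0 := by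
    intro x hx
    have h1 := hzO (fun i => (x i : AlgebraicClosure K)) (fun i => by
      have h3 : MvPolynomial.aeval (fun i => (x i : AlgebraicClosure K)) (FO i) =
          algebraMap (𝓞 (AlgebraicClosure K)) (AlgebraicClosure K) (MvPolynomial.eval x (FO i)) :=
        MvPolynomial.aeval_algebraMap_apply (B := AlgebraicClosure K) x (FO i)
      have h2 : MvPolynomial.eval x (FO i) = 0 := congrFun hx i
      rw [h3, h2, map_zero])
    funext i
    apply RingOfIntegers.coe_injective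
    rw [Pi.zero_apply, map_zero]
    exact congrFun h1 i
  obtain ⟨q, hq⟩ : ∃ q, q = Ideal.absNorm v₀.asIdeal := ⟨_, rfl⟩
  obtain ⟨M, hM⟩ : ∃ M, M = q ^ n := ⟨_, rfl⟩
  obtain ⟨CO, hCO⟩ : ∃ CO : Finset (Fin n → 𝓞 (AlgebraicClosure K)), CO = C.image fun c => ι ∘ c := ⟨_, rfl⟩
  have hCO0 : ∀ c ∈ CO, c ≠ 0 := by
    intro c hc
    rw [hCO, Finset.mem_image] at hc
    obtain ⟨c', hc', rfl⟩ := hc
    intro h
    apply hC c' hc'
    funext i
    apply hιinj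
    rw [Pi.zero_apply, map_zero]
    exact congrFun h i
  obtain ⟨T, DT, hDT, hT1, hT2⟩ := iter_step hSTEP hGOOD hd FO hFOh hzO CO hCO0 (M + 1)
  -- the field of the coordinates
  obtain ⟨S, hS⟩ : ∃ S : Finset (AlgebraicClosure K),
      S = T.biUnion fun t => Finset.univ.image fun i => (t i : AlgebraicClosure K) := ⟨_, rfl⟩
  have hSint : ∀ x ∈ (S : Set (AlgebraicClosure K)), IsIntegral K x := fun x _ =>
    Algebra.IsIntegral.isIntegral x
  have hfdS : FiniteDimensional K (IntermediateField.adjoin K (S : Set (AlgebraicClosure K))) :=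
    IntermediateField.finiteDimensional_adjoin hSint
  let L : IntermediateField K (AlgebraicClosure K) := IntermediateField.normalClosure K
    (IntermediateField.adjoin K (S : Set (AlgebraicClosure K))) (AlgebraicClosure K)
  have hL1 : FiniteDimensional K L := normalClosure.is_finiteDimensional K _ _
  have hL2 : Normal K L := normalClosure.normal K _ _
  have hTL : ∀ t ∈ T, ∀ i, (t i : AlgebraicClosure K) ∈ L := by
    intro t ht i
    have h1 : (t i : AlgebraicClosure K) ∈ IntermediateField.adjoin K (S : Set (AlgebraicClosure K)) := by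
      apply IntermediateField.subset_adjoin
      rw [hS, Finset.mem_coe, Finset.mem_biUnion]
      exact ⟨t, ht, Finset.mem_image.2 ⟨i, Finset.mem_univ _, rfl⟩⟩
    exact IntermediateField.le_normalClosure _ h1
  obtain ⟨σ, hσ⟩ := claimA hFRB hENT hd F hF C v₀ hv₀ (by rw [← hι, ← hFO]; exact h0) L
  rw [← hι, ← hFO, ← hq] at hσ
  -- the conjugate vectors
  have hconj : ∀ t ∈ T, ∃ (tL : Fin n → L) (s : Fin n → 𝓞 (AlgebraicClosure K)),
      (∀ i, (tL i : AlgebraicClosure K) = t i) ∧ ∀ i, (s i : AlgebraicClosure K) = σ (tL i) := by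
    intro t ht
    refine ⟨fun i => ⟨t i, hTL t ht i⟩, ?_⟩
    have h1 : ∀ i, ∃ s : 𝓞 (AlgebraicClosure K), (s : AlgebraicClosure K) = σ ⟨t i, hTL t ht i⟩ := by
      intro i
      have h2 : IsIntegral ℤ (t i : AlgebraicClosure K) := (t i).isIntegral_coe
      have h3 : IsIntegral ℤ (⟨t i, hTL t ht i⟩ : L) := by
        rw [← isIntegral_algebraMap_iff (B := AlgebraicClosure K) (algebraMap L (AlgebraicClosure K)).injective]
        exact h2
      have h4 : IsIntegral ℤ (σ ⟨t i, hTL t ht i⟩) := h3.map (σ : L →+* L).toIntAlgHom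
      have h5 : IsIntegral ℤ ((σ ⟨t i, hTL t ht i⟩ : L) : AlgebraicClosure K) :=
        h4.map (algebraMap L (AlgebraicClosure K)).toIntAlgHom
      exact ⟨⟨_, h5⟩, rfl⟩
    choose s hs using h1
    exact ⟨s, fun i => rfl, hs⟩
  choose! tL s htL hs using hconj
  -- the excluded primes
  obtain ⟨D1, hD1, hg⟩ := hGOOD (AlgebraicClosure K) n FO hzO
  obtain ⟨D2, hD2, hgσ⟩ := exists_common T (fun t D => ∀ (k : Type) [Field k]
      (φ : 𝓞 (AlgebraicClosure K) →+* k), (D : k) ≠ 0 → ¬ Par (s t) t → ¬ Par (φ ∘ s t) (φ ∘ t))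
      (fun t D D' hdvd h k _ φ hk => h k φ (cast_ne_of_dvd hdvd hk))
      (fun t _ => by
        by_cases h : Par (s t) t
        · exact ⟨1, one_ne_zero, fun k _ φ _ h' => absurd h h'⟩
        · obtain ⟨D, hD, h'⟩ := npar_vec _ _ h
          exact ⟨D, hD, fun k _ φ hk _ => h' k φ hk⟩)
  obtain ⟨D3, hD3, hgγ⟩ := nz_vec (ι ∘ γ) (by
    intro h
    apply hγ
    funext i
    apply hιinj
    rw [Pi.zero_apply, map_zero]
    exact congrFun h i)
  obtain ⟨D4, hD4, hgc⟩ := exists_common C (fun c D => ∀ (k : Type) [Field k]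
      (φ : 𝓞 (AlgebraicClosure K) →+* k), (D : k) ≠ 0 → φ ∘ (ι ∘ c) ≠ 0)
      (fun t D D' hdvd h k _ φ hk => h k φ (cast_ne_of_dvd hdvd hk))
      (fun c hc => nz_vec (ι ∘ c) (by
        intro h
        apply hC c hc
        funext i
        apply hιinj
        rw [Pi.zero_apply, map_zero]
        exact congrFun h i))
  obtain ⟨D5, hD5, hgm⟩ := exists_common (Finset.range (M + 1) ×ˢ C) (fun p D => ∀ (k : Type) [Field k]
      (φ : 𝓞 (AlgebraicClosure K) →+* k), (D : k) ≠ 0 → ¬ Par (φ ∘ (ι ∘ (ev F)^[p.1] γ)) (φ ∘ (ι ∘ p.2)))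
      (fun t D D' hdvd h k _ φ hk => h k φ (cast_ne_of_dvd hdvd hk))
      (fun p hp => npar_vec _ _ (by
        intro h
        exact hav p.1 p.2 (Finset.mem_product.1 hp).2 (par_of_map ι hιinj h)))
  obtain ⟨D, hDdef⟩ : ∃ D : ℕ, D = DT * (D1 * (D2 * (D3 * (D4 * D5)))) := ⟨_, rfl⟩
  have hD0 : D ≠ 0 := by
    rw [hDdef]
    exact mul_ne_zero hDT (mul_ne_zero hD1 (mul_ne_zero hD2 (mul_ne_zero hD3 (mul_ne_zero hD4 hD5))))
  have hdT : DT ∣ D := by rw [hDdef]; exact Dvd.intro _ rfl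
  have hd1 : D1 ∣ D := by rw [hDdef]; exact (Dvd.intro _ rfl : D1 ∣ _).trans (Dvd.intro_left _ rfl)
  have hd2 : D2 ∣ D := by
    rw [hDdef]
    exact ((Dvd.intro _ rfl : D2 ∣ D2 * (D3 * (D4 * D5))).trans (Dvd.intro_left D1 rfl)).trans
      (Dvd.intro_left DT rfl)
  have hd3 : D3 ∣ D := by
    rw [hDdef]
    exact (((Dvd.intro _ rfl : D3 ∣ D3 * (D4 * D5)).trans (Dvd.intro_left D2 rfl)).trans
      (Dvd.intro_left D1 rfl)).trans (Dvd.intro_left DT rfl)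
  have hd4 : D4 ∣ D := by
    rw [hDdef]
    exact ((((Dvd.intro _ rfl : D4 ∣ D4 * D5).trans (Dvd.intro_left D3 rfl)).trans
      (Dvd.intro_left D2 rfl)).trans (Dvd.intro_left D1 rfl)).trans (Dvd.intro_left DT rfl)
  have hd5 : D5 ∣ D := by
    rw [hDdef]
    exact ((((Dvd.intro_left _ rfl : D5 ∣ D4 * D5).trans (Dvd.intro_left D3 rfl)).trans
      (Dvd.intro_left D2 rfl)).trans (Dvd.intro_left D1 rfl)).trans (Dvd.intro_left DT rfl)
  have hbadfin : {v : HeightOneSpectrum (𝓞 K) | ((D : ℕ) : 𝓞 K) ∈ v.asIdeal}.Finite := by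
    have h1 : Ideal.span {((D : ℕ) : 𝓞 K)} ≠ 0 := by
      rw [Ideal.zero_eq_bot, Ne, Ideal.span_singleton_eq_bot]
      exact_mod_cast hD0
    refine (Ideal.finite_factors h1).subset ?_
    intro v hv
    change v.asIdeal ∣ _
    rw [Ideal.dvd_span_singleton]
    exact hv
  obtain ⟨c0, hc0, hc0'⟩ := hCHO K L σ hbadfin.toFinset
  refine ⟨c0, hc0, hc0'.mono fun X hX => hX.trans ?_⟩
  -- it is enough to prove the inclusion
  have key : ∀ v : HeightOneSpectrum (𝓞 K), (v ∉ hbadfin.toFinset ∧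
      ∃ Q : Ideal (𝓞 (AlgebraicClosure K)), Q.IsMaximal ∧
        Q.comap (algebraMap (𝓞 K) (𝓞 (AlgebraicClosure K))) = v.asIdeal ∧
        ∀ (x x' : 𝓞 (AlgebraicClosure K)) (y : L), ((x : AlgebraicClosure K)) = y →
          (x' : AlgebraicClosure K) = σ y → x' - x ^ (Ideal.absNorm v.asIdeal) ∈ Q) →
      ((∀ c ∈ C, ∃ i, c i ∉ v.asIdeal) ∧ ∀ m : ℕ, (∃ i, (ev F)^[m] γ i ∉ v.asIdeal) ∧
        ∀ c ∈ C, ¬ ParMod v.asIdeal ((ev F)^[m] γ) c) := by
    rintro v ⟨hvbad, Q, hQ, hQv, hfrob⟩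
    have hDv : ((D : ℕ) : 𝓞 K) ∉ v.asIdeal := by
      intro h
      exact hvbad (hbadfin.mem_toFinset.2 h)
    let _ : Field (𝓞 (AlgebraicClosure K) ⧸ Q) := Ideal.Quotient.field Q
    obtain ⟨φ, hφ⟩ : ∃ φ : 𝓞 (AlgebraicClosure K) →+* (𝓞 (AlgebraicClosure K) ⧸ Q),
      φ = Ideal.Quotient.mk Q := ⟨_, rfl⟩
    have hφQ : ∀ x, φ x = 0 ↔ x ∈ Q := fun x => by rw [hφ, Ideal.Quotient.eq_zero_iff_mem]
    have hkerι : RingHom.ker (φ.comp ι) = v.asIdeal := by rw [hφ, hι]; exact ker_comp v Q hQv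
    have hDk : ((D : ℕ) : 𝓞 (AlgebraicClosure K) ⧸ Q) ≠ 0 := by
      intro h
      apply hDv
      rw [← hkerι, RingHom.mem_ker, map_natCast]
      exact h
    obtain ⟨hTnz, hTlift⟩ := hT2 _ φ (cast_ne_of_dvd hdT hDk)
    have hgk := hg _ φ (cast_ne_of_dvd hd1 hDk)
    have hgσ' := fun t ht => hgσ t ht _ φ (cast_ne_of_dvd hd2 hDk)
    have hgγ' := hgγ _ φ (cast_ne_of_dvd hd3 hDk)
    have hgc' := fun c hc => hgc c hc _ φ (cast_ne_of_dvd hd4 hDk)
    have hgm' := fun p hp => hgm p hp _ φ (cast_ne_of_dvd hd5 hDk)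
    obtain ⟨fr, hfr, hfix, hq2⟩ := frob_hom v (φ.comp ι) hkerι
    obtain ⟨r, hr⟩ : ∃ r, r = Ideal.absNorm v.asIdeal := ⟨_, rfl⟩
    rw [← hr] at hfrob hfr hfix hq2
    have hFk : mapF φ FO = mapF (φ.comp ι) F := by rw [hFO, mapF_mapF]
    have hkh : ∀ i, (mapF φ FO i).IsHomogeneous d := hom_mapF φ hFOh
    have hit : ∀ m, φ ∘ (ι ∘ (ev F)^[m] γ) = (ev (mapF φ FO))^[m] (φ ∘ (ι ∘ γ)) := by
      intro m
      rw [← ev_mapF_iter ι, ← hFO, ← ev_mapF_iter φ]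
    have hne : ∀ m, φ ∘ (ι ∘ (ev F)^[m] γ) ≠ 0 := by
      intro m
      rw [hit]
      exact iter_ne_zero hgk hgγ' m
    have hmem : ∀ x : Fin n → 𝓞 K, φ ∘ (ι ∘ x) ≠ 0 → ∃ i, x i ∉ v.asIdeal := by
      intro x hx
      obtain ⟨i, hi⟩ := Function.ne_iff.1 hx
      refine ⟨i, fun h => hi ?_⟩
      rw [← hkerι, RingHom.mem_ker] at h
      exact h
    have hpm : ∀ x y : Fin n → 𝓞 K, ParMod v.asIdeal x y ↔ Par (φ ∘ (ι ∘ x)) (φ ∘ (ι ∘ y)) := by
      intro x y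
      rw [← hkerι, ← par_map_iff]
      rfl
    refine ⟨fun c hc => hmem c (hgc' c hc), fun m => ⟨hmem _ (hne m), ?_⟩⟩
    intro c hc hcm
    have hex : ∃ m, ∃ c ∈ C, ParMod v.asIdeal ((ev F)^[m] γ) c := ⟨m, c, hc, hcm⟩
    obtain ⟨m, hm, hmin⟩ : ∃ m, (∃ c ∈ C, ParMod v.asIdeal ((ev F)^[m] γ) c) ∧
        ∀ m' < m, ¬ ∃ c ∈ C, ParMod v.asIdeal ((ev F)^[m'] γ) c :=
      ⟨Nat.find hex, Nat.find_spec hex, fun m' hm' => Nat.find_min hex hm'⟩
    obtain ⟨c, hc, hcm⟩ := hm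
    rw [hpm] at hcm
    rcases Nat.lt_or_ge m (M + 1) with hlt | hge
    · exact hgm' (m, c) (Finset.mem_product.2 ⟨Finset.mem_range.2 hlt, hc⟩) hcm
    · obtain ⟨m', rfl⟩ : ∃ m', m = M + 1 + m' := ⟨m - (M + 1), by omega⟩
      obtain ⟨z, hzdef⟩ : ∃ z, z = φ ∘ (ι ∘ (ev F)^[m'] γ) := ⟨_, rfl⟩
      have hz0 : z ≠ 0 := by rw [hzdef]; exact hne m'
      have hz1 : (ev (mapF φ FO))^[M + 1] z = φ ∘ (ι ∘ (ev F)^[M + 1 + m'] γ) := by
        rw [hzdef, hit, hit, ← Function.iterate_add_apply]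
      have hz2 : (ev (mapF φ FO))^[M] z = φ ∘ (ι ∘ (ev F)^[M + m'] γ) := by
        rw [hzdef, hit, hit, ← Function.iterate_add_apply]
      rw [← hz1] at hcm
      obtain ⟨t, ht, hzt⟩ := hTlift z hz0 (ι ∘ c) (by rw [hCO]; exact Finset.mem_image_of_mem _ hc) hcm
      have ht0 := (hT1 t ht).1
      have hnent : ∀ c ∈ C, ¬ Par ((ev FO)^[M] t) (ι ∘ c) := by
        intro c' hc' hpar
        apply hmin (M + m') (by omega)
        refine ⟨c', hc', ?_⟩
        rw [hpm, ← hz2]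
        refine (hzt.iter hd hkh M).trans ?_ (iter_ne_zero hgk (hTnz t ht) M)
        rw [ev_mapF_iter]
        exact hpar.map φ
      have hent : ∃ c ∈ C, Par ((ev FO)^[M + 1] t) (ι ∘ c) := by
        obtain ⟨w, hw, hwp⟩ := (hT1 t ht).2
        rw [hCO, Finset.mem_image] at hw
        obtain ⟨c', hc', rfl⟩ := hw
        exact ⟨c', hc', hwp⟩
      have hnp := hσ t (tL t) (htL t ht) ht0 M (by omega) hent hnent
      have hnp' : ¬ Par (s t) t := by
        intro h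
        apply hnp
        intro i j
        have h1 := h i j
        apply Subtype.coe_injective
        have h2 := congrArg (algebraMap (𝓞 (AlgebraicClosure K)) (AlgebraicClosure K)) h1
        rw [map_mul, map_mul] at h2
        have e1 := hs t ht i
        have e2 := hs t ht j
        have e3 := htL t ht i
        have e4 := htL t ht j
        change ((σ (tL t i) : L) : AlgebraicClosure K) * ((tL t j : L) : AlgebraicClosure K) =
          ((σ (tL t j) : L) : AlgebraicClosure K) * ((tL t i : L) : AlgebraicClosure K)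
        rw [← e1, ← e2, e3, e4]
        exact h2
      apply hgσ' t ht hnp'
      -- the Frobenius automorphism fixes the reduction of `t`
      have hzfix : ∀ i, z i ^ r = z i := by
        intro i
        rw [hzdef]
        exact hfix _
      have hst : ∀ i, φ (s t i) = φ (t i) ^ r := by
        intro i
        have h1 := (hφQ _).2 (hfrob (t i) (s t i) (tL t i) (htL t ht i).symm (hs t ht i))
        rw [map_sub, map_pow, sub_eq_zero] at h1
        exact h1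
      have hzs : Par z (φ ∘ s t) := by
        intro i j
        rw [Function.comp_apply, Function.comp_apply, hst, hst, ← hzfix i, ← hzfix j, ← mul_pow, ← mul_pow]
        have := hzt i j
        rw [Function.comp_apply, Function.comp_apply] at this
        rw [this]
      exact hzs.symm.trans hzt hz0
  have hfin : Finite {v : HeightOneSpectrum (𝓞 K) //
      ((∀ c ∈ C, ∃ i, c i ∉ v.asIdeal) ∧ ∀ m : ℕ, (∃ i, (ev F)^[m] γ i ∉ v.asIdeal) ∧
        ∀ c ∈ C, ¬ ParMod v.asIdeal ((ev F)^[m] γ) c) ∧ Ideal.absNorm v.asIdeal ≤ X} := by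
    have h7 := Ideal.finite_setOfPred_absNorm_le (S := 𝓞 K) X
    have h8 : Finite {I : Ideal (𝓞 K) // Ideal.absNorm I ≤ X} := h7
    refine Finite.of_injective (fun v => (⟨v.1.asIdeal, v.2.2⟩ :
      {I : Ideal (𝓞 K) // Ideal.absNorm I ≤ X})) ?_
    intro v w hvw
    apply Subtype.ext
    apply HeightOneSpectrum.ext
    exact congrArg Subtype.val hvw
  refine Nat.cast_le.2 (Nat.card_le_card_of_injective (fun v => ⟨v.1, key v.1 v.2.1, v.2.2⟩) ?_)
  intro v w hvw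
  apply Subtype.ext
  exact congrArg (fun x => x.1) hvw

end core

end Pool.Agent.T4h89.OM
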