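import Pool.Agent.T4h89.OM.Lem

set_option autoImplicit false

open NumberField IsDedekindDomain Filter

namespace Pool.Agent.T4h89.OM

theorem t_CRIT (h : S_CORE) : S_CRIT := by
  intro K _ _ n d hd F hF h0 γ₁ γ₂ hγ₁ hγ₂ hav v₀ hgood hγ₂v hper
  have hcore := h K n d hd F hF h0 {γ₂} (by simpa using hγ₂) v₀ ?_ γ₁ hγ₁ (by
    intro m c hc
    rw [Finset.mem_singleton.1 hc]
    exact hav m)
  · obtain ⟨c, hc, hev⟩ := hcore
    refine ⟨c, hc, ?_⟩
    convert hev using 6 with X v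
    simp
  · intro Q hQ hQv
    refine ⟨hgood Q hQ hQv, ?_⟩
    intro a ha M hM1 hM2 j hj c hc hcon
    rw [Finset.mem_singleton.1 hc] at hcon
    obtain ⟨c', hc', hM1⟩ := hM1
    rw [Finset.mem_singleton.1 hc'] at hM1
    -- the residue field
    haveI := hQ
    let k := 𝓞 (AlgebraicClosure K) ⧸ Q
    let π : 𝓞 (AlgebraicClosure K) →+* k := Ideal.Quotient.mk Q
    let ι : 𝓞 K →+* 𝓞 (AlgebraicClosure K) := algebraMap (𝓞 K) (𝓞 (AlgebraicClosure K))
    let G := mapF ι F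
    have hG : ∀ i, (G i).IsHomogeneous d := hom_mapF ι hF
    have hGk : ∀ i, (mapF π G i).IsHomogeneous d := hom_mapF π hG
    have hz : ∀ z : Fin n → k, ev (mapF π G) z = 0 → z = 0 := by
      intro z hz
      choose z' hz' using fun i => Ideal.Quotient.mk_surjective (z i)
      have e : z = π ∘ z' := funext fun i => (hz' i).symm
      rw [e, ev_mapF] at hz
      have := hgood Q hQ hQv z' (fun i => by
        have := congrFun hz i
        exact Ideal.Quotient.eq_zero_iff_mem.1 this)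
      rw [e]
      funext i
      exact Ideal.Quotient.eq_zero_iff_mem.2 (this i)
    have hπ : ∀ (x y : Fin n → 𝓞 (AlgebraicClosure K)), ParMod Q x y ↔ Par (π ∘ x) (π ∘ y) := by
      intro x y
      rw [par_map_iff, Ideal.mk_ker]
    rw [hπ] at hcon
    -- nonzero vectors
    have ha' : π ∘ a ≠ 0 := by
      obtain ⟨i, hi⟩ := ha
      intro h0
      exact hi (Ideal.Quotient.eq_zero_iff_mem.1 (congrFun h0 i))
    have hg' : π ∘ (ι ∘ γ₂) ≠ 0 := by
      obtain ⟨i, hi⟩ := hγ₂v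
      intro h0
      have h1 : ι (γ₂ i) ∈ Q := Ideal.Quotient.eq_zero_iff_mem.1 (congrFun h0 i)
      apply hi
      rw [← hQv]
      exact h1
    have hit : ∀ (m : ℕ) (x : Fin n → 𝓞 (AlgebraicClosure K)),
        π ∘ ((ev G)^[m] x) = (ev (mapF π G))^[m] (π ∘ x) := fun m x => (ev_mapF_iter π G x m).symm
    have e1 : Par (π ∘ ((ev G)^[M + 1] a)) (π ∘ ((ev G)^[M + 1 - j] (ι ∘ γ₂))) := by
      have h2 := hcon.iter hd hGk (M + 1 - j)
      rw [← hit, ← hit, ← Function.iterate_add_apply, Nat.sub_add_cancel (by omega)] at h2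
      exact h2
    have e2 : Par (π ∘ ((ev G)^[M + 1] a)) (π ∘ (ι ∘ γ₂)) := hM1.map π
    have e3 : Par (π ∘ ((ev G)^[M + 1 - j] (ι ∘ γ₂))) (π ∘ (ι ∘ γ₂)) := by
      refine e1.symm.trans e2 ?_
      rw [hit]
      exact iter_ne_zero hz ha' _
    rw [← hπ] at e3
    apply hper (M + 1 - j) (by omega)
    intro i l
    have h3 := e3 i l
    have h4 : (ev G)^[M + 1 - j] (ι ∘ γ₂) = ι ∘ ((ev F)^[M + 1 - j] γ₂) :=
      ev_mapF_iter ι F γ₂ _
    rw [h4] at h3
    rw [← hQv, Ideal.mem_comap, map_sub, map_mul, map_mul]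
    exact h3

end Pool.Agent.T4h89.OM
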