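import Pool.Agent.T4h89.OM.Stm

/-!
# Orbits of a point avoiding another point modulo primes: lemmas on proportional vectors
-/

set_option autoImplicit false

open NumberField IsDedekindDomain Filter

noncomputable section

namespace Pool.Agent.T4h89.OM

variable {n : ℕ}

section par

variable {R : Type} [CommRing R]

lemma Par.symm {x y : Fin n → R} (h : Par x y) : Par y x := fun i j => by
  rw [mul_comm (y i), mul_comm (y j)]
  exact h j i

lemma Par.refl (x : Fin n → R) : Par x x := fun _ _ => mul_comm _ _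

lemma Par.trans [IsDomain R] {x y z : Fin n → R} (h1 : Par x y) (h2 : Par y z) (hy : y ≠ 0) : Par x z := by
  obtain ⟨k, hk⟩ := Function.ne_iff.1 hy
  simp only [Pi.zero_apply] at hk
  intro i j
  have e1 : y k * y k * (x i * z j) = y k * y k * (x j * z i) := by
    have a1 := h1 i k
    have a2 := h1 j k
    have b1 := h2 k j
    have b2 := h2 k i
    calc y k * y k * (x i * z j) = (x i * y k) * (y k * z j) := by ring
      _ = (x k * y i) * (y j * z k) := by rw [a1, b1]
      _ = (x k * y j) * (y i * z k) := by ring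
      _ = (x j * y k) * (y k * z i) := by rw [a2, b2]
      _ = _ := by ring
  exact mul_left_cancel₀ (mul_ne_zero hk hk) e1

lemma Par.map {S : Type} [CommRing S] (φ : R →+* S) {x y : Fin n → R} (h : Par x y) :
    Par (φ ∘ x) (φ ∘ y) := fun i j => by
  simp only [Function.comp_apply, ← map_mul, h i j]

lemma par_of_map {S : Type} [CommRing S] (φ : R →+* S) (hφ : Function.Injective φ) {x y : Fin n → R}
    (h : Par (φ ∘ x) (φ ∘ y)) : Par x y := fun i j => by
  apply hφ
  have := h i j
  simpa only [Function.comp_apply, ← map_mul] using this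

lemma par_map_iff {S : Type} [CommRing S] (φ : R →+* S) (x y : Fin n → R) :
    Par (φ ∘ x) (φ ∘ y) ↔ ParMod (RingHom.ker φ) x y := by
  unfold Par ParMod
  simp only [Function.comp_apply, RingHom.mem_ker, map_sub, map_mul, sub_eq_zero]

lemma Par.smul_left (a : R) (x : Fin n → R) : Par (a • x) x := fun i j => by
  simp only [Pi.smul_apply, smul_eq_mul]
  ring

end par

section ev

variable {R S : Type} [CommRing R] [CommRing S]

lemma ev_mapF (φ : R →+* S) (F : Fin n → MvPolynomial (Fin n) R) (x : Fin n → R) :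
    ev (mapF φ F) (φ ∘ x) = φ ∘ ev F x := by
  funext i
  change MvPolynomial.eval (φ ∘ x) (MvPolynomial.map φ (F i)) = φ (MvPolynomial.eval x (F i))
  rw [MvPolynomial.eval_map]
  have h := MvPolynomial.eval₂_comp_left φ (RingHom.id R) x (F i)
  rw [RingHom.comp_id] at h
  exact h.symm

lemma ev_mapF_iter (φ : R →+* S) (F : Fin n → MvPolynomial (Fin n) R) (x : Fin n → R) (m : ℕ) :
    (ev (mapF φ F))^[m] (φ ∘ x) = φ ∘ (ev F)^[m] x := by
  induction m with
  | zero => rfl
  | succ m ih => rw [Function.iterate_succ_apply', Function.iterate_succ_apply', ih, ev_mapF]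

lemma mapF_mapF {A : Type} [CommRing A] (φ : R →+* S) (ψ : S →+* A)
    (F : Fin n → MvPolynomial (Fin n) R) : mapF ψ (mapF φ F) = mapF (ψ.comp φ) F := by
  funext i
  exact MvPolynomial.map_map φ ψ (F i)

lemma ev_smul {d : ℕ} {F : Fin n → MvPolynomial (Fin n) R} (hF : ∀ i, (F i).IsHomogeneous d) (a : R)
    (x : Fin n → R) : ev F (a • x) = a ^ d • ev F x := by
  funext i
  change MvPolynomial.eval (a • x) (F i) = a ^ d * MvPolynomial.eval x (F i)
  rw [MvPolynomial.eval_eq', MvPolynomial.eval_eq', Finset.mul_sum]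
  refine Finset.sum_congr rfl fun m hm => ?_
  have h1 : m.degree = d := by
    have := (hF i) (MvPolynomial.mem_support_iff.1 hm)
    rw [← this, Finsupp.degree_eq_weight_one]
    rfl
  have h2 : ∏ j, (a • x) j ^ m j = a ^ d * ∏ j, x j ^ m j := by
    simp only [Pi.smul_apply, smul_eq_mul, mul_pow]
    rw [Finset.prod_mul_distrib, Finset.prod_pow_eq_pow_sum, ← h1]
    congr 2
    rw [Finsupp.degree_eq_sum]
  rw [h2]
  ring

lemma ev_zero {d : ℕ} (hd : 1 ≤ d) {F : Fin n → MvPolynomial (Fin n) R}
    (hF : ∀ i, (F i).IsHomogeneous d) : ev F 0 = 0 := by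
  have h := ev_smul hF 0 0
  rw [smul_zero, zero_pow (by omega), zero_smul] at h
  exact h

lemma Par.ev {R : Type} [CommRing R] [IsDomain R] {d : ℕ} (hd : 1 ≤ d)
    {F : Fin n → MvPolynomial (Fin n) R} (hF : ∀ i, (F i).IsHomogeneous d) {x y : Fin n → R}
    (h : Par x y) : Par (ev F x) (ev F y) := by
  by_cases hy : y = 0
  · rw [hy, ev_zero hd hF]
    intro i j
    simp
  by_cases hx : x = 0
  · rw [hx, ev_zero hd hF]
    intro i j
    simp
  obtain ⟨k, hk⟩ := Function.ne_iff.1 hy
  simp only [Pi.zero_apply] at hk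
  have hxk : x k ≠ 0 := by
    intro h0
    apply hx
    funext i
    have := h i k
    rw [h0, zero_mul] at this
    exact (mul_eq_zero.1 this).resolve_right hk
  have e : y k • x = x k • y := by
    funext i
    simp only [Pi.smul_apply, smul_eq_mul]
    rw [mul_comm, h i k]
  have e1 : y k ^ d • OM.ev F x = x k ^ d • OM.ev F y := by
    rw [← ev_smul hF, ← ev_smul hF, e]
  intro i j
  have e2 := congrFun e1 i
  have e3 := congrFun e1 j
  simp only [Pi.smul_apply, smul_eq_mul] at e2 e3
  have h3 : (y k ^ d * x k ^ d) * (OM.ev F x i * OM.ev F y j) = (y k ^ d * x k ^ d) * (OM.ev F x j * OM.ev F y i) := by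
    calc (y k ^ d * x k ^ d) * (OM.ev F x i * OM.ev F y j)
        = (y k ^ d * OM.ev F x i) * (x k ^ d * OM.ev F y j) := by ring
      _ = (x k ^ d * OM.ev F y i) * (y k ^ d * OM.ev F x j) := by rw [e2, e3]
      _ = _ := by ring
  exact mul_left_cancel₀ (mul_ne_zero (pow_ne_zero _ hk) (pow_ne_zero _ hxk)) h3

lemma Par.iter {R : Type} [CommRing R] [IsDomain R] {d : ℕ} (hd : 1 ≤ d)
    {F : Fin n → MvPolynomial (Fin n) R} (hF : ∀ i, (F i).IsHomogeneous d) {x y : Fin n → R}
    (h : Par x y) (m : ℕ) : Par ((OM.ev F)^[m] x) ((OM.ev F)^[m] y) := by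
  induction m with
  | zero => exact h
  | succ m ih =>
    rw [Function.iterate_succ_apply', Function.iterate_succ_apply']
    exact ih.ev hd hF

lemma hom_mapF (φ : R →+* S) {d : ℕ} {F : Fin n → MvPolynomial (Fin n) R}
    (hF : ∀ i, (F i).IsHomogeneous d) : ∀ i, (mapF φ F i).IsHomogeneous d :=
  fun i => (hF i).map φ

/-- iterates of nonzero vectors are nonzero if the forms have no nontrivial zero -/
lemma iter_ne_zero {F : Fin n → MvPolynomial (Fin n) R} (h0 : ∀ x, ev F x = 0 → x = 0) {x : Fin n → R}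
    (hx : x ≠ 0) (m : ℕ) : (ev F)^[m] x ≠ 0 := by
  induction m with
  | zero => exact hx
  | succ m ih =>
    rw [Function.iterate_succ_apply']
    exact fun h => ih (h0 _ h)

end ev

end Pool.Agent.T4h89.OM
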