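import Pool.Agent.T4h89.OM.Stm
import Pool.Agent.T4h89.OM.Lem

/-! OM: preperiodic, not periodic points are not periodic modulo almost all prime ideals. -/

set_option autoImplicit false

open NumberField IsDedekindDomain Filter

noncomputable section

namespace Pool.Agent.T4h89.OM

namespace SPR

variable {K : Type} [Field K] [NumberField K] {n : ℕ}

/-- the embedding of the rings of integers -/
abbrev io (K : Type) [Field K] [NumberField K] : 𝓞 K →+* 𝓞 (AlgebraicClosure K) :=
  algebraMap (𝓞 K) (𝓞 (AlgebraicClosure K))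

theorem exists_Q (v : HeightOneSpectrum (𝓞 K)) : ∃ Q : Ideal (𝓞 (AlgebraicClosure K)),
    Q.IsMaximal ∧ Q.comap (io K) = v.asIdeal := by
  have hm : v.asIdeal.IsMaximal := v.isMaximal
  refine Ideal.exists_ideal_over_maximal_of_isIntegral v.asIdeal ?_
  have : RingHom.ker (algebraMap (𝓞 K) (𝓞 (AlgebraicClosure K))) = ⊥ := by
    rw [← RingHom.injective_iff_ker_eq_bot]
    exact FaithfulSMul.algebraMap_injective _ _
  rw [this]
  exact bot_le

/-- no common zero over the ring of integers -/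
theorem no_zero {F : Fin n → MvPolynomial (Fin n) (𝓞 K)}
    (hz : ∀ x : Fin n → AlgebraicClosure K, (∀ i, MvPolynomial.aeval x (F i) = 0) → x = 0)
    (x : Fin n → 𝓞 K) (hx : ev F x = 0) : x = 0 := by
  have h1 := hz (fun i => algebraMap (𝓞 K) (AlgebraicClosure K) (x i)) (fun i => by
    have h2 : MvPolynomial.aeval (fun i => algebraMap (𝓞 K) (AlgebraicClosure K) (x i)) (F i) =
        algebraMap (𝓞 K) (AlgebraicClosure K) (MvPolynomial.eval x (F i)) :=
      MvPolynomial.aeval_algebraMap_apply _ _ _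
    rw [h2]
    have h3 : MvPolynomial.eval x (F i) = 0 := congrFun hx i
    rw [h3, map_zero])
  funext i
  have h4 := congrFun h1 i
  exact (FaithfulSMul.algebraMap_injective (𝓞 K) (AlgebraicClosure K)) (h4.trans (map_zero _).symm)

/-- iterates of vectors which are not zero modulo `v` -/
theorem good_iter {F : Fin n → MvPolynomial (Fin n) (𝓞 K)} {v : HeightOneSpectrum (𝓞 K)}
    (hg : GoodQ F v) {x : Fin n → 𝓞 K} (hx : ∃ i, x i ∉ v.asIdeal) (m : ℕ) :
    ∃ i, (ev F)^[m] x i ∉ v.asIdeal := by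
  obtain ⟨Q, hQ, hQv⟩ := exists_Q v
  induction m with
  | zero => exact hx
  | succ m ih =>
    by_contra hcon
    push Not at hcon
    obtain ⟨i, hi⟩ := ih
    apply hi
    have h1 := hg Q hQ hQv (io K ∘ (ev F)^[m] x) (fun j => by
      rw [ev_mapF]
      have := hcon j
      rw [Function.iterate_succ_apply', ← hQv] at this
      exact this) i
    rw [← hQv]
    exact h1

/-- nonzero elements are in finitely many prime ideals -/
theorem fin_mem {x : 𝓞 K} (hx : x ≠ 0) :
    {v : HeightOneSpectrum (𝓞 K) | x ∈ v.asIdeal}.Finite := by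
  have h := Ideal.finite_factors (R := 𝓞 K) (I := Ideal.span {x})
    (by rw [Ne, Ideal.zero_eq_bot, Ideal.span_singleton_eq_bot]; exact hx)
  refine h.subset fun v hv => ?_
  show v.asIdeal ∣ Ideal.span {x}
  rw [Ideal.dvd_span_singleton]
  exact hv

/-- vectors which are parallel, one of them not zero modulo `v` -/
theorem parMod_trans {v : HeightOneSpectrum (𝓞 K)} {x y z : Fin n → 𝓞 K}
    (h1 : ParMod v.asIdeal x y) (h2 : ParMod v.asIdeal y z) (hy : ∃ i, y i ∉ v.asIdeal) :
    ParMod v.asIdeal x z := by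
  have hp := v.isPrime
  have hd : IsDomain (𝓞 K ⧸ v.asIdeal) := Ideal.Quotient.isDomain _
  have hk : RingHom.ker (Ideal.Quotient.mk v.asIdeal) = v.asIdeal := Ideal.mk_ker
  have e1 := (par_map_iff (Ideal.Quotient.mk v.asIdeal) x y).2 (by rwa [hk])
  have e2 := (par_map_iff (Ideal.Quotient.mk v.asIdeal) y z).2 (by rwa [hk])
  have hy0 : (Ideal.Quotient.mk v.asIdeal) ∘ y ≠ 0 := by
    obtain ⟨i, hi⟩ := hy
    intro h
    apply hi
    have := congrFun h i
    exact Ideal.Quotient.eq_zero_iff_mem.1 this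
  have e3 := (par_map_iff (Ideal.Quotient.mk v.asIdeal) x z).1 (e1.trans e2 hy0)
  rwa [hk] at e3

theorem par_parMod (I : Ideal (𝓞 K)) {x y : Fin n → 𝓞 K} (h : Par x y) : ParMod I x y :=
  fun i j => by rw [h i j, sub_self]; exact I.zero_mem

end SPR

open SPR in
theorem t_SPR (hG : S_GDQ) : S_SPR := by
  intro K _ _ n d hd F hF hz γ hγ ⟨m0, m1, hm, hpar⟩ hnp
  classical
  obtain ⟨bad, hbad⟩ := hG K n F hz
  have hne : ∀ j, (ev F)^[j] γ ≠ 0 := fun j => iter_ne_zero (no_zero hz) hγ j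
  have hm0 : 1 ≤ m0 := by
    rcases Nat.eq_zero_or_pos m0 with h | h
    · subst h
      exact absurd ⟨m1, by omega, hpar.symm⟩ hnp
    · exact h
  -- all later points are among finitely many
  have hrep : ∀ j : ℕ, 1 ≤ j → ∃ i, 1 ≤ i ∧ i < m1 ∧ Par ((ev F)^[j] γ) ((ev F)^[i] γ) := by
    intro j
    induction j using Nat.strong_induction_on with
    | _ j ih =>
      intro hj
      by_cases hjm : j < m1
      · exact ⟨j, hj, hjm, Par.refl _⟩
      · obtain ⟨i, hi1, hi2, hi3⟩ := ih (m0 + (j - m1)) (by omega) (by omega)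
        refine ⟨i, hi1, hi2, ?_⟩
        have h1 := hpar.symm.iter hd hF (j - m1)
        rw [← Function.iterate_add_apply, ← Function.iterate_add_apply] at h1
        have e1 : j - m1 + m1 = j := by omega
        have e2 : j - m1 + m0 = m0 + (j - m1) := by omega
        rw [e1, e2] at h1
        exact h1.trans hi3 (hne _)
  -- the nonzero minors
  have hmin : ∀ i : ℕ, 1 ≤ i → ∃ a b, (ev F)^[i] γ a * γ b - (ev F)^[i] γ b * γ a ≠ 0 := by
    intro i hi
    by_contra hcon
    push Not at hcon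
    exact hnp ⟨i, hi, fun a b => sub_eq_zero.1 (hcon a b)⟩
  obtain ⟨k, hk⟩ := Function.ne_iff.1 hγ
  have hfin : ({v : HeightOneSpectrum (𝓞 K) | γ k ∈ v.asIdeal} ∪
      ⋃ i ∈ Finset.Ico 1 m1, {v : HeightOneSpectrum (𝓞 K) |
        ∀ a b, (ev F)^[i] γ a * γ b - (ev F)^[i] γ b * γ a ∈ v.asIdeal}).Finite := by
    refine (fin_mem hk).union (Set.Finite.biUnion (Finset.finite_toSet _) fun i hi => ?_)
    obtain ⟨a, b, hab⟩ := hmin i (Finset.mem_Ico.1 hi).1
    exact (fin_mem hab).subset fun v hv => hv a b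
  refine ⟨bad ∪ hfin.toFinset, fun v hv j hj hpm => ?_⟩
  rw [Finset.mem_union, not_or, Set.Finite.mem_toFinset, Set.mem_union, not_or] at hv
  obtain ⟨hv1, hv2, hv3⟩ := hv
  obtain ⟨i, hi1, hi2, hi3⟩ := hrep j hj
  apply hv3
  simp only [Set.mem_iUnion]
  refine ⟨i, Finset.mem_Ico.2 ⟨hi1, hi2⟩, ?_⟩
  exact parMod_trans (par_parMod _ hi3.symm) hpm (good_iter (hbad v hv1) ⟨k, hv2⟩ j)

end Pool.Agent.T4h89.OM
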