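import Pool.Agent.T4h89.OM.Stm
import Pool.Agent.T4h89.OM.Lem
import Pool.Agent.T4h89.OM.T_SPR

/-! OM: the case of a periodic target point. -/

set_option autoImplicit false

open NumberField IsDedekindDomain Filter

noncomputable section

namespace Pool.Agent.T4h89.OM

open Pool.Agent.K3h30.RS (PosProportion)

namespace CYC

open SPR

/-- A larger set of prime ideals has positive proportion too. -/
theorem pos_mono {F : Type} [Field F] [NumberField F]
    {P Q : HeightOneSpectrum (𝓞 F) → Prop} (h : ∀ v, P v → Q v) (hP : PosProportion P) :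
    PosProportion Q := by
  obtain ⟨c, hc, hX⟩ := hP
  refine ⟨c, hc, ?_⟩
  filter_upwards [hX] with X hX
  refine hX.trans ?_
  have hfin : {v : HeightOneSpectrum (𝓞 F) | Ideal.absNorm v.asIdeal ≤ X}.Finite := by
    refine Set.Finite.of_finite_image (f := fun w : HeightOneSpectrum (𝓞 F) => w.asIdeal)
      ((Ideal.finite_setOfPred_absNorm_le X).subset ?_) ?_
    · rintro _ ⟨w, hw, rfl⟩
      exact hw
    · intro w _ w' _ h
      exact HeightOneSpectrum.ext h
  have hfinQ : Finite {v : HeightOneSpectrum (𝓞 F) // Q v ∧ Ideal.absNorm v.asIdeal ≤ X} :=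
    (hfin.subset fun v hv => hv.2 :
      {v : HeightOneSpectrum (𝓞 F) | Q v ∧ Ideal.absNorm v.asIdeal ≤ X}.Finite).to_subtype
  have := Nat.card_le_card_of_injective
    (fun v : {v : HeightOneSpectrum (𝓞 F) // P v ∧ Ideal.absNorm v.asIdeal ≤ X} =>
      (⟨v.1, h v.1 v.2.1, v.2.2⟩ :
        {v : HeightOneSpectrum (𝓞 F) // Q v ∧ Ideal.absNorm v.asIdeal ≤ X}))
    (fun v v' hv => Subtype.ext (Subtype.mk.inj hv))
  exact_mod_cast this

section primes

variable (k : Type) [Field k] [NumberField k]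

theorem exists_over {p : ℕ} (hp : p.Prime) :
    ∃ P : HeightOneSpectrum (𝓞 k), (p : 𝓞 k) ∈ P.asIdeal := by
  have hnu : ¬ IsUnit (p : 𝓞 k) := by
    intro h
    have h1 := h.map (Algebra.norm ℤ)
    have h2 : Algebra.norm ℤ (p : 𝓞 k) = (p : ℤ) ^ Module.finrank ℤ (𝓞 k) := by
      have h5 := Algebra.norm_algebraMap (S := 𝓞 k) (p : ℤ)
      rw [← h5]
      congr 1
      simp
    rw [h2, isUnit_pow_iff (by rw [RingOfIntegers.rank]; exact Module.finrank_pos.ne')] at h1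
    exact (Nat.prime_iff_prime_int.1 hp).not_isUnit h1
  obtain ⟨M, hM, hpM⟩ := exists_max_ideal_of_mem_nonunits (mem_nonunits_iff.2 hnu)
  refine ⟨⟨M, hM.isPrime, fun h0 => ?_⟩, hpM⟩
  rw [h0, Ideal.mem_bot] at hpM
  exact hp.ne_zero (by exact_mod_cast hpM)

theorem inf_primes : Infinite (HeightOneSpectrum (𝓞 k)) := by
  choose f hf using fun p : Nat.Primes => exists_over k p.2
  refine Infinite.of_injective f fun p q hpq => ?_
  by_contra hne
  have hne' : (p : ℕ) ≠ q := fun h => hne (Subtype.ext h)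
  have hc : Nat.Coprime p q := (Nat.coprime_primes p.2 q.2).2 hne'
  have h1 := hf p
  have h2 := hf q
  rw [← hpq] at h2
  have h3 : (1 : 𝓞 k) ∈ (f p).asIdeal := by
    have hb := Nat.gcd_eq_gcd_ab (p : ℕ) (q : ℕ)
    rw [hc] at hb
    have hb' : (1 : 𝓞 k) = (((p : ℕ) : ℤ) : 𝓞 k) * ((Nat.gcdA p q : ℤ) : 𝓞 k) +
        (((q : ℕ) : ℤ) : 𝓞 k) * ((Nat.gcdB p q : ℤ) : 𝓞 k) := by
      rw [← Int.cast_mul, ← Int.cast_mul, ← Int.cast_add, ← hb]
      simp
    rw [hb']
    refine add_mem (Ideal.mul_mem_right _ _ ?_) (Ideal.mul_mem_right _ _ ?_)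
    · rw [Int.cast_natCast]; exact h1
    · rw [Int.cast_natCast]; exact h2
  exact (f p).isPrime.ne_top ((Ideal.eq_top_iff_one _).2 h3)

end primes

section om

variable {Ω : Type} [Field Ω] [CharZero Ω]

/-- nonzero algebraic integers divide nonzero natural numbers -/
theorem dvd_nat (x : 𝓞 Ω) (hx : x ≠ 0) : ∃ D : ℕ, D ≠ 0 ∧ x ∣ (D : 𝓞 Ω) := by
  have hi : IsIntegral ℤ x := IsIntegralClosure.isIntegral ℤ Ω x
  have h1 := Ideal.comap_ne_bot_of_integral_mem (R := ℤ) (I := Ideal.span {x}) hx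
    (Ideal.mem_span_singleton_self x) hi
  obtain ⟨z, hz, hz0⟩ := Submodule.exists_mem_ne_zero_of_ne_bot h1
  rw [Ideal.mem_comap, Ideal.mem_span_singleton] at hz
  refine ⟨z.natAbs, Int.natAbs_ne_zero.2 hz0, ?_⟩
  have h2 : x ∣ ((z : ℤ) : 𝓞 Ω) := by simpa using hz
  rcases Int.natAbs_eq z with h | h
  · rw [h] at h2
    simpa using h2
  · rw [h] at h2
    simpa using h2

end om

section main

variable {K : Type} [Field K] [NumberField K] {n : ℕ}

instance : Algebra.IsAlgebraic ℚ (AlgebraicClosure K) :=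
  Algebra.IsAlgebraic.trans ℚ K (AlgebraicClosure K)

theorem io_inj : Function.Injective (io K) := FaithfulSMul.algebraMap_injective _ _

/-- no common zero over the ring of all algebraic integers -/
theorem no_zero_io {F : Fin n → MvPolynomial (Fin n) (𝓞 K)}
    (hz : ∀ x : Fin n → AlgebraicClosure K, (∀ i, MvPolynomial.aeval x (F i) = 0) → x = 0)
    (x : Fin n → AlgebraicClosure K) (hx : ∀ i, MvPolynomial.aeval x (mapF (io K) F i) = 0) :
    x = 0 := by
  refine hz x fun i => ?_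
  have h1 := hx i
  rw [mapF, MvPolynomial.aeval_map_algebraMap] at h1
  exact h1

theorem ev_ne_io {F : Fin n → MvPolynomial (Fin n) (𝓞 K)}
    (hz : ∀ x : Fin n → AlgebraicClosure K, (∀ i, MvPolynomial.aeval x (F i) = 0) → x = 0)
    (x : Fin n → 𝓞 (AlgebraicClosure K)) (hx : ev (mapF (io K) F) x = 0) : x = 0 := by
  have h1 := no_zero_io hz
    (fun i => algebraMap (𝓞 (AlgebraicClosure K)) (AlgebraicClosure K) (x i)) (fun i => by
    have h2 : MvPolynomial.aeval
        (fun i => algebraMap (𝓞 (AlgebraicClosure K)) (AlgebraicClosure K) (x i))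
        (mapF (io K) F i) = algebraMap (𝓞 (AlgebraicClosure K)) (AlgebraicClosure K)
          (MvPolynomial.eval x (mapF (io K) F i)) :=
      MvPolynomial.aeval_algebraMap_apply _ _ _
    rw [h2]
    have h3 : MvPolynomial.eval x (mapF (io K) F i) = 0 := congrFun hx i
    rw [h3, map_zero])
  funext i
  have h4 := congrFun h1 i
  exact (FaithfulSMul.algebraMap_injective (𝓞 (AlgebraicClosure K)) (AlgebraicClosure K))
    (h4.trans (map_zero _).symm)

end main

end CYC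

open SPR CYC in
theorem t_CYC (hC : S_CORE) (hS : S_STEP) (hG : S_GDQ) : S_CYC := by
  intro K _ _ n d hd F hF hz γ₁ γ₂ hγ₁ hγ₂ hav ⟨m, hm, hper⟩
  classical
  have hne : ∀ j, (ev F)^[j] γ₂ ≠ 0 := fun j => iter_ne_zero (no_zero hz) hγ₂ j
  set C : Finset (Fin n → 𝓞 K) := (Finset.range m).image fun j => (ev F)^[j] γ₂ with hCdef
  have hC0 : ∀ c ∈ C, ∃ j < m, c = (ev F)^[j] γ₂ := by
    intro c hc
    obtain ⟨j, hj, rfl⟩ := Finset.mem_image.1 hc
    exact ⟨j, Finset.mem_range.1 hj, rfl⟩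
  have hCne : ∀ c ∈ C, c ≠ 0 := by
    intro c hc
    obtain ⟨j, -, rfl⟩ := hC0 c hc
    exact hne j
  have hγC : γ₂ ∈ C := Finset.mem_image.2 ⟨0, Finset.mem_range.2 hm, rfl⟩
  -- every iterate of the target is proportional to an element of `C`
  have hcl : ∀ i : ℕ, ∃ c ∈ C, Par ((ev F)^[i] γ₂) c := by
    intro i
    induction i using Nat.strong_induction_on with
    | _ i ih =>
      by_cases him : i < m
      · exact ⟨_, Finset.mem_image.2 ⟨i, Finset.mem_range.2 him, rfl⟩, Par.refl _⟩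
      · obtain ⟨c, hc, hp⟩ := ih (i - m) (by omega)
        refine ⟨c, hc, ?_⟩
        have h1 := hper.iter hd hF (i - m)
        rw [← Function.iterate_add_apply] at h1
        have e1 : i - m + m = i := by omega
        rw [e1] at h1
        exact h1.trans hp (hne _)
  -- the orbit avoids `C`
  have havC : ∀ (k : ℕ), ∀ c ∈ C, ¬ Par ((ev F)^[k] γ₁) c := by
    intro k c hc hp
    obtain ⟨j, hj, rfl⟩ := hC0 c hc
    have h1 := hp.iter hd hF (m - j)
    rw [← Function.iterate_add_apply, ← Function.iterate_add_apply] at h1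
    have e1 : m - j + j = m := by omega
    rw [e1] at h1
    exact hav _ (h1.trans hper (hne _))
  -- the finite set of points over `C`
  obtain ⟨bad, hbad⟩ := hG K n F hz
  obtain ⟨T, D, hD0, hT1, hT2⟩ := hS (AlgebraicClosure K) n d hd (mapF (io K) F)
    (hom_mapF _ hF) (no_zero_io hz) (C.image fun c => io K ∘ c) (by
      intro w hw
      obtain ⟨c, hc, rfl⟩ := Finset.mem_image.1 hw
      intro h0
      apply hCne c hc
      funext i
      exact io_inj ((congrFun h0 i).trans (map_zero _).symm))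
  -- natural numbers divisible by the minors
  have hmin : ∀ (b : Fin n → 𝓞 (AlgebraicClosure K)) (c : Fin n → 𝓞 K), ∃ E : ℕ, E ≠ 0 ∧
      (¬ Par b (io K ∘ c) → ∃ i j, (b i * io K (c j) - b j * io K (c i)) ∣
        (E : 𝓞 (AlgebraicClosure K))) := by
    intro b c
    by_cases h : Par b (io K ∘ c)
    · exact ⟨1, one_ne_zero, fun h' => absurd h h'⟩
    · have h' := h
      unfold Par at h'
      push Not at h'
      obtain ⟨i, j, hij⟩ := h'
      obtain ⟨E, hE, hdvd⟩ := dvd_nat (b i * io K (c j) - b j * io K (c i)) (sub_ne_zero.2 hij)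
      exact ⟨E, hE, fun _ => ⟨i, j, hdvd⟩⟩
  choose E hE0 hE using hmin
  obtain ⟨k0, hk0⟩ := Function.ne_iff.1 hγ₂
  have hcast : ∀ N : ℕ, N ≠ 0 → ((N : ℕ) : 𝓞 K) ≠ 0 := fun N hN => Nat.cast_ne_zero.2 hN
  have hfin : ({v : HeightOneSpectrum (𝓞 K) | γ₂ k0 ∈ v.asIdeal} ∪
      {v : HeightOneSpectrum (𝓞 K) | ((D : ℕ) : 𝓞 K) ∈ v.asIdeal} ∪ (bad : Set _) ∪
      ⋃ b ∈ T, ⋃ c ∈ C, {v : HeightOneSpectrum (𝓞 K) | ((E b c : ℕ) : 𝓞 K) ∈ v.asIdeal}).Finite := by
    refine (((fin_mem hk0).union (fin_mem (hcast D hD0))).union (Finset.finite_toSet _)).union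
      (Set.Finite.biUnion (Finset.finite_toSet _) fun b _ =>
        Set.Finite.biUnion (Finset.finite_toSet _) fun c _ => fin_mem (hcast _ (hE0 b c)))
  have hinf := inf_primes K
  obtain ⟨v₀, hv₀⟩ := hfin.infinite_compl.nonempty
  simp only [Set.mem_compl_iff, Set.mem_union, not_or, Set.mem_iUnion, not_exists] at hv₀
  obtain ⟨⟨⟨hv1, hv2⟩, hv3⟩, hv4⟩ := hv₀
  have hgd : GoodQ F v₀ := hbad v₀ hv3
  refine pos_mono ?_ (hC K n d hd F hF hz C hCne v₀ ?_ γ₁ hγ₁ havC)
  · intro v ⟨h1, h2⟩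
    exact ⟨h1 γ₂ hγC, fun j => ⟨(h2 j).1, (h2 j).2 γ₂ hγC⟩⟩
  intro Q hQ hQv
  refine ⟨hgd Q hQ hQv, ?_⟩
  intro a ha M ⟨c0, hc0, hp0⟩ hnp j hj c hc hpm
  obtain ⟨i0, hi0⟩ := ha
  set G := mapF (io K) F with hGdef
  have hGh : ∀ i, (G i).IsHomogeneous d := hom_mapF _ hF
  set u := (ev G)^[M] a with hu
  have ha0 : a ≠ 0 := by
    intro h
    apply hi0
    rw [h]
    exact Q.zero_mem
  have hu0 : u ≠ 0 := iter_ne_zero (ev_ne_io hz) ha0 M
  -- `u` is proportional to an element of `T`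
  obtain ⟨t, ht, hut⟩ : ∃ t ∈ T, Par u t := by
    have hinj : Function.Injective (algebraMap (𝓞 (AlgebraicClosure K)) (AlgebraicClosure K)) :=
      FaithfulSMul.algebraMap_injective _ _
    obtain ⟨-, h2⟩ := hT2 (AlgebraicClosure K)
      (algebraMap (𝓞 (AlgebraicClosure K)) (AlgebraicClosure K)) (Nat.cast_ne_zero.2 hD0)
    obtain ⟨t, ht, hp⟩ := h2 (algebraMap (𝓞 (AlgebraicClosure K)) (AlgebraicClosure K) ∘ u)
      (fun h => hu0 (funext fun i => hinj ((congrFun h i).trans (map_zero _).symm)))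
      (io K ∘ c0) (Finset.mem_image.2 ⟨c0, hc0, rfl⟩) (by
        rw [ev_mapF]
        rw [Function.iterate_succ_apply'] at hp0
        exact hp0.map _)
    exact ⟨t, ht, par_of_map _ hinj hp⟩
  have htC : ∀ c' ∈ C, ¬ Par t (io K ∘ c') := fun c' hc' h =>
    hnp c' hc' (hut.trans h (hT1 t ht).1)
  -- the residue field
  have hdom : IsDomain (𝓞 (AlgebraicClosure K) ⧸ Q) := (Ideal.Quotient.isDomain_iff_prime Q).2 hQ.isPrime
  set φ := Ideal.Quotient.mk Q with hφ
  have hker : RingHom.ker φ = Q := Ideal.mk_ker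
  have hiter : ∀ i, ∃ l, (ev G)^[i] a l ∉ Q := by
    intro i
    induction i with
    | zero => exact ⟨i0, hi0⟩
    | succ i ih =>
      by_contra hcon
      push Not at hcon
      obtain ⟨l, hl⟩ := ih
      apply hl
      refine hgd Q hQ hQv _ (fun l' => ?_) l
      have := hcon l'
      rwa [Function.iterate_succ_apply'] at this
  have hne0 : ∀ x : Fin n → 𝓞 (AlgebraicClosure K), (∃ l, x l ∉ Q) → φ ∘ x ≠ 0 := by
    intro x ⟨l, hl⟩ h
    apply hl
    exact Ideal.Quotient.eq_zero_iff_mem.1 (congrFun h l)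
  have hioQ : ∀ y : 𝓞 K, y ∉ v₀.asIdeal → io K y ∉ Q := by
    intro y hy h
    apply hy
    rw [← hQv]
    exact h
  have hγQ : ∀ i, φ ∘ (io K ∘ (ev F)^[i] γ₂) ≠ 0 := by
    intro i
    obtain ⟨l, hl⟩ := good_iter hgd ⟨k0, hv1⟩ i
    exact hne0 _ ⟨l, hioQ _ hl⟩
  -- apply the iterate
  obtain ⟨j', hj', rfl⟩ := hC0 c hc
  have h5 : Par (φ ∘ (ev G)^[j] a) (φ ∘ (io K ∘ (ev F)^[j'] γ₂)) := by
    rw [par_map_iff, hker]
    exact hpm
  have h6 := h5.iter hd (hom_mapF φ hGh) (M - j)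
  rw [ev_mapF_iter, ev_mapF_iter, ev_mapF_iter, ← Function.iterate_add_apply,
    ← Function.iterate_add_apply] at h6
  have e1 : M - j + j = M := by omega
  rw [e1] at h6
  obtain ⟨c', hc', hp'⟩ := hcl (M - j + j')
  have h7 : Par (φ ∘ u) (φ ∘ (io K ∘ c')) :=
    h6.trans ((hp'.map (io K)).map φ) (hγQ _)
  have h8 : Par (φ ∘ t) (φ ∘ (io K ∘ c')) :=
    (hut.map φ).symm.trans h7 (hne0 _ (hiter M))
  rw [par_map_iff, hker] at h8
  obtain ⟨i, l, hdvd⟩ := hE t c' (htC c' hc')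
  have h9 : ((E t c' : ℕ) : 𝓞 (AlgebraicClosure K)) ∈ Q := Q.mem_of_dvd hdvd (h8 i l)
  refine hv4 t ht c' hc' ?_
  show ((E t c' : ℕ) : 𝓞 K) ∈ v₀.asIdeal
  rw [← hQv, Ideal.mem_comap, map_natCast]
  exact h9

end Pool.Agent.T4h89.OM
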