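import Pool.Agent.T4h89.OM.Stm

set_option autoImplicit false

open NumberField IsDedekindDomain Filter

namespace Pool.Agent.T4h89.OM

namespace DEN

variable {K : Type} [Field K] [NumberField K]

lemma norm_card (v : HeightOneSpectrum (𝓞 K)) :
    Ideal.absNorm v.asIdeal = Nat.card (𝓞 K ⧸ v.asIdeal) := by
  rw [Ideal.absNorm_apply, Submodule.cardQuot_apply]

lemma res_char (v : HeightOneSpectrum (𝓞 K)) : ∃ p f : ℕ, p.Prime ∧ 1 ≤ f ∧
    Ideal.absNorm v.asIdeal = p ^ f ∧ (p : 𝓞 K) ∈ v.asIdeal := by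
  have : v.asIdeal.IsMaximal := v.isMaximal
  let _ : Field (𝓞 K ⧸ v.asIdeal) := Ideal.Quotient.field v.asIdeal
  have hfin : Finite (𝓞 K ⧸ v.asIdeal) := Ideal.finiteQuotientOfFreeOfNeBot _ v.ne_bot
  have : Fintype (𝓞 K ⧸ v.asIdeal) := Fintype.ofFinite _
  obtain ⟨p, hp⟩ := CharP.exists (𝓞 K ⧸ v.asIdeal)
  obtain ⟨n, hn1, hn2⟩ := FiniteField.card (𝓞 K ⧸ v.asIdeal) p
  refine ⟨p, n, hn1, n.2, ?_, ?_⟩
  · rw [norm_card, Nat.card_eq_fintype_card, hn2]
  · rw [← Ideal.Quotient.eq_zero_iff_mem, map_natCast]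
    exact CharP.cast_eq_zero _ p

variable (K) in
lemma prime_above (p : ℕ) (hp : p.Prime) (S : Finset (HeightOneSpectrum (𝓞 K)))
    (hS : ∀ v ∈ S, (p : 𝓞 K) ∈ v.asIdeal) : S.card ≤ Module.finrank ℤ (𝓞 K) := by
  classical
  have h1 : ∏ v ∈ S, v.asIdeal ∣ Ideal.span {(p : 𝓞 K)} := by
    rw [← Finset.prod_image (s := S) (g := fun v : HeightOneSpectrum (𝓞 K) => v.asIdeal)
      (f := fun I => I) (fun a _ b _ hab => HeightOneSpectrum.ext hab)]
    apply Finset.prod_primes_dvd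
    · intro I hI
      obtain ⟨v, _, rfl⟩ := Finset.mem_image.1 hI
      exact v.prime
    · intro I hI
      obtain ⟨v, hv1, rfl⟩ := Finset.mem_image.1 hI
      rw [Ideal.dvd_span_singleton]
      exact hS v hv1
  have h2 : ∏ v ∈ S, Ideal.absNorm v.asIdeal ∣ Ideal.absNorm (Ideal.span {(p : 𝓞 K)}) := by
    rw [← map_prod]
    exact Ideal.absNorm_dvd_absNorm_of_le (Ideal.le_of_dvd h1)
  have h3 : Ideal.absNorm (Ideal.span {(p : 𝓞 K)}) = p ^ Module.finrank ℤ (𝓞 K) := by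
    rw [Ideal.absNorm_span_singleton, ← map_natCast (algebraMap ℤ (𝓞 K)) p,
      Algebra.norm_algebraMap, Int.natAbs_pow, Int.natAbs_natCast]
  have h4 : ∀ v ∈ S, p ≤ Ideal.absNorm v.asIdeal := by
    intro v hv1
    obtain ⟨q, f, hq, hf, hqf, hqv⟩ := res_char v
    have hpq : q = p := by
      by_contra hne
      have hcop : Nat.Coprime q p := (Nat.coprime_primes hq hp).2 hne
      have h5 := Nat.Coprime.isCoprime hcop
      obtain ⟨a, b, hab⟩ := h5
      have h6 : (1 : 𝓞 K) ∈ v.asIdeal := by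
        have h7 : ((a * q + b * p : ℤ) : 𝓞 K) = 1 := by rw [hab, Int.cast_one]
        rw [← h7]
        push_cast
        exact v.asIdeal.add_mem (v.asIdeal.mul_mem_left _ hqv) (v.asIdeal.mul_mem_left _ (hS v hv1))
      exact v.isPrime.ne_top ((Ideal.eq_top_iff_one _).2 h6)
    rw [hqf, hpq]
    exact Nat.le_self_pow (by omega) p
  have h5 : p ^ S.card ≤ ∏ v ∈ S, Ideal.absNorm v.asIdeal := by
    rw [← Finset.prod_const]
    exact Finset.prod_le_prod' h4
  have h6 : p ^ S.card ≤ p ^ Module.finrank ℤ (𝓞 K) := by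
    rw [← h3]
    refine h5.trans (Nat.le_of_dvd ?_ h2)
    rw [h3]
    exact pow_pos hp.pos _
  exact (Nat.pow_le_pow_iff_right hp.one_lt).1 h6

variable (K) in
lemma finite_le (T : ℕ) : {v : HeightOneSpectrum (𝓞 K) | Ideal.absNorm v.asIdeal ≤ T}.Finite := by
  have h := Ideal.finite_setOfPred_absNorm_le (S := 𝓞 K) T
  refine Set.Finite.of_finite_image (f := fun v : HeightOneSpectrum (𝓞 K) => v.asIdeal)
    (h.subset ?_) ?_
  · rintro I ⟨v, hv1, rfl⟩
    exact hv1
  · intro a _ b _ hab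
    exact HeightOneSpectrum.ext hab

variable (K) in
lemma card_le (T : ℕ) : Nat.card {v : HeightOneSpectrum (𝓞 K) // Ideal.absNorm v.asIdeal ≤ T} ≤
    Module.finrank ℤ (𝓞 K) * Nat.primeCounting T := by
  classical
  choose P f hP hf hPf hPv using res_char (K := K)
  set V := (finite_le K T).toFinset with hV
  have hmem : ∀ v, v ∈ V ↔ Ideal.absNorm v.asIdeal ≤ T := fun v => by
    rw [hV, Set.Finite.mem_toFinset]; exact Iff.rfl
  have h0 : Nat.card {v : HeightOneSpectrum (𝓞 K) // Ideal.absNorm v.asIdeal ≤ T} = V.card := by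
    rw [Nat.subtype_card V hmem]
  rw [h0]
  have h1 : ∀ v ∈ V, P v ∈ (Finset.range (T + 1)).filter Nat.Prime := by
    intro v hv
    rw [hmem] at hv
    rw [Finset.mem_filter, Finset.mem_range, Nat.lt_succ_iff]
    refine ⟨le_trans ?_ hv, hP v⟩
    rw [hPf v]
    exact Nat.le_self_pow (by have := hf v; omega) _
  have h2 := Finset.card_le_mul_card_image_of_maps_to h1 (Module.finrank ℤ (𝓞 K)) (fun p hp => by
    refine prime_above K p (Finset.mem_filter.1 hp).2 _ fun v hv1 => ?_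
    rw [Finset.mem_filter] at hv1
    rw [← hv1.2]
    exact hPv v)
  refine h2.trans (le_of_eq ?_)
  rw [Nat.primeCounting, Nat.primeCounting', Nat.count_eq_card_filter_range]

end DEN

theorem t_DEN : S_DEN := by
  intro K _ _ P hP
  obtain ⟨c, hc, h⟩ := hP
  have hr : (0 : ℝ) < Module.finrank ℤ (𝓞 K) := by exact_mod_cast Module.finrank_pos
  refine ⟨c / Module.finrank ℤ (𝓞 K), by positivity, ?_⟩
  filter_upwards [h] with X hX
  refine le_trans ?_ hX
  have h1 : (Nat.card {v : HeightOneSpectrum (𝓞 K) // Ideal.absNorm v.asIdeal ≤ X} : ℝ) ≤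
      Module.finrank ℤ (𝓞 K) * Nat.primeCounting X := by
    exact_mod_cast DEN.card_le K X
  calc c / Module.finrank ℤ (𝓞 K) *
        (Nat.card {v : HeightOneSpectrum (𝓞 K) // Ideal.absNorm v.asIdeal ≤ X} : ℝ)
      ≤ c / Module.finrank ℤ (𝓞 K) * (Module.finrank ℤ (𝓞 K) * Nat.primeCounting X) := by
        gcongr
    _ = c * Nat.primeCounting X := by field_simp

end Pool.Agent.T4h89.OM
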