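import Pool.Agent.T4h89.OM.Stm

/-! Task DNM. -/

set_option autoImplicit false

open NumberField IsDedekindDomain

namespace Pool.Agent.T4h89.OM

theorem t_DNM : S_DNM := by
  intro K _ _ v ι _ x hx
  classical
  have := Fintype.ofFinite ι
  have h1 : ∀ i, ∃ (D y : 𝓞 K), D ∉ v.asIdeal ∧ (y : K) = D * x i := by
    intro i
    obtain ⟨r, s, h⟩ := v.exists_primeCompl_mul_eq_of_integer (x i) (hx i)
    refine ⟨s, r, s.2, ?_⟩
    rw [mul_comm]
    exact h.symm
  choose D y hD hy using h1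
  refine ⟨∏ i, D i, fun i => (∏ j ∈ Finset.univ.erase i, D j) * y i, ?_, fun i => ?_⟩
  · intro h
    obtain ⟨i, -, hi⟩ := (v.isPrime.prod_mem_iff).1 h
    exact hD i hi
  · rw [← Finset.prod_erase_mul _ _ (Finset.mem_univ i)]
    have h2 : algebraMap (𝓞 K) K (y i) = algebraMap (𝓞 K) K (D i) * x i := hy i
    change algebraMap (𝓞 K) K (_ * _) = algebraMap (𝓞 K) K (_ * _) * x i
    rw [map_mul, map_mul, h2]
    ring

end Pool.Agent.T4h89.OM
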