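import Pool.Agent.T4h89.OM.Stm

/-! Task ENT. -/

set_option autoImplicit false

namespace Pool.Agent.T4h89.OM

theorem t_ENT : S_ENT := by
  intro V _ g W y M hM hW
  classical
  have := Fintype.ofFinite V
  rw [Nat.card_eq_fintype_card] at hM
  obtain ⟨i, j, hne, he⟩ := Fintype.exists_ne_map_eq_of_card_lt
    (fun k : Fin (M + 1) => g^[(k : ℕ)] y) (by rw [Fintype.card_fin]; omega)
  have key : ∀ a b : ℕ, a < b → b ≤ M → g^[a] y = g^[b] y → ∃ k < M, g^[k] y ∈ W := by
    intro a b hab hb h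
    refine ⟨M - b + a, by omega, ?_⟩
    rw [Function.iterate_add_apply, h, ← Function.iterate_add_apply, Nat.sub_add_cancel hb]
    exact hW
  rcases lt_or_gt_of_ne hne with h | h
  · exact key i j h (Nat.lt_succ_iff.1 j.2) he
  · exact key j i h (Nat.lt_succ_iff.1 i.2) he.symm

end Pool.Agent.T4h89.OM
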