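import Pool.Agent.T4h89.OM.Lem

/-!
# Orbits of a point avoiding another point modulo primes: Frobenius automorphisms
-/

set_option autoImplicit false

open NumberField IsDedekindDomain Filter

noncomputable section

namespace Pool.Agent.T4h89.OM

namespace FRB

/-- existence of the Frobenius automorphism -/
theorem exists_frob (F L : Type) [Field F] [NumberField F] [Field L] [NumberField L] [Algebra F L]
    [IsGalois F L] (t : HeightOneSpectrum (𝓞 F)) (P : Ideal (𝓞 L)) [P.IsPrime] (hP0 : P ≠ ⊥)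
    (hP : P.comap (algebraMap (𝓞 F) (𝓞 L)) = t.asIdeal) :
    ∃ Φ : L ≃ₐ[F] L, ∀ x : 𝓞 L, ∃ x' : 𝓞 L, (x' : L) = Φ (x : L) ∧
      x' - x ^ (Ideal.absNorm t.asIdeal) ∈ P := by
  have hG : IsGaloisGroup (L ≃ₐ[F] L) (𝓞 F) (𝓞 L) := inferInstance
  have hs : SMulCommClass (L ≃ₐ[F] L) (𝓞 F) (𝓞 L) := hG.commutes
  have hinv : Algebra.IsInvariant (𝓞 F) (𝓞 L) (L ≃ₐ[F] L) := hG.isInvariant
  have hfin : Finite (𝓞 L ⧸ P) := Ideal.finiteQuotientOfFreeOfNeBot P hP0
  obtain ⟨Φ, hΦ⟩ := IsArithFrobAt.exists_of_isInvariant (𝓞 F) (L ≃ₐ[F] L) P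
  refine ⟨Φ, fun x => ⟨Φ • x, rfl, ?_⟩⟩
  have h1 : Φ • x - x ^ Nat.card (𝓞 F ⧸ P.under (𝓞 F)) ∈ P := hΦ x
  have h2 : P.under (𝓞 F) = t.asIdeal := hP
  rw [h2, ← Submodule.cardQuot_apply, ← Ideal.absNorm_apply] at h1
  exact h1

end FRB

open FRB in
theorem t_FRB (hDNM : S_DNM) : S_FRB := by
  classical
  intro K _ _ L _ _ v
  have hLnf : NumberField L := NumberField.of_module_finite K L
  have hGal : IsGalois K L := { }
  have hint : Algebra.IsIntegral (𝓞 K) (𝓞 (AlgebraicClosure K)) := Algebra.IsIntegral.tower_top ℤ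
  have hvmax : v.asIdeal.IsMaximal := v.isMaximal
  have hst : IsScalarTower (𝓞 K) (𝓞 L) (𝓞 (AlgebraicClosure K)) :=
    IsScalarTower.of_algebraMap_eq fun x => RingOfIntegers.ext rfl
  have hinjL : Function.Injective (algebraMap (𝓞 L) (𝓞 (AlgebraicClosure K))) := by
    intro x y hxy
    apply RingOfIntegers.ext
    have h1 := congrArg (fun z : 𝓞 (AlgebraicClosure K) => (z : AlgebraicClosure K)) hxy
    exact Subtype.ext h1
  have hinjK : Function.Injective (algebraMap (𝓞 K) (𝓞 (AlgebraicClosure K))) := by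
    intro x y hxy
    apply RingOfIntegers.ext
    have h1 := congrArg (fun z : 𝓞 (AlgebraicClosure K) => (z : AlgebraicClosure K)) hxy
    exact (algebraMap K (AlgebraicClosure K)).injective h1
  obtain ⟨Q, hQmax, hQ⟩ := Ideal.exists_ideal_over_maximal_of_isIntegral
    (S := 𝓞 (AlgebraicClosure K)) v.asIdeal (by
      rw [(RingHom.injective_iff_ker_eq_bot _).1 hinjK]
      exact bot_le)
  set P : Ideal (𝓞 L) := Q.comap (algebraMap (𝓞 L) (𝓞 (AlgebraicClosure K))) with hP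
  have hPprime : P.IsPrime := Ideal.comap_isPrime _ _
  have hPv : P.comap (algebraMap (𝓞 K) (𝓞 L)) = v.asIdeal := by
    rw [hP, Ideal.comap_comap, ← IsScalarTower.algebraMap_eq, hQ]
  have hP0 : P ≠ ⊥ := by
    intro h
    apply v.ne_bot
    rw [← hPv, h]
    rw [Ideal.comap_bot_of_injective]
    intro x y hxy
    apply hinjK
    rw [IsScalarTower.algebraMap_apply (𝓞 K) (𝓞 L), hxy, ← IsScalarTower.algebraMap_apply]
  obtain ⟨σ, hσ⟩ := exists_frob K L v P hP0 hPv
  let p : HeightOneSpectrum (𝓞 L) := ⟨P, hPprime, hP0⟩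
  refine ⟨σ, Q, hQmax, hQ, ?_⟩
  intro n t ht hpar
  obtain ⟨j0, hj0⟩ := Function.ne_iff.1 ht
  have : Nonempty (Fin n) := ⟨j0⟩
  obtain ⟨i0, hi0⟩ := Finite.exists_max (fun i => p.valuation L (t i))
  have hti0 : t i0 ≠ 0 := by
    intro h
    have h1 := hi0 j0
    rw [h, map_zero] at h1
    exact hj0 ((p.valuation L).zero_iff.1 (le_antisymm h1 zero_le))
  have hσi0 : σ (t i0) ≠ 0 := (map_ne_zero_iff _ σ.injective).2 hti0
  set s : Fin n → L := fun i => t i / t i0 with hs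
  have hs1 : ∀ i, p.valuation L (s i) ≤ 1 := by
    intro i
    rw [hs]
    simp only [map_div₀]
    exact (div_le_one₀ (zero_lt_iff.2 ((p.valuation L).ne_zero_iff.2 hti0))).2 (hi0 i)
  have hs2 : ∀ i, σ (s i) = s i := by
    intro i
    rw [hs]
    simp only [map_div₀]
    rw [div_eq_div_iff hσi0 hti0]
    have := hpar i i0
    simp only at this
    rw [this, mul_comm]
  obtain ⟨D, y', hD, hy'⟩ := hDNM L p (Fin n) s hs1
  have hDQ : algebraMap (𝓞 L) (𝓞 (AlgebraicClosure K)) D ∉ Q := fun h => hD h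
  obtain ⟨D', hD', hD''⟩ := hσ D
  have hkey : ∀ i, D ^ (Ideal.absNorm v.asIdeal) * y' i - D * y' i ^ (Ideal.absNorm v.asIdeal) ∈ P := by
    intro i
    obtain ⟨z, hz, hz'⟩ := hσ (y' i)
    have e1 : D' * y' i = D * z := by
      apply RingOfIntegers.ext
      change (D' : L) * (y' i : L) = (D : L) * (z : L)
      rw [hD', hz, hy' i, map_mul, hs2]
      ring
    have e2 : D ^ (Ideal.absNorm v.asIdeal) * y' i - D * y' i ^ (Ideal.absNorm v.asIdeal) =
        D * (z - y' i ^ (Ideal.absNorm v.asIdeal)) - y' i * (D' - D ^ (Ideal.absNorm v.asIdeal)) := by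
      linear_combination e1
    rw [e2]
    exact P.sub_mem (P.mul_mem_left _ hz') (P.mul_mem_left _ hD'')
  let _ : Field (𝓞 (AlgebraicClosure K) ⧸ Q) := Ideal.Quotient.field Q
  set ψ : 𝓞 L →+* 𝓞 (AlgebraicClosure K) := algebraMap (𝓞 L) (𝓞 (AlgebraicClosure K)) with hψ
  set μ : 𝓞 (AlgebraicClosure K) →+* 𝓞 (AlgebraicClosure K) ⧸ Q := Ideal.Quotient.mk Q with hμ
  have hμ0 : ∀ x, μ x = 0 ↔ x ∈ Q := fun x => Ideal.Quotient.eq_zero_iff_mem
  have hd0 : μ (ψ D) ≠ 0 := fun h => hDQ ((hμ0 _).1 h)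
  have hkey' : ∀ i, μ (ψ D) ^ (Ideal.absNorm v.asIdeal) * μ (ψ (y' i)) =
      μ (ψ D) * μ (ψ (y' i)) ^ (Ideal.absNorm v.asIdeal) := by
    intro i
    have h1 : ψ (D ^ (Ideal.absNorm v.asIdeal) * y' i - D * y' i ^ (Ideal.absNorm v.asIdeal)) ∈ Q :=
      hkey i
    rw [← hμ0] at h1
    simp only [map_sub, map_mul, map_pow] at h1
    exact sub_eq_zero.1 h1
  have hlift : ∀ i, ∃ y : 𝓞 (AlgebraicClosure K), μ y = μ (ψ (y' i)) / μ (ψ D) := fun i =>
    Ideal.Quotient.mk_surjective _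
  choose y hy using hlift
  have hyi0 : y' i0 = D := by
    apply RingOfIntegers.ext
    change ((y' i0 : 𝓞 L) : L) = (D : L)
    rw [hy' i0, hs]
    simp only
    rw [div_self hti0, mul_one]
  refine ⟨fun i => ψ (y' i), y, ?_, ⟨i0, ?_⟩, ⟨i0, ?_⟩, ?_, ?_⟩
  · intro i j
    have e : ∀ i, ((ψ (y' i) : 𝓞 (AlgebraicClosure K)) : AlgebraicClosure K) =
        ((D : L) : AlgebraicClosure K) * ((t i : AlgebraicClosure K) / (t i0 : AlgebraicClosure K)) := by
      intro i
      have h1 : ((y' i : 𝓞 L) : L) = (D : L) * (t i / t i0) := hy' i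
      have h2 : (((y' i : 𝓞 L) : L) : AlgebraicClosure K) =
          (((D : L) * (t i / t i0) : L) : AlgebraicClosure K) := congrArg _ h1
      push_cast at h2
      exact h2
    change ((ψ (y' i) : 𝓞 (AlgebraicClosure K)) : AlgebraicClosure K) * (t j : AlgebraicClosure K) =
      ((ψ (y' j) : 𝓞 (AlgebraicClosure K)) : AlgebraicClosure K) * (t i : AlgebraicClosure K)
    rw [e i, e j]
    ring
  · change ψ (y' i0) ∉ Q
    rw [hyi0]
    exact hDQ
  · intro hc
    rw [← hμ0, hy, hyi0, div_self hd0] at hc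
    exact one_ne_zero hc
  · intro i j
    rw [← hμ0]
    simp only [map_sub, map_mul]
    rw [hy, hy]
    field_simp
    ring
  · intro i
    rw [← hμ0]
    simp only [map_sub, map_pow]
    rw [hy, div_pow, sub_eq_zero, div_eq_div_iff (pow_ne_zero _ hd0) hd0, mul_comm, ← hkey' i,
      mul_comm]

end Pool.Agent.T4h89.OM
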