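import Pool.Agent.T4h89.OM.Stm

/-!
# Project OM, task GDQ
-/

set_option autoImplicit false

open NumberField IsDedekindDomain Filter

noncomputable section

namespace Pool.Agent.T4h89.OM

theorem t_GDQ (h : S_GOOD) : S_GDQ := by
  intro K _ _ n F hF
  classical
  have halg : Algebra.IsAlgebraic ℚ (AlgebraicClosure K) := Algebra.IsAlgebraic.trans ℚ K _
  obtain ⟨D, hD, hD2⟩ := h (AlgebraicClosure K) n
    (mapF (algebraMap (𝓞 K) (𝓞 (AlgebraicClosure K))) F) fun x hx => hF x fun i => by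
      have h1 := hx i
      unfold mapF at h1
      rwa [MvPolynomial.aeval_map_algebraMap] at h1
  have hI : (Ideal.span {(D : 𝓞 K)} : Ideal (𝓞 K)) ≠ 0 := by
    rw [Ne, Ideal.zero_eq_bot, Ideal.span_singleton_eq_bot]
    exact_mod_cast hD
  refine ⟨(Ideal.finite_factors hI).toFinset, fun v hv => ?_⟩
  intro Q hQ hQv z hz
  rw [Set.Finite.mem_toFinset, Set.mem_ofPred_eq, Ideal.dvd_span_singleton] at hv
  have := hQ
  let _ : Field (𝓞 (AlgebraicClosure K) ⧸ Q) := Ideal.Quotient.field Q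
  have hDk : ((D : ℕ) : 𝓞 (AlgebraicClosure K) ⧸ Q) ≠ 0 := by
    intro h0
    apply hv
    rw [← hQv, Ideal.mem_comap, map_natCast, ← Ideal.Quotient.eq_zero_iff_mem, map_natCast]
    exact h0
  have h1 := hD2 (𝓞 (AlgebraicClosure K) ⧸ Q) (Ideal.Quotient.mk Q) hDk
    (Ideal.Quotient.mk Q ∘ z) (by
      funext i
      have h2 := Ideal.Quotient.eq_zero_iff_mem.2 (hz i)
      unfold ev at h2 ⊢
      rw [mapF, MvPolynomial.eval_map]
      rw [MvPolynomial.eval, MvPolynomial.coe_eval₂Hom, MvPolynomial.eval₂_comp_left,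
        RingHom.comp_id] at h2
      exact h2)
  intro i
  exact Ideal.Quotient.eq_zero_iff_mem.1 (congrFun h1 i)

end Pool.Agent.T4h89.OM
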