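import Pool.Agent.T4h89.OM.Stm

/-!
# Project OM, task GOOD
-/

set_option autoImplicit false

open NumberField IsDedekindDomain Filter

noncomputable section

namespace Pool.Agent.T4h89.OM

theorem t_GOOD (h : S_NUL) : S_GOOD := by
  intro Ω _ _ _ _ n F hF
  have h1 : ∀ i : Fin n, ∃ D : ℕ, D ≠ 0 ∧ ∀ (k : Type) [Field k] (φ : 𝓞 Ω →+* k), (D : k) ≠ 0 →
      ∀ z : Fin n → k, (∀ j, MvPolynomial.eval₂ φ z (F j) = 0) →
        MvPolynomial.eval₂ φ z (MvPolynomial.X i : MvPolynomial (Fin n) (𝓞 Ω)) = 0 := by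
    intro i
    refine h Ω n (Fin n) F (MvPolynomial.X i) fun x hx => ?_
    rw [hF x hx, MvPolynomial.aeval_X, Pi.zero_apply]
  choose D hD hD2 using h1
  refine ⟨∏ i, D i, Finset.prod_ne_zero_iff.2 fun i _ => hD i, fun k _ φ hk z hz => ?_⟩
  funext i
  have h2 : (D i : k) ≠ 0 := by
    rw [Nat.cast_prod] at hk
    exact Finset.prod_ne_zero_iff.1 hk i (Finset.mem_univ i)
  have h3 := hD2 i k φ h2 z fun j => by
    have h4 := congrFun hz j
    unfold ev mapF at h4
    rwa [MvPolynomial.eval_map] at h4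
  rwa [MvPolynomial.eval₂_X] at h3

end Pool.Agent.T4h89.OM
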