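import Pool.Agent.T4h89.OM.Stm
import Pool.Agent.T4h89.OM.Lem
import Pool.Agent.T4h89.OM.T_SPR
import Pool.Agent.T4h89.OM.T_CYC

/-! OM: the first main result. -/

set_option autoImplicit false

open NumberField IsDedekindDomain Filter

noncomputable section

namespace Pool.Agent.T4h89.OM

open Pool.Agent.K3h30.RS (PosProportion)

namespace MAIN1

open SPR CYC

variable {K : Type} [Field K] [NumberField K] {n : ℕ}

/-- the integral forms and coordinates describe the same orbits -/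
def Rel (F : Fin n → MvPolynomial (Fin n) K) (γ : Fin n → K)
    (F' : Fin n → MvPolynomial (Fin n) (𝓞 K)) (γ' : Fin n → 𝓞 K) : Prop :=
  ∀ m : ℕ, ∃ a : K, a ≠ 0 ∧ ∀ i, (((ev F')^[m] γ' i : 𝓞 K) : K) = a * (ev F)^[m] γ i

/-- proportionality over `K` and over the ring of integers -/
theorem par_of {x y : Fin n → K} {x' y' : Fin n → 𝓞 K} {a b : K} (ha : a ≠ 0) (hb : b ≠ 0)
    (hx : ∀ i, ((x' i : 𝓞 K) : K) = a * x i) (hy : ∀ i, ((y' i : 𝓞 K) : K) = b * y i) :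
    Par x' y' ↔ Par x y := by
  constructor
  · intro h i j
    have h1 := congrArg (fun z : 𝓞 K => (z : K)) (h i j)
    simp only [map_mul, hx, hy] at h1
    have h2 : a * b * (x i * y j) = a * b * (x j * y i) := by linear_combination h1
    exact mul_left_cancel₀ (mul_ne_zero ha hb) h2
  · intro h i j
    apply FaithfulSMul.algebraMap_injective (𝓞 K) K
    have hx' : ∀ i, algebraMap (𝓞 K) K (x' i) = a * x i := hx
    have hy' : ∀ i, algebraMap (𝓞 K) K (y' i) = b * y i := hy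
    rw [map_mul, map_mul, hx', hx', hy', hy']
    linear_combination a * b * h i j

theorem concl_dens (hCNG : S_CNG) (hDEN : S_DEN) {F : Fin n → MvPolynomial (Fin n) K}
    {γ₁ γ₂ : Fin n → K} {F' : Fin n → MvPolynomial (Fin n) (𝓞 K)} {γ₁' γ₂' : Fin n → 𝓞 K}
    (r1 : Rel F γ₁ F' γ₁') (r2 : Rel F γ₂ F' γ₂') (h : Concl F' γ₁' γ₂') :
    PosDens (Avoid F γ₁ γ₂) := by
  have h1 : PosProportion (fun v : HeightOneSpectrum (𝓞 K) => v ∈ Avoid F γ₁ γ₂) := by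
    refine pos_mono ?_ h
    intro v ⟨hy, hv⟩ m hc
    obtain ⟨hx, hn⟩ := hv m
    obtain ⟨a, ha, ha'⟩ := r1 m
    obtain ⟨b, hb, hb'⟩ := r2 0
    exact hn ((hCNG K n v _ _ _ _ a b ha hb ha' hb' hx hy).1 hc)
  exact hDEN K _ h1

theorem avoid' {F : Fin n → MvPolynomial (Fin n) K}
    {γ₁ γ₂ : Fin n → K} {F' : Fin n → MvPolynomial (Fin n) (𝓞 K)} {γ₁' γ₂' : Fin n → 𝓞 K}
    (r1 : Rel F γ₁ F' γ₁') (r2 : Rel F γ₂ F' γ₂') (h : ∀ m : ℕ, ¬ Par ((ev F)^[m] γ₁) γ₂) (m : ℕ) :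
    ¬ Par ((ev F')^[m] γ₁') γ₂' := by
  intro hp
  obtain ⟨a, ha, ha'⟩ := r1 m
  obtain ⟨b, hb, hb'⟩ := r2 0
  exact h m ((par_of ha hb ha' hb').1 hp)

/-- not periodic modulo `v`, integral form -/
theorem nonper (hCNG : S_CNG) {F : Fin n → MvPolynomial (Fin n) K} {γ₂ : Fin n → K}
    {F' : Fin n → MvPolynomial (Fin n) (𝓞 K)} {γ₂' : Fin n → 𝓞 K} (r2 : Rel F γ₂ F' γ₂')
    {v : HeightOneSpectrum (𝓞 K)} (hg : GoodQ F' v) (hγ : ∃ i, γ₂' i ∉ v.asIdeal)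
    (h : ∀ m : ℕ, 1 ≤ m → ¬ Cong v ((ev F)^[m] γ₂) γ₂) (m : ℕ) (hm : 1 ≤ m) :
    ¬ ParMod v.asIdeal ((ev F')^[m] γ₂') γ₂' := by
  intro hp
  obtain ⟨a, ha, ha'⟩ := r2 m
  obtain ⟨b, hb, hb'⟩ := r2 0
  exact h m hm ((hCNG K n v _ _ _ _ a b ha hb ha' hb' (good_iter hg hγ m) hγ).2 hp)

/-- prime ideals outside a finite set, not containing the vector -/
theorem exists_v (γ : Fin n → 𝓞 K) (hγ : γ ≠ 0) :
    ∃ bad : Finset (HeightOneSpectrum (𝓞 K)), ∀ v ∉ bad, ∃ i, γ i ∉ v.asIdeal := by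
  obtain ⟨k, hk⟩ := Function.ne_iff.1 hγ
  refine ⟨(fin_mem hk).toFinset, fun v hv => ⟨k, ?_⟩⟩
  rw [Set.Finite.mem_toFinset] at hv
  exact hv

end MAIN1

open SPR CYC MAIN1 in
theorem t_MAIN1 (hCRIT : S_CRIT) (hCYC : S_CYC) (hSPR : S_SPR) (hGDQ : S_GDQ) (hCNG : S_CNG)
    (hSCL : S_SCL) (hSCG : S_SCG) (hDEN : S_DEN) : S_MAIN1 := by
  intro K _ _ n d hd F hF γ₁ γ₂ h1 h2 hav hcase
  classical
  rcases hcase with ⟨m, m', hmm, hp⟩ | ⟨v, hv, hnp⟩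
  · obtain ⟨F', γ₁', γ₂', hhom, hz, hn1, hn2, r1, r2⟩ := hSCL K n d F hF γ₁ γ₂ h1 h2
    apply concl_dens hCNG hDEN r1 r2
    have hav' := avoid' r1 r2 hav
    by_cases hper : ∃ m : ℕ, 1 ≤ m ∧ Par ((ev F')^[m] γ₂') γ₂'
    · exact hCYC K n d hd F' hhom hz γ₁' γ₂' hn1 hn2 hav' hper
    · obtain ⟨a, ha, ha'⟩ := r2 m
      obtain ⟨b, hb, hb'⟩ := r2 m'
      obtain ⟨bad1, hbad1⟩ := hSPR K n d hd F' hhom hz γ₂' hn2
        ⟨m, m', hmm, (par_of ha hb ha' hb').2 hp⟩ hper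
      obtain ⟨bad2, hbad2⟩ := hGDQ K n F' hz
      obtain ⟨bad3, hbad3⟩ := exists_v γ₂' hn2
      have hinf := inf_primes K
      obtain ⟨v, hv⟩ := Infinite.exists_notMem_finset (bad1 ∪ bad2 ∪ bad3)
      rw [Finset.mem_union, Finset.mem_union, not_or, not_or] at hv
      exact hCRIT K n d hd F' hhom hz γ₁' γ₂' hn1 hn2 hav' v (hbad2 v hv.1.2) (hbad3 v hv.2)
        (hbad1 v hv.1.1)
  · obtain ⟨F', γ₁', γ₂', hhom, hz, hn1, hn2, r1, r2, hg, hi⟩ :=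
      hSCG K n d F hF γ₁ γ₂ h1 h2 v hv
    apply concl_dens hCNG hDEN r1 r2
    exact hCRIT K n d hd F' hhom hz γ₁' γ₂' hn1 hn2 (avoid' r1 r2 hav) v hg hi
      (nonper hCNG r2 hg hi hnp)

open SPR CYC MAIN1 in
theorem t_HALF (hCRIT : S_CRIT) (hGDQ : S_GDQ) (hCNG : S_CNG)
    (hSCL : S_SCL) (hDEN : S_DEN) : S_HALF := by
  intro K _ _ n d hd F hF γ₁ γ₂ h1 h2 hav hcase
  classical
  obtain ⟨F', γ₁', γ₂', hhom, hz, hn1, hn2, r1, r2⟩ := hSCL K n d F hF γ₁ γ₂ h1 h2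
  apply concl_dens hCNG hDEN r1 r2
  obtain ⟨bad2, hbad2⟩ := hGDQ K n F' hz
  obtain ⟨bad3, hbad3⟩ := exists_v γ₂' hn2
  obtain ⟨v, hv, hnp⟩ := hcase (bad2 ∪ bad3)
  rw [Finset.mem_union, not_or] at hv
  exact hCRIT K n d hd F' hhom hz γ₁' γ₂' hn1 hn2 (avoid' r1 r2 hav) v (hbad2 v hv.1)
    (hbad3 v hv.2) (nonper hCNG r2 (hbad2 v hv.1) (hbad3 v hv.2) hnp)

end Pool.Agent.T4h89.OM
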