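import Pool.Agent.T4h89.OM.Stm

/-!
# Project OM, task NUL
-/

set_option autoImplicit false

open NumberField IsDedekindDomain Filter

noncomputable section

namespace Pool.Agent.T4h89.OM

namespace NUL

theorem isAlg (Ω : Type) [Field Ω] [CharZero Ω] [Algebra.IsAlgebraic ℚ Ω] :
    Algebra.IsAlgebraic ℤ Ω :=
  (IsFractionRing.comap_isAlgebraic_iff (A := ℤ) (K := ℚ) (C := Ω)).2 inferInstance

/-- common denominators of finitely many polynomials -/
theorem lift (Ω : Type) [Field Ω] [CharZero Ω] [Algebra.IsAlgebraic ℚ Ω] {n : ℕ}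
    (s : Finset (MvPolynomial (Fin n) Ω)) : ∃ D : ℕ, D ≠ 0 ∧ ∀ p ∈ s,
      ∃ a : MvPolynomial (Fin n) (𝓞 Ω),
        MvPolynomial.map (algebraMap (𝓞 Ω) Ω) a = MvPolynomial.C (D : Ω) * p := by
  classical
  have := isAlg Ω
  obtain ⟨y, hy, h⟩ := Algebra.IsAlgebraic.exists_integral_multiples ℤ
    (s.biUnion fun p => p.coeffs)
  refine ⟨y.natAbs, by omega, fun p hp => ?_⟩
  have h1 : MvPolynomial.C ((y.natAbs : ℕ) : Ω) * p ∈
      Set.range (MvPolynomial.map (algebraMap (𝓞 Ω) Ω)) := by
    rw [MvPolynomial.mem_range_map_iff_coeffs_subset]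
    intro c hc
    obtain ⟨m, _, rfl⟩ := MvPolynomial.mem_coeffs_iff.1 hc
    rw [MvPolynomial.coeff_C_mul]
    have h2 : IsIntegral ℤ (((y.natAbs : ℕ) : Ω) * p.coeff m) := by
      by_cases hm : m ∈ p.support
      · have h3 := h (p.coeff m) (Finset.mem_biUnion.2 ⟨p, hp,
          MvPolynomial.mem_coeffs_iff.2 ⟨m, hm, rfl⟩⟩)
        have h4 : (((y.natAbs : ℕ) : Ω) * p.coeff m) = y • p.coeff m ∨
            (((y.natAbs : ℕ) : Ω) * p.coeff m) = -(y • p.coeff m) := by
          have h5 : ((y.natAbs : ℕ) : Ω) = ((|y| : ℤ) : Ω) := by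
            rw [← Int.natCast_natAbs, Int.cast_natCast]
          rw [h5, zsmul_eq_mul]
          rcases abs_choice y with h6 | h6 <;> rw [h6]
          · exact Or.inl rfl
          · right
            push_cast
            ring
        rcases h4 with h4 | h4 <;> rw [h4]
        · exact h3
        · exact h3.neg
      · rw [MvPolynomial.notMem_support_iff.1 hm, mul_zero]
        exact isIntegral_zero
    exact ⟨⟨_, h2⟩, rfl⟩
  exact h1

end NUL

theorem t_NUL : S_NUL := by
  intro Ω _ _ _ _ n ι _ g q hq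
  classical
  have : Fintype ι := Fintype.ofFinite ι
  have hinj : Function.Injective (algebraMap (𝓞 Ω) Ω) := FaithfulSMul.algebraMap_injective _ _
  have h1 : MvPolynomial.map (algebraMap (𝓞 Ω) Ω) q ∈
      (Ideal.span (Set.range fun i => MvPolynomial.map (algebraMap (𝓞 Ω) Ω) (g i))).radical := by
    rw [← MvPolynomial.vanishingIdeal_zeroLocus_eq_radical (K := Ω)]
    intro x hx
    rw [MvPolynomial.aeval_map_algebraMap]
    refine hq x fun i => ?_
    have := hx _ (Ideal.subset_span ⟨i, rfl⟩)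
    rwa [MvPolynomial.aeval_map_algebraMap] at this
  obtain ⟨r, hr⟩ := h1
  obtain ⟨c, hc⟩ := Ideal.mem_span_range_iff_exists_fun.1 hr
  obtain ⟨D, hD, hlift⟩ := NUL.lift Ω (Finset.univ.image c)
  choose a ha using fun i => hlift (c i) (Finset.mem_image_of_mem c (Finset.mem_univ i))
  have key : ∑ i, a i * g i = MvPolynomial.C (D : 𝓞 Ω) * q ^ r := by
    apply MvPolynomial.map_injective _ hinj
    rw [map_sum, map_mul, map_pow, MvPolynomial.map_C, map_natCast, ← hc, Finset.mul_sum]
    refine Finset.sum_congr rfl fun i _ => ?_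
    rw [map_mul, ha, mul_assoc]
  refine ⟨D, hD, fun k _ φ hDk z hz => ?_⟩
  have h3 := congrArg (MvPolynomial.eval₂Hom φ z) key
  rw [map_sum, map_mul, map_pow] at h3
  simp only [map_mul, MvPolynomial.coe_eval₂Hom, hz, mul_zero, Finset.sum_const_zero,
    MvPolynomial.eval₂_C, map_natCast] at h3
  rcases mul_eq_zero.1 h3.symm with h4 | h4
  · exact absurd h4 hDk
  · exact eq_zero_of_pow_eq_zero h4

end Pool.Agent.T4h89.OM
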