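import Pool.Agent.T4h89.OM.Stm
import Pool.Agent.T4h89.OM.Lem

/-!
# Integral forms and coordinates, with good reduction at a given prime ideal (helper3)
-/

set_option autoImplicit false

open NumberField IsDedekindDomain Filter

noncomputable section

namespace Pool.Agent.T4h89.OM.SCG

variable {K : Type} [Field K] [NumberField K] {n : ℕ}

/-- a finite family of polynomials with `v`-integral coefficients becomes integral after
multiplication with a `v`-unit -/
theorem lift (hDNM : S_DNM) (v : HeightOneSpectrum (𝓞 K)) {τ : Type} [Finite τ]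
    (P : τ → MvPolynomial (Fin n) K) (hP : ∀ i m, v.valuation K ((P i).coeff m) ≤ 1) :
    ∃ (D : 𝓞 K) (P' : τ → MvPolynomial (Fin n) (𝓞 K)), D ∉ v.asIdeal ∧
      ∀ i, MvPolynomial.map (algebraMap (𝓞 K) K) (P' i) =
        MvPolynomial.C (algebraMap (𝓞 K) K D) * P i := by
  obtain ⟨D, y, hD1, hy⟩ := hDNM K v (Σ i : τ, ↥(P i).support) (fun z => (P z.1).coeff z.2.1)
    (fun z => hP _ _)
  have h1 : ∀ i, ∃ P' : MvPolynomial (Fin n) (𝓞 K),
      MvPolynomial.map (algebraMap (𝓞 K) K) P' = MvPolynomial.C (algebraMap (𝓞 K) K D) * P i := by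
    intro i
    have : MvPolynomial.C (algebraMap (𝓞 K) K D) * P i ∈
        Set.range (MvPolynomial.map (σ := Fin n) (algebraMap (𝓞 K) K)) := by
      rw [MvPolynomial.mem_range_map_iff_coeffs_subset]
      intro c hc
      rw [Finset.mem_coe, MvPolynomial.mem_coeffs_iff] at hc
      obtain ⟨m, hm, rfl⟩ := hc
      rw [MvPolynomial.coeff_C_mul]
      by_cases h : m ∈ (P i).support
      · exact ⟨y ⟨i, m, h⟩, hy ⟨i, m, h⟩⟩
      · rw [MvPolynomial.notMem_support_iff.1 h, mul_zero]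
        exact ⟨0, map_zero _⟩
    exact this
  choose P' hP' using h1
  exact ⟨D, P', hD1, hP'⟩

/-- homogeneity descends -/
theorem hom_of {d : ℕ} {e : K} {F : MvPolynomial (Fin n) K} {F' : MvPolynomial (Fin n) (𝓞 K)}
    (hF : F.IsHomogeneous d)
    (h : MvPolynomial.map (algebraMap (𝓞 K) K) F' = MvPolynomial.C e * F) :
    F'.IsHomogeneous d := by
  intro m hm
  apply hF
  intro h0
  apply hm
  have h1 := congrArg (MvPolynomial.coeff m) h
  rw [MvPolynomial.coeff_map, MvPolynomial.coeff_C_mul, h0, mul_zero] at h1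
  exact (map_eq_zero_iff _ (FaithfulSMul.algebraMap_injective (𝓞 K) K)).1 h1

/-- zeros -/
theorem zero_of {d : ℕ} {e : K} (he : e ≠ 0) {F : Fin n → MvPolynomial (Fin n) K}
    {F' : Fin n → MvPolynomial (Fin n) (𝓞 K)} (hF : IsMor d F)
    (h : ∀ i, MvPolynomial.map (algebraMap (𝓞 K) K) (F' i) = MvPolynomial.C e * F i)
    (x : Fin n → AlgebraicClosure K) (hx : ∀ i, MvPolynomial.aeval x (F' i) = 0) : x = 0 := by
  refine hF.zero x fun i => ?_
  have h1 : MvPolynomial.aeval x (MvPolynomial.map (algebraMap (𝓞 K) K) (F' i)) =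
      MvPolynomial.aeval x (F' i) := MvPolynomial.aeval_map_algebraMap K x (F' i)
  rw [hx i, h i, map_mul, MvPolynomial.aeval_C] at h1
  exact (mul_eq_zero.1 h1).resolve_left
    (fun h2 => he ((map_eq_zero_iff _ (algebraMap K (AlgebraicClosure K)).injective).1 h2))

/-- values -/
theorem ev_of {d : ℕ} {e : K} {F : Fin n → MvPolynomial (Fin n) K}
    {F' : Fin n → MvPolynomial (Fin n) (𝓞 K)} (hF : ∀ i, (F i).IsHomogeneous d)
    (h : ∀ i, MvPolynomial.map (algebraMap (𝓞 K) K) (F' i) = MvPolynomial.C e * F i)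
    {x' : Fin n → 𝓞 K} {x : Fin n → K} {a : K} (hx : ∀ i, algebraMap (𝓞 K) K (x' i) = a * x i) :
    ∀ i, algebraMap (𝓞 K) K (ev F' x' i) = (e * a ^ d) * ev F x i := by
  intro i
  have h1 := congrFun (ev_mapF (algebraMap (𝓞 K) K) F' x') i
  have h2 : (algebraMap (𝓞 K) K) ∘ x' = a • x := by
    funext j
    simp only [Function.comp_apply, Pi.smul_apply, smul_eq_mul, hx]
  rw [h2] at h1
  simp only [Function.comp_apply] at h1
  rw [← h1]
  have h3 : ev (mapF (algebraMap (𝓞 K) K) F') (a • x) i = e * ev F (a • x) i := by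
    change MvPolynomial.eval (a • x) (MvPolynomial.map (algebraMap (𝓞 K) K) (F' i)) = _
    rw [h i, map_mul, MvPolynomial.eval_C]
    rfl
  rw [h3, ev_smul hF]
  simp only [Pi.smul_apply, smul_eq_mul]
  ring

/-- values of the iterates -/
theorem iter_of {d : ℕ} {e : K} (he : e ≠ 0) {F : Fin n → MvPolynomial (Fin n) K}
    {F' : Fin n → MvPolynomial (Fin n) (𝓞 K)} (hF : ∀ i, (F i).IsHomogeneous d)
    (h : ∀ i, MvPolynomial.map (algebraMap (𝓞 K) K) (F' i) = MvPolynomial.C e * F i)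
    {x' : Fin n → 𝓞 K} {x : Fin n → K} {a : K} (ha : a ≠ 0)
    (hx : ∀ i, algebraMap (𝓞 K) K (x' i) = a * x i) (m : ℕ) :
    ∃ b : K, b ≠ 0 ∧ ∀ i, (((ev F')^[m] x' i : 𝓞 K) : K) = b * (ev F)^[m] x i := by
  induction m with
  | zero => exact ⟨a, ha, hx⟩
  | succ m ih =>
    obtain ⟨b, hb, hb1⟩ := ih
    refine ⟨e * b ^ d, mul_ne_zero he (pow_ne_zero _ hb), fun i => ?_⟩
    rw [Function.iterate_succ_apply', Function.iterate_succ_apply']
    exact ev_of hF h hb1 i

/-- integral coordinates -/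
theorem coord (γ : Fin n → K) (hγ : γ ≠ 0) : ∃ (γ' : Fin n → 𝓞 K) (a : K), a ≠ 0 ∧ γ' ≠ 0 ∧
    ∀ i, algebraMap (𝓞 K) K (γ' i) = a * γ i := by
  obtain ⟨b, hb⟩ := IsLocalization.exist_integer_multiples_of_finite (nonZeroDivisors (𝓞 K)) γ
  choose γ' hγ' using hb
  have hb0 : algebraMap (𝓞 K) K b ≠ 0 := by
    intro h0
    exact nonZeroDivisors.coe_ne_zero b
      ((map_eq_zero_iff _ (FaithfulSMul.algebraMap_injective (𝓞 K) K)).1 h0)
  have h1 : ∀ i, algebraMap (𝓞 K) K (γ' i) = algebraMap (𝓞 K) K b * γ i := by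
    intro i
    rw [hγ' i, Algebra.smul_def]
  refine ⟨γ', algebraMap (𝓞 K) K b, hb0, ?_, h1⟩
  intro h0
  apply hγ
  funext i
  have h2 := h1 i
  rw [h0, Pi.zero_apply, map_zero] at h2
  exact (mul_eq_zero.1 h2.symm).resolve_left hb0

/-- coordinates with a `v`-unit -/
theorem coordv (hDNM : S_DNM) (v : HeightOneSpectrum (𝓞 K)) (γ : Fin n → K) (hγ : γ ≠ 0) :
    ∃ (γ' : Fin n → 𝓞 K) (a : K), a ≠ 0 ∧ (∃ i, γ' i ∉ v.asIdeal) ∧
    ∀ i, algebraMap (𝓞 K) K (γ' i) = a * γ i := by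
  obtain ⟨k, hk⟩ := Function.ne_iff.1 hγ
  simp only [Pi.zero_apply] at hk
  obtain ⟨i0, -, hi0⟩ := Finset.exists_max_image Finset.univ (fun i => v.valuation K (γ i))
    ⟨k, Finset.mem_univ k⟩
  have h0 : γ i0 ≠ 0 := by
    intro h0
    have := hi0 k (Finset.mem_univ k)
    rw [h0, map_zero] at this
    exact hk ((map_eq_zero (v.valuation K)).1 (le_antisymm this zero_le'))
  have hv0 : v.valuation K (γ i0) ≠ 0 := fun h => h0 ((map_eq_zero (v.valuation K)).1 h)
  obtain ⟨D, y, hD, hy⟩ := hDNM K v (Fin n) (fun i => γ i / γ i0) (fun i => by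
    rw [map_div₀]
    exact (div_le_one₀ (zero_lt_iff.2 hv0)).2 (hi0 i (Finset.mem_univ i)))
  have hD0 : algebraMap (𝓞 K) K D ≠ 0 := by
    intro h
    have : D = 0 := (map_eq_zero_iff _ (FaithfulSMul.algebraMap_injective (𝓞 K) K)).1 h
    exact hD (this ▸ v.asIdeal.zero_mem)
  refine ⟨y, algebraMap (𝓞 K) K D / γ i0, div_ne_zero hD0 h0, ⟨i0, ?_⟩, fun i => ?_⟩
  · have h1 : algebraMap (𝓞 K) K (y i0) = algebraMap (𝓞 K) K D := by
      have := hy i0
      rw [div_self h0, mul_one] at this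
      exact this
    have h2 : y i0 = D := FaithfulSMul.algebraMap_injective (𝓞 K) K h1
    rw [h2]
    exact hD
  · have h3 : algebraMap (𝓞 K) K (y i) = algebraMap (𝓞 K) K D * (γ i / γ i0) := hy i
    rw [h3]
    ring

theorem t_SCG (hDNM : S_DNM) : S_SCG := by
  intro K _ _ n d F hF γ₁ γ₂ h₁ h₂ v hv
  obtain ⟨c, hc, r, G, hG, hX⟩ := hv
  obtain ⟨k, -⟩ := Function.ne_iff.1 h₁
  have hc0 : c ≠ 0 := by
    intro h0
    have h1 := hX k
    rw [h0, map_zero] at h1
    simp only [zero_mul, mul_zero, Finset.sum_const_zero] at h1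
    exact pow_ne_zero r (MvPolynomial.X_ne_zero k) h1
  obtain ⟨D, F', hD, hF'⟩ := lift hDNM v (fun i => MvPolynomial.C c * F i) (fun i m => by
    rw [MvPolynomial.coeff_C_mul]
    exact hc i m)
  obtain ⟨D', G', hD', hG'⟩ := lift hDNM v (fun z : Fin n × Fin n => G z.1 z.2)
    (fun z m => hG z.1 z.2 m)
  have hne : ∀ D : 𝓞 K, D ∉ v.asIdeal → algebraMap (𝓞 K) K D ≠ 0 := by
    intro D hD h
    have : D = 0 := (map_eq_zero_iff _ (FaithfulSMul.algebraMap_injective (𝓞 K) K)).1 h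
    exact hD (this ▸ v.asIdeal.zero_mem)
  have hF'' : ∀ i, MvPolynomial.map (algebraMap (𝓞 K) K) (F' i) =
      MvPolynomial.C (algebraMap (𝓞 K) K D * c) * F i := by
    intro i
    rw [hF' i, MvPolynomial.C_mul, mul_assoc]
  have he : algebraMap (𝓞 K) K D * c ≠ 0 := mul_ne_zero (hne D hD) hc0
  obtain ⟨γ₁', a₁, ha₁, hγ₁, hγ₁'⟩ := coord γ₁ h₁
  obtain ⟨γ₂', a₂, ha₂, hγ₂, hγ₂'⟩ := coordv hDNM v γ₂ h₂
  refine ⟨F', γ₁', γ₂', fun i => hom_of (hF.hom i) (hF'' i), fun x hx => zero_of he hF hF'' x hx,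
    hγ₁, ?_, fun m => iter_of he hF.hom hF'' ha₁ hγ₁' m, fun m => iter_of he hF.hom hF'' ha₂ hγ₂' m,
    ?_, hγ₂⟩
  · rintro rfl
    obtain ⟨i, hi⟩ := hγ₂
    exact hi v.asIdeal.zero_mem
  · intro Q hQ hQv z hz i
    have hinj : Function.Injective (MvPolynomial.map (σ := Fin n) (algebraMap (𝓞 K) K)) :=
      MvPolynomial.map_injective _ (FaithfulSMul.algebraMap_injective (𝓞 K) K)
    have h3 : MvPolynomial.C (D' * D) * MvPolynomial.X i ^ r =
        ∑ j, G' (i, j) * F' j := by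
      apply hinj
      rw [map_sum]
      simp only [map_mul, map_pow, MvPolynomial.map_C, MvPolynomial.map_X, hF', hG']
      rw [hX i, Finset.mul_sum]
      refine Finset.sum_congr rfl fun j _ => ?_
      ring
    set φ := algebraMap (𝓞 K) (𝓞 (AlgebraicClosure K)) with hφ
    have h4 := congrArg (fun P => MvPolynomial.eval z (MvPolynomial.map φ P)) h3
    simp only [map_sum, map_mul, map_pow, MvPolynomial.map_C, MvPolynomial.map_X,
      MvPolynomial.eval_C, MvPolynomial.eval_X] at h4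
    have h5 : φ D' * φ D * z i ^ r ∈ Q := by
      rw [h4]
      refine Q.sum_mem fun j _ => ?_
      exact Q.mul_mem_left _ (hz j)
    have hQp : Q.IsPrime := hQ.isPrime
    have hDQ : ∀ D : 𝓞 K, D ∉ v.asIdeal → φ D ∉ Q := by
      intro D hD h
      apply hD
      rw [← hQv]
      exact h
    rcases hQp.mem_or_mem h5 with h6 | h6
    · rcases hQp.mem_or_mem h6 with h7 | h7
      · exact absurd h7 (hDQ _ hD')
      · exact absurd h7 (hDQ _ hD)
    · exact hQp.mem_of_pow_mem r h6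

end Pool.Agent.T4h89.OM.SCG
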