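import Pool.Agent.T4h89.OM.Stm
import Pool.Agent.T4h89.OM.Lem

/-! Task SCL. -/

set_option autoImplicit false

open NumberField IsDedekindDomain

namespace Pool.Agent.T4h89.OM

namespace SCLaux

variable {K : Type} [Field K] [NumberField K]

theorem clear (ι : Type) [Finite ι] (x : ι → K) : ∃ (D : 𝓞 K) (y : ι → 𝓞 K), D ≠ 0 ∧
    ∀ i, algebraMap (𝓞 K) K (y i) = algebraMap (𝓞 K) K D * x i := by
  obtain ⟨b, hb⟩ := IsLocalization.exist_integer_multiples_of_finite (nonZeroDivisors (𝓞 K)) x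
  choose y hy using hb
  refine ⟨b, y, nonZeroDivisors.ne_zero b.2, fun i => ?_⟩
  rw [hy i, Algebra.smul_def]

theorem clearPoly {n : ℕ} (F : Fin n → MvPolynomial (Fin n) K) :
    ∃ (D : 𝓞 K) (F' : Fin n → MvPolynomial (Fin n) (𝓞 K)), D ≠ 0 ∧
    ∀ i, MvPolynomial.map (algebraMap (𝓞 K) K) (F' i) =
      MvPolynomial.C (algebraMap (𝓞 K) K D) * F i := by
  obtain ⟨D, y, hD, hy⟩ := clear (Σ i : Fin n, (F i).support)
    (fun p => MvPolynomial.coeff p.2.1 (F p.1))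
  refine ⟨D, fun i => ∑ m : (F i).support, MvPolynomial.monomial m.1 (y ⟨i, m⟩), hD,
    fun i => ?_⟩
  rw [map_sum]
  have h1 : ∀ m : (F i).support, MvPolynomial.map (algebraMap (𝓞 K) K)
      (MvPolynomial.monomial m.1 (y ⟨i, m⟩)) = MvPolynomial.C (algebraMap (𝓞 K) K D) *
        MvPolynomial.monomial m.1 (MvPolynomial.coeff m.1 (F i)) := by
    intro m
    rw [MvPolynomial.map_monomial, hy ⟨i, m⟩, MvPolynomial.C_mul_monomial]
  rw [Finset.sum_congr rfl fun m _ => h1 m, ← Finset.mul_sum]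
  congr 1
  rw [Finset.sum_coe_sort (F i).support
    (fun m => MvPolynomial.monomial m (MvPolynomial.coeff m (F i)))]
  exact MvPolynomial.support_sum_monomial_coeff (F i)

/-- the iterates of the integral forms -/
theorem iter {n d : ℕ} (F : Fin n → MvPolynomial (Fin n) K)
    (F' : Fin n → MvPolynomial (Fin n) (𝓞 K)) (D : 𝓞 K) (hD : D ≠ 0)
    (hF : ∀ i, (F i).IsHomogeneous d)
    (h : ∀ i, MvPolynomial.map (algebraMap (𝓞 K) K) (F' i) =
      MvPolynomial.C (algebraMap (𝓞 K) K D) * F i)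
    (γ : Fin n → K) (γ' : Fin n → 𝓞 K) (a : K) (ha : a ≠ 0)
    (hγ : ∀ i, algebraMap (𝓞 K) K (γ' i) = a * γ i) (m : ℕ) :
    ∃ b : K, b ≠ 0 ∧ ∀ i, algebraMap (𝓞 K) K ((ev F')^[m] γ' i) = b * (ev F)^[m] γ i := by
  have hD' : algebraMap (𝓞 K) K D ≠ 0 := by
    rwa [Ne, FaithfulSMul.algebraMap_eq_zero_iff]
  induction m with
  | zero => exact ⟨a, ha, hγ⟩
  | succ m ih =>
    obtain ⟨b, hb, h1⟩ := ih
    refine ⟨algebraMap (𝓞 K) K D * b ^ d, mul_ne_zero hD' (pow_ne_zero _ hb), fun i => ?_⟩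
    rw [Function.iterate_succ_apply', Function.iterate_succ_apply']
    have h2 := congrFun (ev_mapF (algebraMap (𝓞 K) K) F' ((ev F')^[m] γ')) i
    have h3 : (algebraMap (𝓞 K) K) ∘ ((ev F')^[m] γ') = b • ((ev F)^[m] γ) := by
      funext j
      exact h1 j
    rw [h3] at h2
    have h4 : ev (mapF (algebraMap (𝓞 K) K) F') (b • (ev F)^[m] γ) i =
        algebraMap (𝓞 K) K D * ev F (b • (ev F)^[m] γ) i := by
      change MvPolynomial.eval _ (MvPolynomial.map _ (F' i)) = _ * MvPolynomial.eval _ (F i)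
      rw [h i, map_mul, MvPolynomial.eval_C]
    rw [h4, ev_smul hF] at h2
    change _ = algebraMap (𝓞 K) K (ev F' ((ev F')^[m] γ') i) at h2
    rw [← h2, Pi.smul_apply, smul_eq_mul, mul_assoc]

end SCLaux

open SCLaux

theorem t_SCL : S_SCL := by
  intro K _ _ n d F hF γ₁ γ₂ h₁ h₂
  obtain ⟨D, F', hD, hF'⟩ := clearPoly F
  obtain ⟨D₁, γ₁', hD₁, hγ₁⟩ := clear (Fin n) γ₁
  obtain ⟨D₂, γ₂', hD₂, hγ₂⟩ := clear (Fin n) γ₂
  have inj := FaithfulSMul.algebraMap_injective (𝓞 K) K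
  have hne : ∀ E : 𝓞 K, E ≠ 0 → algebraMap (𝓞 K) K E ≠ 0 := fun E hE => by
    rwa [Ne, FaithfulSMul.algebraMap_eq_zero_iff]
  have hγne : ∀ (γ : Fin n → K) (γ' : Fin n → 𝓞 K) (E : 𝓞 K), E ≠ 0 → γ ≠ 0 →
      (∀ i, algebraMap (𝓞 K) K (γ' i) = algebraMap (𝓞 K) K E * γ i) → γ' ≠ 0 := by
    intro γ γ' E hE hγ h hcon
    apply hγ
    funext i
    have h1 := h i
    rw [hcon, Pi.zero_apply, map_zero] at h1
    exact (mul_eq_zero.1 h1.symm).resolve_left (hne E hE)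
  refine ⟨F', γ₁', γ₂', fun i => ?_, fun x hx => ?_, hγne γ₁ γ₁' D₁ hD₁ h₁ hγ₁,
    hγne γ₂ γ₂' D₂ hD₂ h₂ hγ₂, fun m => ?_, fun m => ?_⟩
  · refine MvPolynomial.IsHomogeneous.of_map inj ?_
    rw [hF' i]
    have h1 := (MvPolynomial.isHomogeneous_C (Fin n) (algebraMap (𝓞 K) K D)).mul (hF.hom i)
    rwa [zero_add] at h1
  · refine hF.zero x fun i => ?_
    have h1 := hx i
    rw [← MvPolynomial.aeval_map_algebraMap K x (F' i), hF' i, map_mul,
      MvPolynomial.aeval_C] at h1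
    refine (mul_eq_zero.1 h1).resolve_left ?_
    exact (map_ne_zero _).2 (hne D hD)
  · exact iter F F' D hD hF.hom hF' γ₁ γ₁' _ (hne D₁ hD₁) hγ₁ m
  · exact iter F F' D hD hF.hom hF' γ₂ γ₂' _ (hne D₂ hD₂) hγ₂ m

end Pool.Agent.T4h89.OM
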