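import Pool.Agent.T4h89.OM.Lem

/-!
# Orbits of a point avoiding another point modulo primes: fibres over finitely many points
-/

set_option autoImplicit false

open NumberField IsDedekindDomain Filter

noncomputable section

namespace Pool.Agent.T4h89.OM

namespace STEP

lemma ev_mapF_eq {R S : Type} [CommRing R] [CommRing S] [Algebra R S] {n : ℕ}
    (F : Fin n → MvPolynomial (Fin n) R) (x : Fin n → S) (i : Fin n) :
    ev (mapF (algebraMap R S) F) x i = MvPolynomial.aeval x (F i) := by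
  change MvPolynomial.eval x (MvPolynomial.map (algebraMap R S) (F i)) = _
  rw [MvPolynomial.eval_map, MvPolynomial.aeval_def]

lemma ev_mapF_eq' {R S : Type} [CommRing R] [CommRing S] (φ : R →+* S) {n : ℕ}
    (F : Fin n → MvPolynomial (Fin n) R) (x : Fin n → S) (i : Fin n) :
    ev (mapF φ F) x i = MvPolynomial.eval₂ φ x (F i) := by
  change MvPolynomial.eval x (MvPolynomial.map φ (F i)) = _
  rw [MvPolynomial.eval_map]

/-- a nonzero algebraic integer divides a nonzero integer -/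
lemma dvd_int {Ω : Type} [Field Ω] [CharZero Ω] [Algebra.IsAlgebraic ℚ Ω] (x : 𝓞 Ω) (hx : x ≠ 0) :
    ∃ N : ℕ, N ≠ 0 ∧ x ∣ (N : 𝓞 Ω) := by
  have h1 : IsAlgebraic ℤ ((x : Ω)⁻¹) := by
    have := Algebra.IsAlgebraic.isAlgebraic (R := ℚ) ((x : Ω)⁻¹)
    exact (IsFractionRing.isAlgebraic_iff ℤ ℚ Ω).2 this
  obtain ⟨y, hy, hint⟩ := h1.exists_integral_multiple
  have hx' : (x : Ω) ≠ 0 := by
    simpa using hx
  refine ⟨y.natAbs, by simpa using hy, ?_⟩
  obtain ⟨m, hm⟩ : ∃ m : 𝓞 Ω, (m : Ω) = y • (x : Ω)⁻¹ := ⟨⟨_, hint⟩, rfl⟩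
  have h2 : (y : 𝓞 Ω) = x * m := by
    apply RingOfIntegers.ext
    have hm' : algebraMap (𝓞 Ω) Ω m = y • (algebraMap (𝓞 Ω) Ω x)⁻¹ := hm
    have hx'' : algebraMap (𝓞 Ω) Ω x ≠ 0 := hx'
    change algebraMap (𝓞 Ω) Ω (y : 𝓞 Ω) = algebraMap (𝓞 Ω) Ω (x * m)
    rw [map_mul, hm', map_intCast, zsmul_eq_mul]
    field_simp
  have h3 : x ∣ (y : 𝓞 Ω) := ⟨m, h2⟩
  have h4 : ((y.natAbs : ℕ) : 𝓞 Ω) = ((y.natAbs : ℤ) : 𝓞 Ω) := (Int.cast_natCast _).symm
  rw [h4]
  rcases Int.natAbs_eq y with h | h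
  · rwa [← h]
  · have h5 : (y.natAbs : ℤ) = -y := by omega
    rw [h5]
    push_cast
    exact (dvd_neg).2 h3

end STEP

open STEP in
theorem t_STEP (hFIN : S_FIN) (hNUL : S_NUL) : S_STEP := by
  classical
  intro Ω _ _ _ _ n d hd F hF h0 W hW
  have halg : Algebra.IsAlgebraic ℤ Ω :=
    ⟨fun x => (IsFractionRing.isAlgebraic_iff ℤ ℚ Ω).2 (Algebra.IsAlgebraic.isAlgebraic (R := ℚ) x)⟩
  have hfr : IsFractionRing (𝓞 Ω) Ω :=
    integralClosure.isFractionRing_of_algebraic (A := ℤ) (L := Ω) (fun x hx => by simpa using hx)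
  set φ0 : 𝓞 Ω →+* Ω := algebraMap (𝓞 Ω) Ω with hφ0
  have hinj : Function.Injective φ0 := IsFractionRing.injective (𝓞 Ω) Ω
  have hFΩ := hom_mapF φ0 hF
  have h0Ω : ∀ x, ev (mapF φ0 F) x = 0 → x = 0 := fun x hx => h0 x fun i => by
    rw [← ev_mapF_eq]
    exact congrFun hx i
  have hfin : ∀ w : Fin n → Ω, {x | ev (mapF φ0 F) x = w}.Finite := hFIN Ω n d hd _ hFΩ h0Ω
  -- representatives
  have hscale : ∀ s : Fin n → Ω, ∃ (b : 𝓞 Ω) (t : Fin n → 𝓞 Ω), b ≠ 0 ∧ φ0 ∘ t = φ0 b • s := by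
    intro s
    obtain ⟨b, hb⟩ := IsLocalization.exist_integer_multiples_of_finite (nonZeroDivisors (𝓞 Ω)) s
    choose t ht using hb
    refine ⟨b, t, nonZeroDivisors.coe_ne_zero b, ?_⟩
    funext i
    rw [Function.comp_apply, hφ0, ht i, Pi.smul_apply, smul_eq_mul, Algebra.smul_def]
  choose bb tt hbb htt using hscale
  set T : Finset (Fin n → 𝓞 Ω) := W.biUnion fun w => (hfin (φ0 ∘ w)).toFinset.image tt with hT
  have hTmem : ∀ t ∈ T, ∃ w ∈ W, ∃ s, ev (mapF φ0 F) s = φ0 ∘ w ∧ tt s = t := by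
    intro t ht
    rw [hT, Finset.mem_biUnion] at ht
    obtain ⟨w, hw, ht⟩ := ht
    rw [Finset.mem_image] at ht
    obtain ⟨s, hs, rfl⟩ := ht
    rw [Set.Finite.mem_toFinset] at hs
    exact ⟨w, hw, s, hs, rfl⟩
  have hTprop : ∀ t ∈ T, t ≠ 0 ∧ ∃ w ∈ W, Par (ev F t) w := by
    intro t ht
    obtain ⟨w, hw, s, hs, rfl⟩ := hTmem t ht
    have hb : φ0 (bb s) ≠ 0 := fun h => hbb s (hinj (by rw [h, map_zero]))
    have hs0 : s ≠ 0 := by
      rintro rfl
      rw [ev_zero hd hFΩ] at hs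
      apply hW w hw
      funext i
      apply hinj
      have := congrFun hs i
      simpa using this.symm
    constructor
    · intro h
      apply hs0
      have h1 := htt s
      rw [h] at h1
      funext i
      have h2 := congrFun h1 i
      simp only [Function.comp_apply, Pi.zero_apply, map_zero, Pi.smul_apply, smul_eq_mul] at h2
      exact (mul_eq_zero.1 h2.symm).resolve_left hb
    · refine ⟨w, hw, par_of_map φ0 hinj ?_⟩
      rw [← ev_mapF, htt s, ev_smul hFΩ, hs]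
      exact Par.smul_left _ _
  have hcov : ∀ x : Fin n → Ω, x ≠ 0 → ∀ w ∈ W, Par (ev (mapF φ0 F) x) (φ0 ∘ w) →
      ∃ t ∈ T, Par x (φ0 ∘ t) := by
    intro x hx w hw hpar
    have hw0 : (φ0 ∘ w) ≠ 0 := by
      intro h
      apply hW w hw
      funext i
      apply hinj
      have := congrFun h i
      simpa using this
    obtain ⟨k, hk⟩ := Function.ne_iff.1 hw0
    simp only [Pi.zero_apply] at hk
    have hFx : ev (mapF φ0 F) x ≠ 0 := fun h => hx (h0Ω x h)
    set l : Ω := ev (mapF φ0 F) x k / (φ0 ∘ w) k with hl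
    have hl1 : ev (mapF φ0 F) x = l • (φ0 ∘ w) := by
      funext i
      rw [Pi.smul_apply, smul_eq_mul, hl]
      have := hpar i k
      field_simp
      rw [this]
    have hl0 : l ≠ 0 := by
      intro h
      rw [h, zero_smul] at hl1
      exact hFx hl1
    obtain ⟨c, hc⟩ := IsAlgClosed.exists_pow_nat_eq l⁻¹ (by omega : 0 < d)
    have hc0 : c ≠ 0 := by
      rintro rfl
      rw [zero_pow (by omega)] at hc
      exact inv_ne_zero hl0 hc.symm
    have hs : ev (mapF φ0 F) (c • x) = φ0 ∘ w := by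
      rw [ev_smul hFΩ, hl1, hc, smul_smul, inv_mul_cancel₀ hl0, one_smul]
    refine ⟨tt (c • x), ?_, ?_⟩
    · rw [hT, Finset.mem_biUnion]
      exact ⟨w, hw, Finset.mem_image_of_mem _ ((Set.Finite.mem_toFinset _).2 hs)⟩
    · rw [htt, smul_smul]
      exact (Par.smul_left _ _).symm
  -- the polynomials
  set q : Fin n → (T → Fin n × Fin n) → MvPolynomial (Fin n) (𝓞 Ω) := fun k f =>
    MvPolynomial.X k * ∏ t : T, (MvPolynomial.X (f t).1 * MvPolynomial.C ((t : Fin n → 𝓞 Ω) (f t).2) -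
      MvPolynomial.X (f t).2 * MvPolynomial.C ((t : Fin n → 𝓞 Ω) (f t).1)) with hq
  set g : (Fin n → 𝓞 Ω) → Fin n × Fin n → MvPolynomial (Fin n) (𝓞 Ω) := fun w p =>
    F p.1 * MvPolynomial.C (w p.2) - F p.2 * MvPolynomial.C (w p.1) with hg
  have hnul : ∀ (w : W) (k : Fin n) (f : T → Fin n × Fin n), ∃ D : ℕ, D ≠ 0 ∧
      ∀ (κ : Type) [Field κ] (φ : 𝓞 Ω →+* κ), (D : κ) ≠ 0 → ∀ z : Fin n → κ,
        (∀ p, MvPolynomial.eval₂ φ z (g w p) = 0) → MvPolynomial.eval₂ φ z (q k f) = 0 := by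
    intro w k f
    refine hNUL Ω n (Fin n × Fin n) (g w) (q k f) ?_
    intro x hx
    by_cases hx0 : x = 0
    · rw [hq]
      simp only [map_mul, MvPolynomial.aeval_X, hx0, Pi.zero_apply, zero_mul]
    · obtain ⟨t, ht, hpar⟩ := hcov x hx0 w w.2 (by
        intro i j
        have := hx (i, j)
        simp only [hg, map_sub, map_mul, MvPolynomial.aeval_C] at this
        rw [ev_mapF_eq, ev_mapF_eq]
        exact sub_eq_zero.1 this)
      rw [hq]
      simp only [map_mul, map_prod]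
      rw [Finset.prod_eq_zero (Finset.mem_univ (⟨t, ht⟩ : T)), mul_zero]
      simp only [map_sub, map_mul, MvPolynomial.aeval_X, MvPolynomial.aeval_C]
      exact sub_eq_zero.2 (hpar _ _)
  choose D1 hD1 hD1' using hnul
  have hnz : ∀ t : T, ∃ N : ℕ, N ≠ 0 ∧ ∃ i, (t : Fin n → 𝓞 Ω) i ∣ (N : 𝓞 Ω) := by
    intro t
    obtain ⟨i, hi⟩ := Function.ne_iff.1 (hTprop t t.2).1
    obtain ⟨N, hN, hd⟩ := dvd_int _ hi
    exact ⟨N, hN, i, hd⟩
  choose N hN hNd using hnz
  refine ⟨T, (∏ w : W, ∏ k : Fin n, ∏ f : T → Fin n × Fin n, D1 w k f) * ∏ t : T, N t, ?_, hTprop, ?_⟩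
  · refine mul_ne_zero ?_ (Finset.prod_ne_zero_iff.2 fun t _ => hN t)
    exact Finset.prod_ne_zero_iff.2 fun w _ => Finset.prod_ne_zero_iff.2 fun k _ =>
      Finset.prod_ne_zero_iff.2 fun f _ => hD1 w k f
  · intro κ _ φ hDk
    push_cast at hDk
    have hDa := left_ne_zero_of_mul hDk
    have hDb := right_ne_zero_of_mul hDk
    constructor
    · intro t ht h
      have h1 := Finset.prod_ne_zero_iff.1 hDb ⟨t, ht⟩ (Finset.mem_univ _)
      obtain ⟨i, hi⟩ := hNd ⟨t, ht⟩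
      apply h1
      have h2 := map_dvd φ hi
      rw [map_natCast] at h2
      have h3 : φ (t i) = 0 := congrFun h i
      simp only [h3, zero_dvd_iff] at h2
      exact h2
    · intro z hz w hw hpar
      by_contra hcon
      push Not at hcon
      obtain ⟨k, hk⟩ := Function.ne_iff.1 hz
      simp only [Pi.zero_apply] at hk
      have hch : ∀ t : T, ∃ p : Fin n × Fin n,
          z p.1 * φ ((t : Fin n → 𝓞 Ω) p.2) ≠ z p.2 * φ ((t : Fin n → 𝓞 Ω) p.1) := by
        intro t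
        have := hcon t t.2
        unfold Par at this
        push Not at this
        obtain ⟨i, j, hij⟩ := this
        exact ⟨(i, j), hij⟩
      choose f hf using hch
      have hD2 : ((D1 ⟨w, hw⟩ k f : ℕ) : κ) ≠ 0 := by
        have h1 := Finset.prod_ne_zero_iff.1 hDa ⟨w, hw⟩ (Finset.mem_univ _)
        have h2 := Finset.prod_ne_zero_iff.1 h1 k (Finset.mem_univ _)
        exact Finset.prod_ne_zero_iff.1 h2 f (Finset.mem_univ _)
      have h3 := hD1' ⟨w, hw⟩ k f κ φ hD2 z (by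
        intro p
        simp only [hg, MvPolynomial.eval₂_sub, MvPolynomial.eval₂_mul, MvPolynomial.eval₂_C]
        rw [← ev_mapF_eq', ← ev_mapF_eq']
        exact sub_eq_zero.2 (hpar _ _))
      rw [hq] at h3
      simp only [MvPolynomial.eval₂_mul, MvPolynomial.eval₂_X, MvPolynomial.eval₂_prod,
        MvPolynomial.eval₂_sub, MvPolynomial.eval₂_C] at h3
      rcases mul_eq_zero.1 h3 with h4 | h4
      · exact hk h4
      · obtain ⟨t, -, ht⟩ := Finset.prod_eq_zero_iff.1 h4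
        exact hf t (sub_eq_zero.1 ht)

end Pool.Agent.T4h89.OM
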