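import Pool.Agent.T4h89.OM.T_FIN
import Pool.Agent.T4h89.OM.T_NUL
import Pool.Agent.T4h89.OM.T_STEP
import Pool.Agent.T4h89.OM.T_GOOD
import Pool.Agent.T4h89.OM.T_GDQ
import Pool.Agent.T4h89.OM.T_DNM
import Pool.Agent.T4h89.OM.T_FRB
import Pool.Agent.T4h89.OM.T_CHO
import Pool.Agent.T4h89.OM.T_ENT
import Pool.Agent.T4h89.OM.T_DEN
import Pool.Agent.T4h89.OM.T_CORE
import Pool.Agent.T4h89.OM.T_CRIT
import Pool.Agent.T4h89.OM.T_CYC
import Pool.Agent.T4h89.OM.T_SPR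
import Pool.Agent.T4h89.OM.T_CNG
import Pool.Agent.T4h89.OM.T_SCL
import Pool.Agent.T4h89.OM.T_SCG
import Pool.Agent.T4h89.OM.T_MAIN1

/-!
# Orbits of a point avoiding another point modulo primes: assembly of the first result
-/

set_option autoImplicit false

namespace Pool.Agent.T4h89.OM

theorem step' : S_STEP := t_STEP t_FIN t_NUL

theorem good' : S_GOOD := t_GOOD t_NUL

theorem gdq' : S_GDQ := t_GDQ good'

theorem core' : S_CORE := t_CORE step' good' (t_FRB t_DNM) t_CHO t_ENT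

theorem main1 : S_MAIN1 :=
  t_MAIN1 (t_CRIT core') (t_CYC core' step' gdq') (t_SPR gdq') gdq' t_CNG t_SCL (SCG.t_SCG t_DNM) t_DEN

theorem half' : S_HALF := t_HALF (t_CRIT core') gdq' t_CNG t_SCL t_DEN

end Pool.Agent.T4h89.OM
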