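import Pool.Agent.T4h89.OM.Stm

set_option autoImplicit false

open NumberField IsDedekindDomain Filter

namespace Pool.Agent.T4h89.OM

theorem t_MAIN2 (h1 : S_MAIN1) (h2 : S_HALF) (h3 : S_TRM) (h4 : S_TRI) : S_MAIN2 := by
  intro K _ _ n d hd F hF γ₁ γ₂ hγ₁ hγ₂ hav
  have hmor : IsMor d F := h3 K n d (by omega) F hF
  by_cases hpre : ∃ m m' : ℕ, m < m' ∧ Par ((ev F)^[m] γ₂) ((ev F)^[m'] γ₂)
  · exact h1 K n d (by omega) F hmor γ₁ γ₂ hγ₁ hγ₂ hav (Or.inl hpre)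
  · refine h2 K n d (by omega) F hmor γ₁ γ₂ hγ₁ hγ₂ hav ?_
    refine h4 K n d hd F hF γ₂ hγ₂ fun i j hij hp => hpre ⟨i, j, hij, hp⟩

end Pool.Agent.T4h89.OM
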