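import Pool.Agent.T4h89.OM.Stm

/-!
# Project OM, task PER
-/

set_option autoImplicit false

open Polynomial

noncomputable section

namespace Pool.Agent.T4h89.OM

theorem t_PER : S_PER := by
  intro Ω _ _ _ f hf
  classical
  obtain ⟨g, hg⟩ : ∃ g : Polynomial Ω, g = f - X := ⟨_, rfl⟩
  have hgd : g.natDegree = f.natDegree := by
    rw [hg]
    refine natDegree_sub_eq_left_of_natDegree_lt ?_
    rw [natDegree_X]
    omega
  have hg0 : g ≠ 0 := by
    intro h
    rw [h, natDegree_zero] at hgd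
    omega
  have hroot : ∀ x, g.eval x = 0 → f.eval x = x := by
    intro x hx
    rw [hg, eval_sub, eval_X] at hx
    exact sub_eq_zero.1 hx
  obtain ⟨δ, hδ⟩ := IsAlgClosed.exists_root g (by
    rw [degree_eq_natDegree hg0, hgd]
    exact_mod_cast (by omega : f.natDegree ≠ 0))
  by_cases hcase : ∃ x, g.eval x = 0 ∧ x ≠ δ
  · obtain ⟨x, hx, hxδ⟩ := hcase
    refine ⟨x, δ, hxδ, ?_, ?_⟩
    · rw [hroot x hx, hroot x hx]
    · rw [hroot δ hδ, hroot δ hδ]
  push Not at hcase
  have hs := IsAlgClosed.splits g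
  have hcard := hs.natDegree_eq_card_roots
  have hrep : g.roots = Multiset.replicate f.natDegree δ := by
    refine Multiset.eq_replicate.2 ⟨by rw [← hcard, hgd], fun b hb => ?_⟩
    exact hcase b (mem_roots hg0 |>.1 hb)
  have hprod := hs.eq_prod_roots
  rw [hrep, Multiset.map_replicate, Multiset.prod_replicate] at hprod
  obtain ⟨a, ha⟩ : ∃ a, a = g.leadingCoeff := ⟨_, rfl⟩
  have ha0 : a ≠ 0 := by
    rw [ha]
    exact leadingCoeff_ne_zero.2 hg0
  have hev : ∀ x, f.eval x = x + a * (x - δ) ^ f.natDegree := by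
    intro x
    have h1 := congrArg (eval x) hprod
    rw [hg, eval_sub, eval_X, eval_mul, eval_C, eval_pow, eval_sub, eval_X, eval_C, ← hg, ← ha]
      at h1
    linear_combination h1
  obtain ⟨ζ, hζ⟩ := IsAlgClosed.exists_pow_nat_eq (-1 : Ω) (n := f.natDegree) (by omega)
  have hζ1 : ζ - 1 ≠ 0 := by
    intro h
    rw [sub_eq_zero.1 h, one_pow] at hζ
    have h2 : (2 : Ω) = 0 := by linear_combination hζ
    exact two_ne_zero h2
  obtain ⟨y, hy⟩ := IsAlgClosed.exists_pow_nat_eq ((ζ - 1) / a) (n := f.natDegree - 1) (by omega)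
  have hy0 : y ≠ 0 := by
    rintro rfl
    rw [zero_pow (by omega)] at hy
    exact div_ne_zero hζ1 ha0 hy.symm
  have hyd : a * y ^ f.natDegree = (ζ - 1) * y := by
    have h1 : y ^ f.natDegree = y ^ (f.natDegree - 1) * y := by
      rw [← pow_succ]
      congr 1
      omega
    rw [h1, hy]
    field_simp
  refine ⟨δ + y, δ, ?_, ?_, ?_⟩
  · intro h
    exact hy0 (by linear_combination h)
  · have h1 : f.eval (δ + y) = δ + y * ζ := by
      rw [hev, add_sub_cancel_left, hyd]
      ring
    rw [h1, hev, add_sub_cancel_left, mul_pow, hζ]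
    linear_combination -hyd
  · rw [hroot δ hδ, hroot δ hδ]

end Pool.Agent.T4h89.OM
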