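import Pool.Agent.T4h89.OM.Lem

/-!
# Orbits of a point avoiding another point modulo primes: triangular forms
-/

set_option autoImplicit false
set_option linter.unusedSectionVars false

open NumberField IsDedekindDomain Filter

noncomputable section

namespace Pool.Agent.T4h89.OM

namespace TRI

section poly

open Polynomial

variable {K : Type} [Field K] {n d : ℕ}

lemma deg_of_mem {p : MvPolynomial (Fin n) K} (hp : p.IsHomogeneous d) {m : Fin n →₀ ℕ}
    (hm : m ∈ p.support) : ∑ j, m j = d := by
  have h1 := hp (MvPolynomial.mem_support_iff.1 hm)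
  rw [← Finsupp.degree_eq_sum, Finsupp.degree_eq_weight_one]
  exact h1

lemma eq_single {m : Fin n →₀ ℕ} (hm : ∑ j, m j = d) (i : Fin n) (hi : m i = d) :
    m = Finsupp.single i d := by
  ext j
  by_cases hj : j = i
  · subst hj
    rw [Finsupp.single_eq_same, hi]
  · rw [Finsupp.single_eq_of_ne hj]
    have h1 : ∑ j, m j = m i + ∑ j ∈ Finset.univ.erase i, m j :=
      (Finset.add_sum_erase _ _ (Finset.mem_univ i)).symm
    have h2 : ∑ j ∈ Finset.univ.erase i, m j = 0 := by omega
    exact (Finset.sum_eq_zero_iff.1 h2) j (Finset.mem_erase.2 ⟨hj, Finset.mem_univ j⟩)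

/-- the value depends only on the coordinates `j ≤ i` -/
lemma eval_local {F : Fin n → MvPolynomial (Fin n) K} (hF : Tri d F) {z z' : Fin n → K} {i : Fin n}
    (h : ∀ j ≤ i, z j = z' j) : MvPolynomial.eval z (F i) = MvPolynomial.eval z' (F i) := by
  rw [MvPolynomial.eval_eq', MvPolynomial.eval_eq']
  refine Finset.sum_congr rfl fun m hm => ?_
  congr 1
  refine Finset.prod_congr rfl fun j _ => ?_
  by_cases hj : m j = 0
  · rw [hj, pow_zero, pow_zero]
  · rw [h j (hF.vars i j ((MvPolynomial.mem_vars_iff_mem_support j).2 ⟨m, hm, Finsupp.mem_support_iff.2 hj⟩))]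

/-- the value at a vector whose coordinates `j < i` vanish -/
lemma eval_lead {F : Fin n → MvPolynomial (Fin n) K} (hF : Tri d F) {z : Fin n → K} {i : Fin n}
    (h : ∀ j < i, z j = 0) :
    MvPolynomial.eval z (F i) = (F i).coeff (Finsupp.single i d) * z i ^ d := by
  rw [MvPolynomial.eval_eq']
  rw [Finset.sum_eq_single (Finsupp.single i d)]
  · congr 1
    rw [Finset.prod_eq_single i]
    · rw [Finsupp.single_eq_same]
    · intro j _ hj
      rw [Finsupp.single_eq_of_ne hj, pow_zero]
    · intro h
      exact absurd (Finset.mem_univ i) h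
  · intro m hm hne
    have hsum := deg_of_mem (hF.hom i) hm
    have hmi : m i ≠ d := fun h => hne (eq_single hsum i h)
    have hex : ∃ j, j ≠ i ∧ m j ≠ 0 := by
      by_contra hcon
      push Not at hcon
      apply hmi
      rw [← hsum, Finset.sum_eq_single i]
      · intro j _ hj
        exact hcon j hj
      · intro h
        exact absurd (Finset.mem_univ i) h
    obtain ⟨j, hj, hmj⟩ := hex
    have hji : j ≤ i := hF.vars i j ((MvPolynomial.mem_vars_iff_mem_support j).2 ⟨m, hm, Finsupp.mem_support_iff.2 hmj⟩)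
    rw [Finset.prod_eq_zero (Finset.mem_univ j), mul_zero]
    rw [h j (lt_of_le_of_ne hji hj), zero_pow hmj]
  · intro hns
    rw [MvPolynomial.notMem_support_iff.1 hns, zero_mul]

/-- `F_i` as a polynomial in the coordinate `i` -/
def uni (F : Fin n → MvPolynomial (Fin n) K) (i : Fin n) (z : Fin n → K) : K[X] :=
  MvPolynomial.aeval (fun j => if j = i then (X : K[X]) else C (z j)) (F i)

lemma eval_uni (F : Fin n → MvPolynomial (Fin n) K) (i : Fin n) (z : Fin n → K) (t : K) :
    (uni F i z).eval t = MvPolynomial.eval (Function.update z i t) (F i) := by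
  unfold uni
  rw [MvPolynomial.aeval_def, MvPolynomial.eval₂_eq', MvPolynomial.eval_eq', eval_finsetSum]
  refine Finset.sum_congr rfl fun m _ => ?_
  rw [eval_mul, eval_prod]
  congr 1
  · rw [algebraMap_eq, eval_C]
  · refine Finset.prod_congr rfl fun j _ => ?_
    rw [eval_pow]
    congr 1
    by_cases hj : j = i
    · subst hj
      rw [if_pos rfl, eval_X, Function.update_self]
    · rw [if_neg hj, eval_C, Function.update_of_ne hj]

lemma uni_eq (F : Fin n → MvPolynomial (Fin n) K) (i : Fin n) (z : Fin n → K) :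
    uni F i z = ∑ m ∈ (F i).support,
      C ((F i).coeff m * ∏ j, (if j = i then 1 else z j ^ m j)) * X ^ (m i) := by
  unfold uni
  rw [MvPolynomial.aeval_def, MvPolynomial.eval₂_eq']
  refine Finset.sum_congr rfl fun m _ => ?_
  rw [algebraMap_eq, C_mul, mul_assoc]
  congr 1
  have h1 : ∀ j : Fin n, (if j = i then (X : K[X]) else C (z j)) ^ m j =
      C (if j = i then 1 else z j ^ m j) * (if j = i then X ^ (m i) else 1) := by
    intro j
    by_cases hj : j = i
    · subst hj
      simp
    · simp [hj]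
  rw [Finset.prod_congr rfl fun j _ => h1 j, Finset.prod_mul_distrib, ← map_prod]
  congr 1
  rw [Finset.prod_ite_eq' Finset.univ i, if_pos (Finset.mem_univ i)]

lemma natDegree_uni_le {F : Fin n → MvPolynomial (Fin n) K} (hF : Tri d F) (i : Fin n)
    (z : Fin n → K) : (uni F i z).natDegree ≤ d := by
  rw [uni_eq]
  refine natDegree_sum_le_of_forall_le _ _ fun m hm => ?_
  refine (natDegree_C_mul_X_pow_le _ _).trans ?_
  rw [← deg_of_mem (hF.hom i) hm]
  exact Finset.single_le_sum (f := fun j => m j) (fun _ _ => Nat.zero_le _) (Finset.mem_univ i)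

lemma coeff_uni {F : Fin n → MvPolynomial (Fin n) K} (hF : Tri d F) (i : Fin n) (z : Fin n → K) :
    (uni F i z).coeff d = (F i).coeff (Finsupp.single i d) := by
  rw [uni_eq, finsetSum_coeff, Finset.sum_eq_single (Finsupp.single i d)]
  · rw [Finsupp.single_eq_same, coeff_C_mul_X_pow, if_pos rfl]
    have h1 : ∏ j, (if j = i then 1 else z j ^ (Finsupp.single i d) j) = (1 : K) := by
      refine Finset.prod_eq_one fun j _ => ?_
      by_cases hj : j = i
      · rw [if_pos hj]
      · rw [if_neg hj, Finsupp.single_eq_of_ne hj, pow_zero]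
    rw [h1, mul_one]
  · intro m hm hne
    rw [coeff_C_mul_X_pow, if_neg]
    intro h
    exact hne (eq_single (deg_of_mem (hF.hom i) hm) i h.symm)
  · intro hns
    exact absurd (MvPolynomial.mem_support_iff.2 (hF.lead i)) hns

lemma natDegree_uni {F : Fin n → MvPolynomial (Fin n) K} (hF : Tri d F) (i : Fin n) (z : Fin n → K)
    {l : K} (hl : l ≠ 0) : (C l * uni F i z).natDegree = d := by
  rw [natDegree_C_mul hl]
  refine natDegree_eq_of_le_of_coeff_ne_zero (natDegree_uni_le hF i z) ?_
  rw [coeff_uni hF]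
  exact hF.lead i

end poly

section val

variable {K : Type} [Field K] [NumberField K] {n d : ℕ}

/-- integral at `v` and congruent -/
def R (v : HeightOneSpectrum (𝓞 K)) (a b : K) : Prop :=
  v.valuation K a ≤ 1 ∧ v.valuation K b ≤ 1 ∧ v.valuation K (a - b) < 1

lemma R_refl {v : HeightOneSpectrum (𝓞 K)} {a : K} (h : v.valuation K a ≤ 1) : R v a a :=
  ⟨h, h, by rw [sub_self, map_zero]; exact zero_lt_one⟩

lemma R_trans {v : HeightOneSpectrum (𝓞 K)} {a b c : K} (h : R v a b) (h' : R v b c) : R v a c := by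
  refine ⟨h.1, h'.2.1, ?_⟩
  have : a - c = (a - b) + (b - c) := by ring
  rw [this]
  exact Valuation.map_add_lt _ h.2.2 h'.2.2

lemma R_add {v : HeightOneSpectrum (𝓞 K)} {a b a' b' : K} (h : R v a b) (h' : R v a' b') :
    R v (a + a') (b + b') := by
  refine ⟨Valuation.map_add_le _ h.1 h'.1, Valuation.map_add_le _ h.2.1 h'.2.1, ?_⟩
  have : a + a' - (b + b') = (a - b) + (a' - b') := by ring
  rw [this]
  exact Valuation.map_add_lt _ h.2.2 h'.2.2

lemma mul_lt {v : HeightOneSpectrum (𝓞 K)} {a b : K} (h : v.valuation K a < 1)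
    (h' : v.valuation K b ≤ 1) : v.valuation K (a * b) < 1 := by
  rw [map_mul]
  calc v.valuation K a * v.valuation K b ≤ v.valuation K a * 1 := mul_le_mul_right h' _
    _ < 1 := by rw [mul_one]; exact h

lemma R_mul {v : HeightOneSpectrum (𝓞 K)} {a b a' b' : K} (h : R v a b) (h' : R v a' b') :
    R v (a * a') (b * b') := by
  refine ⟨?_, ?_, ?_⟩
  · rw [map_mul]
    exact mul_le_one' h.1 h'.1
  · rw [map_mul]
    exact mul_le_one' h.2.1 h'.2.1
  · have : a * a' - b * b' = (a - b) * a' + (a' - b') * b := by ring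
    rw [this]
    exact Valuation.map_add_lt _ (mul_lt h.2.2 h'.1) (mul_lt h'.2.2 h.2.1)

lemma R_pow {v : HeightOneSpectrum (𝓞 K)} {a b : K} (h : R v a b) (m : ℕ) :
    R v (a ^ m) (b ^ m) := by
  induction m with
  | zero =>
    rw [pow_zero, pow_zero]
    exact R_refl (le_of_eq (map_one _))
  | succ m ih =>
    rw [pow_succ, pow_succ]
    exact R_mul ih h

lemma R_prod {v : HeightOneSpectrum (𝓞 K)} {ι : Type} (s : Finset ι) {f g : ι → K}
    (h : ∀ i ∈ s, R v (f i) (g i)) : R v (∏ i ∈ s, f i) (∏ i ∈ s, g i) := by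
  classical
  induction s using Finset.induction_on with
  | empty =>
    rw [Finset.prod_empty, Finset.prod_empty]
    exact R_refl (le_of_eq (map_one _))
  | insert a s ha ih =>
    rw [Finset.prod_insert ha, Finset.prod_insert ha]
    exact R_mul (h a (Finset.mem_insert_self a s)) (ih fun i hi => h i (Finset.mem_insert_of_mem hi))

lemma R_sum {v : HeightOneSpectrum (𝓞 K)} {ι : Type} (s : Finset ι) {f g : ι → K}
    (h : ∀ i ∈ s, R v (f i) (g i)) : R v (∑ i ∈ s, f i) (∑ i ∈ s, g i) := by
  classical
  induction s using Finset.induction_on with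
  | empty =>
    rw [Finset.sum_empty, Finset.sum_empty]
    exact R_refl (by rw [map_zero]; exact zero_le_one)
  | insert a s ha ih =>
    rw [Finset.sum_insert ha, Finset.sum_insert ha]
    exact R_add (h a (Finset.mem_insert_self a s)) (ih fun i hi => h i (Finset.mem_insert_of_mem hi))

/-- the normalized map -/
def G (F : Fin n → MvPolynomial (Fin n) K) (l : K) (z : Fin n → K) : Fin n → K :=
  fun i => l * MvPolynomial.eval z (F i)

lemma R_G {v : HeightOneSpectrum (𝓞 K)} {F : Fin n → MvPolynomial (Fin n) K} {l : K}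
    (hc : ∀ i, ∀ m ∈ (F i).support, v.valuation K (l * (F i).coeff m) ≤ 1) {z w : Fin n → K}
    (h : ∀ j, R v (z j) (w j)) (i : Fin n) : R v (G F l z i) (G F l w i) := by
  unfold G
  rw [MvPolynomial.eval_eq', MvPolynomial.eval_eq', Finset.mul_sum, Finset.mul_sum]
  refine R_sum _ fun m hm => ?_
  rw [← mul_assoc, ← mul_assoc]
  exact R_mul (R_refl (hc i m hm)) (R_prod _ fun j _ => R_pow (h j) _)

lemma R_G_iter {v : HeightOneSpectrum (𝓞 K)} {F : Fin n → MvPolynomial (Fin n) K} {l : K}
    (hc : ∀ i, ∀ m ∈ (F i).support, v.valuation K (l * (F i).coeff m) ≤ 1) {z w : Fin n → K}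
    (h : ∀ j, R v (z j) (w j)) (m : ℕ) (i : Fin n) : R v ((G F l)^[m] z i) ((G F l)^[m] w i) := by
  induction m generalizing i with
  | zero => exact h i
  | succ m ih =>
    rw [Function.iterate_succ_apply', Function.iterate_succ_apply']
    exact R_G hc ih i

lemma fin_gt (x : K) : {v : HeightOneSpectrum (𝓞 K) | ¬ v.valuation K x ≤ 1}.Finite := by
  have h := HeightOneSpectrum.Support.finite (𝓞 K) x
  refine h.subset fun v hv => ?_
  exact not_le.1 hv

lemma fin_lt {x : K} (hx : x ≠ 0) : {v : HeightOneSpectrum (𝓞 K) | v.valuation K x < 1}.Finite := by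
  refine (fin_gt x⁻¹).subset fun v hv => ?_
  have hv' : v.valuation K x < 1 := hv
  intro h
  have h1 : v.valuation K x * v.valuation K x⁻¹ = 1 := by
    rw [← map_mul, mul_inv_cancel₀ hx, map_one]
  have h2 : v.valuation K x * v.valuation K x⁻¹ < 1 := by
    calc v.valuation K x * v.valuation K x⁻¹ ≤ v.valuation K x * 1 := mul_le_mul_right h _
      _ < 1 := by rw [mul_one]; exact hv'
  exact absurd h1 (ne_of_lt h2)

/-- the exceptional prime ideals for the integrality -/
lemma fin_exc (F : Fin n → MvPolynomial (Fin n) K) (l : K) (z : Fin n → K) :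
    {v : HeightOneSpectrum (𝓞 K) | ¬ ((∀ i, ∀ m ∈ (F i).support,
      v.valuation K (l * (F i).coeff m) ≤ 1) ∧ ∀ j, v.valuation K (z j) ≤ 1)}.Finite := by
  have h1 : (⋃ i : Fin n, ⋃ m ∈ (F i).support,
      {v : HeightOneSpectrum (𝓞 K) | ¬ v.valuation K (l * (F i).coeff m) ≤ 1}).Finite :=
    Set.finite_iUnion fun i => Set.Finite.biUnion (Finset.finite_toSet _) fun m _ => fin_gt _
  have h2 : (⋃ j : Fin n, {v : HeightOneSpectrum (𝓞 K) | ¬ v.valuation K (z j) ≤ 1}).Finite :=
    Set.finite_iUnion fun j => fin_gt _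
  refine (h1.union h2).subset fun v hv => ?_
  by_contra hcon
  apply hv
  constructor
  · intro i m hm
    by_contra h
    exact hcon (Or.inl (Set.mem_iUnion.2 ⟨i, Set.mem_iUnion₂.2 ⟨m, hm, h⟩⟩))
  · intro j
    by_contra h
    exact hcon (Or.inr (Set.mem_iUnion.2 ⟨j, h⟩))

lemma exists_notMem (hUEQ : S_UEQ) (bad : Finset (HeightOneSpectrum (𝓞 K))) : ∃ v, v ∉ bad := by
  have h1 : ∀ i : ℕ, (fun x : K => (Polynomial.X ^ 2 : Polynomial K).eval x)^[i] 2 =
      ((2 ^ (2 ^ i) : ℕ) : K) := by
    intro i
    induction i with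
    | zero => simp
    | succ i ih =>
      rw [Function.iterate_succ_apply', ih]
      simp only [Polynomial.eval_pow, Polynomial.eval_X]
      push_cast
      rw [← pow_mul, pow_succ]
  obtain ⟨v, hv, _⟩ := hUEQ K (Polynomial.X ^ 2) (by rw [Polynomial.natDegree_X_pow]) 2 (by
    intro i j hij h
    rw [h1, h1] at h
    have h2 := Nat.cast_injective h
    have h3 := Nat.pow_right_injective le_rfl h2
    have h4 := Nat.pow_right_injective le_rfl h3
    omega) bad
  exact ⟨v, hv⟩

/-- congruence of the normalized coordinates -/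
lemma cong_imp {v : HeightOneSpectrum (𝓞 K)} {x g : Fin n → K} {i0 : Fin n} (hx : x i0 ≠ 0)
    (hg : g i0 ≠ 0) (h1 : ∀ j, v.valuation K (x j / x i0) ≤ 1)
    (h2 : ∀ j, v.valuation K (g j / g i0) ≤ 1) (h : Cong v x g) (j : Fin n) :
    R v (x j / x i0) (g j / g i0) := by
  obtain ⟨a, b, ha, ⟨i1, hi1⟩, hb, ⟨i2, hi2⟩, hab⟩ := h
  have e1 : ∀ i, a * x i = (a * x i0) * (x i / x i0) := fun i => by field_simp
  have e2 : ∀ i, b * g i = (b * g i0) * (g i / g i0) := fun i => by field_simp
  have hA : v.valuation K (a * x i0) = 1 := by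
    refine le_antisymm (ha i0) ?_
    rw [← hi1, e1 i1, map_mul (v.valuation K) (a * x i0)]
    calc v.valuation K (a * x i0) * v.valuation K (x i1 / x i0)
        ≤ v.valuation K (a * x i0) * 1 := mul_le_mul_right (h1 i1) _
      _ = _ := mul_one _
  refine ⟨h1 j, h2 j, ?_⟩
  have e3 : (a * x i0) * (x j / x i0 - g j / g i0) =
      (a * x j - b * g j) - (a * x i0 - b * g i0) * (g j / g i0) := by
    field_simp
    ring
  have h4 : v.valuation K ((a * x i0) * (x j / x i0 - g j / g i0)) < 1 := by
    rw [e3]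
    exact Valuation.map_sub_lt _ (hab j) (mul_lt (hab i0) (h2 j))
  rw [map_mul, hA, one_mul] at h4
  exact h4

end val

section main

variable {K : Type} [Field K] [NumberField K] {n d : ℕ}

/-- the same coordinates `j < k` -/
def pre (k : ℕ) (u w : Fin n → K) : Prop := ∀ j : Fin n, (j : ℕ) < k → u j = w j

lemma pre_symm {k : ℕ} {u w : Fin n → K} (h : pre k u w) : pre k w u := fun j hj => (h j hj).symm

lemma pre_trans {k : ℕ} {u w z : Fin n → K} (h : pre k u w) (h' : pre k w z) : pre k u z :=
  fun j hj => (h j hj).trans (h' j hj)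

lemma pre_G {F : Fin n → MvPolynomial (Fin n) K} (hF : Tri d F) {l : K} {k : ℕ} {u w : Fin n → K}
    (h : pre k u w) : pre k (G F l u) (G F l w) := by
  intro j hj
  unfold G
  rw [eval_local hF fun i hi => h i (lt_of_le_of_lt (Fin.le_def.1 hi) hj)]

lemma pre_G_iter {F : Fin n → MvPolynomial (Fin n) K} (hF : Tri d F) {l : K} {k : ℕ}
    {u w : Fin n → K} (h : pre k u w) (m : ℕ) : pre k ((G F l)^[m] u) ((G F l)^[m] w) := by
  induction m with
  | zero => exact h
  | succ m ih =>
    rw [Function.iterate_succ_apply', Function.iterate_succ_apply']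
    exact pre_G hF ih

/-- the normalized version of the theorem -/
lemma core (hUEQ : S_UEQ) (hd : 2 ≤ d) {F : Fin n → MvPolynomial (Fin n) K} (hF : Tri d F) {l : K}
    (hl : l ≠ 0) (y0 : Fin n → K)
    (hinj : ∀ a b : ℕ, a < b → (G F l)^[a] y0 ≠ (G F l)^[b] y0)
    (bad : Finset (HeightOneSpectrum (𝓞 K))) :
    ∃ v ∉ bad, (∀ i, ∀ m ∈ (F i).support, v.valuation K (l * (F i).coeff m) ≤ 1) ∧
      (∀ j, v.valuation K (y0 j) ≤ 1) ∧
      ∀ m : ℕ, 1 ≤ m → ¬ ∀ j, R v ((G F l)^[m] y0 j) (y0 j) := by
  classical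
  set y : ℕ → Fin n → K := fun m => (G F l)^[m] y0 with hy
  have hyadd : ∀ a b, y (a + b) = (G F l)^[a] (y b) := fun a b => Function.iterate_add_apply _ _ _ _
  have hn : ∃ k, ∀ a b : ℕ, a < b → ¬ pre k (y a) (y b) :=
    ⟨n, fun a b hab h => hinj a b hab (funext fun j => h j j.2)⟩
  have hk := Nat.find_spec hn
  have hkmin : ∀ k < Nat.find hn, ¬ ∀ a b : ℕ, a < b → ¬ pre k (y a) (y b) :=
    fun k hk => Nat.find_min hn hk
  have hkn : Nat.find hn ≤ n :=
    Nat.find_min' hn (fun a b hab h => hinj a b hab (funext fun j => h j j.2))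
  have hk0 : Nat.find hn ≠ 0 := by
    intro h
    rw [h] at hk
    exact hk 0 1 one_pos fun j hj => absurd hj (Nat.not_lt_zero _)
  obtain ⟨κ, hκ⟩ := Nat.exists_eq_succ_of_ne_zero hk0
  rw [hκ] at hk hkmin hkn
  have hκn : κ < n := hkn
  have hnot := hkmin κ (Nat.lt_succ_self κ)
  have hexc := fin_exc F l y0
  by_cases hs : ∃ s : ℕ, 1 ≤ s ∧ pre κ (y s) (y 0)
  · obtain ⟨s, hs1, hs⟩ := hs
    -- periodicity
    have hper : ∀ m, pre κ (y (m + s)) (y m) := by
      intro m
      rw [hyadd m s]
      exact pre_G_iter hF hs m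
    have hper2 : ∀ i m, pre κ (y (s * i + m)) (y m) := by
      intro i
      induction i with
      | zero =>
        intro m
        rw [mul_zero, zero_add]
        exact fun _ _ => rfl
      | succ i ih =>
        intro m
        have e : s * (i + 1) + m = (s * i + m) + s := by ring
        rw [e]
        exact pre_trans (hper _) (ih m)
    set k : Fin n := ⟨κ, hκn⟩ with hkdef
    set P : ℕ → Polynomial K := fun m => Polynomial.C l * uni F k (y m) with hP
    have hPper : ∀ i m, P (s * i + m) = P m := by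
      intro i m
      apply Polynomial.funext
      intro t
      simp only [hP, Polynomial.eval_mul, Polynomial.eval_C, eval_uni]
      congr 1
      refine eval_local hF fun j hj => ?_
      by_cases hjk : j = k
      · rw [hjk, Function.update_self, Function.update_self]
      · rw [Function.update_of_ne hjk, Function.update_of_ne hjk]
        have hlt : j < k := lt_of_le_of_ne hj hjk
        exact hper2 i m j (Fin.lt_def.1 hlt)
    have hPev : ∀ m, (P m).eval (y m k) = y (m + 1) k := by
      intro m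
      simp only [hP, Polynomial.eval_mul, Polynomial.eval_C, eval_uni]
      rw [Function.update_eq_self]
      simp only [hy]
      rw [Function.iterate_succ_apply']
      rfl
    let fs : ℕ → Polynomial K := fun m => Nat.rec Polynomial.X (fun m f => (P m).comp f) m
    have hfs0 : fs 0 = Polynomial.X := rfl
    have hfss : ∀ m, fs (m + 1) = (P m).comp (fs m) := fun m => rfl
    have hfsdeg : ∀ m, (fs m).natDegree = d ^ m := by
      intro m
      induction m with
      | zero => rw [hfs0, Polynomial.natDegree_X, pow_zero]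
      | succ m ih =>
        rw [hfss, Polynomial.natDegree_comp, ih, natDegree_uni hF k _ hl, pow_succ, mul_comm]
    have hfsev : ∀ i m, (fs m).eval (y (s * i) k) = y (s * i + m) k := by
      intro i m
      induction m with
      | zero => rw [hfs0, Polynomial.eval_X, add_zero]
      | succ m ih =>
        rw [hfss, Polynomial.eval_comp, ih, ← hPper i m, hPev]
        rfl
    have hit : ∀ i : ℕ, (fun x => (fs s).eval x)^[i] (y 0 k) = y (s * i) k := by
      intro i
      induction i with
      | zero => rw [Function.iterate_zero_apply, mul_zero]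
      | succ i ih =>
        rw [Function.iterate_succ_apply', ih, hfsev, mul_add, mul_one]
    obtain ⟨v, hv, -, -, hv3⟩ := hUEQ K (fs s)
      (by
        rw [hfsdeg]
        calc 2 = 2 ^ 1 := rfl
          _ ≤ 2 ^ s := Nat.pow_le_pow_right (by norm_num) hs1
          _ ≤ d ^ s := Nat.pow_le_pow_left hd s) (y 0 k)
      (by
        intro i j hij h
        rw [hit, hit] at h
        refine hk (s * i) (s * j) (Nat.mul_lt_mul_of_pos_left hij hs1) ?_
        intro j' hj'
        rcases Nat.lt_succ_iff_lt_or_eq.1 hj' with h' | h'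
        · have h1 := hper2 i 0 j' h'
          have h2 := hper2 j 0 j' h'
          rw [add_zero] at h1 h2
          rw [h1, h2]
        · have : j' = k := Fin.ext h'
          rw [this, h]) (bad ∪ hexc.toFinset)
    rw [Finset.mem_union, not_or] at hv
    have hvint : (∀ i, ∀ m ∈ (F i).support, v.valuation K (l * (F i).coeff m) ≤ 1) ∧
        ∀ j, v.valuation K (y0 j) ≤ 1 := by
      by_contra hcon
      exact hv.2 (hexc.mem_toFinset.2 hcon)
    refine ⟨v, hv.1, hvint.1, hvint.2, ?_⟩
    intro m hm hR
    refine hv3 m hm ?_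
    rw [hit]
    have hRm : ∀ i j, R v (y (m * i) j) (y0 j) := by
      intro i
      induction i with
      | zero =>
        intro j
        rw [mul_zero]
        exact R_refl (hvint.2 j)
      | succ i ih =>
        intro j
        have e : m * (i + 1) = m * i + m := by ring
        rw [e, hyadd]
        exact R_trans (R_G_iter hvint.1 hR (m * i) j) (ih j)
    have := (hRm s k).2.2
    rw [mul_comm s m]
    exact this
  · push Not at hnot hs
    obtain ⟨a, b, hab, hpre⟩ := hnot
    have ha : 1 ≤ a := by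
      by_contra h
      have h0 : a = 0 := by omega
      subst h0
      exact hs b (by omega) (pre_symm hpre)
    have hred : ∀ m, 1 ≤ m → ∃ m', 1 ≤ m' ∧ m' < b ∧ pre κ (y m) (y m') := by
      intro m
      induction m using Nat.strong_induction_on with
      | _ m ih =>
        intro hm
        by_cases hmb : m < b
        · exact ⟨m, hm, hmb, fun _ _ => rfl⟩
        · push Not at hmb
          obtain ⟨m', h1, h2, h3⟩ := ih (m - b + a) (by omega) (by omega)
          refine ⟨m', h1, h2, pre_trans ?_ h3⟩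
          have e : m = (m - b) + b := by omega
          have h4 := pre_G_iter (l := l) hF (pre_symm hpre) (m - b)
          rw [← hyadd, ← hyadd, ← e] at h4
          exact h4
    have hne : ∀ m : ℕ, ∃ j : Fin n, 1 ≤ m → ((j : ℕ) < κ ∧ y m j - y0 j ≠ 0) := by
      intro m
      by_cases hm : 1 ≤ m
      · have h := hs m hm
        unfold pre at h
        push Not at h
        obtain ⟨j, hj1, hj2⟩ := h
        exact ⟨j, fun _ => ⟨hj1, sub_ne_zero.2 hj2⟩⟩
      · exact ⟨⟨κ, hκn⟩, fun h => absurd h hm⟩
    choose J hJ using hne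
    have hfin : (⋃ m ∈ Finset.Ico 1 b,
        {v : HeightOneSpectrum (𝓞 K) | v.valuation K (y m (J m) - y0 (J m)) < 1}).Finite :=
      Set.Finite.biUnion (Finset.finite_toSet _) fun m hm =>
        fin_lt (hJ m (Finset.mem_Ico.1 (Finset.mem_coe.1 hm)).1).2
    obtain ⟨v, hv⟩ := exists_notMem hUEQ (bad ∪ hexc.toFinset ∪ hfin.toFinset)
    rw [Finset.mem_union, Finset.mem_union, not_or, not_or] at hv
    have hvint : (∀ i, ∀ m ∈ (F i).support, v.valuation K (l * (F i).coeff m) ≤ 1) ∧
        ∀ j, v.valuation K (y0 j) ≤ 1 := by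
      by_contra hcon
      exact hv.1.2 (hexc.mem_toFinset.2 hcon)
    refine ⟨v, hv.1.1, hvint.1, hvint.2, ?_⟩
    intro m hm hR
    obtain ⟨m', h1, h2, h3⟩ := hred m hm
    apply hv.2
    rw [hfin.mem_toFinset]
    refine Set.mem_iUnion₂.2 ⟨m', Finset.mem_Ico.2 ⟨h1, h2⟩, ?_⟩
    have h4 := (hR (J m')).2.2
    have h5 := h3 (J m') (hJ m' h1).1
    change v.valuation K (y m' (J m') - y0 (J m')) < 1
    rw [← h5]
    exact h4

end main

end TRI

open TRI in
theorem t_TRI (hUEQ : S_UEQ) : S_TRI := by
  classical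
  intro K _ _ n d hd F hF γ hγ hinf bad
  -- the leading coordinate
  obtain ⟨i0, hi0, hmin⟩ : ∃ i0 : Fin n, γ i0 ≠ 0 ∧ ∀ j < i0, γ j = 0 := by
    obtain ⟨i, hi⟩ := Function.ne_iff.1 hγ
    simp only [Pi.zero_apply] at hi
    obtain ⟨i0, h1, h2⟩ := WellFounded.has_min (wellFounded_lt : WellFounded ((· < ·) : Fin n → Fin n → Prop))
      {i | γ i ≠ 0} ⟨i, hi⟩
    refine ⟨i0, h1, fun j hj => ?_⟩
    by_contra h
    exact h2 j h hj
  set x : ℕ → Fin n → K := fun m => (ev F)^[m] γ with hx
  have hxs : ∀ m, x (m + 1) = ev F (x m) := fun m => Function.iterate_succ_apply' _ _ _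
  set c : K := (F i0).coeff (Finsupp.single i0 d) with hc
  have hc0 : c ≠ 0 := hF.lead i0
  have hz : ∀ m, (∀ j < i0, x m j = 0) ∧ x m i0 ≠ 0 := by
    intro m
    induction m with
    | zero => exact ⟨hmin, hi0⟩
    | succ m ih =>
      rw [hxs]
      constructor
      · intro j hj
        change MvPolynomial.eval (x m) (F j) = 0
        rw [eval_lead hF fun i hi => ih.1 i (hi.trans hj), ih.1 j hj, zero_pow (by omega), mul_zero]
      · change MvPolynomial.eval (x m) (F i0) ≠ 0
        rw [eval_lead hF ih.1]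
        exact mul_ne_zero hc0 (pow_ne_zero _ ih.2)
  have hlead : ∀ m, x (m + 1) i0 = c * x m i0 ^ d := by
    intro m
    rw [hxs]
    change MvPolynomial.eval (x m) (F i0) = _
    rw [eval_lead hF (hz m).1]
  have hy : ∀ m, (G F c⁻¹)^[m] (fun j => γ j / γ i0) = fun j => x m j / x m i0 := by
    intro m
    induction m with
    | zero => rfl
    | succ m ih =>
      rw [Function.iterate_succ_apply', ih]
      funext i
      have e1 : (fun j => x m j / x m i0) = (x m i0)⁻¹ • x m := by
        funext j
        simp only [Pi.smul_apply, smul_eq_mul]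
        rw [div_eq_mul_inv, mul_comm]
      unfold G
      have e2 : MvPolynomial.eval (fun j => x m j / x m i0) (F i) = ((x m i0)⁻¹) ^ d * x (m + 1) i := by
        have e3 := congrFun (ev_smul hF.hom (x m i0)⁻¹ (x m)) i
        rw [← e1] at e3
        simp only [Pi.smul_apply, smul_eq_mul] at e3
        rw [hxs]
        exact e3
      rw [e2, hlead m, inv_pow]
      have h3 := (hz m).2
      have h4 := pow_ne_zero d h3
      field_simp
  obtain ⟨v, hv, h1, h2, h3⟩ := core hUEQ hd hF (inv_ne_zero hc0) (fun j => γ j / γ i0)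
    (by
      intro a b hab h
      rw [hy, hy] at h
      refine hinf a b hab fun i j => ?_
      have hi := congrFun h i
      have hj := congrFun h j
      have ha := (hz a).2
      have hb := (hz b).2
      rw [div_eq_div_iff ha hb] at hi hj
      have h5 : (x b i0 * x a i0) * (x a i * x b j) = (x b i0 * x a i0) * (x a j * x b i) := by
        calc (x b i0 * x a i0) * (x a i * x b j) = (x a i * x b i0) * (x b j * x a i0) := by ring
          _ = (x b i * x a i0) * (x a j * x b i0) := by rw [hi, hj]
          _ = _ := by ring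
      exact mul_left_cancel₀ (mul_ne_zero hb ha) h5) bad
  refine ⟨v, hv, fun m hm hcong => h3 m hm fun j => ?_⟩
  have hint : ∀ m j, v.valuation K (x m j / x m i0) ≤ 1 := by
    intro m j
    have h4 := (R_G_iter (v := v) h1 (z := fun j => γ j / γ i0) (w := fun j => γ j / γ i0)
      (fun j => R_refl (h2 j)) m j).1
    rw [hy] at h4
    exact h4
  rw [hy]
  exact cong_imp (hz m).2 hi0 (hint m) h2 hcong j

end Pool.Agent.T4h89.OM
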