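import Pool.Agent.T4h89.OM.Stm

/-! Task TRM. -/

set_option autoImplicit false

namespace Pool.Agent.T4h89.OM

theorem t_TRM : S_TRM := by
  intro K _ n d hd F hF
  refine ⟨hF.hom, fun x hx => ?_⟩
  have key : ∀ k : ℕ, ∀ i : Fin n, (i : ℕ) = k → x i = 0 := by
    intro k
    induction k using Nat.strong_induction_on with
    | _ k ih =>
      intro i hik
      have h1 := hx i
      rw [MvPolynomial.aeval_def, MvPolynomial.eval₂_eq'] at h1
      rw [Finset.sum_eq_single (Finsupp.single i d)] at h1
      · have h2 : (∏ j, x j ^ (Finsupp.single i d) j) = x i ^ d := by
          rw [Finset.prod_eq_single i]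
          · rw [Finsupp.single_eq_same]
          · intro j _ hj
            rw [Finsupp.single_eq_of_ne hj, pow_zero]
          · intro h
            exact absurd (Finset.mem_univ i) h
        rw [h2] at h1
        rcases mul_eq_zero.1 h1 with h3 | h3
        · exact absurd ((map_eq_zero _).1 h3) (hF.lead i)
        · exact pow_eq_zero_iff (by omega) |>.1 h3
      · intro m hm hne
        have hdeg : m.degree = d := by
          have h3 := hF.hom i (MvPolynomial.mem_support_iff.1 hm)
          exact (DFunLike.congr_fun Finsupp.degree_eq_weight_one m).trans h3
        have hsup : ∀ j, m j ≠ 0 → j ≤ i := by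
          intro j hj
          refine hF.vars i j ?_
          rw [MvPolynomial.mem_vars_iff_mem_support]
          exact ⟨m, hm, Finsupp.mem_support_iff.2 hj⟩
        obtain ⟨j, hji, hj⟩ : ∃ j, j < i ∧ m j ≠ 0 := by
          by_contra hcon
          push Not at hcon
          apply hne
          have h4 : ∀ j, j ≠ i → m j = 0 := by
            intro j hj
            by_contra h5
            exact h5 (hcon j (lt_of_le_of_ne (hsup j h5) hj))
          have h5 : m = Finsupp.single i (m i) := by
            ext j
            by_cases h6 : j = i
            · subst h6
              rw [Finsupp.single_eq_same]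
            · rw [h4 j h6, Finsupp.single_eq_of_ne h6]
          have h6 : m i = d := by
            rw [h5, Finsupp.degree_single] at hdeg
            exact hdeg
          rw [h5, h6]
        have h4 : x j = 0 := ih j (by rw [← hik]; exact hji) j rfl
        have h5 : (∏ j, x j ^ m j) = 0 := by
          refine Finset.prod_eq_zero (Finset.mem_univ j) ?_
          rw [h4]
          exact zero_pow hj
        rw [h5, mul_zero]
      · intro h
        rw [MvPolynomial.notMem_support_iff] at h
        exact absurd h (hF.lead i)
  funext i
  exact key i i rfl

end Pool.Agent.T4h89.OM
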