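import Pool.Agent.T4h89.OM.T_UEQ_core
import Pool.Agent.K4H56.IF.UE

/-!
Task UEQ: the unit equation over number fields gives `S_UEQ`.
-/

set_option autoImplicit false

open NumberField IsDedekindDomain

namespace Pool.Agent.T4h89.OM.UEQ

theorem ue : UE := by
  intro L _ _ S hS
  refine (Pool.Agent.K4H56.IF.su S hS).subset ?_
  rintro x ⟨h0, h1, h2⟩
  refine ⟨h0, h1, fun v hv => ⟨?_, ?_⟩⟩
  · show -WithZero.log (v.valuation L x) = 0
    rw [(h2 v hv).1, WithZero.log_one, neg_zero]
  · show -WithZero.log (v.valuation L (1 - x)) = 0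
    rw [(h2 v hv).2, WithZero.log_one, neg_zero]

theorem t_UEQ (h : S_PER) : S_UEQ := core h ue

end Pool.Agent.T4h89.OM.UEQ
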