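import Pool.Agent.T4h89.OM.Final1
import Pool.Agent.T4h89.OM.T_PER
import Pool.Agent.T4h89.OM.T_UEQ
import Pool.Agent.T4h89.OM.T_TRM
import Pool.Agent.T4h89.OM.T_TRI
import Pool.Agent.T4h89.OM.T_MAIN2

/-!
# Orbits of a point avoiding another point modulo primes: assembly of the second result
-/

set_option autoImplicit false

namespace Pool.Agent.T4h89.OM

theorem main2 : S_MAIN2 := t_MAIN2 main1 half' t_TRM (t_TRI (UEQ.t_UEQ t_PER))

end Pool.Agent.T4h89.OM
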