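import Pool.Agent.T4h89.OM.Stm3

/-!
# BON (helper94): a positive proportion of the maps modulo `p` misses a given point
-/

set_option autoImplicit false

noncomputable section

namespace Pool.Agent.T4h89.OM.BON

open MvPolynomial Pool.Agent.T4h89.OM LinearAlgebra
open scoped Classical

/-- Bonferroni inequality for one number. -/
theorem bonf (X : ℕ) : (1 : ℝ) - X.descFactorial 1 + X.descFactorial 2 / 2 -
    X.descFactorial 3 / 6 ≤ if X = 0 then 1 else 0 := by
  rcases X with _ | _ | _ | m
  · simp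
  · norm_num [Nat.descFactorial]
  · norm_num [Nat.descFactorial]
  · rw [if_neg (by omega)]
    have h1 : ((m + 1 + 1 + 1).descFactorial 1 : ℝ) = m + 3 := by
      simp [Nat.descFactorial]; ring
    have h2 : ((m + 1 + 1 + 1).descFactorial 2 : ℝ) = (m + 3) * (m + 2) := by
      simp [Nat.descFactorial]; ring
    have h3 : ((m + 1 + 1 + 1).descFactorial 3 : ℝ) = (m + 3) * (m + 2) * (m + 1) := by
      simp [Nat.descFactorial]; ring
    rw [h1, h2, h3]
    have hm : (0 : ℝ) ≤ m := Nat.cast_nonneg m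
    have : (1 : ℝ) - (m + 3) + (m + 3) * (m + 2) / 2 - (m + 3) * (m + 2) * (m + 1) / 6 =
        -(m * (m + 1) * (m + 2) / 6) := by ring
    rw [this]
    have : (0 : ℝ) ≤ m * (m + 1) * (m + 2) / 6 := by positivity
    linarith

section

variable {n d p : ℕ} [Fact p.Prime]

/-- homogeneity -/
theorem ev_smul (c : Fin n → Mon n d → ZMod p) (a : ZMod p) (x : Fin n → ZMod p) :
    ev (formsOf c) (a • x) = a ^ d • ev (formsOf c) x := by
  funext i
  simp only [ev, formsOf, map_sum, Pi.smul_apply, smul_eq_mul, Finset.mul_sum]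
  refine Finset.sum_congr rfl fun m _ => ?_
  rw [eval_monomial, eval_monomial, Finsupp.prod_fintype _ _ (by simp),
    Finsupp.prod_fintype _ _ (by simp)]
  have h1 : ∑ i, m.1 i = d := by
    have := m.2
    rw [Finset.mem_finsuppAntidiag] at this
    exact this.1
  have h2 : ∏ i, (a • x) i ^ m.1 i = a ^ d * ∏ i, x i ^ m.1 i := by
    have h3 : a ^ d = ∏ i, a ^ m.1 i := by rw [Finset.prod_pow_eq_pow_sum, h1]
    rw [h3, ← Finset.prod_mul_distrib]
    refine Finset.prod_congr rfl fun i _ => ?_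
    rw [Pi.smul_apply, smul_eq_mul, mul_pow]
  rw [h2]
  ring

/-- the point `P` is mapped to the point `y` -/
def Bad (y : Fin n → ZMod p) (c : Fin n → Mon n d → ZMod p)
    (P : Projectivization (ZMod p) (Fin n → ZMod p)) : Prop :=
  ∃ u : (ZMod p)ˣ, ev (formsOf c) P.rep = (u : ZMod p) • y

instance : Finite (Projectivization (ZMod p) (Fin n → ZMod p)) := inferInstance
instance : Fintype (Projectivization (ZMod p) (Fin n → ZMod p)) := Fintype.ofFinite _

theorem par_unit {v y : Fin n → ZMod p} (hy : y ≠ 0) (h : Par v y) (hv : v ≠ 0) :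
    ∃ u : (ZMod p)ˣ, v = (u : ZMod p) • y := by
  obtain ⟨j, hj⟩ : ∃ j, y j ≠ 0 := by
    by_contra hcon
    push Not at hcon
    exact hy (funext hcon)
  have h1 : ∀ i, v i = v j / y j * y i := by
    intro i
    have := h i j
    field_simp
    linear_combination this
  have h2 : v j / y j ≠ 0 := by
    intro h0
    apply hv
    funext i
    rw [h1 i, h0, zero_mul]
    rfl
  refine ⟨Units.mk0 _ h2, ?_⟩
  funext i
  rw [Pi.smul_apply, smul_eq_mul, Units.val_mk0]
  exact h1 i

/-- no bad point -/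
theorem good_of {y : Fin n → ZMod p} (hy : y ≠ 0) (c : Fin n → Mon n d → ZMod p)
    (h : ∀ P, ¬ Bad y c P) : ∀ x : Fin n → ZMod p, x ≠ 0 →
      Par (ev (formsOf c) x) y → ev (formsOf c) x = 0 := by
  intro x hx hpar
  by_contra hne
  obtain ⟨u, hu⟩ := par_unit hy hpar hne
  obtain ⟨a, ha⟩ := Projectivization.exists_smul_eq_mk_rep (ZMod p) x hx
  refine h (Projectivization.mk (ZMod p) x hx) ⟨a ^ d * u, ?_⟩
  rw [← ha]
  have h1 : a • x = (a : ZMod p) • x := rfl
  rw [h1, ev_smul, hu, smul_smul]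
  push_cast
  rfl

theorem count (hI : S_IND) (hd : 2 ≤ d) {y : Fin n → ZMod p} (hy : y ≠ 0) {k : ℕ} (hk : k ≤ 3)
    (t : Fin k ↪ Projectivization (ZMod p) (Fin n → ZMod p)) :
    p ^ (k * n) * Nat.card {c : Fin n → Mon n d → ZMod p // ∀ i, Bad y c (t i)} =
      (p - 1) ^ k * p ^ (n * Fintype.card (Mon n d)) := by
  have hp : p.Prime := Fact.out
  obtain ⟨j, hj⟩ : ∃ j, y j ≠ 0 := by
    by_contra hcon
    push Not at hcon
    exact hy (funext hcon)
  let φ : (Σ u : Fin k → (ZMod p)ˣ, {c : Fin n → Mon n d → ZMod p //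
        ∀ i, ev (formsOf c) (t i).rep = (u i : ZMod p) • y}) →
      {c : Fin n → Mon n d → ZMod p // ∀ i, Bad y c (t i)} :=
    fun z => ⟨z.2.1, fun i => ⟨z.1 i, z.2.2 i⟩⟩
  have hφ : Function.Bijective φ := by
    constructor
    · rintro ⟨u, c, hc⟩ ⟨u', c', hc'⟩ h
      have h1 : c = c' := congrArg Subtype.val h
      subst h1
      have h2 : u = u' := by
        funext i
        have h3 := congrFun ((hc i).symm.trans (hc' i)) j
        simp only [Pi.smul_apply, smul_eq_mul] at h3
        exact Units.ext (mul_right_cancel₀ hj h3)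
      subst h2
      rfl
    · rintro ⟨c, hc⟩
      exact ⟨⟨fun i => (hc i).choose, c, fun i => (hc i).choose_spec⟩, rfl⟩
  have e := (Equiv.ofBijective φ hφ).symm
  rw [Nat.card_congr e, Nat.card_sigma, Finset.mul_sum]
  have h4 : ∀ u : Fin k → (ZMod p)ˣ, p ^ (k * n) * Nat.card {c : Fin n → Mon n d → ZMod p //
      ∀ i, ev (formsOf c) (t i).rep = (u i : ZMod p) • y} = p ^ (n * Fintype.card (Mon n d)) := by
    intro u
    refine hI n d hd p hp k hk (fun i => (t i).rep) (fun i => (t i).rep_nonzero) ?_ _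
    intro i j hij hpar
    apply hij
    apply t.injective
    obtain ⟨v, hv⟩ := par_unit (t j).rep_nonzero hpar (t i).rep_nonzero
    rw [← Projectivization.mk_rep (t i), ← Projectivization.mk_rep (t j)]
    rw [Projectivization.mk_eq_mk_iff]
    exact ⟨v, hv.symm⟩
  rw [Finset.sum_congr rfl fun u _ => h4 u, Finset.sum_const, smul_eq_mul, Finset.card_univ,
    Fintype.card_fun, Fintype.card_fin, ZMod.card_units_eq_totient, Nat.totient_prime hp]

/-- double counting -/
theorem dcount (y : Fin n → ZMod p) (k : ℕ) :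
    ∑ c : Fin n → Mon n d → ZMod p, (Nat.card {P // Bad y c P}).descFactorial k =
      ∑ t : Fin k ↪ Projectivization (ZMod p) (Fin n → ZMod p),
        Nat.card {c : Fin n → Mon n d → ZMod p // ∀ i, Bad y c (t i)} := by
  have h1 := Finset.sum_card_bipartiteAbove_eq_sum_card_bipartiteBelow
    (s := (Finset.univ : Finset (Fin n → Mon n d → ZMod p)))
    (t := (Finset.univ : Finset (Fin k ↪ Projectivization (ZMod p) (Fin n → ZMod p))))
    (fun c t => ∀ i, Bad y c (t i))
  have h2 : ∀ c : Fin n → Mon n d → ZMod p, (Nat.card {P // Bad y c P}).descFactorial k =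
      (Finset.univ.bipartiteAbove (fun c (t : Fin k ↪ Projectivization (ZMod p) (Fin n → ZMod p)) =>
        ∀ i, Bad y c (t i)) c).card := by
    intro c
    rw [Finset.bipartiteAbove, ← Fintype.card_subtype, Nat.card_eq_fintype_card]
    have h3 := Fintype.card_embedding_eq (α := Fin k) (β := {P // Bad y c P})
    rw [Fintype.card_fin] at h3
    rw [← h3]
    refine Fintype.card_congr
      { toFun := fun f => ⟨f.trans (Function.Embedding.subtype _), fun i => (f i).2⟩
        invFun := fun t => ⟨fun i => ⟨t.1 i, t.2 i⟩, fun i j h => t.1.injective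
          (congrArg Subtype.val h)⟩
        left_inv := fun f => by ext; rfl
        right_inv := fun t => by ext; rfl }
  have h3 : ∀ t : Fin k ↪ Projectivization (ZMod p) (Fin n → ZMod p),
      Nat.card {c : Fin n → Mon n d → ZMod p // ∀ i, Bad y c (t i)} =
      (Finset.univ.bipartiteBelow (fun (c : Fin n → Mon n d → ZMod p)
        (t : Fin k ↪ Projectivization (ZMod p) (Fin n → ZMod p)) =>
        ∀ i, Bad y c (t i)) t).card := by
    intro t
    rw [Finset.bipartiteBelow, ← Fintype.card_subtype, Nat.card_eq_fintype_card]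
  rw [Finset.sum_congr rfl fun c _ => h2 c, Finset.sum_congr rfl fun t _ => h3 t]
  exact h1

/-- the factorial moments -/
theorem moment (hI : S_IND) (hd : 2 ≤ d) {y : Fin n → ZMod p} (hy : y ≠ 0) {k : ℕ} (hk : k ≤ 3) :
    (∑ c : Fin n → Mon n d → ZMod p, ((Nat.card {P // Bad y c P}).descFactorial k : ℝ)) =
      (Nat.card (Projectivization (ZMod p) (Fin n → ZMod p))).descFactorial k *
        (((p : ℝ) - 1) / p ^ n) ^ k * p ^ (n * Fintype.card (Mon n d)) := by
  have hp : p.Prime := Fact.out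
  have hp0 : (p : ℝ) ≠ 0 := by exact_mod_cast hp.ne_zero
  have h1 := dcount (d := d) y k
  have h2 : (∑ c : Fin n → Mon n d → ZMod p, ((Nat.card {P // Bad y c P}).descFactorial k : ℝ)) =
      ((∑ c : Fin n → Mon n d → ZMod p, (Nat.card {P // Bad y c P}).descFactorial k : ℕ) : ℝ) := by
    push_cast
    rfl
  rw [h2, h1]
  push_cast
  have h3 : ∀ t : Fin k ↪ Projectivization (ZMod p) (Fin n → ZMod p),
      (Nat.card {c : Fin n → Mon n d → ZMod p // ∀ i, Bad y c (t i)} : ℝ) =
        (((p : ℝ) - 1) / p ^ n) ^ k * p ^ (n * Fintype.card (Mon n d)) := by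
    intro t
    have h4 := count hI hd hy hk t
    have h5 : (p : ℝ) ^ (k * n) *
        (Nat.card {c : Fin n → Mon n d → ZMod p // ∀ i, Bad y c (t i)} : ℝ) =
        ((p : ℝ) - 1) ^ k * p ^ (n * Fintype.card (Mon n d)) := by
      have h6 := congrArg (Nat.cast : ℕ → ℝ) h4
      push_cast [Nat.cast_sub hp.one_le] at h6
      exact h6
    rw [div_pow, ← pow_mul, mul_comm n k, div_mul_eq_mul_div, ← h5]
    rw [mul_div_cancel_left₀ _ (pow_ne_zero _ hp0)]
  rw [Finset.sum_congr rfl fun t _ => h3 t, Finset.sum_const, nsmul_eq_mul, Finset.card_univ,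
    Fintype.card_embedding_eq, Fintype.card_fin, Nat.card_eq_fintype_card, mul_assoc]

end

theorem main (hI : S_IND) : S_BON := by
  intro n d hn hd
  refine ⟨12, fun p hp hp12 y hy => ?_⟩
  have : Fact p.Prime := ⟨hp⟩
  set M : ℝ := (p : ℝ) ^ (n * Fintype.card (Mon n d)) with hM
  have hMpos : 0 < M := by
    rw [hM]
    exact pow_pos (by exact_mod_cast hp.pos) _
  have hp12' : (12 : ℝ) ≤ p := by exact_mod_cast hp12
  set N := Nat.card (Projectivization (ZMod p) (Fin n → ZMod p)) with hN
  have hN1 : N * (p - 1) + 1 = p ^ n := by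
    have h1 := Projectivization.card' (ZMod p) (Fin n → ZMod p)
    rw [Nat.card_pi, Finset.prod_const, Finset.card_univ, Fintype.card_fin, Nat.card_zmod] at h1
    exact h1.symm
  have hN2 : (N : ℝ) * (p - 1) = p ^ n - 1 := by
    have h1 := congrArg (Nat.cast : ℕ → ℝ) hN1
    push_cast [Nat.cast_sub hp.one_le] at h1
    linarith
  set q : ℝ := (p : ℝ) ^ n with hq
  have hqp : (p : ℝ) * p ≤ q := by
    rw [hq, ← pow_two]
    exact pow_le_pow_right₀ (by linarith) hn
  have hq0 : 0 < q := by nlinarith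
  set r : ℝ := ((p : ℝ) - 1) / q with hr
  set a : ℝ := N * r with ha
  have ha1 : a = 1 - 1 / q := by
    rw [ha, hr, ← mul_div_assoc, hN2]
    field_simp
  have hr0 : 0 ≤ r := div_nonneg (by linarith) hq0.le
  have hr1 : r ≤ 1 / 12 := by
    rw [hr, div_le_div_iff₀ hq0 (by norm_num)]
    nlinarith
  have ha2 : 11 / 12 ≤ a := by
    rw [ha1]
    have : 1 / q ≤ 1 / 12 := by
      apply one_div_le_one_div_of_le (by norm_num)
      nlinarith
    linarith
  have ha3 : a ≤ 1 := by
    rw [ha1]
    have : 0 ≤ 1 / q := by positivity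
    linarith
  -- the moments
  have m1 := moment (p := p) hI hd hy (k := 1) (by norm_num)
  have m2 := moment (p := p) hI hd hy (k := 2) (by norm_num)
  have m3 := moment (p := p) hI hd hy (k := 3) (by norm_num)
  rw [← hN, ← hM, ← hq, ← hr] at m1 m2 m3
  have hN3 : 3 ≤ N := by
    by_contra hcon
    push Not at hcon
    have h1 : (N : ℝ) ≤ 2 := by exact_mod_cast (by omega : N ≤ 2)
    nlinarith
  have d1 : ((N.descFactorial 1 : ℕ) : ℝ) = N := by simp
  have d2 : ((N.descFactorial 2 : ℕ) : ℝ) = N * (N - 1) := by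
    obtain ⟨m, hm⟩ : ∃ m, N = m + 3 := ⟨N - 3, by omega⟩
    rw [hm]
    simp [Nat.descFactorial]
    ring
  have d3 : ((N.descFactorial 3 : ℕ) : ℝ) = N * (N - 1) * (N - 2) := by
    obtain ⟨m, hm⟩ : ∃ m, N = m + 3 := ⟨N - 3, by omega⟩
    rw [hm]
    simp [Nat.descFactorial]
    ring
  rw [d1] at m1
  rw [d2] at m2
  rw [d3] at m3
  have e1 : (N : ℝ) * r ^ 1 * M = a * M := by rw [ha]; ring
  have e2 : (N : ℝ) * (N - 1) * r ^ 2 * M = a * (a - r) * M := by rw [ha]; ring
  have e3 : (N : ℝ) * (N - 1) * (N - 2) * r ^ 3 * M = a * (a - r) * (a - 2 * r) * M := by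
    rw [ha]; ring
  rw [e1] at m1
  rw [e2] at m2
  rw [e3] at m3
  have hcount : M * (1 - a + a * (a - r) / 2 - a * (a - r) * (a - 2 * r) / 6) ≤
      Nat.card {c : Fin n → Mon n d → ZMod p // Nat.card {P // Bad y c P} = 0} := by
    have h1 : (Nat.card {c : Fin n → Mon n d → ZMod p // Nat.card {P // Bad y c P} = 0} : ℝ) =
        ∑ c : Fin n → Mon n d → ZMod p, if Nat.card {P // Bad y c P} = 0 then (1 : ℝ) else 0 := by
      rw [Finset.sum_ite, Finset.sum_const_zero, add_zero, Finset.sum_const, nsmul_eq_mul, mul_one,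
        Nat.card_eq_fintype_card, Fintype.card_subtype]
    rw [h1]
    have h2 : M * (1 - a + a * (a - r) / 2 - a * (a - r) * (a - 2 * r) / 6) =
        ∑ c : Fin n → Mon n d → ZMod p, ((1 : ℝ) -
          (Nat.card {P // Bad y c P}).descFactorial 1 +
          (Nat.card {P // Bad y c P}).descFactorial 2 / 2 -
          (Nat.card {P // Bad y c P}).descFactorial 3 / 6) := by
      rw [Finset.sum_sub_distrib, Finset.sum_add_distrib, Finset.sum_sub_distrib,
        ← Finset.sum_div, ← Finset.sum_div, m1, m2, m3, Finset.sum_const, nsmul_eq_mul, mul_one,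
        Finset.card_univ]
      have h3 : ((Fintype.card (Fin n → Mon n d → ZMod p) : ℕ) : ℝ) = M := by
        rw [hM, ← Nat.card_eq_fintype_card, Nat.card_pi, Finset.prod_const, Finset.card_univ,
          Fintype.card_fin, Nat.card_pi, Finset.prod_const, Finset.card_univ, Nat.card_zmod,
          ← pow_mul, mul_comm n]
        push_cast
        rfl
      rw [h3]
      ring
    rw [h2]
    exact Finset.sum_le_sum fun c _ => bonf _
  have hnum : (1 : ℝ) / 4 ≤ 1 - a + a * (a - r) / 2 - a * (a - r) * (a - 2 * r) / 6 := by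
    have h1 : (3 : ℝ) / 4 ≤ a * (a - r) := by nlinarith
    have h2 : a - 2 * r ≤ 1 := by linarith
    have h3 : a * (a - r) * (a - 2 * r) ≤ a * (a - r) := by nlinarith
    nlinarith
  have hle : Nat.card {c : Fin n → Mon n d → ZMod p // Nat.card {P // Bad y c P} = 0} ≤
      Nat.card {c : Fin n → Mon n d → ZMod p // ∀ x : Fin n → ZMod p, x ≠ 0 →
        Par (ev (formsOf c) x) y → ev (formsOf c) x = 0} := by
    refine Nat.card_le_card_of_injective
      (fun c => ⟨c.1, good_of hy c.1 fun P hP => ?_⟩) ?_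
    · have h1 := c.2
      rw [Nat.card_eq_zero] at h1
      rcases h1 with h1 | h1
      · exact h1.false ⟨P, hP⟩
      · exact h1.not_finite inferInstance
    · intro c c' h
      exact Subtype.ext (congrArg (fun z => z.1) h)
  have hfin : M ≤ 4 * (Nat.card {c : Fin n → Mon n d → ZMod p // ∀ x : Fin n → ZMod p, x ≠ 0 →
        Par (ev (formsOf c) x) y → ev (formsOf c) x = 0} : ℝ) := by
    have h1 : (Nat.card {c : Fin n → Mon n d → ZMod p // Nat.card {P // Bad y c P} = 0} : ℝ) ≤
      Nat.card {c : Fin n → Mon n d → ZMod p // ∀ x : Fin n → ZMod p, x ≠ 0 →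
        Par (ev (formsOf c) x) y → ev (formsOf c) x = 0} := by exact_mod_cast hle
    nlinarith
  rw [hM] at hfin
  exact_mod_cast hfin

end Pool.Agent.T4h89.OM.BON

namespace Pool.Agent.T4h89.OM

theorem t_BON (h : S_IND) : S_BON := BON.main h

end Pool.Agent.T4h89.OM
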