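import Pool.Agent.T4h89.OM.Stm3

/-!
# IND (helper94): independence of the values of random forms
-/

set_option autoImplicit false

noncomputable section

namespace Pool.Agent.T4h89.OM.IND

open MvPolynomial Pool.Agent.T4h89.OM

/-- the fibres of a surjective linear map -/
theorem card_fibre {F V W : Type} [Field F] [AddCommGroup V] [Module F V] [AddCommGroup W]
    [Module F W] (f : V →ₗ[F] W) (hf : Function.Surjective f) (w : W) :
    Nat.card W * Nat.card {v // f v = w} = Nat.card V := by
  obtain ⟨v0, hv0⟩ := hf w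
  have e1 : {v // f v = w} ≃ LinearMap.ker f :=
    { toFun := fun v => ⟨v.1 - v0, by rw [LinearMap.mem_ker, map_sub, v.2, hv0, sub_self]⟩
      invFun := fun u => ⟨u.1 + v0, by rw [map_add, LinearMap.mem_ker.1 u.2, zero_add, hv0]⟩
      left_inv := fun v => by simp
      right_inv := fun u => by simp }
  have e2 : (V ⧸ LinearMap.ker f) ≃ W := (f.quotKerEquivOfSurjective hf).toEquiv
  rw [Nat.card_congr e1, ← Nat.card_congr e2]
  rw [mul_comm]
  exact ((LinearMap.ker f).card_eq_card_quotient_mul_card).symm

section

variable {F : Type} [Field F] {n d k : ℕ}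

/-- one form -/
def form (c : Mon n d → F) : MvPolynomial (Fin n) F := ∑ m : Mon n d, monomial m.1 (c m)

theorem form_coeff {g : MvPolynomial (Fin n) F} (hg : g.IsHomogeneous d) :
    form (fun m : Mon n d => g.coeff m.1) = g := by
  classical
  ext m
  unfold form
  rw [coeff_sum]
  simp only [coeff_monomial]
  by_cases hm : m ∈ Finset.finsuppAntidiag Finset.univ d
  · rw [Finset.sum_eq_single (⟨m, hm⟩ : Mon n d)]
    · rw [if_pos rfl]
    · intro b _ hb
      rw [if_neg]
      intro h
      exact hb (Subtype.ext h)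
    · intro h
      exact absurd (Finset.mem_univ _) h
  · rw [Finset.sum_eq_zero]
    · by_contra hne
      apply hm
      rw [Finset.mem_finsuppAntidiag]
      refine ⟨?_, Finset.subset_univ _⟩
      have := hg (Ne.symm hne)
      rw [Finsupp.weight_apply, Finsupp.sum_fintype _ _ (by simp)] at this
      simpa using this
    · intro b _
      rw [if_neg]
      intro h
      exact hm (h ▸ b.2)

/-- the values of a form at the `x i` -/
def T (x : Fin k → Fin n → F) : (Mon n d → F) →ₗ[F] (Fin k → F) where
  toFun c i := eval (x i) (form c)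
  map_add' c c' := by
    funext i
    simp only [form, Pi.add_apply, map_add, Finset.sum_add_distrib]
  map_smul' a c := by
    funext i
    simp only [form, Pi.smul_apply, RingHom.id_apply, map_sum, smul_eq_mul, Finset.mul_sum]
    refine Finset.sum_congr rfl fun m _ => ?_
    rw [eval_monomial, eval_monomial, mul_assoc]

theorem exists_form (hd : 2 ≤ d) (hk : k ≤ 3) (x : Fin k → Fin n → F) (hx : ∀ i, x i ≠ 0)
    (hp : ∀ i j, i ≠ j → ¬ Par (x i) (x j)) (j : Fin k) :
    ∃ c : Mon n d → F, T x c = Pi.single j 1 := by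
  classical
  have h1 : ∀ i, ∃ l : MvPolynomial (Fin n) F, i ≠ j → (l.IsHomogeneous 1 ∧ eval (x i) l = 0 ∧
      eval (x j) l ≠ 0) := by
    intro i
    by_cases hij : i = j
    · exact ⟨0, fun h => absurd hij h⟩
    · have h2 := hp i j hij
      unfold Par at h2
      push Not at h2
      obtain ⟨a, b, hab⟩ := h2
      refine ⟨C (x i b) * X a - C (x i a) * X b, fun _ => ⟨?_, ?_, ?_⟩⟩
      · refine IsHomogeneous.sub ?_ ?_
        · simpa using (isHomogeneous_C (Fin n) (x i b)).mul (isHomogeneous_X F a)
        · simpa using (isHomogeneous_C (Fin n) (x i a)).mul (isHomogeneous_X F b)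
      · simp [mul_comm]
      · simp only [map_sub, map_mul, eval_C, eval_X]
        intro h
        apply hab
        linear_combination -h
  choose l hl using h1
  obtain ⟨a, ha⟩ : ∃ a, x j a ≠ 0 := by
    by_contra hcon
    push Not at hcon
    exact hx j (funext hcon)
  have hcard : (Finset.univ.erase j : Finset (Fin k)).card = k - 1 := by
    rw [Finset.card_erase_of_mem (Finset.mem_univ j), Finset.card_univ, Fintype.card_fin]
  set g : MvPolynomial (Fin n) F := (∏ i ∈ Finset.univ.erase j, l i) * X a ^ (d - (k - 1)) with hg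
  have hhom : g.IsHomogeneous d := by
    have h3 : (∏ i ∈ Finset.univ.erase j, l i).IsHomogeneous (∑ i ∈ Finset.univ.erase j, 1) :=
      IsHomogeneous.prod _ _ _ fun i hi => (hl i (Finset.ne_of_mem_erase hi)).1
    rw [Finset.sum_const, smul_eq_mul, mul_one, hcard] at h3
    have h4 := h3.mul ((isHomogeneous_X F a).pow (d - (k - 1)))
    rw [one_mul, show k - 1 + (d - (k - 1)) = d by omega] at h4
    exact h4
  have hj : eval (x j) g ≠ 0 := by
    rw [hg, map_mul, map_prod, map_pow, eval_X]
    refine mul_ne_zero (Finset.prod_ne_zero_iff.2 fun i hi => (hl i (Finset.ne_of_mem_erase hi)).2.2)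
      (pow_ne_zero _ ha)
  have hi : ∀ i, i ≠ j → eval (x i) g = 0 := by
    intro i hij
    rw [hg, map_mul, map_prod]
    rw [Finset.prod_eq_zero (Finset.mem_erase.2 ⟨hij, Finset.mem_univ i⟩) (hl i hij).2.1, zero_mul]
  refine ⟨(eval (x j) g)⁻¹ • fun m : Mon n d => g.coeff m.1, ?_⟩
  rw [map_smul]
  funext i
  rw [Pi.smul_apply, smul_eq_mul]
  have h5 : T x (fun m : Mon n d => g.coeff m.1) i = eval (x i) g := by
    show eval (x i) (form _) = _
    rw [form_coeff hhom]
  rw [h5]
  by_cases hij : i = j
  · subst hij
    rw [Pi.single_eq_same, inv_mul_cancel₀ hj]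
  · rw [hi i hij, mul_zero, Pi.single_eq_of_ne hij]

theorem T_surj (hd : 2 ≤ d) (hk : k ≤ 3) (x : Fin k → Fin n → F) (hx : ∀ i, x i ≠ 0)
    (hp : ∀ i j, i ≠ j → ¬ Par (x i) (x j)) : Function.Surjective (T (d := d) x) := by
  classical
  intro u
  choose c hc using exists_form hd hk x hx hp
  refine ⟨∑ j, u j • c j, ?_⟩
  rw [map_sum]
  simp only [map_smul, hc]
  funext i
  rw [Finset.sum_apply]
  simp only [Pi.smul_apply, smul_eq_mul]
  rw [Finset.sum_eq_single i]
  · rw [Pi.single_eq_same, mul_one]
  · intro b _ hb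
    rw [Pi.single_eq_of_ne (Ne.symm hb), mul_zero]
  · intro h
    exact absurd (Finset.mem_univ i) h

/-- the values of `n` forms -/
def TT (x : Fin k → Fin n → F) : (Fin n → Mon n d → F) →ₗ[F] (Fin k → Fin n → F) where
  toFun c i j := T x (c j) i
  map_add' c c' := by
    funext i j
    simp only [Pi.add_apply, map_add]
  map_smul' a c := by
    funext i j
    simp only [Pi.smul_apply, map_smul, RingHom.id_apply]

end

theorem main : S_IND := by
  intro n d hd p hp k hk x hx hpar w
  have : Fact p.Prime := ⟨hp⟩
  have hsurj : Function.Surjective (TT (d := d) x) := by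
    intro u
    have h1 := fun j : Fin n => T_surj (d := d) hd hk x hx hpar (fun i => u i j)
    choose c hc using h1
    refine ⟨c, ?_⟩
    funext i j
    exact congrFun (hc j) i
  have h2 := card_fibre (TT (d := d) x) hsurj w
  have h3 : Nat.card {c : Fin n → Mon n d → ZMod p // ∀ i, ev (formsOf c) (x i) = w i} =
      Nat.card {c // TT (d := d) x c = w} := by
    refine Nat.card_congr (Equiv.subtypeEquivRight fun c => ?_)
    constructor
    · intro h
      funext i j
      exact congrFun (h i) j
    · intro h i
      funext j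
      exact congrFun (congrFun h i) j
  rw [h3]
  have h4 : Nat.card (Fin k → Fin n → ZMod p) = p ^ (k * n) := by
    rw [Nat.card_pi, Finset.prod_const, Finset.card_univ, Fintype.card_fin, Nat.card_pi,
      Finset.prod_const, Finset.card_univ, Fintype.card_fin, Nat.card_zmod, ← pow_mul, mul_comm]
  have h5 : Nat.card (Fin n → Mon n d → ZMod p) = p ^ (n * Fintype.card (Mon n d)) := by
    rw [Nat.card_pi, Finset.prod_const, Finset.card_univ, Fintype.card_fin, Nat.card_pi,
      Finset.prod_const, Finset.card_univ, Nat.card_zmod, ← pow_mul, mul_comm]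
  rw [h4, h5] at h2
  exact h2

end Pool.Agent.T4h89.OM.IND

namespace Pool.Agent.T4h89.OM

theorem t_IND : S_IND := IND.main

end Pool.Agent.T4h89.OM
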