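import Pool.Agent.T4h89.OM.Stm3
import Pool.Agent.T4h89.OM.Lem

/-! OM: the third main result. -/

set_option autoImplicit false

open NumberField IsDedekindDomain Filter Topology

noncomputable section

namespace Pool.Agent.T4h89.OM

namespace MAIN3

/-- the reduction map of the integers of `ℚ` modulo `p` -/
def psi (p : ℕ) : 𝓞 ℚ →+* ZMod p :=
  (Int.castRingHom (ZMod p)).comp (Rat.ringOfIntegersEquiv : 𝓞 ℚ →+* ℤ)

theorem psi_int (p : ℕ) (z : ℤ) : psi p (z : 𝓞 ℚ) = (z : ZMod p) := map_intCast (psi p) z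

/-- the prime ideal over `p` -/
def vp (p : ℕ) [Fact p.Prime] : HeightOneSpectrum (𝓞 ℚ) where
  asIdeal := RingHom.ker (psi p)
  isPrime := RingHom.ker_isPrime _
  ne_bot := by
    intro h
    have h1 : ((p : ℤ) : 𝓞 ℚ) ∈ RingHom.ker (psi p) := by
      rw [RingHom.mem_ker, psi_int]
      simp
    rw [h, Ideal.mem_bot] at h1
    have h2 : ((p : ℤ)) = 0 := by exact_mod_cast h1
    exact (Fact.out : p.Prime).ne_zero (by exact_mod_cast h2)

theorem mem_vp (p : ℕ) [Fact p.Prime] (z : 𝓞 ℚ) : z ∈ (vp p).asIdeal ↔ psi p z = 0 := RingHom.mem_ker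

theorem int_mem_vp (p : ℕ) [Fact p.Prime] (z : ℤ) :
    (z : 𝓞 ℚ) ∈ (vp p).asIdeal ↔ (z : ZMod p) = 0 := by rw [mem_vp, psi_int]

theorem coe_int (z : ℤ) : algebraMap (𝓞 ℚ) ℚ (z : 𝓞 ℚ) = (z : ℚ) := map_intCast _ _

theorem val_int (p : ℕ) [Fact p.Prime] (z : ℤ) : (vp p).valuation ℚ (z : ℚ) ≤ 1 := by
  rw [← coe_int z]
  exact (vp p).valuation_le_one (K := ℚ) (z : 𝓞 ℚ)

theorem val_unit (p : ℕ) [Fact p.Prime] (z : ℤ) (hz : (z : ZMod p) ≠ 0) :
    (vp p).valuation ℚ (z : ℚ) = 1 := by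
  rw [← coe_int z]
  exact ((vp p).valuation_eq_one_iff_notMem (K := ℚ) (r := (z : 𝓞 ℚ))).2
    (fun h => hz ((int_mem_vp p z).1 h))

variable {n d : ℕ}

theorem formsOf_hom {R : Type} [CommRing R] (c : Fin n → Mon n d → R) (i : Fin n) :
    (formsOf c i).IsHomogeneous d := by
  unfold formsOf
  refine MvPolynomial.IsHomogeneous.sum _ _ _ fun m _ => ?_
  refine MvPolynomial.isHomogeneous_monomial _ ?_
  have h := m.2
  rw [Finset.mem_finsuppAntidiag] at h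
  rw [Finsupp.degree_eq_sum]
  exact h.1

theorem mapF_formsOf {R S : Type} [CommRing R] [CommRing S] (φ : R →+* S)
    (c : Fin n → Mon n d → R) : mapF φ (formsOf c) = formsOf (fun i m => φ (c i m)) := by
  funext i
  change MvPolynomial.map φ (∑ m : Mon n d, MvPolynomial.monomial m.1 (c i m)) = _
  rw [map_sum]
  unfold formsOf
  exact Finset.sum_congr rfl fun m _ => MvPolynomial.map_monomial _ _ _

/-- the identity which exhibits powers of the variables as combinations of the forms -/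
theorem res_map {R : Type} [CommRing R] (φ : ℤ →+* R) (c : Fin n → Mon n d → ℤ) (ρ : ℤ) (r : ℕ)
    (G : Fin n → Fin n → MvPolynomial (Fin n) ℤ)
    (h : ∀ i, MvPolynomial.C ρ * MvPolynomial.X i ^ r = ∑ j, G i j * formsOf c j) (i : Fin n) :
    MvPolynomial.C (φ ρ) * MvPolynomial.X i ^ r =
      ∑ j, MvPolynomial.map φ (G i j) * formsOf (fun i m => φ (c i m)) j := by
  have h1 := congrArg (MvPolynomial.map φ) (h i)
  rw [map_mul, map_pow, MvPolynomial.map_C, MvPolynomial.map_X, map_sum] at h1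
  rw [h1]
  refine Finset.sum_congr rfl fun j _ => ?_
  rw [map_mul, ← mapF_formsOf]
  rfl

/-- no nontrivial common zero if the resultant is not zero -/
theorem res_zero {R S : Type} [CommRing R] [CommRing S] [IsDomain S] [Algebra R S] (φ : ℤ →+* R)
    (c : Fin n → Mon n d → ℤ) (ρ : ℤ) (r : ℕ)
    (G : Fin n → Fin n → MvPolynomial (Fin n) ℤ)
    (h : ∀ i, MvPolynomial.C ρ * MvPolynomial.X i ^ r = ∑ j, G i j * formsOf c j)
    (hρ : algebraMap R S (φ ρ) ≠ 0) (x : Fin n → S)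
    (hx : ∀ i, MvPolynomial.aeval x (formsOf (fun i m => φ (c i m)) i) = 0) : x = 0 := by
  funext i
  have h1 := congrArg (MvPolynomial.aeval x) (res_map φ c ρ r G h i)
  rw [map_mul, map_pow, MvPolynomial.aeval_C, MvPolynomial.aeval_X, map_sum] at h1
  have h2 : ∑ j, MvPolynomial.aeval x (MvPolynomial.map φ (G i j) *
      formsOf (fun i m => φ (c i m)) j) = 0 := by
    refine Finset.sum_eq_zero fun j _ => ?_
    rw [map_mul, hx, mul_zero]
  rw [h2] at h1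
  have h3 := (mul_eq_zero.1 h1).resolve_left hρ
  exact eq_zero_of_pow_eq_zero h3

theorem isMor_of (c : Fin n → Mon n d → ℤ) (ρ : ℤ) (r : ℕ)
    (G : Fin n → Fin n → MvPolynomial (Fin n) ℤ)
    (h : ∀ i, MvPolynomial.C ρ * MvPolynomial.X i ^ r = ∑ j, G i j * formsOf c j)
    (hρ : ρ ≠ 0) : IsMor d (formsOf fun i m => ((c i m : ℤ) : ℚ)) where
  hom := formsOf_hom _
  zero := fun x hx => by
    refine res_zero (Int.castRingHom ℚ) c ρ r G h ?_ x hx
    rw [eq_intCast, map_intCast]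
    exact_mod_cast hρ

theorem good_of (p : ℕ) [Fact p.Prime] (c : Fin n → Mon n d → ℤ) (ρ : ℤ) (r : ℕ)
    (G : Fin n → Fin n → MvPolynomial (Fin n) ℤ)
    (h : ∀ i, MvPolynomial.C ρ * MvPolynomial.X i ^ r = ∑ j, G i j * formsOf c j)
    (hρ : (ρ : ZMod p) ≠ 0) : GoodRed (vp p) (formsOf fun i m => ((c i m : ℤ) : ℚ)) := by
  have hρ0 : (ρ : ℚ) ≠ 0 := by
    intro h0
    have h1 : ρ = 0 := by exact_mod_cast h0
    rw [h1] at hρ
    simp at hρ
  have e : (formsOf fun i m => ((c i m : ℤ) : ℚ)) = mapF (Int.castRingHom ℚ) (formsOf c) := by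
    rw [mapF_formsOf]
    rfl
  refine ⟨1, fun i m => ?_, r, fun i j => MvPolynomial.C ((ρ : ℚ)⁻¹) *
    MvPolynomial.map (Int.castRingHom ℚ) (G i j), fun i j m => ?_, fun i => ?_⟩
  · rw [one_mul, e]
    change (vp p).valuation ℚ ((MvPolynomial.map (Int.castRingHom ℚ) (formsOf c i)).coeff m) ≤ 1
    rw [MvPolynomial.coeff_map]
    exact val_int p _
  · rw [MvPolynomial.coeff_C_mul, MvPolynomial.coeff_map, map_mul, map_inv₀, val_unit p ρ hρ, inv_one,
      one_mul]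
    exact val_int p _
  · have h1 := res_map (Int.castRingHom ℚ) c ρ r G h i
    have h2 : MvPolynomial.C ((ρ : ℚ)⁻¹) * (MvPolynomial.C (ρ : ℚ) * MvPolynomial.X i ^ r) =
      (MvPolynomial.X i ^ r : MvPolynomial (Fin n) ℚ) := by
      rw [← mul_assoc, ← map_mul, inv_mul_cancel₀ hρ0, map_one, one_mul]
    rw [← h2]
    change MvPolynomial.C ((ρ : ℚ)⁻¹) * (MvPolynomial.C ((Int.castRingHom ℚ) ρ) *
      MvPolynomial.X i ^ r) = _
    rw [h1, Finset.mul_sum]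
    refine Finset.sum_congr rfl fun j _ => ?_
    rw [map_one, one_mul, mul_assoc]
    rfl

/-- the good pairs modulo `p` -/
def GoodP (R : MvPolynomial (Fin n × Mon n d) ℤ) (p : ℕ) (c : Fin n → Mon n d → ZMod p)
    (y : Fin n → ZMod p) : Prop :=
  MvPolynomial.eval (fun s : Fin n × Mon n d => c s.1 s.2)
      (MvPolynomial.map (Int.castRingHom (ZMod p)) R) ≠ 0 ∧ y ≠ 0 ∧
    ∀ x : Fin n → ZMod p, x ≠ 0 → Par (ev (formsOf c) x) y → ev (formsOf c) x = 0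

theorem eval_mod (R : MvPolynomial (Fin n × Mon n d) ℤ) (p : ℕ) (c : Fin n → Mon n d → ℤ) :
    MvPolynomial.eval (fun s : Fin n × Mon n d => ((c s.1 s.2 : ℤ) : ZMod p))
      (MvPolynomial.map (Int.castRingHom (ZMod p)) R) =
      ((MvPolynomial.eval (fun s : Fin n × Mon n d => c s.1 s.2) R : ℤ) : ZMod p) := by
  rw [MvPolynomial.eval_map]
  have h := MvPolynomial.eval₂_comp_left (Int.castRingHom (ZMod p)) (RingHom.id ℤ)
    (fun s : Fin n × Mon n d => c s.1 s.2) R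
  rw [RingHom.comp_id] at h
  exact h.symm

/-- the good pairs -/
theorem good_pair (hMAIN1 : S_MAIN1) (hCNG : S_CNG) (hd : 2 ≤ d)
    (R : MvPolynomial (Fin n × Mon n d) ℤ)
    (hR : ∀ c : Fin n → Mon n d → ℤ, ∃ (r : ℕ) (G : Fin n → Fin n → MvPolynomial (Fin n) ℤ), ∀ i,
      MvPolynomial.C (MvPolynomial.eval (fun s : Fin n × Mon n d => c s.1 s.2) R) *
        MvPolynomial.X i ^ r = ∑ j, G i j * formsOf c j)
    (p : ℕ) (hp : p.Prime) (c : Fin n → Mon n d → ℤ) (y : Fin n → ℤ)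
    (hg : GoodP R p (fun i m => ((c i m : ℤ) : ZMod p)) (fun i => ((y i : ℤ) : ZMod p))) :
    IsMor d (formsOf fun i m => ((c i m : ℤ) : ℚ)) ∧ y ≠ 0 ∧
        ∀ γ₁ : Fin n → ℚ, γ₁ ≠ 0 →
          (∀ m : ℕ, ¬ Par ((ev (formsOf fun i m => ((c i m : ℤ) : ℚ)))^[m] γ₁)
            (fun i => (y i : ℚ))) →
          PosDens (Avoid (formsOf fun i m => ((c i m : ℤ) : ℚ)) γ₁ (fun i => (y i : ℚ))) := by
  have : Fact p.Prime := ⟨hp⟩
  obtain ⟨h1, h2, h3⟩ := hg
  obtain ⟨r, G, hG⟩ := hR c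
  set ρ := MvPolynomial.eval (fun s : Fin n × Mon n d => c s.1 s.2) R with hρdef
  have hρ : (ρ : ZMod p) ≠ 0 := by
    rw [hρdef, ← eval_mod]
    exact h1
  have hρ0 : ρ ≠ 0 := by
    intro h0
    rw [h0] at hρ
    simp at hρ
  have hmor := isMor_of c ρ r G hG hρ0
  have hy0 : y ≠ 0 := by
    rintro rfl
    apply h2
    funext i
    simp
  refine ⟨hmor, hy0, fun γ₁ hγ hav => ?_⟩
  have hyQ : (fun i => (y i : ℚ)) ≠ 0 := by
    intro h0
    apply hy0
    funext i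
    have := congrFun h0 i
    simpa using this
  refine hMAIN1 ℚ n d (by omega) _ hmor γ₁ _ hγ hyQ hav (Or.inr ⟨vp p, good_of p c ρ r G hG hρ, ?_⟩)
  -- the iterates, in integers
  have hmod : ∀ m : ℕ, (ev (formsOf fun i m => ((c i m : ℤ) : ZMod p)))^[m]
      (fun i => ((y i : ℤ) : ZMod p)) = fun i => (((ev (formsOf c))^[m] y i : ℤ) : ZMod p) := by
    intro m
    have := ev_mapF_iter (Int.castRingHom (ZMod p)) (formsOf c) y m
    rw [mapF_formsOf] at this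
    exact this
  have hrat : ∀ m : ℕ, (ev (formsOf fun i m => ((c i m : ℤ) : ℚ)))^[m]
      (fun i => ((y i : ℤ) : ℚ)) = fun i => (((ev (formsOf c))^[m] y i : ℤ) : ℚ) := by
    intro m
    have := ev_mapF_iter (Int.castRingHom ℚ) (formsOf c) y m
    rw [mapF_formsOf] at this
    exact this
  have hz0 : ∀ x : Fin n → ZMod p, ev (formsOf fun i m => ((c i m : ℤ) : ZMod p)) x = 0 → x = 0 := by
    intro x hx
    refine res_zero (Int.castRingHom (ZMod p)) c ρ r G hG ?_ x fun i => congrFun hx i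
    rw [eq_intCast]
    exact hρ
  have hne : ∀ m : ℕ, (ev (formsOf fun i m => ((c i m : ℤ) : ZMod p)))^[m]
      (fun i => ((y i : ℤ) : ZMod p)) ≠ 0 := fun m => iter_ne_zero hz0 h2 m
  have hun : ∀ m : ℕ, ∃ i, (((ev (formsOf c))^[m] y i : ℤ) : 𝓞 ℚ) ∉ (vp p).asIdeal := by
    intro m
    have h := hne m
    rw [hmod] at h
    obtain ⟨i, hi⟩ := Function.ne_iff.1 h
    exact ⟨i, fun hm => hi ((int_mem_vp p _).1 hm)⟩
  intro m hm hcong
  rw [hrat m] at hcong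
  have h4 := (hCNG ℚ n (vp p) _ _ (fun i => (((ev (formsOf c))^[m] y i : ℤ) : 𝓞 ℚ))
    (fun i => ((y i : ℤ) : 𝓞 ℚ)) 1 1 one_ne_zero one_ne_zero
    (fun i => by rw [one_mul]; exact coe_int _) (fun i => by rw [one_mul]; exact coe_int _)
    (hun m) (hun 0)).1 hcong
  obtain ⟨k, rfl⟩ : ∃ k, m = k + 1 := ⟨m - 1, by omega⟩
  have h5 := hne (k + 1)
  rw [Function.iterate_succ_apply'] at h5
  apply h5
  refine h3 _ (hne k) ?_
  have h6 := hmod (k + 1)
  rw [Function.iterate_succ_apply'] at h6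
  rw [h6]
  intro i j
  have h7 := h4 i j
  rw [mem_vp, map_sub, map_mul, map_mul, psi_int, psi_int, psi_int, psi_int, sub_eq_zero] at h7
  exact h7

/-! ## Counting -/

/-- the indices of the coordinates of a pair -/
abbrev Ix (n d : ℕ) : Type := (Fin n × Mon n d) ⊕ Fin n

theorem card_Ix : Fintype.card (Ix n d) = n * Fintype.card (Mon n d) + n := by
  rw [Fintype.card_sum, Fintype.card_prod, Fintype.card_fin]

/-- the vectors of the good pairs -/
def GoodSet (R : MvPolynomial (Fin n × Mon n d) ℤ) (p : ℕ) : Set (Ix n d → ZMod p) :=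
  {z | GoodP R p (fun i m => z (Sum.inl (i, m))) (fun i => z (Sum.inr i))}

theorem card_ne_zero (p : ℕ) [Fact p.Prime] :
    Nat.card {y : Fin n → ZMod p // y ≠ 0} + 1 = p ^ n := by
  classical
  have h1 : Fintype.card {y : Fin n → ZMod p | y ≠ 0} = Fintype.card (Fin n → ZMod p) - 1 :=
    Set.card_ne_eq 0
  have h2 : Fintype.card (Fin n → ZMod p) = p ^ n := by
    rw [Fintype.card_fun, ZMod.card, Fintype.card_fin]
  have h3 : 0 < p ^ n := pow_pos (Fact.out : p.Prime).pos n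
  rw [Nat.card_eq_fintype_card]
  have h4 : Fintype.card {y : Fin n → ZMod p // y ≠ 0} = p ^ n - 1 := by
    rw [← h2, ← h1]
    rfl
  omega

theorem count (hn : 2 ≤ n) (hd : 2 ≤ d) (hZER : S_ZER) (hBON : S_BON)
    (R : MvPolynomial (Fin n × Mon n d) ℤ)
    (hR0 : ∀ p : ℕ, p.Prime → MvPolynomial.map (Int.castRingHom (ZMod p)) R ≠ 0) :
    ∃ p₀ : ℕ, ∀ p : ℕ, p.Prime → p₀ ≤ p →
      (1 / 8 : ℝ) * (p : ℝ) ^ Fintype.card (Ix n d) ≤ Nat.card (GoodSet R p) := by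
  obtain ⟨t, ht⟩ := hZER (Fin n × Mon n d) R hR0
  obtain ⟨p₀, hp₀⟩ := hBON n d hn hd
  refine ⟨max p₀ (16 * t + 4), fun p hp hpp => ?_⟩
  have hpp0 : p₀ ≤ p := (le_max_left _ _).trans hpp
  have hpt : 16 * t + 4 ≤ p := (le_max_right _ _).trans hpp
  have : Fact p.Prime := ⟨hp⟩
  have hZ := ht p hp
  have hcσ : Fintype.card (Fin n × Mon n d) = n * Fintype.card (Mon n d) := by
    rw [Fintype.card_prod, Fintype.card_fin]
  rw [hcσ] at hZ
  set N := n * Fintype.card (Mon n d) with hN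
  -- zeros of `R`
  set Z : Set (Fin n → Mon n d → ZMod p) :=
    {c | MvPolynomial.eval (fun s : Fin n × Mon n d => c s.1 s.2)
      (MvPolynomial.map (Int.castRingHom (ZMod p)) R) = 0} with hZdef
  have hZ1 : Nat.card Z ≤ Nat.card {c : Fin n × Mon n d → ZMod p // MvPolynomial.eval c
      (MvPolynomial.map (Int.castRingHom (ZMod p)) R) = 0} := by
    refine Nat.card_le_card_of_injective
      (fun c : Z => (⟨fun s => c.1 s.1 s.2, c.2⟩ : {c : Fin n × Mon n d → ZMod p //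
        MvPolynomial.eval c (MvPolynomial.map (Int.castRingHom (ZMod p)) R) = 0})) ?_
    intro a b hab
    apply Subtype.ext
    funext i m
    have h1 := congrArg Subtype.val hab
    exact congrFun h1 (i, m)
  -- the good maps for a given `y`
  have hB : ∀ y : {y : Fin n → ZMod p // y ≠ 0},
      (3 / 16 : ℝ) * (p : ℝ) ^ N ≤ Nat.card {c : Fin n → Mon n d → ZMod p //
        GoodP R p c y.1} := by
    intro y
    have h1 := hp₀ p hp hpp0 y.1 y.2
    have h2 : Nat.card {c : Fin n → Mon n d → ZMod p // ∀ x : Fin n → ZMod p, x ≠ 0 →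
        Par (ev (formsOf c) x) y.1 → ev (formsOf c) x = 0} ≤
        Nat.card {c : Fin n → Mon n d → ZMod p // GoodP R p c y.1} + Nat.card Z := by
      change Nat.card ↥{c : Fin n → Mon n d → ZMod p | ∀ x : Fin n → ZMod p, x ≠ 0 →
        Par (ev (formsOf c) x) y.1 → ev (formsOf c) x = 0} ≤
        Nat.card ↥{c : Fin n → Mon n d → ZMod p | GoodP R p c y.1} + Nat.card Z
      rw [Nat.card_coe_set_eq, Nat.card_coe_set_eq, Nat.card_coe_set_eq]
      refine le_trans (Set.ncard_le_ncard ?_ (Set.toFinite _)) (Set.ncard_union_le _ _)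
      intro c hc
      by_cases hcz : c ∈ Z
      · exact Or.inr hcz
      · exact Or.inl ⟨hcz, y.2, hc⟩
    have h3 : (p : ℝ) ^ N ≤ 4 * ((Nat.card {c : Fin n → Mon n d → ZMod p //
        GoodP R p c y.1} : ℝ) + (Nat.card Z : ℝ)) := by
      have : p ^ N ≤ 4 * (Nat.card {c : Fin n → Mon n d → ZMod p // GoodP R p c y.1} +
        Nat.card Z) := h1.trans (Nat.mul_le_mul_left 4 h2)
      exact_mod_cast this
    have h4 : 16 * (t : ℝ) * (Nat.card Z : ℝ) ≤ (t : ℝ) * (p : ℝ) ^ N := by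
      have h5 : p * Nat.card Z ≤ t * p ^ N := (Nat.mul_le_mul_left p hZ1).trans hZ
      have h6 : 16 * t * Nat.card Z ≤ t * p ^ N :=
        (Nat.mul_le_mul_right _ (by omega : 16 * t ≤ p)).trans h5
      exact_mod_cast h6
    have h5 : 16 * (Nat.card Z : ℝ) ≤ (p : ℝ) ^ N := by
      rcases Nat.eq_zero_or_pos t with h0 | h0
      · have h6 : p * Nat.card Z ≤ t * p ^ N := (Nat.mul_le_mul_left p hZ1).trans hZ
        rw [h0, zero_mul] at h6
        have h7 : Nat.card Z = 0 := by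
          rcases Nat.mul_eq_zero.1 (Nat.le_zero.1 h6) with h8 | h8
          · exact absurd h8 hp.ne_zero
          · exact h8
        rw [h7]
        simp only [Nat.cast_zero, mul_zero]
        positivity
      · have h7 : (0 : ℝ) < t := by exact_mod_cast h0
        have h8 : (t : ℝ) * (16 * (Nat.card Z : ℝ)) ≤ (t : ℝ) * (p : ℝ) ^ N := by
          linarith
        exact le_of_mul_le_mul_left h8 h7
    linarith
  have hsig : Nat.card (Σ y : {y : Fin n → ZMod p // y ≠ 0}, {c : Fin n → Mon n d → ZMod p //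
        GoodP R p c y.1}) ≤ Nat.card (GoodSet R p) := by
    refine Nat.card_le_card_of_injective (fun a => (⟨Sum.elim (fun s => a.2.1 s.1 s.2) a.1.1, a.2.2⟩ :
      GoodSet R p)) ?_
    rintro ⟨⟨y, hy⟩, ⟨c, hc⟩⟩ ⟨⟨y', hy'⟩, ⟨c', hc'⟩⟩ hab
    have h1 := congrArg Subtype.val hab
    simp only at h1
    have h2 : y = y' := by
      funext i
      exact congrFun h1 (Sum.inr i)
    have h3 : c = c' := by
      funext i m
      exact congrFun h1 (Sum.inl (i, m))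
    subst h2 h3
    rfl
  have hsum : (Nat.card {y : Fin n → ZMod p // y ≠ 0} : ℝ) * ((3 / 16 : ℝ) * (p : ℝ) ^ N) ≤
      Nat.card (GoodSet R p) := by
    classical
    have h1 : (Nat.card (Σ y : {y : Fin n → ZMod p // y ≠ 0}, {c : Fin n → Mon n d → ZMod p //
        GoodP R p c y.1}) : ℝ) = ∑ y : {y : Fin n → ZMod p // y ≠ 0},
          (Nat.card {c : Fin n → Mon n d → ZMod p // GoodP R p c y.1} : ℝ) := by
      rw [Nat.card_sigma]
      push_cast
      rfl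
    have h2 : (Nat.card (Σ y : {y : Fin n → ZMod p // y ≠ 0}, {c : Fin n → Mon n d → ZMod p //
        GoodP R p c y.1}) : ℝ) ≤ Nat.card (GoodSet R p) := by exact_mod_cast hsig
    rw [h1] at h2
    refine le_trans ?_ h2
    rw [Nat.card_eq_fintype_card, ← nsmul_eq_mul, ← Finset.card_univ]
    exact Finset.card_nsmul_le_sum _ _ _ fun y _ => hB y
  have hcy := card_ne_zero (n := n) p
  have hcy' : (Nat.card {y : Fin n → ZMod p // y ≠ 0} : ℝ) + 1 = (p : ℝ) ^ n := by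
    exact_mod_cast hcy
  have hpn : (4 : ℝ) ≤ (p : ℝ) ^ n := by
    have h1 : (4 : ℝ) ≤ p := by
      have : 4 ≤ p := by omega
      exact_mod_cast this
    calc (4 : ℝ) ≤ p := h1
      _ = (p : ℝ) ^ 1 := (pow_one _).symm
      _ ≤ (p : ℝ) ^ n := pow_le_pow_right₀ (by linarith) (by omega)
  have hpos : (0 : ℝ) ≤ (p : ℝ) ^ N := by positivity
  rw [card_Ix, ← hN, pow_add]
  refine le_trans ?_ hsum
  have h6 : (Nat.card {y : Fin n → ZMod p // y ≠ 0} : ℝ) ≥ (3 / 4) * (p : ℝ) ^ n := by linarith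
  calc (1 / 8 : ℝ) * ((p : ℝ) ^ N * (p : ℝ) ^ n)
      ≤ (9 / 64 : ℝ) * ((p : ℝ) ^ N * (p : ℝ) ^ n) := by
        have : (0 : ℝ) ≤ (p : ℝ) ^ N * (p : ℝ) ^ n := by positivity
        linarith
    _ = ((3 / 4) * (p : ℝ) ^ n) * ((3 / 16 : ℝ) * (p : ℝ) ^ N) := by ring
    _ ≤ _ := mul_le_mul_of_nonneg_right h6 (by positivity)

/-! ## The box -/

/-- the integers of absolute value at most `B` -/
theorem card_box1 (B : ℕ) : Nat.card {z : ℤ // |z| ≤ B} = 2 * B + 1 := by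
  have h1 : {z : ℤ | |z| ≤ B} = ((Finset.Icc (-(B : ℤ)) B : Finset ℤ) : Set ℤ) := by
    ext z
    rw [Finset.coe_Icc, Set.mem_Icc, Set.mem_ofPred_eq, abs_le]
  change Nat.card ↥{z : ℤ | |z| ≤ B} = _
  rw [h1, Nat.card_coe_set_eq, Set.ncard_coe_finset, Int.card_Icc]
  omega

theorem card_box (ι : Type) [Fintype ι] (B : ℕ) :
    Nat.card {x : ι → ℤ // ∀ i, |x i| ≤ B} = (2 * B + 1) ^ Fintype.card ι := by
  have e : {x : ι → ℤ // ∀ i, |x i| ≤ B} ≃ (ι → {z : ℤ // |z| ≤ B}) :=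
    Equiv.subtypePiEquivPi (β := fun _ : ι => ℤ) (p := fun _ z => |z| ≤ (B : ℤ))
  rw [Nat.card_congr e, Nat.card_fun, card_box1, Nat.card_eq_fintype_card]

theorem finite_box (ι : Type) [Fintype ι] (B : ℕ) : Finite {x : ι → ℤ // ∀ i, |x i| ≤ B} := by
  apply Nat.finite_of_card_ne_zero
  rw [card_box]
  positivity

/-- pairs and vectors -/
def pairEquiv (n d : ℕ) : (Ix n d → ℤ) ≃ (Fin n → Mon n d → ℤ) × (Fin n → ℤ) :=
  (Equiv.sumArrowEquivProdArrow (Fin n × Mon n d) (Fin n) ℤ).trans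
    (Equiv.prodCongr (Equiv.curry (Fin n) (Mon n d) ℤ) (Equiv.refl _))

theorem box_iff (B : ℕ) (x : Ix n d → ℤ) : (∀ i, |x i| ≤ B) ↔
    ((∀ i m, |(pairEquiv n d x).1 i m| ≤ (B : ℤ)) ∧ ∀ i, |(pairEquiv n d x).2 i| ≤ (B : ℤ)) := by
  constructor
  · intro h
    exact ⟨fun i m => h (Sum.inl (i, m)), fun i => h (Sum.inr i)⟩
  · rintro ⟨h1, h2⟩ (⟨i, m⟩ | i)
    · exact h1 i m
    · exact h2 i

end MAIN3

open MAIN3 in
theorem t_MAIN3 (hMAIN1 : S_MAIN1) (hCNG : S_CNG) (hSIEVE : S_SIEVE) (hRES : S_RES)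
    (hZER : S_ZER) (hBON : S_BON) : S_MAIN3 := by
  intro n d hn hd
  obtain ⟨R, hR0, hR⟩ := hRES n d (by omega)
  obtain ⟨p₀, hp₀⟩ := count hn hd hZER hBON R hR0
  have hS := hSIEVE (Ix n d) (fun p => GoodSet R p) p₀ (1 / 8) (by norm_num) hp₀
  -- the denominators
  have hden : ∀ B : ℕ, (Nat.card {p : (Fin n → Mon n d → ℤ) × (Fin n → ℤ) //
      (∀ i m, |p.1 i m| ≤ (B : ℤ)) ∧ ∀ i, |p.2 i| ≤ (B : ℤ)} : ℝ) =
      (2 * B + 1 : ℝ) ^ Fintype.card (Ix n d) := by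
    intro B
    have e : {x : Ix n d → ℤ // ∀ i, |x i| ≤ (B : ℤ)} ≃ {p : (Fin n → Mon n d → ℤ) × (Fin n → ℤ) //
      (∀ i m, |p.1 i m| ≤ (B : ℤ)) ∧ ∀ i, |p.2 i| ≤ (B : ℤ)} :=
      (pairEquiv n d).subtypeEquiv fun x => box_iff B x
    rw [← Nat.card_congr e, card_box]
    push_cast
    rfl
  have hfin : ∀ B : ℕ, Finite {p : (Fin n → Mon n d → ℤ) × (Fin n → ℤ) //
      (∀ i m, |p.1 i m| ≤ (B : ℤ)) ∧ ∀ i, |p.2 i| ≤ (B : ℤ)} := by
    intro B
    have := finite_box (Ix n d) B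
    exact Finite.of_equiv _ ((pairEquiv n d).subtypeEquiv fun x => box_iff B x)
  have hpos : ∀ B : ℕ, (0 : ℝ) < (2 * B + 1 : ℝ) ^ Fintype.card (Ix n d) := fun B => by positivity
  refine tendsto_of_tendsto_of_tendsto_of_le_of_le hS tendsto_const_nhds ?_ ?_
  · intro B
    simp only
    rw [hden B]
    refine div_le_div_of_nonneg_right ?_ (hpos B).le
    have hf := hfin B
    have hf2 : Finite {p : (Fin n → Mon n d → ℤ) × (Fin n → ℤ) //
        ((∀ i m, |p.1 i m| ≤ (B : ℤ)) ∧ ∀ i, |p.2 i| ≤ (B : ℤ)) ∧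
        IsMor d (formsOf fun i m => ((p.1 i m : ℤ) : ℚ)) ∧ p.2 ≠ 0 ∧
        ∀ γ₁ : Fin n → ℚ, γ₁ ≠ 0 →
          (∀ m : ℕ, ¬ Par ((ev (formsOf fun i m => ((p.1 i m : ℤ) : ℚ)))^[m] γ₁)
            (fun i => (p.2 i : ℚ))) →
          PosDens (Avoid (formsOf fun i m => ((p.1 i m : ℤ) : ℚ)) γ₁ (fun i => (p.2 i : ℚ)))} :=
      Finite.of_injective (fun p => (⟨p.1, p.2.1⟩ : {p : (Fin n → Mon n d → ℤ) × (Fin n → ℤ) //
        (∀ i m, |p.1 i m| ≤ (B : ℤ)) ∧ ∀ i, |p.2 i| ≤ (B : ℤ)})) fun a b hab =>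
          Subtype.ext (congrArg (fun z => z.1) hab)
    have key : Nat.card {x : Ix n d → ℤ // (∀ i, |x i| ≤ (B : ℤ)) ∧
      ∃ p : ℕ, p.Prime ∧ p₀ ≤ p ∧ (fun i => ((x i : ℤ) : ZMod p)) ∈ GoodSet R p} ≤
      Nat.card {p : (Fin n → Mon n d → ℤ) × (Fin n → ℤ) //
        ((∀ i m, |p.1 i m| ≤ (B : ℤ)) ∧ ∀ i, |p.2 i| ≤ (B : ℤ)) ∧
        IsMor d (formsOf fun i m => ((p.1 i m : ℤ) : ℚ)) ∧ p.2 ≠ 0 ∧
        ∀ γ₁ : Fin n → ℚ, γ₁ ≠ 0 →
          (∀ m : ℕ, ¬ Par ((ev (formsOf fun i m => ((p.1 i m : ℤ) : ℚ)))^[m] γ₁)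
            (fun i => (p.2 i : ℚ))) →
          PosDens (Avoid (formsOf fun i m => ((p.1 i m : ℤ) : ℚ)) γ₁ (fun i => (p.2 i : ℚ)))} := by
      refine Nat.card_le_card_of_injective (fun x => ⟨pairEquiv n d x.1,
        (box_iff B x.1).1 x.2.1, ?_⟩) ?_
      · obtain ⟨p, hp, _, hg⟩ := x.2.2
        exact good_pair hMAIN1 hCNG hd R hR p hp (pairEquiv n d x.1).1 (pairEquiv n d x.1).2 hg
      · intro a b hab
        apply Subtype.ext
        apply (pairEquiv n d).injective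
        exact congrArg (fun z => z.1) hab
    exact_mod_cast key
  · intro B
    simp only
    have hf := hfin B
    have hle : Nat.card {p : (Fin n → Mon n d → ℤ) × (Fin n → ℤ) //
        ((∀ i m, |p.1 i m| ≤ (B : ℤ)) ∧ ∀ i, |p.2 i| ≤ (B : ℤ)) ∧
        IsMor d (formsOf fun i m => ((p.1 i m : ℤ) : ℚ)) ∧ p.2 ≠ 0 ∧
        ∀ γ₁ : Fin n → ℚ, γ₁ ≠ 0 →
          (∀ m : ℕ, ¬ Par ((ev (formsOf fun i m => ((p.1 i m : ℤ) : ℚ)))^[m] γ₁)
            (fun i => (p.2 i : ℚ))) →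
          PosDens (Avoid (formsOf fun i m => ((p.1 i m : ℤ) : ℚ)) γ₁ (fun i => (p.2 i : ℚ)))} ≤
        Nat.card {p : (Fin n → Mon n d → ℤ) × (Fin n → ℤ) //
          (∀ i m, |p.1 i m| ≤ (B : ℤ)) ∧ ∀ i, |p.2 i| ≤ (B : ℤ)} :=
      Nat.card_le_card_of_injective (fun p => ⟨p.1, p.2.1⟩) fun a b hab =>
          Subtype.ext (congrArg (fun z => z.1) hab)
    have hle' : (Nat.card {p : (Fin n → Mon n d → ℤ) × (Fin n → ℤ) //
        ((∀ i m, |p.1 i m| ≤ (B : ℤ)) ∧ ∀ i, |p.2 i| ≤ (B : ℤ)) ∧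
        IsMor d (formsOf fun i m => ((p.1 i m : ℤ) : ℚ)) ∧ p.2 ≠ 0 ∧
        ∀ γ₁ : Fin n → ℚ, γ₁ ≠ 0 →
          (∀ m : ℕ, ¬ Par ((ev (formsOf fun i m => ((p.1 i m : ℤ) : ℚ)))^[m] γ₁)
            (fun i => (p.2 i : ℚ))) →
          PosDens (Avoid (formsOf fun i m => ((p.1 i m : ℤ) : ℚ)) γ₁ (fun i => (p.2 i : ℚ)))} : ℝ) ≤
        Nat.card {p : (Fin n → Mon n d → ℤ) × (Fin n → ℤ) //
          (∀ i m, |p.1 i m| ≤ (B : ℤ)) ∧ ∀ i, |p.2 i| ≤ (B : ℤ)} := by exact_mod_cast hle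
    exact div_le_one_of_le₀ hle' (Nat.cast_nonneg _)

end Pool.Agent.T4h89.OM
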