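import Pool.Agent.T4h89.OM.Stm3

/-!
# Task RES
-/

set_option autoImplicit false

noncomputable section

namespace Pool.Agent.T4h89.OM.RES

open Pool.Agent.T4h89.OM MvPolynomial

variable {n d : ℕ}

lemma exists_big (hd : 1 ≤ d) (μ : Mon n (n * (d - 1) + 1)) : ∃ i, d ≤ μ.1 i := by
  by_contra h
  push Not at h
  have h1 : ∑ i, μ.1 i = n * (d - 1) + 1 := (Finset.mem_finsuppAntidiag.1 μ.2).1
  have h2 : ∑ i, μ.1 i ≤ ∑ i : Fin n, (d - 1) := Finset.sum_le_sum fun i _ => by
    have := h i
    omega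
  rw [Finset.sum_const, Finset.card_univ, Fintype.card_fin, smul_eq_mul] at h2
  omega

/-- an index with a large exponent -/
def ix (hd : 1 ≤ d) (μ : Mon n (n * (d - 1) + 1)) : Fin n := (exists_big hd μ).choose

lemma ix_spec (hd : 1 ≤ d) (μ : Mon n (n * (d - 1) + 1)) : d ≤ μ.1 (ix hd μ) :=
  (exists_big hd μ).choose_spec

lemma single_le (hd : 1 ≤ d) (μ : Mon n (n * (d - 1) + 1)) :
    Finsupp.single (ix hd μ) d ≤ μ.1 := Finsupp.single_le_iff.2 (ix_spec hd μ)

section

variable {R S : Type} [CommRing R] [CommRing S]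

lemma forms_hom (c : Fin n → Mon n d → R) (i : Fin n) : (formsOf c i).IsHomogeneous d := by
  refine IsHomogeneous.sum _ _ _ fun m _ => isHomogeneous_monomial _ ?_
  rw [Finsupp.degree_eq_sum]
  exact (Finset.mem_finsuppAntidiag.1 m.2).1

lemma map_forms (φ : R →+* S) (c : Fin n → Mon n d → R) (i : Fin n) :
    map φ (formsOf c i) = formsOf (fun i m => φ (c i m)) i := by
  simp [formsOf, map_monomial]

/-- the multiples of the forms -/
def P (hd : 1 ≤ d) (c : Fin n → Mon n d → R) (μ : Mon n (n * (d - 1) + 1)) :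
    MvPolynomial (Fin n) R :=
  monomial (μ.1 - Finsupp.single (ix hd μ) d) 1 * formsOf c (ix hd μ)

lemma P_hom (hd : 1 ≤ d) (c : Fin n → Mon n d → R) (μ : Mon n (n * (d - 1) + 1)) :
    (P hd c μ).IsHomogeneous (n * (d - 1) + 1) := by
  have h1 : (μ.1 - Finsupp.single (ix hd μ) d).degree + d = n * (d - 1) + 1 := by
    have h2 : (μ.1 - Finsupp.single (ix hd μ) d + Finsupp.single (ix hd μ) d).degree =
        n * (d - 1) + 1 := by
      rw [tsub_add_cancel_of_le (single_le hd μ), Finsupp.degree_eq_sum]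
      exact (Finset.mem_finsuppAntidiag.1 μ.2).1
    rw [map_add, Finsupp.degree_single] at h2
    exact h2
  rw [← h1]
  exact (isHomogeneous_monomial _ rfl).mul (forms_hom c _)

lemma hom_eq {D : ℕ} {f : MvPolynomial (Fin n) R} (hf : f.IsHomogeneous D) :
    f = ∑ ν : Mon n D, monomial ν.1 (coeff ν.1 f) := by
  classical
  ext m
  rw [coeff_sum]
  by_cases hm : m ∈ Finset.finsuppAntidiag Finset.univ D
  · rw [Finset.sum_eq_single (⟨m, hm⟩ : Mon n D)]
    · rw [coeff_monomial, if_pos rfl]
    · intro b _ hb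
      rw [coeff_monomial, if_neg]
      intro h
      exact hb (Subtype.ext h)
    · intro h
      exact absurd (Finset.mem_univ _) h
  · rw [Finset.sum_eq_zero]
    · by_contra hc
      apply hm
      have h1 := hf hc
      rw [Finset.mem_finsuppAntidiag]
      refine ⟨?_, Finset.subset_univ _⟩
      rw [← h1, Finsupp.weight_apply, Finsupp.sum_fintype _ _ (by simp)]
      simp
    · intro b _
      rw [coeff_monomial, if_neg]
      rintro rfl
      exact hm b.2

/-- the Macaulay matrix -/
def Mac (hd : 1 ≤ d) (c : Fin n → Mon n d → R) :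
    Matrix (Mon n (n * (d - 1) + 1)) (Mon n (n * (d - 1) + 1)) R :=
  fun μ ν => coeff ν.1 (P hd c μ)

lemma P_eq (hd : 1 ≤ d) (c : Fin n → Mon n d → R) (μ : Mon n (n * (d - 1) + 1)) :
    P hd c μ = ∑ ν, monomial ν.1 (Mac hd c μ ν) := hom_eq (P_hom hd c μ)

lemma Mac_map (hd : 1 ≤ d) (φ : R →+* S) (c : Fin n → Mon n d → R) :
    φ.mapMatrix (Mac hd c) = Mac hd fun i m => φ (c i m) := by
  ext μ ν
  rw [RingHom.mapMatrix_apply, Matrix.map_apply, Mac, Mac, ← coeff_map, P, P, map_mul,
    map_monomial, map_one, map_forms]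

lemma key [DecidableEq (Mon n (n * (d - 1) + 1))] (hd : 1 ≤ d) (c : Fin n → Mon n d → R)
    (ν' : Mon n (n * (d - 1) + 1)) :
    ∑ μ, C ((Mac hd c).adjugate ν' μ) * P hd c μ = monomial ν'.1 (Mac hd c).det := by
  have h1 : ∀ μ, C ((Mac hd c).adjugate ν' μ) * P hd c μ =
      ∑ ν, monomial ν.1 ((Mac hd c).adjugate ν' μ * Mac hd c μ ν) := by
    intro μ
    conv_lhs => rw [P_eq hd c μ, Finset.mul_sum]
    simp only [C_mul_monomial]
  simp only [h1]
  rw [Finset.sum_comm]
  have h2 : ∀ ν : Mon n (n * (d - 1) + 1), ∑ μ, monomial ν.1 ((Mac hd c).adjugate ν' μ * Mac hd c μ ν) =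
      monomial ν.1 (if ν' = ν then (Mac hd c).det else 0) := by
    intro ν
    rw [← map_sum, ← Matrix.mul_apply, Matrix.adjugate_mul, Matrix.smul_apply, Matrix.one_apply]
    split_ifs <;> simp
  simp only [h2]
  rw [Finset.sum_eq_single ν']
  · rw [if_pos rfl]
  · intro b _ hb
    rw [if_neg (Ne.symm hb), map_zero]
  · intro h
    exact absurd (Finset.mem_univ _) h

end

/-- the coefficients of the forms `X_i ^ d` -/
def c0 (n d : ℕ) : Fin n → Mon n d → ℤ :=
  open Classical in fun i m => if m.1 = Finsupp.single i d then 1 else 0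

lemma forms_c0 (i : Fin n) : formsOf (c0 n d) i = monomial (Finsupp.single i d) 1 := by
  classical
  have hm : Finsupp.single i d ∈ Finset.finsuppAntidiag (Finset.univ : Finset (Fin n)) d := by
    rw [Finset.mem_finsuppAntidiag]
    refine ⟨?_, Finset.subset_univ _⟩
    rw [Finset.sum_eq_single i]
    · simp
    · intro b _ hb
      rw [Finsupp.single_eq_of_ne hb]
    · intro h
      exact absurd (Finset.mem_univ _) h
  rw [formsOf, Finset.sum_eq_single (⟨_, hm⟩ : Mon n d)]
  · simp [c0]
  · intro b _ hb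
    have : ¬ b.1 = Finsupp.single i d := fun h => hb (Subtype.ext h)
    simp [c0, this]
  · intro h
    exact absurd (Finset.mem_univ _) h

lemma Mac_c0 [DecidableEq (Mon n (n * (d - 1) + 1))] (hd : 1 ≤ d) : Mac hd (c0 n d) = 1 := by
  ext μ ν
  rw [Mac, P, forms_c0, monomial_mul, mul_one, tsub_add_cancel_of_le (single_le hd μ),
    coeff_monomial, Matrix.one_apply]
  simp only [Subtype.ext_iff]

/-- a resultant -/
theorem t_RES : S_RES := by
  classical
  intro n d hd
  set R : MvPolynomial (Fin n × Mon n d) ℤ := (Mac hd fun i m => X (i, m)).det with hR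
  have hev : ∀ c : Fin n → Mon n d → ℤ,
      eval (fun s : Fin n × Mon n d => c s.1 s.2) R = (Mac hd c).det := by
    intro c
    rw [hR, RingHom.map_det, Mac_map]
    simp only [eval_X]
  refine ⟨R, fun p hp h => ?_, fun c => ?_⟩
  · have := Fact.mk hp
    have h1 := eval₂_comp (Int.castRingHom (ZMod p)) (fun s : Fin n × Mon n d => c0 n d s.1 s.2) R
    rw [hev, Mac_c0, Matrix.det_one, map_one, ← eval_map, h, map_zero] at h1
    exact one_ne_zero h1
  · have hm : ∀ i : Fin n, Finsupp.single i (n * (d - 1) + 1) ∈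
        Finset.finsuppAntidiag (Finset.univ : Finset (Fin n)) (n * (d - 1) + 1) := by
      intro i
      rw [Finset.mem_finsuppAntidiag]
      refine ⟨?_, Finset.subset_univ _⟩
      rw [Finset.sum_eq_single i]
      · simp
      · intro b _ hb
        rw [Finsupp.single_eq_of_ne hb]
      · intro h
        exact absurd (Finset.mem_univ _) h
    refine ⟨n * (d - 1) + 1, fun i j => ∑ μ : Mon n (n * (d - 1) + 1),
      if ix hd μ = j then C ((Mac hd c).adjugate ⟨_, hm i⟩ μ) *
        monomial (μ.1 - Finsupp.single (ix hd μ) d) 1 else 0, fun i => ?_⟩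
    rw [hev]
    have h1 : C (Mac hd c).det * X i ^ (n * (d - 1) + 1) =
        monomial (Finsupp.single i (n * (d - 1) + 1)) (Mac hd c).det := by
      rw [X_pow_eq_monomial, C_mul_monomial, mul_one]
    rw [h1, ← key hd c ⟨_, hm i⟩]
    simp only [Finset.sum_mul, ite_mul, zero_mul]
    rw [Finset.sum_comm]
    refine Finset.sum_congr rfl fun μ _ => ?_
    rw [Finset.sum_ite_eq, if_pos (Finset.mem_univ _), P, mul_assoc]

end Pool.Agent.T4h89.OM.RES
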