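import Pool.Agent.T4h89.OM.Stm3

/-!
# Task SIEVE
-/

set_option autoImplicit false

noncomputable section

namespace Pool.Agent.T4h89.OM.SIEVE

open Pool.Agent.T4h89.OM Filter Topology

/-- integers of an interval congruent to each other -/
lemma card_int (B : ℕ) (Q : ℕ) (hQ : 0 < Q) (A : Finset ℤ) (hA : A ⊆ Finset.Icc (-(B : ℤ)) B)
    (hAA : ∀ y ∈ A, ∀ z ∈ A, (Q : ℤ) ∣ y - z) : A.card ≤ 2 * B / Q + 1 := by
  classical
  rcases A.eq_empty_or_nonempty with rfl | hne
  · simp
  · set m := A.min' hne with hm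
    have hmA : m ∈ A := A.min'_mem hne
    have hle : ∀ y ∈ A, m ≤ y := fun y hy => A.min'_le y hy
    have hdv : ∀ y ∈ A, ∃ k : ℕ, y = m + Q * k := by
      intro y hy
      obtain ⟨k, hk⟩ := hAA y hy m hmA
      have hk0 : 0 ≤ k := by
        by_contra h
        push Not at h
        have h1 := hle y hy
        have h2 : (Q : ℤ) * k < 0 := mul_neg_of_pos_of_neg (by exact_mod_cast hQ) h
        omega
      obtain ⟨k', rfl⟩ := Int.eq_ofNat_of_zero_le hk0
      exact ⟨k', by omega⟩
    choose! k hk using hdv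
    have hcard : A.card ≤ (Finset.range (2 * B / Q + 1)).card := by
      refine Finset.card_le_card_of_injOn k ?_ ?_
      · intro y hy
        have h1 := Finset.mem_Icc.1 (hA hy)
        have h2 := Finset.mem_Icc.1 (hA hmA)
        have h3 := hk y hy
        simp only [Finset.coe_range, Set.mem_Iio]
        refine Nat.lt_succ_of_le ((Nat.le_div_iff_mul_le hQ).2 ?_)
        have h4 : ((k y * Q : ℕ) : ℤ) ≤ ((2 * B : ℕ) : ℤ) := by
          push_cast
          rw [mul_comm (k y : ℤ) (Q : ℤ)]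
          omega
        exact_mod_cast h4
      · intro y hy z hz h
        rw [hk y hy, hk z hz, h]
    rwa [Finset.card_range] at hcard

/-- the primes -/
def pr (p₀ j : ℕ) : ℕ := Nat.nth Nat.Prime (p₀ + j)

lemma pr_prime (p₀ j : ℕ) : (pr p₀ j).Prime := Nat.prime_nth_prime _

instance (p₀ j : ℕ) : NeZero (pr p₀ j) := ⟨(pr_prime p₀ j).ne_zero⟩

lemma le_pr (p₀ j : ℕ) : p₀ ≤ pr p₀ j :=
  (Nat.le_add_right _ _).trans ((Nat.nth_strictMono Nat.infinite_setOfPred_prime).le_apply)

lemma pr_inj (p₀ : ℕ) : Function.Injective (pr p₀) := by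
  intro i j h
  have := Nat.nth_injective Nat.infinite_setOfPred_prime h
  omega

/-- almost all integer vectors lie modulo some prime number in a given set of positive proportion -/
theorem t_SIEVE : S_SIEVE := by
  classical
  intro ι _ G p₀ θ hθ hG
  set n := Fintype.card ι with hn
  set ok : (ι → ℤ) → Prop := fun x => ∃ p : ℕ, p.Prime ∧ p₀ ≤ p ∧
    (fun i => ((x i : ℤ) : ZMod p)) ∈ G p with hok
  set box : ℕ → Finset (ι → ℤ) := fun B => Fintype.piFinset fun _ => Finset.Icc (-(B : ℤ)) B with hbox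
  have hmem : ∀ B x, x ∈ box B ↔ ∀ i, |x i| ≤ (B : ℤ) := by
    intro B x
    rw [hbox, Fintype.mem_piFinset]
    simp only [Finset.mem_Icc, abs_le]
  have hboxc : ∀ B, (box B).card = (2 * B + 1) ^ n := by
    intro B
    rw [hbox]
    simp only [Fintype.card_piFinset, Int.card_Icc, Finset.prod_const, Finset.card_univ]
    congr 1
    omega
  have hgood : ∀ B : ℕ, Nat.card {x : ι → ℤ // (∀ i, |x i| ≤ (B : ℤ)) ∧ ok x} = ((box B).filter ok).card := by
    intro B
    rw [← Fintype.card_coe, ← Nat.card_eq_fintype_card]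
    refine Nat.card_congr (Equiv.subtypeEquivRight fun x => ?_)
    rw [Finset.mem_filter, hmem]
  have hsum : ∀ B, ((box B).filter ok).card + ((box B).filter fun x => ¬ ok x).card =
      (2 * B + 1) ^ n := by
    intro B
    rw [← hboxc]
    exact Finset.card_filter_add_card_filter_not _
  -- the main bound
  have hmain : ∀ (r B : ℕ), (((box B).filter fun x => ¬ ok x).card : ℝ) ≤
      (1 - θ) ^ r * ((2 * B + 1 : ℝ) + ((∏ j : Fin r, pr p₀ j : ℕ) : ℝ)) ^ n := by
    intro r B
    set Q : ℕ := ∏ j : Fin r, pr p₀ j with hQ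
    have hQ0 : 0 < Q := Finset.prod_pos fun j _ => (pr_prime p₀ j).pos
    set f : (ι → ℤ) → (∀ j : Fin r, ι → ZMod (pr p₀ j)) := fun x j i => ((x i : ℤ) : ZMod (pr p₀ j))
      with hf
    set t : Finset (∀ j : Fin r, ι → ZMod (pr p₀ j)) :=
      Fintype.piFinset fun j => Finset.univ.filter fun y => y ∉ G (pr p₀ j) with ht
    have h1 : ∀ x ∈ (box B).filter (fun x => ¬ ok x), f x ∈ t := by
      intro x hx
      rw [ht, Fintype.mem_piFinset]
      intro j
      rw [Finset.mem_filter]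
      refine ⟨Finset.mem_univ _, fun h => (Finset.mem_filter.1 hx).2 ?_⟩
      exact ⟨_, pr_prime p₀ j, le_pr p₀ j, h⟩
    have h2 : ∀ y ∈ t, (((box B).filter fun x => ¬ ok x).filter fun x => f x = y).card ≤
        (2 * B / Q + 1) ^ n := by
      intro y _
      have h3 : (((box B).filter fun x => ¬ ok x).filter fun x => f x = y) ⊆
          Fintype.piFinset fun i => (Finset.Icc (-(B : ℤ)) B).filter
            fun z => ∀ j : Fin r, ((z : ℤ) : ZMod (pr p₀ j)) = y j i := by
        intro x hx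
        rw [Finset.mem_filter, Finset.mem_filter, hbox, Fintype.mem_piFinset] at hx
        rw [Fintype.mem_piFinset]
        intro i
        rw [Finset.mem_filter]
        refine ⟨hx.1.1 i, fun j => ?_⟩
        rw [← hx.2]
      refine (Finset.card_le_card h3).trans ?_
      rw [Fintype.card_piFinset, hn, ← Finset.card_univ, ← Finset.prod_const]
      refine Finset.prod_le_prod' fun i _ => card_int B Q hQ0 _ (Finset.filter_subset _ _) ?_
      intro z hz z' hz'
      rw [Finset.mem_filter] at hz hz'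
      rw [hQ]
      push_cast
      refine Finset.prod_dvd_of_coprime ?_ fun j _ => ?_
      · intro j _ j' _ hjj
        refine Nat.isCoprime_iff_coprime.2 ?_
        rw [Nat.coprime_primes (pr_prime _ _) (pr_prime _ _)]
        intro h
        exact hjj (Fin.ext (pr_inj p₀ h))
      · rw [← ZMod.intCast_zmod_eq_zero_iff_dvd, Int.cast_sub, hz.2 j, hz'.2 j, sub_self]
    have h4 := Finset.card_le_mul_card_image_of_maps_to h1 _ h2
    have h5 : (t.card : ℝ) ≤ (1 - θ) ^ r * (Q : ℝ) ^ n := by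
      rw [ht, Fintype.card_piFinset, hQ]
      push_cast
      have h6 : (1 - θ) ^ r * (∏ j : Fin r, (pr p₀ j : ℝ)) ^ n =
          ∏ j : Fin r, ((1 - θ) * (pr p₀ j : ℝ) ^ n) := by
        rw [Finset.prod_mul_distrib, Finset.prod_const, Finset.card_univ, Fintype.card_fin,
          Finset.prod_pow]
      rw [h6]
      refine Finset.prod_le_prod (fun _ _ => Nat.cast_nonneg _) fun j _ => ?_
      have h7 := hG (pr p₀ j) (pr_prime _ _) (le_pr _ _)
      have h8 : (Finset.univ.filter fun y : ι → ZMod (pr p₀ j) => y ∈ G (pr p₀ j)).card +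
          (Finset.univ.filter fun y : ι → ZMod (pr p₀ j) => y ∉ G (pr p₀ j)).card =
          pr p₀ j ^ n := by
        rw [Finset.card_filter_add_card_filter_not, Finset.card_univ, Fintype.card_fun, ZMod.card]
      have h9 : Nat.card (G (pr p₀ j)) =
          (Finset.univ.filter fun y : ι → ZMod (pr p₀ j) => y ∈ G (pr p₀ j)).card := by
        rw [← Fintype.card_coe, ← Nat.card_eq_fintype_card]
        refine Nat.card_congr (Equiv.subtypeEquivRight fun x => ?_)
        rw [Finset.mem_filter]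
        simp
      rw [h9] at h7
      have h10 : ((Finset.univ.filter fun y : ι → ZMod (pr p₀ j) => y ∈ G (pr p₀ j)).card : ℝ) +
          ((Finset.univ.filter fun y : ι → ZMod (pr p₀ j) => y ∉ G (pr p₀ j)).card : ℝ) =
          (pr p₀ j : ℝ) ^ n := by exact_mod_cast h8
      linarith
    have hQr : (0 : ℝ) < Q := by exact_mod_cast hQ0
    have h11 : ((2 * B / Q + 1 : ℕ) : ℝ) ≤ ((2 * B + 1 : ℝ) + Q) / Q := by
      have h12 : ((2 * B / Q : ℕ) : ℝ) ≤ ((2 * B : ℕ) : ℝ) / Q := Nat.cast_div_le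
      rw [add_div, div_self hQr.ne']
      push_cast at h12 ⊢
      have h13 : (2 * B : ℝ) / Q ≤ (2 * B + 1) / Q := by gcongr; linarith
      linarith
    calc (((box B).filter fun x => ¬ ok x).card : ℝ) ≤ (((2 * B / Q + 1) ^ n * t.card : ℕ) : ℝ) := by
          exact_mod_cast h4
      _ = ((2 * B / Q + 1 : ℕ) : ℝ) ^ n * t.card := by push_cast; ring
      _ ≤ (((2 * B + 1 : ℝ) + Q) / Q) ^ n * ((1 - θ) ^ r * (Q : ℝ) ^ n) := by gcongr
      _ = _ := by
        rw [div_pow]
        field_simp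
  have hpos : ∀ B : ℕ, (0 : ℝ) < (2 * B + 1 : ℝ) ^ n := fun B => by positivity
  have hratio : ∀ (r B : ℕ), 1 - (1 - θ) ^ r *
      (1 + ((∏ j : Fin r, pr p₀ j : ℕ) : ℝ) / (2 * B + 1)) ^ n ≤
      (Nat.card {x : ι → ℤ // (∀ i, |x i| ≤ B) ∧ ok x} : ℝ) / (2 * B + 1 : ℝ) ^ n := by
    intro r B
    rw [hgood, le_div_iff₀ (hpos B), sub_mul, one_mul, mul_assoc, ← mul_pow]
    have h1 : (1 + ((∏ j : Fin r, pr p₀ j : ℕ) : ℝ) / (2 * B + 1)) * (2 * B + 1 : ℝ) =
        (2 * B + 1 : ℝ) + ((∏ j : Fin r, pr p₀ j : ℕ) : ℝ) := by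
      have : (2 * B + 1 : ℝ) ≠ 0 := by positivity
      field_simp
    rw [h1]
    have h2 := hmain r B
    have h3 : (((box B).filter ok).card : ℝ) + (((box B).filter fun x => ¬ ok x).card : ℝ) =
        (2 * B + 1 : ℝ) ^ n := by exact_mod_cast hsum B
    linarith
  have hle1 : ∀ B : ℕ, (Nat.card {x : ι → ℤ // (∀ i, |x i| ≤ B) ∧ ok x} : ℝ) /
      (2 * B + 1 : ℝ) ^ n ≤ 1 := by
    intro B
    rw [hgood, div_le_one (hpos B)]
    have h3 : (((box B).filter ok).card : ℝ) + (((box B).filter fun x => ¬ ok x).card : ℝ) =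
        (2 * B + 1 : ℝ) ^ n := by exact_mod_cast hsum B
    have h4 : (0 : ℝ) ≤ (((box B).filter fun x => ¬ ok x).card : ℝ) := Nat.cast_nonneg _
    linarith
  have hθ1 : θ ≤ 1 := by
    have h7 := hG (pr p₀ 0) (pr_prime _ _) (le_pr _ _)
    have h8 : Nat.card (G (pr p₀ 0)) ≤ pr p₀ 0 ^ n := by
      have h9 := Nat.card_le_card_of_injective (fun x : G (pr p₀ 0) => x.1) Subtype.val_injective
      rwa [Nat.card_eq_fintype_card (α := ι → ZMod (pr p₀ 0)), Fintype.card_fun, ZMod.card] at h9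
    have h9 : (Nat.card (G (pr p₀ 0)) : ℝ) ≤ (pr p₀ 0 : ℝ) ^ n := by exact_mod_cast h8
    have h10 : (0 : ℝ) < (pr p₀ 0 : ℝ) ^ n := by
      have := (pr_prime p₀ 0).pos
      positivity
    by_contra h
    push Not at h
    nlinarith
  refine tendsto_order.2 ⟨fun a ha => ?_, fun a ha => Eventually.of_forall fun B =>
    (hle1 B).trans_lt ha⟩
  have hpow : Tendsto (fun r : ℕ => (1 - θ) ^ r) atTop (𝓝 0) :=
    tendsto_pow_atTop_nhds_zero_of_lt_one (by linarith) (by linarith)
  obtain ⟨r, hr⟩ := (hpow.eventually (gt_mem_nhds (show (0 : ℝ) < 1 - a by linarith))).exists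
  have hlim : Tendsto (fun B : ℕ => 1 - (1 - θ) ^ r *
      (1 + ((∏ j : Fin r, pr p₀ j : ℕ) : ℝ) / (2 * (B : ℝ) + 1)) ^ n) atTop
      (𝓝 (1 - (1 - θ) ^ r * (1 + 0) ^ n)) := by
    refine Tendsto.sub tendsto_const_nhds (Tendsto.mul tendsto_const_nhds
      (Tendsto.pow (Tendsto.add tendsto_const_nhds ?_) n))
    refine Tendsto.div_atTop tendsto_const_nhds ?_
    refine tendsto_atTop_add_const_right _ _ ?_
    exact Tendsto.const_mul_atTop (by norm_num) tendsto_natCast_atTop_atTop
  rw [add_zero, one_pow, mul_one] at hlim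
  filter_upwards [hlim.eventually (lt_mem_nhds (show a < 1 - (1 - θ) ^ r by linarith))] with B hB
  exact hB.trans_le (hratio r B)

end Pool.Agent.T4h89.OM.SIEVE
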