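import Pool.Agent.T4h89.OM.Stm3

/-!
# Task ZER
-/

set_option autoImplicit false

namespace Pool.Agent.T4h89.OM.ZER

open Pool.Agent.T4h89.OM

/-- few zeros of a nonzero polynomial modulo `p` -/
theorem t_ZER : S_ZER := by
  classical
  intro σ _ R hR
  refine ⟨R.totalDegree, fun p hp => ?_⟩
  have := Fact.mk hp
  set e := Fintype.equivFin σ with he
  set n := Fintype.card σ with hn
  set R₁ := MvPolynomial.map (Int.castRingHom (ZMod p)) R with hR₁
  set R' : MvPolynomial (Fin n) (ZMod p) := MvPolynomial.rename e R₁ with hR'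
  have hR'0 : R' ≠ 0 := by
    intro h
    exact hR p hp ((MvPolynomial.rename_injective e e.injective) (by rw [map_zero]; exact h))
  have hdeg : R'.totalDegree ≤ R.totalDegree := by
    refine (MvPolynomial.totalDegree_rename_le _ _).trans ?_
    exact Finset.sup_mono (MvPolynomial.support_map_subset _ _)
  have h := MvPolynomial.schwartz_zippel_totalDegree hR'0 (Finset.univ : Finset (ZMod p))
  rw [Finset.card_univ, ZMod.card] at h
  set T := (Fintype.piFinset fun _ : Fin n => (Finset.univ : Finset (ZMod p))).filter
    fun f => MvPolynomial.eval f R' = 0 with hT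
  have hcard : Nat.card {c : σ → ZMod p // MvPolynomial.eval c R₁ = 0} = T.card := by
    have h1 : Nat.card {c : σ → ZMod p // MvPolynomial.eval c R₁ = 0} = Nat.card T := by
      refine Nat.card_congr (Equiv.subtypeEquiv (Equiv.arrowCongr e (Equiv.refl _)) fun c => ?_)
      have h2 : (Equiv.arrowCongr e (Equiv.refl (ZMod p)) c) ∘ e = c := by
        funext i
        simp [Equiv.arrowCongr]
      rw [hT, Finset.mem_filter, hR', MvPolynomial.eval_rename, h2]
      simp
    rw [h1, Nat.card_eq_fintype_card, Fintype.card_coe]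
  rw [hcard]
  have hp0 : (0 : NNRat) < p := by exact_mod_cast hp.pos
  rw [div_le_div_iff₀ (by positivity) hp0] at h
  have h3 : T.card * p ≤ R'.totalDegree * p ^ n := by exact_mod_cast h
  calc p * T.card = T.card * p := mul_comm _ _
    _ ≤ R'.totalDegree * p ^ n := h3
    _ ≤ R.totalDegree * p ^ n := Nat.mul_le_mul_right _ hdeg

end Pool.Agent.T4h89.OM.ZER
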