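import Pool.Agent.T4h89.OM.Final1
import Pool.Agent.T4h89.OM.T_SIEVE
import Pool.Agent.T4h89.OM.T_RES
import Pool.Agent.T4h89.OM.T_ZER
import Pool.Agent.T4h89.OM.T_IND
import Pool.Agent.T4h89.OM.T_BON
import Pool.Agent.T4h89.OM.T_MAIN3

/-!
# Orbits of a point avoiding another point modulo primes: assembly of the third result
-/

set_option autoImplicit false

namespace Pool.Agent.T4h89.OM

theorem main3 : S_MAIN3 :=
  t_MAIN3 main1 t_CNG SIEVE.t_SIEVE RES.t_RES ZER.t_ZER (t_BON t_IND)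

end Pool.Agent.T4h89.OM
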