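import Pool.Agent.T4h89.OM.Stm4

/-! # AIN: the comorphism is injective -/

set_option autoImplicit false

namespace Pool.Agent.T4h89.OM

open MvPolynomial

theorem t_AIN : S_AIN := by
  intro n F hF
  have hint := RingHom.Finite.to_isIntegral hF
  have hmem : ∀ p : MvPolynomial (Fin n) ℚ,
      MvPolynomial.aeval F p ∈ Algebra.adjoin ℚ (Set.range F) := by
    intro p
    rw [Algebra.adjoin_range_eq_range_aeval]
    exact ⟨p, rfl⟩
  have halg : Algebra.IsAlgebraic (Algebra.adjoin ℚ (Set.range F)) (MvPolynomial (Fin n) ℚ) := by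
    constructor
    intro b
    obtain ⟨p, hp, hp0⟩ := hint b
    let φ : MvPolynomial (Fin n) ℚ →ₐ[ℚ] Algebra.adjoin ℚ (Set.range F) :=
      AlgHom.codRestrict (MvPolynomial.aeval F) _ hmem
    refine ⟨p.map φ.toRingHom, (hp.map _).ne_zero, ?_⟩
    rw [Polynomial.aeval_def, Polynomial.eval₂_map]
    exact hp0
  have htb : IsTranscendenceBasis ℚ F := by
    refine Algebra.IsAlgebraic.isTranscendenceBasis_of_le_trdeg_of_finite ℚ F ?_
    simp
  exact htb.1

end Pool.Agent.T4h89.OM
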