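import Pool.Agent.T4h89.OM.Stm4

/-! # ALG: the points of the generic fibre are algebraic -/

set_option autoImplicit false

open NumberField IsDedekindDomain Filter Topology

noncomputable section

namespace Pool.Agent.T4h89.OM

open Pool.Agent.W275.UB (EE gn)

namespace ALGaux

lemma alg_of_comp {A B E Ω : Type} [CommRing A] [CommRing B] [Field E] [Field Ω] [Algebra E Ω]
    (θ : A →+* B) (hθ : θ.Finite) (ψ : B →+* Ω) (g : A →+* E)
    (h : ψ.comp θ = (algebraMap E Ω).comp g) (b : B) : IsAlgebraic E (ψ b) := by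
  obtain ⟨p, hp, hpb⟩ := hθ.to_isIntegral b
  refine (show IsIntegral E (ψ b) from ⟨p.map g, hp.map g, ?_⟩).isAlgebraic
  rw [Polynomial.eval₂_map, ← h, ← Polynomial.hom_eval₂, hpb, map_zero]

end ALGaux

theorem t_ALG : S_ALG := by
  intro n F₀ hF Ω _ _ _ x hx j
  haveI : CharZero (MvPolynomial (Fin n) ℤ) := inferInstance
  haveI : CharZero (EE (Fin n)) := charZero_of_injective_algebraMap
    (IsFractionRing.injective (MvPolynomial (Fin n) ℤ) (EE (Fin n)))
  haveI : CharZero Ω := charZero_of_injective_algebraMap (algebraMap (EE (Fin n)) Ω).injective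
  let ψ : MvPolynomial (Fin n) ℚ →+* Ω := MvPolynomial.eval₂Hom (Rat.castHom Ω) x
  let g : MvPolynomial (Fin n) ℚ →+* EE (Fin n) := MvPolynomial.eval₂Hom (Rat.castHom (EE (Fin n)))
    fun i => algebraMap (MvPolynomial (Fin n) ℤ) (EE (Fin n)) (MvPolynomial.X i)
  have h : ψ.comp (MvPolynomial.aeval (mapF (Int.castRingHom ℚ) F₀) :
      MvPolynomial (Fin n) ℚ →ₐ[ℚ] MvPolynomial (Fin n) ℚ).toRingHom =
      (algebraMap (EE (Fin n)) Ω).comp g := by
    apply MvPolynomial.ringHom_ext
    · intro r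
      simp [ψ, g]
    · intro i
      show ψ (MvPolynomial.aeval (mapF (Int.castRingHom ℚ) F₀) (MvPolynomial.X i)) =
        algebraMap (EE (Fin n)) Ω (g (MvPolynomial.X i))
      rw [MvPolynomial.aeval_X, MvPolynomial.eval₂Hom_X']
      show MvPolynomial.eval₂ (Rat.castHom Ω) x (MvPolynomial.map (Int.castRingHom ℚ) (F₀ i)) =
        gn (Fin n) Ω (MvPolynomial.X i)
      rw [MvPolynomial.eval₂_map, ← hx i]
      congr 1
      exact RingHom.ext_int _ _
  have := ALGaux.alg_of_comp _ hF ψ g h (MvPolynomial.X j)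
  rwa [show ψ (MvPolynomial.X j) = x j from MvPolynomial.eval₂Hom_X' _ _ _] at this

end Pool.Agent.T4h89.OM
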