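import Pool.Agent.T4h89.OM.Stm4

/-!
# Task DGD: `d + 1` polynomials linearly independent over `ℚ[F]`
-/

set_option autoImplicit false

open NumberField IsDedekindDomain Filter Topology

noncomputable section

namespace Pool.Agent.T4h89.OM

namespace DGDaux

/-- the degrees modulo `d` -/
def wt (n d : ℕ) : Fin n → ZMod d := fun _ => 1

theorem weight_eq {n d : ℕ} (m : Fin n →₀ ℕ) : Finsupp.weight (wt n d) m = (m.degree : ZMod d) := by
  rw [Finsupp.weight_apply, Finsupp.degree_apply, Nat.cast_sum]
  refine Finset.sum_congr rfl fun i _ => ?_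
  show m i • (1 : ZMod d) = ((m i : ℕ) : ZMod d)
  rw [nsmul_eq_mul, mul_one]

theorem of_homog {n d k : ℕ} {P : MvPolynomial (Fin n) ℚ} (hP : P.IsHomogeneous k) :
    P.IsWeightedHomogeneous (wt n d) (k : ZMod d) := by
  intro m hm
  rw [weight_eq]
  have h : m.degree = k := by
    rw [Finsupp.degree_eq_weight_one]
    exact hP hm
  rw [h]

theorem theta_wt {n d : ℕ} {F : Fin n → MvPolynomial (Fin n) ℚ} (hF : ∀ i, (F i).IsHomogeneous d)
    (a : MvPolynomial (Fin n) ℚ) : (MvPolynomial.aeval F a).IsWeightedHomogeneous (wt n d) 0 := by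
  induction a using MvPolynomial.induction_on with
  | C c =>
    rw [MvPolynomial.aeval_C]
    exact MvPolynomial.isWeightedHomogeneous_C _ c
  | add p q hp hq =>
    rw [map_add]
    exact hp.add hq
  | mul_X p i hp =>
    rw [map_mul, MvPolynomial.aeval_X]
    have h1 := hp.mul (of_homog (d := d) (hF i))
    rwa [ZMod.natCast_self, add_zero] at h1

end DGDaux

open DGDaux in
theorem t_DGD : S_DGD := by
  classical
  intro n d hn hd F hF hinj m hm hfrac
  have : NeZero n := ⟨by omega⟩
  have : NeZero d := ⟨by omega⟩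
  refine ⟨Fin.snoc (fun j : Fin d => (MvPolynomial.X 0 : MvPolynomial (Fin n) ℚ) ^ (j : ℕ))
    (MvPolynomial.monomial m 1), fun a ha => ?_⟩
  rw [Fin.sum_univ_castSucc] at ha
  simp only [Fin.snoc_castSucc, Fin.snoc_last] at ha
  have hT : ∀ j : Fin d, (MvPolynomial.aeval F (a j.castSucc) *
      (MvPolynomial.X 0 : MvPolynomial (Fin n) ℚ) ^ (j : ℕ)).IsWeightedHomogeneous (wt n d)
        ((j : ℕ) : ZMod d) := by
    intro j
    have h1 := (theta_wt hF (a j.castSucc)).mul (of_homog (d := d)
      ((MvPolynomial.isHomogeneous_X ℚ (0 : Fin n)).pow (j : ℕ)))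
    rwa [zero_add, one_mul] at h1
  have hL : (MvPolynomial.aeval F (a (Fin.last d)) * MvPolynomial.monomial m (1 : ℚ)).IsWeightedHomogeneous
      (wt n d) 0 := by
    have h1 := (theta_wt hF (a (Fin.last d))).mul (of_homog (d := d)
      (MvPolynomial.isHomogeneous_monomial (1 : ℚ) hm))
    rwa [ZMod.natCast_self, add_zero] at h1
  have hcast : ∀ j k : Fin d, ((j : ℕ) : ZMod d) = ((k : ℕ) : ZMod d) → j = k := by
    intro j k h
    rw [ZMod.natCast_eq_natCast_iff', Nat.mod_eq_of_lt j.2, Nat.mod_eq_of_lt k.2] at h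
    exact Fin.ext h
  -- the component of degree `k` modulo `d`
  have hcomp : ∀ k : Fin d, MvPolynomial.aeval F (a k.castSucc) *
      (MvPolynomial.X 0 : MvPolynomial (Fin n) ℚ) ^ (k : ℕ) +
      (if (k : ℕ) = 0 then MvPolynomial.aeval F (a (Fin.last d)) * MvPolynomial.monomial m (1 : ℚ) else 0) = 0 := by
    intro k
    have h1 := congrArg (MvPolynomial.weightedHomogeneousComponent (wt n d) ((k : ℕ) : ZMod d)) ha
    rw [map_zero, map_add, map_sum, Finset.sum_eq_single k] at h1
    · rw [(hT k).weightedHomogeneousComponent_same] at h1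
      have h2 : MvPolynomial.weightedHomogeneousComponent (wt n d) ((k : ℕ) : ZMod d)
          (MvPolynomial.aeval F (a (Fin.last d)) * MvPolynomial.monomial m (1 : ℚ)) =
          if (k : ℕ) = 0 then MvPolynomial.aeval F (a (Fin.last d)) * MvPolynomial.monomial m (1 : ℚ)
          else 0 := by
        rw [MvPolynomial.weightedHomogeneousComponent_of_mem
          ((MvPolynomial.mem_weightedHomogeneousSubmodule _ _ _ _).2 hL)]
        refine if_congr ?_ rfl rfl
        constructor
        · intro h
          have h3 := hcast k ⟨0, by omega⟩ (by rw [h]; simp)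
          rw [h3]
        · intro h
          rw [h, Nat.cast_zero]
      rw [h2] at h1
      exact h1
    · intro j _ hj
      rw [MvPolynomial.weightedHomogeneousComponent_of_mem
          ((MvPolynomial.mem_weightedHomogeneousSubmodule _ _ _ _).2 (hT j)), if_neg]
      intro h
      exact hj (hcast k j h).symm
    · intro h
      exact absurd (Finset.mem_univ k) h
  have hX : ∀ k : ℕ, (MvPolynomial.X 0 : MvPolynomial (Fin n) ℚ) ^ k ≠ 0 := fun k =>
    pow_ne_zero _ (MvPolynomial.X_ne_zero 0)
  have hzero : ∀ z : MvPolynomial (Fin n) ℚ, MvPolynomial.aeval F z = 0 → z = 0 := fun z hz =>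
    hinj (by rw [hz, map_zero])
  have h0 := hcomp ⟨0, by omega⟩
  rw [if_pos rfl] at h0
  simp only [pow_zero, mul_one] at h0
  have hlast : a (Fin.last d) = 0 := hfrac _ _ h0
  intro i
  refine Fin.lastCases hlast (fun k => ?_) i
  have hk := hcomp k
  rw [hlast, map_zero, zero_mul, ite_self, add_zero] at hk
  exact hzero _ ((mul_eq_zero.1 hk).resolve_right (hX _))

end Pool.Agent.T4h89.OM
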