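import Pool.Agent.T4h89.OM.Stm4

/-!
# Project OM, task DGF
-/

set_option autoImplicit false

open Polynomial

noncomputable section

namespace Pool.Agent.T4h89.OM

namespace DGF

theorem monic_of {A B : Type} [CommRing A] [IsDomain A] [IsIntegrallyClosed A] [CommRing B]
    [IsDomain B] (θ : A →+* B) (hθ : Function.Injective θ) (hint : θ.IsIntegral) {M : ℕ} (l : B)
    (p : A[X]) (hp : p ≠ 0) (hd : p.natDegree ≤ M) (h0 : p.eval₂ θ l = 0) :
    ∃ q : A[X], q.Monic ∧ q.natDegree ≤ M ∧ q.eval₂ θ l = 0 := by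
  let _ : Algebra A B := θ.toAlgebra
  have hal : algebraMap A B = θ := rfl
  have : FaithfulSMul A B := (faithfulSMul_iff_algebraMap_injective A B).2 hθ
  have hl : IsIntegral A l := hint l
  refine ⟨minpoly A l, minpoly.monic hl, ?_, minpoly.aeval A l⟩
  have hdvd : minpoly A l ∣ p := minpoly.isIntegrallyClosed_dvd hl h0
  exact (Polynomial.natDegree_le_of_dvd hdvd hp).trans hd

theorem exists_sep {n : ℕ} {Ω : Type} [Field Ω] [CharZero Ω] (S : Finset (Fin n → Ω)) :
    ∃ t : ℕ, ∀ x ∈ S, ∀ x' ∈ S, ∑ i : Fin n, (t : Ω) ^ (i : ℕ) * x i =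
      ∑ i : Fin n, (t : Ω) ^ (i : ℕ) * x' i → x = x' := by
  classical
  let P : (Fin n → Ω) → Polynomial Ω := fun z => ∑ i : Fin n, Polynomial.monomial (i : ℕ) (z i)
  have hP : ∀ z, P z = 0 → z = 0 := by
    intro z hz
    funext j
    have h := congrArg (fun p : Polynomial Ω => p.coeff (j : ℕ)) hz
    simp only [P, Polynomial.finsetSum_coeff, Polynomial.coeff_monomial, Polynomial.coeff_zero] at h
    rw [Finset.sum_eq_single j (fun i _ hi => if_neg fun h => hi (Fin.ext h))
      (fun h => absurd (Finset.mem_univ j) h), if_pos rfl] at h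
    exact h
  have hfin : (⋃ z ∈ ((S ×ˢ S).image fun p => p.1 - p.2).filter (fun z => z ≠ 0),
      {t : Ω | (P z).IsRoot t}).Finite := by
    refine Set.Finite.biUnion (Finset.finite_toSet _) fun z hz => ?_
    have hz' := (Finset.mem_filter.1 hz).2
    exact Polynomial.finite_setOfPred_isRoot fun h => hz' (hP z h)
  obtain ⟨t, ht⟩ : ∃ t : ℕ, (t : Ω) ∉ (⋃ z ∈ ((S ×ˢ S).image fun p => p.1 - p.2).filter
      (fun z => z ≠ 0), {t : Ω | (P z).IsRoot t}) := by
    by_contra hcon
    push Not at hcon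
    have h1 : (Set.range (fun t : ℕ => (t : Ω))).Infinite :=
      Set.infinite_range_of_injective Nat.cast_injective
    exact h1 (hfin.subset (by rintro _ ⟨t, rfl⟩; exact hcon t))
  refine ⟨t, fun x hx x' hx' h => ?_⟩
  by_contra hne
  apply ht
  refine Set.mem_biUnion (x := x - x') ?_ ?_
  · rw [Finset.mem_coe, Finset.mem_filter]
    exact ⟨Finset.mem_image.2 ⟨(x, x'), Finset.mem_product.2 ⟨hx, hx'⟩, rfl⟩, sub_ne_zero.2 hne⟩
  · change (P (x - x')).eval (t : Ω) = 0
    simp only [P, Polynomial.eval_finsetSum, Polynomial.eval_monomial, Pi.sub_apply]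
    have : ∀ i : Fin n, (x i - x' i) * (t : Ω) ^ (i : ℕ) =
        (t : Ω) ^ (i : ℕ) * x i - (t : Ω) ^ (i : ℕ) * x' i := fun i => by ring
    rw [Finset.sum_congr rfl fun i _ => this i, Finset.sum_sub_distrib, h, sub_self]

end DGF

theorem t_DGF : S_DGF := by
  intro n M F hfin hinj hM y S hS
  classical
  obtain ⟨t, ht⟩ := DGF.exists_sep S
  let θ : MvPolynomial (Fin n) ℚ →+* MvPolynomial (Fin n) ℚ :=
    (MvPolynomial.aeval F : MvPolynomial (Fin n) ℚ →ₐ[ℚ] MvPolynomial (Fin n) ℚ).toRingHom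
  let l : MvPolynomial (Fin n) ℚ := ∑ i : Fin n, (t : MvPolynomial (Fin n) ℚ) ^ (i : ℕ) *
    MvPolynomial.X i
  have h1 : ¬ Ind F (M + 1) := fun h => by
    have := hM _ h
    omega
  have h2 : ∃ a : Fin (M + 1) → MvPolynomial (Fin n) ℚ,
      (∑ i, MvPolynomial.aeval F (a i) * l ^ (i : ℕ) = 0) ∧ ∃ i, a i ≠ 0 := by
    by_contra hcon
    push Not at hcon
    exact h1 ⟨fun i => l ^ (i : ℕ), hcon⟩
  obtain ⟨a, ha, j, hj⟩ := h2
  obtain ⟨q, hq, hqd, hq0⟩ := DGF.monic_of (M := M) θ hinj hfin.to_isIntegral l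
    (∑ i : Fin (M + 1), Polynomial.monomial (i : ℕ) (a i))
    (fun h => hj (by
      have h := congrArg (fun p => Polynomial.coeff p (j : ℕ)) h
      simp only [Polynomial.finsetSum_coeff, Polynomial.coeff_monomial, Polynomial.coeff_zero] at h
      rw [Finset.sum_eq_single j (fun i _ hi => if_neg fun h => hi (Fin.ext h))
        (fun h => absurd (Finset.mem_univ j) h), if_pos rfl] at h
      exact h))
    (Polynomial.natDegree_sum_le_of_forall_le _ _ fun i _ =>
      (Polynomial.natDegree_monomial_le _).trans (Nat.lt_succ_iff.1 i.2))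
    (by
      rw [Polynomial.eval₂_finsetSum]
      simp only [Polynomial.eval₂_monomial]
      exact ha)
  let e : MvPolynomial (Fin n) ℚ →+* AlgebraicClosure ℚ :=
    (MvPolynomial.aeval (fun i => algebraMap ℚ (AlgebraicClosure ℚ) (y i)) :
      MvPolynomial (Fin n) ℚ →ₐ[ℚ] AlgebraicClosure ℚ).toRingHom
  have h3 : ∀ x ∈ S, MvPolynomial.aeval x l ∈ (q.map e).roots.toFinset := by
    intro x hx
    rw [Multiset.mem_toFinset, Polynomial.mem_roots (hq.map e).ne_zero, Polynomial.IsRoot.def,
      Polynomial.eval_map]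
    have h4 : e = (MvPolynomial.aeval x : MvPolynomial (Fin n) ℚ →ₐ[ℚ]
        AlgebraicClosure ℚ).toRingHom.comp θ := by
      apply MvPolynomial.ringHom_ext
      · intro r
        change MvPolynomial.aeval _ (MvPolynomial.C r) = MvPolynomial.aeval x
          (MvPolynomial.aeval F (MvPolynomial.C r))
        rw [MvPolynomial.aeval_C, MvPolynomial.aeval_C]
        exact (AlgHom.commutes _ r).symm
      · intro i
        change MvPolynomial.aeval _ (MvPolynomial.X i) = MvPolynomial.aeval x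
          (MvPolynomial.aeval F (MvPolynomial.X i))
        rw [MvPolynomial.aeval_X, MvPolynomial.aeval_X, hS x hx i]
    have h5 := congrArg (MvPolynomial.aeval x : MvPolynomial (Fin n) ℚ →ₐ[ℚ]
        AlgebraicClosure ℚ).toRingHom hq0
    rw [Polynomial.hom_eval₂, map_zero, ← h4] at h5
    exact h5
  have hlx : ∀ x : Fin n → AlgebraicClosure ℚ, MvPolynomial.aeval x l =
      ∑ i : Fin n, (t : AlgebraicClosure ℚ) ^ (i : ℕ) * x i := by
    intro x
    simp only [l, map_sum, map_mul, map_pow, map_natCast, MvPolynomial.aeval_X]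
  calc S.card = (S.image fun x => MvPolynomial.aeval x l).card := by
        rw [Finset.card_image_of_injOn]
        intro x hx x' hx' h
        refine ht x hx x' hx' ?_
        rw [← hlx, ← hlx]
        exact h
    _ ≤ (q.map e).roots.toFinset.card := Finset.card_le_card (by
        intro z hz
        obtain ⟨x, hx, rfl⟩ := Finset.mem_image.1 hz
        exact h3 x hx)
    _ ≤ Multiset.card (q.map e).roots := Multiset.toFinset_card_le _
    _ ≤ (q.map e).natDegree := Polynomial.card_roots' _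
    _ ≤ q.natDegree := Polynomial.natDegree_map_le
    _ ≤ M := hqd

end Pool.Agent.T4h89.OM
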