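import Pool.Agent.T4h89.OM.Stm4

/-! # DGL: degree of the generic point -/

set_option autoImplicit false

open NumberField IsDedekindDomain Filter Topology

noncomputable section

namespace Pool.Agent.T4h89.OM

open Pool.Agent.W275.UB (EE gn)

namespace DGLaux

lemma gen {Z E L A B : Type} [CommRing Z] [IsDomain Z] [Field E] [Algebra Z E]
    [IsFractionRing Z E] [Field L] [Algebra E L] [FiniteDimensional E L] [CommRing A]
    [Nontrivial A] [CommRing B] [IsDomain B] (θ : A →+* B) (hθ : θ.Finite) (ψ : B →+* L)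
    (ι : Z →+* A) (hι : Function.Injective ι) (g : A →+* E) (hg : Function.Injective g)
    (h : ψ.comp θ = (algebraMap E L).comp g) (hgι : g.comp ι = algebraMap Z E) (m : ℕ)
    (b : Fin m → B) (hb : ∀ a : Fin m → A, ∑ i, θ (a i) * b i = 0 → ∀ i, a i = 0) :
    m ≤ Module.finrank E L := by
  have hinj : Function.Injective (ψ.comp θ) := by
    rw [h]
    exact (algebraMap E L).injective.comp hg
  have hψ : Function.Injective ψ := by
    rw [RingHom.injective_iff_ker_eq_bot]
    letI := θ.toAlgebra
    haveI : Algebra.IsIntegral A B := ⟨fun x => hθ.to_isIntegral x⟩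
    apply Ideal.eq_bot_of_comap_eq_bot (R := A)
    show (RingHom.ker ψ).comap θ = ⊥
    rw [RingHom.comap_ker]
    exact (RingHom.injective_iff_ker_eq_bot _).1 hinj
  letI : Algebra Z L := ((algebraMap E L).comp (algebraMap Z E)).toAlgebra
  haveI : IsScalarTower Z E L := IsScalarTower.of_algebraMap_eq fun _ => rfl
  have hl : LinearIndependent E fun i => ψ (b i) := by
    rw [← LinearIndependent.iff_fractionRing Z E, Fintype.linearIndependent_iff]
    intro c hc i
    apply hι
    rw [map_zero]
    refine hb (fun i => ι (c i)) ?_ i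
    apply hψ
    rw [map_zero, map_sum, ← hc]
    refine Finset.sum_congr rfl fun j _ => ?_
    rw [map_mul, Algebra.smul_def]
    congr 1
    have h1 := RingHom.congr_fun h (ι (c j))
    have h2 := RingHom.congr_fun hgι (c j)
    simp only [RingHom.comp_apply] at h1 h2
    rw [h1, h2]
    rfl
  have := hl.fintype_card_le_finrank
  rwa [Fintype.card_fin] at this

attribute [local instance] MvPolynomial.algebraMvPolynomial in
lemma mapC_inj {n : ℕ} {E : Type} [Field E] (g : MvPolynomial (Fin n) ℚ →+* E)
    (h : Function.Injective (g.comp (MvPolynomial.map (Int.castRingHom ℚ)))) :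
    Function.Injective g := by
  rw [injective_iff_map_eq_zero]
  intro p hp
  obtain ⟨⟨q, s⟩, hs⟩ := IsLocalization.surj
    (M := (nonZeroDivisors ℤ).map (MvPolynomial.C (σ := Fin n))) (S := MvPolynomial (Fin n) ℚ) p
  obtain ⟨s, z, hz, rfl⟩ := s
  simp only at hs
  have e1 : algebraMap (MvPolynomial (Fin n) ℤ) (MvPolynomial (Fin n) ℚ) =
      MvPolynomial.map (Int.castRingHom ℚ) := rfl
  rw [e1] at hs
  have hq : q = 0 := by
    apply h
    rw [map_zero, RingHom.comp_apply, ← hs, map_mul, hp, zero_mul]
  rw [hq, map_zero] at hs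
  refine (mul_eq_zero.1 hs).resolve_right ?_
  rw [MvPolynomial.map_C]
  intro h0
  rw [MvPolynomial.C_eq_zero] at h0
  have : z ≠ 0 := nonZeroDivisors.ne_zero hz
  exact this (by simpa using h0)

end DGLaux

theorem t_DGL : S_DGL := by
  intro n m F₀ hF hI L _ _ _ x hx
  haveI : CharZero (MvPolynomial (Fin n) ℤ) := inferInstance
  haveI : CharZero (EE (Fin n)) := charZero_of_injective_algebraMap
    (IsFractionRing.injective (MvPolynomial (Fin n) ℤ) (EE (Fin n)))
  haveI : CharZero L := charZero_of_injective_algebraMap (algebraMap (EE (Fin n)) L).injective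
  let ψ : MvPolynomial (Fin n) ℚ →+* L := MvPolynomial.eval₂Hom (Rat.castHom L) x
  let g : MvPolynomial (Fin n) ℚ →+* EE (Fin n) := MvPolynomial.eval₂Hom (Rat.castHom (EE (Fin n)))
    fun i => algebraMap (MvPolynomial (Fin n) ℤ) (EE (Fin n)) (MvPolynomial.X i)
  have h : ψ.comp (MvPolynomial.aeval (mapF (Int.castRingHom ℚ) F₀) :
      MvPolynomial (Fin n) ℚ →ₐ[ℚ] MvPolynomial (Fin n) ℚ).toRingHom =
      (algebraMap (EE (Fin n)) L).comp g := by
    apply MvPolynomial.ringHom_ext
    · intro r
      simp [ψ, g]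
    · intro i
      show ψ (MvPolynomial.aeval (mapF (Int.castRingHom ℚ) F₀) (MvPolynomial.X i)) =
        algebraMap (EE (Fin n)) L (g (MvPolynomial.X i))
      rw [MvPolynomial.aeval_X, MvPolynomial.eval₂Hom_X']
      show MvPolynomial.eval₂ (Rat.castHom L) x (MvPolynomial.map (Int.castRingHom ℚ) (F₀ i)) =
        gn (Fin n) L (MvPolynomial.X i)
      rw [MvPolynomial.eval₂_map, ← hx i]
      congr 1
      exact RingHom.ext_int _ _
  have hgι : g.comp (MvPolynomial.map (Int.castRingHom ℚ)) =
      algebraMap (MvPolynomial (Fin n) ℤ) (EE (Fin n)) := by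
    apply MvPolynomial.ringHom_ext
    · intro r
      simp [g]
    · intro i
      simp [g]
  obtain ⟨b, hb⟩ := hI
  refine DGLaux.gen _ hF ψ (MvPolynomial.map (Int.castRingHom ℚ))
    (MvPolynomial.map_injective _ ((RingHom.injective_int (Int.castRingHom ℚ)))) g ?_ h hgι m b
    (fun a ha => hb a ha)
  apply DGLaux.mapC_inj
  rw [hgι]
  exact IsFractionRing.injective (MvPolynomial (Fin n) ℤ) (EE (Fin n))

end Pool.Agent.T4h89.OM
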