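import Pool.Agent.T4h89.OM.Stm4

/-! # DIM: a monomial which is not a combination of the forms -/

set_option autoImplicit false

noncomputable section

namespace Pool.Agent.T4h89.OM

theorem t_DIM : S_DIM := by
  intro n d hn hd F
  by_contra hcon
  push_neg at hcon
  -- the monomials
  obtain ⟨i0, hi0⟩ : ∃ i0 : Fin n, i0 = ⟨0, by omega⟩ := ⟨_, rfl⟩
  obtain ⟨i1, hi1⟩ : ∃ i1 : Fin n, i1 = ⟨1, by omega⟩ := ⟨_, rfl⟩
  have h01 : i0 ≠ i1 := by
    rw [hi0, hi1]
    simp
  let g : Option (Fin n) → (Fin n →₀ ℕ) := fun o => match o with
    | none => Finsupp.single i0 (d - 1) + Finsupp.single i1 1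
    | some i => Finsupp.single i d
  have hg : ∀ o, (g o).degree = d := by
    intro o
    cases o with
    | none =>
      show (Finsupp.single i0 (d - 1) + Finsupp.single i1 1).degree = d
      rw [map_add, Finsupp.degree_single, Finsupp.degree_single]
      omega
    | some i => exact Finsupp.degree_single i d
  have hinj : Function.Injective g := by
    intro o o' h
    cases o with
    | none =>
      cases o' with
      | none => rfl
      | some i =>
        exfalso
        have e0 : (Finsupp.single i0 (d - 1) + Finsupp.single i1 1 : Fin n →₀ ℕ) i0 =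
          Finsupp.single i d i0 := DFunLike.congr_fun h i0
        have e1 : (Finsupp.single i0 (d - 1) + Finsupp.single i1 1 : Fin n →₀ ℕ) i1 =
          Finsupp.single i d i1 := DFunLike.congr_fun h i1
        simp only [Finsupp.add_apply, Finsupp.single_apply] at e0 e1
        rw [if_neg h01.symm] at e0
        rw [if_neg h01] at e1
        simp only [if_true] at e0 e1
        split_ifs at e0 e1 <;> omega
    | some i =>
      cases o' with
      | none =>
        exfalso
        have e0 : Finsupp.single i d i0 =
          (Finsupp.single i0 (d - 1) + Finsupp.single i1 1 : Fin n →₀ ℕ) i0 :=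
          DFunLike.congr_fun h i0
        have e1 : Finsupp.single i d i1 =
          (Finsupp.single i0 (d - 1) + Finsupp.single i1 1 : Fin n →₀ ℕ) i1 :=
          DFunLike.congr_fun h i1
        simp only [Finsupp.add_apply, Finsupp.single_apply] at e0 e1
        rw [if_neg h01.symm] at e0
        rw [if_neg h01] at e1
        simp only [if_true] at e0 e1
        split_ifs at e0 e1 <;> omega
      | some j =>
        have e : (Finsupp.single i d : Fin n →₀ ℕ) = Finsupp.single j d := h
        have := (Finsupp.single_left_inj (by omega : d ≠ 0)).1 e
        rw [this]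
  have hl : LinearIndependent ℚ fun o : Option (Fin n) =>
      (MvPolynomial.monomial (g o) (1 : ℚ) : MvPolynomial (Fin n) ℚ) := by
    have := (MvPolynomial.basisMonomials (Fin n) ℚ).linearIndependent.comp g hinj
    simpa [Function.comp_def] using this
  have hsp : Set.range (fun o : Option (Fin n) =>
      (MvPolynomial.monomial (g o) (1 : ℚ) : MvPolynomial (Fin n) ℚ)) ≤
      Submodule.span ℚ (Set.range F) := by
    rintro _ ⟨o, rfl⟩
    exact hcon (g o) (hg o)
  have := linearIndependent_le_span' _ hl (Set.range F) hsp
  rw [Cardinal.mk_fintype, Fintype.card_option, Fintype.card_fin, Nat.cast_le] at this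
  have h2 : Fintype.card (Set.range F) ≤ n := by
    have := Fintype.card_range_le F
    simpa using this
  omega

end Pool.Agent.T4h89.OM
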