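import Pool.Agent.T4h89.OM.Stm4

/-! # FGB: the number of polynomials linearly independent over the forms is bounded -/

set_option autoImplicit false

noncomputable section

namespace Pool.Agent.T4h89.OM

namespace FGBaux

lemma bound {A B : Type} [CommRing A] [Nontrivial A] [CommRing B] (φ : A →+* B)
    (hφ : φ.Finite) : ∃ k : ℕ, ∀ (m : ℕ) (b : Fin m → B),
      (∀ a : Fin m → A, ∑ i, φ (a i) * b i = 0 → ∀ i, a i = 0) → m ≤ k := by
  letI := φ.toAlgebra
  haveI : Module.Finite A B := hφ
  refine ⟨Module.finrank A B, fun m b hb => ?_⟩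
  have hl : LinearIndependent A b := by
    rw [Fintype.linearIndependent_iff]
    intro a ha
    refine hb a ?_
    rw [← ha]
    rfl
  have := hl.fintype_card_le_finrank
  rwa [Fintype.card_fin] at this

end FGBaux

theorem t_FGB : S_FGB := by
  intro n F hF
  have h0 : Ind F 0 := ⟨Fin.elim0, fun a _ i => i.elim0⟩
  obtain ⟨k, hk⟩ := FGBaux.bound _ hF
  have hk' : ∀ m, Ind F m → m ≤ k := by
    intro m hm
    obtain ⟨b, hb⟩ := hm
    exact hk m b fun a ha => hb a ha
  classical
  let P : ℕ → Prop := fun m => Ind F m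
  exact ⟨Nat.findGreatest P k, Nat.findGreatest_spec (P := P) (Nat.zero_le k) h0,
    fun m hm => Nat.le_findGreatest (hk' m hm) hm⟩

end Pool.Agent.T4h89.OM
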