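import Pool.Agent.T4h89.OM.Stm4
import Pool.Agent.T4h89.OM.T_SCL
import Pool.Agent.T4h89.OM.T_SPR
import Pool.Agent.T4h89.OM.T_MAIN1

/-! OM: an automorphism without fixed points in the fibre, forms over the field. -/

set_option autoImplicit false

open NumberField IsDedekindDomain Filter Topology

noncomputable section

namespace Pool.Agent.T4h89.OM

open SCLaux SPR CYC MAIN1 in
theorem t_FPF (hFPI : S_FPI) (hGDQ : S_GDQ) (hCNG : S_CNG) : S_FPF := by
  classical
  intro K _ _ n d hd F hF y hy σ hσ bad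
  obtain ⟨D, F', hD, hF'⟩ := clearPoly F
  obtain ⟨e, y', he, hy'⟩ := clear (Fin n) y
  have inj := FaithfulSMul.algebraMap_injective (𝓞 K) K
  have hne : ∀ E : 𝓞 K, E ≠ 0 → algebraMap (𝓞 K) K E ≠ 0 := fun E hE => by
    rwa [Ne, FaithfulSMul.algebraMap_eq_zero_iff]
  have hy0 : y' ≠ 0 := by
    intro hcon
    apply hy
    funext i
    have h1 := hy' i
    rw [hcon, Pi.zero_apply, map_zero] at h1
    exact (mul_eq_zero.1 h1.symm).resolve_left (hne e he)
  have hhom : ∀ i, (F' i).IsHomogeneous d := by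
    intro i
    refine MvPolynomial.IsHomogeneous.of_map inj ?_
    rw [hF' i]
    have h1 := (MvPolynomial.isHomogeneous_C (Fin n) (algebraMap (𝓞 K) K D)).mul (hF.hom i)
    rwa [zero_add] at h1
  have hae : ∀ (x : Fin n → AlgebraicClosure K) (i : Fin n), MvPolynomial.aeval x (F' i) =
      algebraMap K (AlgebraicClosure K) (algebraMap (𝓞 K) K D) * MvPolynomial.aeval x (F i) := by
    intro x i
    rw [← MvPolynomial.aeval_map_algebraMap K x (F' i), hF' i, map_mul, MvPolynomial.aeval_C]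
  have hz : ∀ x : Fin n → AlgebraicClosure K, (∀ i, MvPolynomial.aeval x (F' i) = 0) → x = 0 := by
    intro x hx
    refine hF.zero x fun i => ?_
    have h1 := hx i
    rw [hae] at h1
    refine (mul_eq_zero.1 h1).resolve_left ?_
    exact (map_ne_zero _).2 (hne D hD)
  have r2 : Rel F y F' y' := fun m => iter F F' D hD hF.hom hF' y y' _ (hne e he) hy' m
  obtain ⟨bad2, hbad2⟩ := hGDQ K n F' hz
  obtain ⟨bad3, hbad3⟩ := exists_v y' hy0
  obtain ⟨v, hv, hnp⟩ := hFPI K n d hd F' hhom hz y' hy0 σ (by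
    intro x hx0 hpar
    apply hσ x hx0
    intro i j
    have h1 := hpar i j
    have e2 : ∀ i, algebraMap (𝓞 K) (AlgebraicClosure K) (y' i) =
        algebraMap K (AlgebraicClosure K) (algebraMap (𝓞 K) K e) * algebraMap K (AlgebraicClosure K) (y i) := by
      intro i
      rw [← map_mul, ← hy' i]
      exact IsScalarTower.algebraMap_apply (𝓞 K) K (AlgebraicClosure K) (y' i)
    change MvPolynomial.aeval x (F' i) * algebraMap (𝓞 K) (AlgebraicClosure K) (y' j) =
      MvPolynomial.aeval x (F' j) * algebraMap (𝓞 K) (AlgebraicClosure K) (y' i) at h1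
    rw [hae, hae, e2, e2] at h1
    change MvPolynomial.aeval x (F i) * algebraMap K (AlgebraicClosure K) (y j) =
      MvPolynomial.aeval x (F j) * algebraMap K (AlgebraicClosure K) (y i)
    have h2 : algebraMap K (AlgebraicClosure K) (algebraMap (𝓞 K) K D) ≠ 0 :=
      (map_ne_zero _).2 (hne D hD)
    have h3 : algebraMap K (AlgebraicClosure K) (algebraMap (𝓞 K) K e) ≠ 0 :=
      (map_ne_zero _).2 (hne e he)
    refine mul_left_cancel₀ (mul_ne_zero h2 h3) ?_
    linear_combination h1) (bad ∪ bad2 ∪ bad3)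
  rw [Finset.mem_union, Finset.mem_union, not_or, not_or] at hv
  refine ⟨v, hv.1.1, ?_⟩
  intro m hm hc
  obtain ⟨a, ha, ha'⟩ := r2 m
  obtain ⟨b, hb, hb'⟩ := r2 0
  exact hnp m hm ((hCNG K n v _ _ _ _ a b ha hb ha' hb'
    (good_iter (hbad2 v hv.1.2) (hbad3 v hv.2) m) (hbad3 v hv.2)).1 hc)

end Pool.Agent.T4h89.OM
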