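import Pool.Agent.T4h89.OM.Stm4
import Pool.Agent.T4h89.OM.T_CORE

/-! OM: an automorphism without fixed points in the fibre. -/

set_option autoImplicit false

open NumberField IsDedekindDomain Filter Topology

noncomputable section

namespace Pool.Agent.T4h89.OM

open Pool.Agent.K3h30.RS (PosProportion)

namespace FPI

theorem pos_exists {K : Type} [Field K] [NumberField K] {P : HeightOneSpectrum (𝓞 K) → Prop}
    (h : PosProportion P) : ∃ v, P v := by
  by_contra hno
  push Not at hno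
  obtain ⟨c, hc, hev⟩ := h
  obtain ⟨X, hX, hX2⟩ := (hev.and (eventually_ge_atTop 2)).exists
  have hE : IsEmpty {v : HeightOneSpectrum (𝓞 K) // P v ∧ Ideal.absNorm v.asIdeal ≤ X} :=
    ⟨fun v => hno v.1 v.2.1⟩
  rw [Nat.card_of_isEmpty] at hX
  have h1 : 0 < Nat.primeCounting X := by
    have h2 : Nat.primeCounting 2 ≤ Nat.primeCounting X := Nat.monotone_primeCounting hX2
    have h3 : Nat.primeCounting 2 = 1 := by decide
    omega
  have h2 : (0 : ℝ) < c * (Nat.primeCounting X : ℝ) := mul_pos hc (by exact_mod_cast h1)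
  push_cast at hX
  linarith

end FPI

open FPI in
theorem t_FPI (hSTEP : S_STEP) (hGOOD : S_GOOD) (hCHO : S_CHO) : S_FPI := by
  classical
  intro K _ _ n d hd F hF hz y hy σ hσ bad
  have halg : Algebra.IsAlgebraic ℚ (AlgebraicClosure K) := Algebra.IsAlgebraic.trans ℚ K _
  obtain ⟨ι, hι⟩ : ∃ ι : 𝓞 K →+* 𝓞 (AlgebraicClosure K),
      ι = algebraMap (𝓞 K) (𝓞 (AlgebraicClosure K)) := ⟨_, rfl⟩
  have hιinj : Function.Injective ι := by
    rw [hι]
    exact FaithfulSMul.algebraMap_injective _ _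
  obtain ⟨FO, hFO⟩ : ∃ FO, FO = mapF ι F := ⟨_, rfl⟩
  have hFOh : ∀ i, (FO i).IsHomogeneous d := by
    rw [hFO]
    exact hom_mapF ι hF
  have hae : ∀ (x : Fin n → AlgebraicClosure K) (i : Fin n),
      MvPolynomial.aeval x (FO i) = MvPolynomial.aeval x (F i) := by
    intro x i
    rw [hFO, hι]
    change MvPolynomial.aeval x (MvPolynomial.map (algebraMap (𝓞 K) (𝓞 (AlgebraicClosure K))) (F i)) = _
    rw [MvPolynomial.aeval_map_algebraMap]
  have hzO : ∀ x : Fin n → AlgebraicClosure K, (∀ i, MvPolynomial.aeval x (FO i) = 0) → x = 0 := by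
    intro x hx
    apply hz x
    intro i
    rw [← hae]
    exact hx i
  have h3 : ∀ (x : Fin n → 𝓞 (AlgebraicClosure K)) (i : Fin n),
      MvPolynomial.aeval (fun i => (x i : AlgebraicClosure K)) (FO i) =
        algebraMap (𝓞 (AlgebraicClosure K)) (AlgebraicClosure K) (MvPolynomial.eval x (FO i)) :=
    fun x i => MvPolynomial.aeval_algebraMap_apply (B := AlgebraicClosure K) x (FO i)
  have hy0 : ι ∘ y ≠ 0 := by
    intro h
    apply hy
    funext i
    apply hιinj
    rw [Pi.zero_apply, map_zero]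
    exact congrFun h i
  obtain ⟨T, DT, hDT, hT1, hT2⟩ := hSTEP (AlgebraicClosure K) n d hd FO hFOh hzO {ι ∘ y} (by
    intro w hw
    rw [Finset.mem_singleton.1 hw]
    exact hy0)
  -- the field of the coordinates
  obtain ⟨S, hS⟩ : ∃ S : Finset (AlgebraicClosure K),
      S = T.biUnion fun t => Finset.univ.image fun i => (t i : AlgebraicClosure K) := ⟨_, rfl⟩
  have hSint : ∀ x ∈ (S : Set (AlgebraicClosure K)), IsIntegral K x := fun x _ =>
    Algebra.IsIntegral.isIntegral x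
  have hfdS : FiniteDimensional K (IntermediateField.adjoin K (S : Set (AlgebraicClosure K))) :=
    IntermediateField.finiteDimensional_adjoin hSint
  let L : IntermediateField K (AlgebraicClosure K) := IntermediateField.normalClosure K
    (IntermediateField.adjoin K (S : Set (AlgebraicClosure K))) (AlgebraicClosure K)
  have hL1 : FiniteDimensional K L := normalClosure.is_finiteDimensional K _ _
  have hL2 : Normal K L := normalClosure.normal K _ _
  have hTL : ∀ t ∈ T, ∀ i, (t i : AlgebraicClosure K) ∈ L := by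
    intro t ht i
    have h1 : (t i : AlgebraicClosure K) ∈ IntermediateField.adjoin K (S : Set (AlgebraicClosure K)) := by
      apply IntermediateField.subset_adjoin
      rw [hS, Finset.mem_coe, Finset.mem_biUnion]
      exact ⟨t, ht, Finset.mem_image.2 ⟨i, Finset.mem_univ _, rfl⟩⟩
    exact IntermediateField.le_normalClosure _ h1
  let σL : L ≃ₐ[K] L := σ.restrictNormal L
  have hσL : ∀ x : L, ((σL x : L) : AlgebraicClosure K) = σ (x : AlgebraicClosure K) := by
    intro x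
    exact AlgEquiv.restrictNormal_commutes σ L x
  -- the conjugate vectors
  have hconj : ∀ t : Fin n → 𝓞 (AlgebraicClosure K), ∃ (s : Fin n → 𝓞 (AlgebraicClosure K)),
      ∀ i, (s i : AlgebraicClosure K) = σ (t i : AlgebraicClosure K) := by
    intro t
    have h1 : ∀ i, ∃ s : 𝓞 (AlgebraicClosure K), (s : AlgebraicClosure K) =
        σ (t i : AlgebraicClosure K) := by
      intro i
      have h2 : IsIntegral ℤ (t i : AlgebraicClosure K) := (t i).isIntegral_coe
      have h4 : IsIntegral ℤ (σ (t i : AlgebraicClosure K)) :=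
        h2.map (σ : AlgebraicClosure K →+* AlgebraicClosure K).toIntAlgHom
      exact ⟨⟨_, h4⟩, rfl⟩
    choose s hs using h1
    exact ⟨s, hs⟩
  choose s hs using hconj
  have hnp : ∀ t ∈ T, ¬ Par (s t) t := by
    intro t ht hpar
    obtain ⟨ht0, w, hw, hwp⟩ := hT1 t ht
    rw [Finset.mem_singleton.1 hw] at hwp
    refine hσ (fun i => (t i : AlgebraicClosure K)) ?_ ?_ ?_
    · intro h
      apply ht0
      funext i
      apply RingOfIntegers.coe_injective
      rw [Pi.zero_apply, map_zero]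
      exact congrFun h i
    · intro i j
      have e : ∀ i, MvPolynomial.aeval (fun i => (t i : AlgebraicClosure K)) (F i) =
          algebraMap (𝓞 (AlgebraicClosure K)) (AlgebraicClosure K) (MvPolynomial.eval t (FO i)) := by
        intro i
        rw [← hae, h3]
      have e2 : ∀ i, algebraMap (𝓞 K) (AlgebraicClosure K) (y i) =
          algebraMap (𝓞 (AlgebraicClosure K)) (AlgebraicClosure K) (ι (y i)) := by
        intro i
        rw [hι]
        exact IsScalarTower.algebraMap_apply (𝓞 K) (𝓞 (AlgebraicClosure K)) (AlgebraicClosure K) (y i)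
      change MvPolynomial.aeval (fun i => (t i : AlgebraicClosure K)) (F i) *
        algebraMap (𝓞 K) (AlgebraicClosure K) (y j) =
        MvPolynomial.aeval (fun i => (t i : AlgebraicClosure K)) (F j) *
        algebraMap (𝓞 K) (AlgebraicClosure K) (y i)
      rw [e, e, e2, e2, ← map_mul, ← map_mul]
      exact congrArg _ (hwp i j)
    · intro i j
      have h1 := hpar i j
      have h2 := congrArg (algebraMap (𝓞 (AlgebraicClosure K)) (AlgebraicClosure K)) h1
      rw [map_mul, map_mul] at h2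
      have e1 := hs t i
      have e2 := hs t j
      change σ (t i : AlgebraicClosure K) * (t j : AlgebraicClosure K) =
        σ (t j : AlgebraicClosure K) * (t i : AlgebraicClosure K)
      rw [← e1, ← e2]
      exact h2
  -- the excluded primes
  obtain ⟨D1, hD1, hg⟩ := hGOOD (AlgebraicClosure K) n FO hzO
  obtain ⟨D2, hD2, hgσ⟩ := exists_common T (fun t D => ∀ (k : Type) [Field k]
      (φ : 𝓞 (AlgebraicClosure K) →+* k), (D : k) ≠ 0 → ¬ Par (φ ∘ s t) (φ ∘ t))
      (fun t D D' hdvd h k _ φ hk => h k φ (cast_ne_of_dvd hdvd hk))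
      (fun t ht => npar_vec _ _ (hnp t ht))
  obtain ⟨D3, hD3, hgy⟩ := nz_vec (ι ∘ y) hy0
  obtain ⟨D, hDdef⟩ : ∃ D : ℕ, D = DT * (D1 * (D2 * D3)) := ⟨_, rfl⟩
  have hD0 : D ≠ 0 := by
    rw [hDdef]
    exact mul_ne_zero hDT (mul_ne_zero hD1 (mul_ne_zero hD2 hD3))
  have hdT : DT ∣ D := by rw [hDdef]; exact Dvd.intro _ rfl
  have hd1 : D1 ∣ D := by rw [hDdef]; exact (Dvd.intro _ rfl : D1 ∣ _).trans (Dvd.intro_left _ rfl)
  have hd2 : D2 ∣ D := by
    rw [hDdef]
    exact ((Dvd.intro _ rfl : D2 ∣ D2 * D3).trans (Dvd.intro_left D1 rfl)).trans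
      (Dvd.intro_left DT rfl)
  have hd3 : D3 ∣ D := by
    rw [hDdef]
    exact ((Dvd.intro_left _ rfl : D3 ∣ D2 * D3).trans (Dvd.intro_left D1 rfl)).trans
      (Dvd.intro_left DT rfl)
  have hbadfin : {v : HeightOneSpectrum (𝓞 K) | ((D : ℕ) : 𝓞 K) ∈ v.asIdeal}.Finite := by
    have h1 : Ideal.span {((D : ℕ) : 𝓞 K)} ≠ 0 := by
      rw [Ideal.zero_eq_bot, Ne, Ideal.span_singleton_eq_bot]
      exact_mod_cast hD0
    refine (Ideal.finite_factors h1).subset ?_
    intro v hv
    change v.asIdeal ∣ _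
    rw [Ideal.dvd_span_singleton]
    exact hv
  obtain ⟨v, hvbad, Q, hQ, hQv, hfrob⟩ := pos_exists (hCHO K L σL (bad ∪ hbadfin.toFinset))
  rw [Finset.mem_union, not_or] at hvbad
  refine ⟨v, hvbad.1, ?_⟩
  have hDv : ((D : ℕ) : 𝓞 K) ∉ v.asIdeal := by
    intro h
    exact hvbad.2 (hbadfin.mem_toFinset.2 h)
  let _ : Field (𝓞 (AlgebraicClosure K) ⧸ Q) := Ideal.Quotient.field Q
  obtain ⟨φ, hφ⟩ : ∃ φ : 𝓞 (AlgebraicClosure K) →+* (𝓞 (AlgebraicClosure K) ⧸ Q),
    φ = Ideal.Quotient.mk Q := ⟨_, rfl⟩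
  have hφQ : ∀ x, φ x = 0 ↔ x ∈ Q := fun x => by rw [hφ, Ideal.Quotient.eq_zero_iff_mem]
  have hkerι : RingHom.ker (φ.comp ι) = v.asIdeal := by rw [hφ, hι]; exact ker_comp v Q hQv
  have hDk : ((D : ℕ) : 𝓞 (AlgebraicClosure K) ⧸ Q) ≠ 0 := by
    intro h
    apply hDv
    rw [← hkerι, RingHom.mem_ker, map_natCast]
    exact h
  obtain ⟨hTnz, hTlift⟩ := hT2 _ φ (cast_ne_of_dvd hdT hDk)
  have hgk := hg _ φ (cast_ne_of_dvd hd1 hDk)
  have hgσ' := fun t ht => hgσ t ht _ φ (cast_ne_of_dvd hd2 hDk)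
  have hgy' := hgy _ φ (cast_ne_of_dvd hd3 hDk)
  obtain ⟨fr, hfr, hfix, hq2⟩ := frob_hom v (φ.comp ι) hkerι
  obtain ⟨r, hr⟩ : ∃ r, r = Ideal.absNorm v.asIdeal := ⟨_, rfl⟩
  rw [← hr] at hfrob hfr hfix hq2
  have hit : ∀ m, φ ∘ (ι ∘ (ev F)^[m] y) = (ev (mapF φ FO))^[m] (φ ∘ (ι ∘ y)) := by
    intro m
    rw [← ev_mapF_iter ι, ← hFO, ← ev_mapF_iter φ]
  have hne : ∀ m, φ ∘ (ι ∘ (ev F)^[m] y) ≠ 0 := by
    intro m
    rw [hit]
    exact iter_ne_zero hgk hgy' m
  have hpm : ∀ x y : Fin n → 𝓞 K, ParMod v.asIdeal x y ↔ Par (φ ∘ (ι ∘ x)) (φ ∘ (ι ∘ y)) := by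
    intro x y
    rw [← hkerι, ← par_map_iff]
    rfl
  intro m hm hcm
  obtain ⟨m', rfl⟩ : ∃ m', m = m' + 1 := ⟨m - 1, by omega⟩
  rw [hpm] at hcm
  obtain ⟨z, hzdef⟩ : ∃ z, z = φ ∘ (ι ∘ (ev F)^[m'] y) := ⟨_, rfl⟩
  have hz0 : z ≠ 0 := by rw [hzdef]; exact hne m'
  have hz1 : ev (mapF φ FO) z = φ ∘ (ι ∘ (ev F)^[m' + 1] y) := by
    rw [hzdef, hit, hit, Function.iterate_succ_apply']
  rw [← hz1] at hcm
  obtain ⟨t, ht, hzt⟩ := hTlift z hz0 (ι ∘ y) (Finset.mem_singleton_self _) hcm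
  apply hgσ' t ht
  -- the Frobenius automorphism fixes the reduction of `t`
  have hzfix : ∀ i, z i ^ r = z i := by
    intro i
    rw [hzdef]
    exact hfix _
  have hst : ∀ i, φ (s t i) = φ (t i) ^ r := by
    intro i
    have h1 := (hφQ _).2 (hfrob (t i) (s t i) ⟨(t i : AlgebraicClosure K), hTL t ht i⟩ rfl (by
      rw [hs t i, hσL]))
    rw [map_sub, map_pow, sub_eq_zero] at h1
    exact h1
  have hzs : Par z (φ ∘ s t) := by
    intro i j
    rw [Function.comp_apply, Function.comp_apply, hst, hst, ← hzfix i, ← hzfix j, ← mul_pow, ← mul_pow]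
    have := hzt i j
    rw [Function.comp_apply, Function.comp_apply] at this
    rw [this]
  exact hzs.symm.trans hzt hz0

end Pool.Agent.T4h89.OM
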