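import Pool.Agent.T4h89.OM.Stm4

/-! # HIF: Hilbert irreducibility for the fibres -/

set_option autoImplicit false

open NumberField IsDedekindDomain Filter Topology

noncomputable section

namespace Pool.Agent.T4h89.OM

open Pool.Agent.W275.UB (EE gn D0 S_genT UD)

theorem t_HIF (hgen : S_genT) (hDGL : S_DGL) (hALG : S_ALG) : S_HIF := by
  intro n M F₀ hF hI
  rcases Nat.eq_zero_or_pos M with hM | hM
  · have : {y : Fin n → ℤ | ∃ (K : Type) (_ : Field K) (_ : NumberField K) (x : Fin n → K),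
        Module.finrank ℚ K < M ∧ ∀ i, MvPolynomial.aeval x (F₀ i) = (y i : K)} = ∅ := by
      ext y
      simp only [Set.mem_setOf_eq, Set.mem_empty_iff_false, iff_false]
      rintro ⟨K, _, _, x, h, -⟩
      omega
    rw [this]
    exact D0.empty
  by_contra hcon
  obtain ⟨G, hG⟩ : ∃ G : Set (MvPolynomial (Fin n) (MvPolynomial (Fin n) ℤ)),
      G = Set.range fun i : Fin n => MvPolynomial.map MvPolynomial.C (F₀ i) -
        MvPolynomial.C (MvPolynomial.X i) := ⟨_, rfl⟩
  have key : ∀ (Ω : Type) [Field Ω] (φ : MvPolynomial (Fin n) ℤ →+* Ω) (x : Fin n → Ω),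
      (∀ g ∈ G, MvPolynomial.eval₂ φ x g = 0) ↔
        ∀ i, MvPolynomial.eval₂ (Int.castRingHom Ω) x (F₀ i) = φ (MvPolynomial.X i) := by
    intro Ω _ φ x
    have e : ∀ i, MvPolynomial.eval₂ φ x (MvPolynomial.map MvPolynomial.C (F₀ i) -
        MvPolynomial.C (MvPolynomial.X i)) =
        MvPolynomial.eval₂ (Int.castRingHom Ω) x (F₀ i) - φ (MvPolynomial.X i) := by
      intro i
      rw [MvPolynomial.eval₂_sub, MvPolynomial.eval₂_map, MvPolynomial.eval₂_C]
      congr 2
      exact RingHom.ext_int _ _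
    rw [hG]
    constructor
    · intro h i
      have := h _ ⟨i, rfl⟩
      rw [e, sub_eq_zero] at this
      exact this
    · rintro h _ ⟨i, rfl⟩
      show MvPolynomial.eval₂ φ x (MvPolynomial.map MvPolynomial.C (F₀ i) -
        MvPolynomial.C (MvPolynomial.X i)) = 0
      rw [e, h i, sub_self]
  have hset : {y : Fin n → ℤ | ∃ (K : Type) (_ : Field K) (_ : NumberField K) (x : Fin n → K),
        Module.finrank ℚ K < M ∧ ∀ i, MvPolynomial.aeval x (F₀ i) = (y i : K)} =
      {v : Fin n → ℤ | ∃ (K : Type) (_ : Field K) (_ : NumberField K) (x : Fin n → K),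
        Module.finrank ℚ K ≤ M - 1 ∧
        (∀ g ∈ G, MvPolynomial.eval₂ ((Int.castRingHom K).comp (MvPolynomial.eval v)) x g = 0) ∧
        MvPolynomial.eval₂ ((Int.castRingHom K).comp (MvPolynomial.eval v)) x 1 ≠ 0} := by
    ext y
    simp only [Set.mem_setOf_eq]
    refine exists_congr fun K => exists_congr fun _ => exists_congr fun _ =>
      exists_congr fun x => ?_
    have e1 : MvPolynomial.eval₂ ((Int.castRingHom K).comp (MvPolynomial.eval y)) x
        (1 : MvPolynomial (Fin n) (MvPolynomial (Fin n) ℤ)) ≠ 0 := by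
      rw [MvPolynomial.eval₂_one]
      exact one_ne_zero
    rw [key K]
    have e2 : ∀ i, ((Int.castRingHom K).comp (MvPolynomial.eval y)) (MvPolynomial.X i) =
        (y i : K) := by
      intro i
      simp
    simp_rw [e2]
    constructor
    · rintro ⟨h1, h2⟩
      exact ⟨by omega, h2, e1⟩
    · rintro ⟨h1, h2, -⟩
      exact ⟨by omega, h2⟩
  rw [hset] at hcon
  obtain ⟨L, _, _, x, hfd, hfr, hx, -⟩ := hgen (Fin n) (Fin n) (M - 1) G 1
    (by
      intro Ω _ _ _ x hx
      exact hALG n F₀ hF Ω x ((key Ω _ x).1 hx)) hcon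
  have := hDGL n M F₀ hF hI L x ((key L _ x).1 hx)
  omega

end Pool.Agent.T4h89.OM
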