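import Pool.Agent.T4h89.OM.Stm4

/-! # ITG: the comorphism is finite -/

set_option autoImplicit false

namespace Pool.Agent.T4h89.OM

open MvPolynomial

namespace ITG

theorem fin_of {A B : Type} [CommRing A] [CommRing B] (f : A →+* B) (S : Set B) (hS : S.Finite)
    (h : ∀ N : AddSubmonoid B, (∀ s ∈ S, s ∈ N) → (∀ (a : A) (b : B), b ∈ N → f a * b ∈ N) →
      ∀ b, b ∈ N) : f.Finite := by
  let _ := f.toAlgebra
  refine ⟨hS.toFinset, eq_top_iff.2 fun b _ => ?_⟩
  refine h (Submodule.span A (hS.toFinset : Set B)).toAddSubmonoid (fun s hs => ?_)
    (fun a b hb => ?_) b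
  · exact Submodule.subset_span (by simpa using hs)
  · exact Submodule.smul_mem _ a hb

end ITG

theorem t_ITG : S_ITG := by
  intro n d r hd F G hdr hG hX
  have hfin : (Set.range fun u : Fin n → Fin (r + 1) =>
      (monomial (Finsupp.equivFunOnFinite.symm fun i => (u i : ℕ)) (1 : ℚ))).Finite :=
    Set.finite_range _
  refine ITG.fin_of _ _ hfin fun N hN hN' => ?_
  -- multiplication by constants
  have hC : ∀ (c : ℚ) (b : MvPolynomial (Fin n) ℚ), b ∈ N → C c * b ∈ N := by
    intro c b hb
    have := hN' (C c) b hb
    simpa using this
  have hmon : ∀ (k : ℕ) (m : Fin n →₀ ℕ), m.degree = k → monomial m (1 : ℚ) ∈ N := by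
    intro k
    induction k using Nat.strong_induction_on with
    | _ k ih =>
      intro m hm
      by_cases hall : ∀ i, m i < r
      · refine hN _ ⟨fun i => ⟨m i, by have := hall i; omega⟩, ?_⟩
        ext i
        simp
      · push Not at hall
        obtain ⟨i, hi⟩ := hall
        -- factor out X i ^ r
        set m' : Fin n →₀ ℕ := m - Finsupp.single i r with hm'
        have hmm : m = Finsupp.single i r + m' := by
          ext j
          by_cases hj : j = i
          · subst hj
            simp [hm']
            omega
          · simp [hm', Ne.symm hj]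
        have hdeg : m'.degree + r = k := by
          rw [← hm, hmm, map_add, Finsupp.degree_single]
          omega
        have e1 : monomial m (1 : ℚ) = ∑ j, F j * (G i j * monomial m' 1) := by
          rw [hmm]
          have : monomial (Finsupp.single i r + m') (1 : ℚ) = X i ^ r * monomial m' 1 := by
            rw [X_pow_eq_monomial, monomial_mul, one_mul]
          rw [this, hX i, Finset.sum_mul]
          refine Finset.sum_congr rfl fun j _ => ?_
          ring
        rw [e1]
        refine AddSubmonoid.sum_mem _ fun j _ => ?_
        have e2 : F j = (MvPolynomial.aeval F : MvPolynomial (Fin n) ℚ →ₐ[ℚ] _).toRingHom (X j) := by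
          simp
        rw [e2]
        refine hN' _ _ ?_
        have hh : (G i j * monomial m' 1).IsHomogeneous (r - d + m'.degree) :=
          (hG i j).mul (isHomogeneous_monomial _ rfl)
        rw [MvPolynomial.as_sum (G i j * monomial m' 1)]
        refine AddSubmonoid.sum_mem _ fun u hu => ?_
        have hu' : u.degree = r - d + m'.degree := by
          have h9 : Finsupp.weight (fun _ => 1) u = r - d + m'.degree :=
            hh (mem_support_iff.1 hu)
          rw [← h9, ← Finsupp.degree_eq_weight_one]
        have e3 : monomial u (coeff u (G i j * monomial m' 1)) =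
            C (coeff u (G i j * monomial m' 1)) * monomial u 1 := by
          rw [C_mul_monomial, mul_one]
        rw [e3]
        refine hC _ _ (ih (u.degree) ?_ u rfl)
        omega
  intro b
  rw [b.as_sum]
  refine AddSubmonoid.sum_mem _ fun u _ => ?_
  have e3 : monomial u (coeff u b) = C (coeff u b) * monomial u 1 := by
    rw [C_mul_monomial, mul_one]
  rw [e3]
  exact hC _ _ (hmon _ u rfl)

end Pool.Agent.T4h89.OM
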