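import Pool.Agent.T4h89.OM.Stm4

/-! # JBU: an element of a transitive group which fixes no class -/

set_option autoImplicit false

noncomputable section

namespace Pool.Agent.T4h89.OM

namespace JBUaux

/-- Burnside: a finite group acting transitively on a set with two elements has an element without
fixed points -/
lemma burnside (H Y : Type) [Group H] [MulAction H Y] [Finite H] [Finite Y]
    (ht : ∀ x y : Y, ∃ g : H, g • x = y) (hY : ∃ x y : Y, x ≠ y) :
    ∃ g : H, ∀ x : Y, g • x ≠ x := by
  classical
  by_contra hcon
  push_neg at hcon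
  haveI := Fintype.ofFinite H
  haveI := Fintype.ofFinite Y
  obtain ⟨x0, y0, hxy⟩ := hY
  haveI : Fintype (MulAction.orbitRel.Quotient H Y) := Fintype.ofFinite _
  have hb := MulAction.sum_card_fixedBy_eq_card_orbits_mul_card_group H Y
  have h1 : Fintype.card (MulAction.orbitRel.Quotient H Y) = 1 := by
    rw [Fintype.card_eq_one_iff]
    refine ⟨Quotient.mk'' x0, fun q => ?_⟩
    induction q using Quotient.inductionOn' with
    | _ y =>
      apply Quotient.sound'
      obtain ⟨g, hg⟩ := ht x0 y
      exact ⟨g, hg⟩
  rw [h1, one_mul] at hb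
  have h2 : ∑ g : H, (1 : ℕ) < ∑ g : H, Fintype.card (MulAction.fixedBy Y g) := by
    apply Finset.sum_lt_sum
    · intro g _
      obtain ⟨x, hx⟩ := hcon g
      exact Fintype.card_pos_iff.2 ⟨⟨x, hx⟩⟩
    · refine ⟨1, Finset.mem_univ _, ?_⟩
      rw [Fintype.one_lt_card_iff]
      exact ⟨⟨x0, one_smul _ _⟩, ⟨y0, one_smul _ _⟩, fun h => hxy (congrArg Subtype.val h)⟩
  simp only [Finset.sum_const, Finset.card_univ, smul_eq_mul, mul_one] at h2
  omega

end JBUaux

theorem t_JBU : S_JBU := by
  intro G X _ _ _ r hr ht hne
  classical
  -- the action on the quotient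
  letI act : MulAction G (Quotient r) :=
    { smul := fun g q => Quotient.map (fun x => g • x) (fun x y h => hr g x y h) q
      one_smul := by
        intro q
        induction q using Quotient.inductionOn with
        | _ x => exact congrArg (Quotient.mk r) (one_smul G x)
      mul_smul := by
        intro g h q
        induction q using Quotient.inductionOn with
        | _ x => exact congrArg (Quotient.mk r) (mul_smul g h x) }
  have hmk : ∀ (g : G) (x : X), g • (Quotient.mk r x) = Quotient.mk r (g • x) := fun _ _ => rfl
  haveI : Finite (Quotient r) := Quotient.finite r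
  let H := (MulAction.toPermHom G (Quotient r)).range
  obtain ⟨x0, y0, hxy⟩ := hne
  obtain ⟨h, hh⟩ := JBUaux.burnside H (Quotient r) (by
    intro p q
    induction p using Quotient.inductionOn with
    | _ x =>
      induction q using Quotient.inductionOn with
      | _ y =>
        obtain ⟨g, hg⟩ := ht x y
        refine ⟨⟨MulAction.toPermHom G (Quotient r) g, ⟨g, rfl⟩⟩, ?_⟩
        show g • (Quotient.mk r x) = _
        rw [hmk, hg])
    ⟨Quotient.mk r x0, Quotient.mk r y0, fun h => hxy (Quotient.exact h)⟩
  obtain ⟨h, g, rfl⟩ := h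
  refine ⟨g, fun x hx => hh (Quotient.mk r x) ?_⟩
  show g • (Quotient.mk r x) = _
  rw [hmk]
  exact Quotient.sound hx

end Pool.Agent.T4h89.OM
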