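import Pool.Agent.T4h89.OM.Stm4
import Pool.Agent.T4h89.OM.Lem

/-! OM: an automorphism without fixed points in the projective fibre. -/

set_option autoImplicit false

open NumberField IsDedekindDomain Filter Topology

noncomputable section

namespace Pool.Agent.T4h89.OM

namespace JOR

/-- the values of forms at multiples of a vector -/
theorem aeval_smul {n d : ℕ} {F : Fin n → MvPolynomial (Fin n) ℚ} (hF : ∀ i, (F i).IsHomogeneous d)
    {Ω : Type} [Field Ω] [CharZero Ω] (a : Ω) (x : Fin n → Ω) (i : Fin n) :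
    MvPolynomial.aeval (a • x) (F i) = a ^ d * MvPolynomial.aeval x (F i) := by
  have h := congrFun (ev_smul (F := mapF (algebraMap ℚ Ω) F) (hom_mapF _ hF) a x) i
  change MvPolynomial.eval (a • x) (MvPolynomial.map (algebraMap ℚ Ω) (F i)) =
    a ^ d * MvPolynomial.eval x (MvPolynomial.map (algebraMap ℚ Ω) (F i)) at h
  rw [MvPolynomial.eval_map, MvPolynomial.eval_map] at h
  exact h

theorem aeval_aut {n : ℕ} (F : Fin n → MvPolynomial (Fin n) ℚ)
    (σ : AlgebraicClosure ℚ ≃ₐ[ℚ] AlgebraicClosure ℚ) (x : Fin n → AlgebraicClosure ℚ) (i : Fin n) :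
    MvPolynomial.aeval (fun i => σ (x i)) (F i) = σ (MvPolynomial.aeval x (F i)) := by
  have h := MvPolynomial.map_aeval x (σ : AlgebraicClosure ℚ →+* AlgebraicClosure ℚ) (F i)
  rw [MvPolynomial.aeval_def]
  change _ = (σ : AlgebraicClosure ℚ →+* AlgebraicClosure ℚ) (MvPolynomial.aeval x (F i))
  rw [h]
  change _ = MvPolynomial.eval₂ _ _ (F i)
  congr 1
  ext r
  exact (σ.commutes r).symm

end JOR

open JOR in
theorem t_JOR (hJBU : S_JBU) (hJTR : S_JTR) : S_JOR := by
  classical
  intro n d M hd hdM F hF y hy hfib hirr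
  obtain ⟨htr, hcard⟩ := hJTR n M F y hfib hirr
  obtain ⟨Ω, hΩ⟩ : ∃ Ω, Ω = AlgebraicClosure ℚ := ⟨_, rfl⟩
  -- points of the projective fibre have a multiple in the fibre
  have hrep : ∀ x : Fin n → AlgebraicClosure ℚ, x ≠ 0 →
      Par (fun i => MvPolynomial.aeval x (F i)) (fun i => algebraMap ℚ (AlgebraicClosure ℚ) (y i)) →
      ∃ a : AlgebraicClosure ℚ, a ≠ 0 ∧
        ∀ i, MvPolynomial.aeval (a • x) (F i) = algebraMap ℚ (AlgebraicClosure ℚ) (y i) := by
    intro x hx hpar
    obtain ⟨k, hk⟩ := Function.ne_iff.1 hy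
    have hk' : algebraMap ℚ (AlgebraicClosure ℚ) (y k) ≠ 0 := (map_ne_zero _).2 hk
    have hFk : MvPolynomial.aeval x (F k) ≠ 0 := by
      intro h0
      apply hx
      apply hF.zero x
      intro i
      have h1 : MvPolynomial.aeval x (F i) * algebraMap ℚ (AlgebraicClosure ℚ) (y k) =
        MvPolynomial.aeval x (F k) * algebraMap ℚ (AlgebraicClosure ℚ) (y i) := hpar i k
      rw [h0, zero_mul] at h1
      exact (mul_eq_zero.1 h1).resolve_right hk'
    obtain ⟨a, ha⟩ := IsAlgClosed.exists_pow_nat_eq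
      (algebraMap ℚ (AlgebraicClosure ℚ) (y k) / MvPolynomial.aeval x (F k)) (n := d) (by omega)
    have ha0 : a ≠ 0 := by
      intro h
      rw [h, zero_pow (by omega)] at ha
      exact (div_ne_zero hk' hFk) ha.symm
    refine ⟨a, ha0, fun i => ?_⟩
    rw [aeval_smul hF.hom, ha, div_mul_eq_mul_div, div_eq_iff hFk]
    have h1 : MvPolynomial.aeval x (F i) * algebraMap ℚ (AlgebraicClosure ℚ) (y k) =
        MvPolynomial.aeval x (F k) * algebraMap ℚ (AlgebraicClosure ℚ) (y i) := hpar i k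
    linear_combination h1
  by_cases hne : ∃ x : Fin n → AlgebraicClosure ℚ,
      ∀ i, MvPolynomial.aeval x (F i) = algebraMap ℚ (AlgebraicClosure ℚ) (y i)
  swap
  · refine ⟨1, fun x hx hpar _ => hne ?_⟩
    obtain ⟨a, _, ha⟩ := hrep x hx hpar
    exact ⟨_, ha⟩
  obtain ⟨x₀, hx₀⟩ := hne
  -- the fibre
  let T : Type := {x : Fin n → AlgebraicClosure ℚ //
    ∀ i, MvPolynomial.aeval x (F i) = algebraMap ℚ (AlgebraicClosure ℚ) (y i)}
  have hT0 : ∀ x : T, x.1 ≠ 0 := by
    intro x h
    apply hy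
    funext i
    have h1 := x.2 i
    have h2 : MvPolynomial.aeval ((0 : AlgebraicClosure ℚ) • x.1) (F i) = 0 := by
      rw [aeval_smul hF.hom, zero_pow (by omega), zero_mul]
    rw [zero_smul, ← h, h1] at h2
    exact (map_eq_zero _).1 h2
  have hTf : Finite T := by
    by_contra hinf
    rw [not_finite_iff_infinite] at hinf
    obtain ⟨s, hs⟩ := Infinite.exists_subset_card_eq T (M + 1)
    have h1 := hfib (s.map ⟨Subtype.val, Subtype.val_injective⟩) (by
      intro x hx
      rw [Finset.mem_map] at hx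
      obtain ⟨z, _, rfl⟩ := hx
      exact z.2)
    rw [Finset.card_map, hs] at h1
    omega
  let act : MulAction (AlgebraicClosure ℚ ≃ₐ[ℚ] AlgebraicClosure ℚ) T :=
    { smul := fun σ x => ⟨fun i => σ (x.1 i), fun i => by
        rw [aeval_aut, x.2 i, AlgEquiv.commutes]⟩
      one_smul := fun x => Subtype.ext rfl
      mul_smul := fun σ τ x => Subtype.ext rfl }
  let r : Setoid T :=
    { r := fun x x' => Par x.1 x'.1
      iseqv := ⟨fun x => Par.refl _, fun h => Par.symm h, fun {a b c} h h' => Par.trans h h' (hT0 b)⟩ }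
  obtain ⟨σ, hσ⟩ := hJBU (AlgebraicClosure ℚ ≃ₐ[ℚ] AlgebraicClosure ℚ) T r (by
      intro g x x' h i j
      change g (x.1 i) * g (x'.1 j) = g (x.1 j) * g (x'.1 i)
      rw [← map_mul, ← map_mul]
      exact congrArg g (h i j)) (by
      intro x x'
      obtain ⟨g, hg⟩ := htr x.1 x'.1 x.2 x'.2
      exact ⟨g, Subtype.ext (funext hg)⟩) (by
      by_contra hall
      push Not at hall
      have hall' : ∀ x : T, Par x.1 x₀ := fun x => hall x ⟨x₀, hx₀⟩
      obtain ⟨S, hSM, hS⟩ := hcard x₀ hx₀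
      obtain ⟨k, hk⟩ := Function.ne_iff.1 (hT0 ⟨x₀, hx₀⟩)
      have hk0 : x₀ k ≠ 0 := hk
      -- the factors
      have h1 : ∀ x ∈ S, (x k / x₀ k) ^ d = 1 ∧ x = (x k / x₀ k) • x₀ := by
        intro x hx
        have hxp : Par x x₀ := hall' ⟨x, hS x hx⟩
        have e1 : x = (x k / x₀ k) • x₀ := by
          funext i
          rw [Pi.smul_apply, smul_eq_mul, div_mul_eq_mul_div, eq_div_iff hk0]
          exact hxp i k
        refine ⟨?_, e1⟩
        obtain ⟨j, hj⟩ := Function.ne_iff.1 hy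
        have hj' : algebraMap ℚ (AlgebraicClosure ℚ) (y j) ≠ 0 := (map_ne_zero _).2 hj
        have e2 := hS x hx j
        rw [e1, aeval_smul hF.hom, hx₀ j] at e2
        exact mul_right_cancel₀ hj' (by rw [e2, one_mul])
      have h2 : S.card ≤ (Polynomial.nthRoots d (1 : AlgebraicClosure ℚ)).toFinset.card := by
        refine Finset.card_le_card_of_injOn (fun x => x k / x₀ k) ?_ ?_
        · intro x hx
          rw [Finset.mem_coe, Multiset.mem_toFinset, Polynomial.mem_nthRoots (by omega)]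
          exact (h1 x hx).1
        · intro x hx x' hx' heq
          rw [(h1 x hx).2, (h1 x' hx').2]
          exact congrArg (fun c => c • x₀) heq
      have h3 := (Multiset.toFinset_card_le (Polynomial.nthRoots d (1 : AlgebraicClosure ℚ))).trans
        (Polynomial.card_nthRoots d 1)
      omega)
  refine ⟨σ, ?_⟩
  intro x hx hpar hcon
  obtain ⟨a, ha, hax⟩ := hrep x hx hpar
  apply hσ ⟨a • x, hax⟩
  intro i j
  change σ (a * x i) * (a * x j) = σ (a * x j) * (a * x i)
  rw [map_mul, map_mul]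
  have h1 := hcon i j
  change σ (x i) * x j = σ (x j) * x i at h1
  linear_combination (σ a * a) * h1

end Pool.Agent.T4h89.OM
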