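import Pool.Agent.T4h89.OM.Stm4
import Pool.Agent.T4h89.OM.T_MAIN3

/-! OM: the fourth main result. -/

set_option autoImplicit false

open NumberField IsDedekindDomain Filter Topology

noncomputable section

namespace Pool.Agent.T4h89.OM

open Pool.Agent.W275.UB (EE gn D0 UD S_genT)

namespace MAIN4

open MAIN3

theorem clear {ι : Type} [Finite ι] (x : ι → ℚ) : ∃ (D : ℤ) (y : ι → ℤ), D ≠ 0 ∧
    ∀ i, ((y i : ℤ) : ℚ) = (D : ℚ) * x i := by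
  obtain ⟨b, hb⟩ := IsLocalization.exist_integer_multiples_of_finite (nonZeroDivisors ℤ) x
  choose y hy using hb
  refine ⟨b, y, nonZeroDivisors.ne_zero b.2, fun i => ?_⟩
  have h := hy i
  rw [Algebra.smul_def] at h
  exact h

theorem clearPoly {n : ℕ} (F : Fin n → MvPolynomial (Fin n) ℚ) :
    ∃ (D : ℤ) (F' : Fin n → MvPolynomial (Fin n) ℤ), D ≠ 0 ∧
    mapF (Int.castRingHom ℚ) F' = fun i => MvPolynomial.C (D : ℚ) * F i := by
  obtain ⟨D, y, hD, hy⟩ := clear (ι := Σ i : Fin n, (F i).support)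
    (fun p => MvPolynomial.coeff p.2.1 (F p.1))
  refine ⟨D, fun i => ∑ m : (F i).support, MvPolynomial.monomial m.1 (y ⟨i, m⟩), hD,
    funext fun i => ?_⟩
  unfold mapF
  rw [map_sum]
  have h1 : ∀ m : (F i).support, MvPolynomial.map (Int.castRingHom ℚ)
      (MvPolynomial.monomial m.1 (y ⟨i, m⟩)) = MvPolynomial.C (D : ℚ) *
        MvPolynomial.monomial m.1 (MvPolynomial.coeff m.1 (F i)) := by
    intro m
    rw [MvPolynomial.map_monomial, MvPolynomial.C_mul_monomial]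
    congr 1
    exact hy ⟨i, m⟩
  rw [Finset.sum_congr rfl fun m _ => h1 m, ← Finset.mul_sum]
  congr 1
  rw [Finset.sum_coe_sort (F i).support
    (fun m => MvPolynomial.monomial m (MvPolynomial.coeff m (F i)))]
  exact MvPolynomial.support_sum_monomial_coeff (F i)

theorem D0_zero' {n : ℕ} (hn : 1 ≤ n) : D0 {y : Fin n → ℤ | y = 0} := by
  intro ε hε
  obtain ⟨H₀, hH₀⟩ := exists_nat_gt (1 / ε)
  refine ⟨H₀, fun H hH => ?_⟩
  have h1 : (({v | v ∈ {y : Fin n → ℤ | y = 0} ∧ ∀ i, |v i| ≤ (H : ℤ)} : Set (Fin n → ℤ)).ncard) ≤ 1 := by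
    have : ({v | v ∈ {y : Fin n → ℤ | y = 0} ∧ ∀ i, |v i| ≤ (H : ℤ)} : Set (Fin n → ℤ)) ⊆ {0} := by
      intro v hv
      exact hv.1
    exact (Set.ncard_le_ncard this).trans (by rw [Set.ncard_singleton])
  have h2 : (1 : ℝ) ≤ ε * (2 * H + 1 : ℝ) ^ Fintype.card (Fin n) := by
    rw [Fintype.card_fin]
    have h3 : (H₀ : ℝ) ≤ H := by exact_mod_cast hH
    have h4 : (2 * H + 1 : ℝ) ≤ (2 * H + 1 : ℝ) ^ n := by
      apply le_self_pow₀ _ (by omega)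
      have : (0 : ℝ) ≤ H := Nat.cast_nonneg H
      linarith
    have h5 : 1 / ε ≤ (2 * H + 1 : ℝ) ^ n := by
      have : (0 : ℝ) ≤ H := Nat.cast_nonneg H
      linarith
    have h6 := mul_le_mul_of_nonneg_left h5 hε.le
    rwa [mul_one_div_cancel hε.ne'] at h6
  exact (by exact_mod_cast h1 : (_ : ℝ) ≤ 1).trans h2

theorem count {n : ℕ} (S : Set (Fin n → ℤ)) (hS : D0 Sᶜ) :
    Tendsto (fun B : ℕ => (Nat.card {y : Fin n → ℤ // (∀ i, |y i| ≤ B) ∧ y ∈ S} : ℝ) /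
      (2 * B + 1 : ℝ) ^ n) atTop (𝓝 1) := by
  have hpos : ∀ B : ℕ, (0 : ℝ) < (2 * B + 1 : ℝ) ^ n := fun B => by positivity
  rw [Metric.tendsto_atTop]
  intro ε hε
  obtain ⟨H₀, hH₀⟩ := hS (ε / 2) (by positivity)
  refine ⟨H₀, fun B hB => ?_⟩
  have h1 := hH₀ B hB
  rw [Fintype.card_fin] at h1
  have hfin := finite_box (Fin n) B
  have hc := card_box (Fin n) B
  rw [Fintype.card_fin] at hc
  -- the sets
  have hA : Nat.card {y : Fin n → ℤ // (∀ i, |y i| ≤ (B : ℤ)) ∧ y ∈ S} =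
      ({y | (∀ i, |y i| ≤ (B : ℤ)) ∧ y ∈ S} : Set (Fin n → ℤ)).ncard := Nat.card_coe_set_eq _
  have hT : Nat.card {y : Fin n → ℤ // ∀ i, |y i| ≤ (B : ℤ)} =
      ({y | ∀ i, |y i| ≤ (B : ℤ)} : Set (Fin n → ℤ)).ncard := Nat.card_coe_set_eq _
  have hTf : ({y | ∀ i, |y i| ≤ (B : ℤ)} : Set (Fin n → ℤ)).Finite := hfin
  have h2 : ({y | ∀ i, |y i| ≤ (B : ℤ)} : Set (Fin n → ℤ)).ncard ≤
      ({y | (∀ i, |y i| ≤ (B : ℤ)) ∧ y ∈ S} : Set (Fin n → ℤ)).ncard +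
      ({v | v ∈ Sᶜ ∧ ∀ i, |v i| ≤ (B : ℤ)} : Set (Fin n → ℤ)).ncard := by
    refine (Set.ncard_le_ncard ?_ ?_).trans (Set.ncard_union_le _ _)
    · intro y hy
      by_cases hyS : y ∈ S
      · exact Or.inl ⟨hy, hyS⟩
      · exact Or.inr ⟨hyS, hy⟩
    · exact (hTf.subset fun y hy => hy.1).union (hTf.subset fun y hy => hy.2)
  have h3 : ({y | (∀ i, |y i| ≤ (B : ℤ)) ∧ y ∈ S} : Set (Fin n → ℤ)).ncard ≤
      ({y | ∀ i, |y i| ≤ (B : ℤ)} : Set (Fin n → ℤ)).ncard :=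
    Set.ncard_le_ncard (fun y hy => hy.1) hTf
  rw [← hA, ← hT, hc] at h2
  rw [← hA, ← hT, hc] at h3
  have h2' : ((2 * B + 1 : ℕ) : ℝ) ^ n ≤ (Nat.card {y : Fin n → ℤ // (∀ i, |y i| ≤ (B : ℤ)) ∧ y ∈ S} : ℝ) +
      (({v | v ∈ Sᶜ ∧ ∀ i, |v i| ≤ (B : ℤ)} : Set (Fin n → ℤ)).ncard : ℝ) := by exact_mod_cast h2
  have h3' : (Nat.card {y : Fin n → ℤ // (∀ i, |y i| ≤ (B : ℤ)) ∧ y ∈ S} : ℝ) ≤
      ((2 * B + 1 : ℕ) : ℝ) ^ n := by exact_mod_cast h3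
  push_cast at h2' h3'
  rw [Real.dist_eq, abs_sub_lt_iff]
  constructor
  · have : (Nat.card {y : Fin n → ℤ // (∀ i, |y i| ≤ (B : ℤ)) ∧ y ∈ S} : ℝ) / (2 * B + 1 : ℝ) ^ n ≤ 1 := by
      rw [div_le_one (hpos B)]
      exact h3'
    linarith
  · have : 1 - ε / 2 ≤ (Nat.card {y : Fin n → ℤ // (∀ i, |y i| ≤ (B : ℤ)) ∧ y ∈ S} : ℝ) /
        (2 * B + 1 : ℝ) ^ n := by
      rw [le_div_iff₀ (hpos B)]
      linarith
    linarith

end MAIN4

open MAIN4 in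
theorem t_MAIN4 (hNLQ : S_NLQ) (hITG : S_ITG) (hFGB : S_FGB) (hAIN : S_AIN) (hDGF : S_DGF)
    (hDIM : S_DIM) (hNIN : S_NIN) (hDGD : S_DGD) (hHIF : S_HIF) (hJOR : S_JOR) (hFPF : S_FPF)
    (hSCI : S_SCI) (hHALF : S_HALF) : S_MAIN4 := by
  intro n d hn hd F hF
  obtain ⟨c, F₀, hc, hF₀⟩ := clearPoly F
  have hc' : (c : ℚ) ≠ 0 := by exact_mod_cast hc
  obtain ⟨hF₁, hav⟩ := hSCI ℚ n d F hF (c : ℚ) hc'
  rw [← hF₀] at hF₁ hav
  obtain ⟨F₁, hF₁def⟩ : ∃ F₁, F₁ = mapF (Int.castRingHom ℚ) F₀ := ⟨_, rfl⟩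
  rw [← hF₁def] at hF₁ hav
  -- the degree
  obtain ⟨r, G, hr, hG, hXG⟩ := hNLQ n d F₁ hF₁
  have hfin : FinM F₁ := hITG n d r (by omega) F₁ G hr hG hXG
  obtain ⟨M, hM1, hM2⟩ := hFGB n F₁ hfin
  have hinj := hAIN n F₁ hfin
  obtain ⟨m, hm, hmn⟩ := hDIM n d hn hd F₁
  have hind := hDGD n d (by omega) (by omega) F₁ hF₁.hom hinj m hm
    (hNIN n d (by omega) F₁ hF₁.hom hfin hinj m hm hmn)
  have hdM : d < M := hM2 (d + 1) hind
  have hD := hHIF n M F₀ (by rw [← hF₁def]; exact hfin) (by rw [← hF₁def]; exact hM1)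
  have hD' := hD.union (D0_zero' (n := n) (by omega))
  -- the good targets
  have key : D0 ({y : Fin n → ℤ | y ≠ 0 ∧ ∀ γ₁ : Fin n → ℚ, γ₁ ≠ 0 →
      (∀ m : ℕ, ¬ Par ((ev F)^[m] γ₁) (fun i => (y i : ℚ))) →
      PosDens (Avoid F γ₁ (fun i => (y i : ℚ)))}ᶜ) := by
    intro ε hε
    refine (hD' ε hε).mono ?_
    intro y hy
    by_contra hnot
    rw [Set.mem_union, not_or] at hnot
    obtain ⟨hn1, hn2⟩ := hnot
    apply hy
    refine ⟨hn2, ?_⟩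
    intro γ₁ hγ₁ hne
    have hy0 : (fun i => (y i : ℚ)) ≠ 0 := by
      intro h
      apply hn2
      funext i
      have : (y i : ℚ) = 0 := congrFun h i
      exact_mod_cast this
    obtain ⟨σ, hσ⟩ := hJOR n d M (by omega) hdM F₁ hF₁ (fun i => (y i : ℚ)) hy0
      (hDGF n M F₁ hfin hinj hM2 (fun i => (y i : ℚ))) (by
        intro K _ _ x hx
        by_contra hlt
        apply hn1
        refine ⟨K, inferInstance, inferInstance, x, by omega, fun i => ?_⟩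
        have h1 := hx i
        rw [hF₁def] at h1
        have h2 : MvPolynomial.aeval x (mapF (Int.castRingHom ℚ) F₀ i) = MvPolynomial.aeval x (F₀ i) := by
          unfold mapF
          exact MvPolynomial.aeval_map_algebraMap ℚ x (F₀ i)
        rw [h2] at h1
        rw [h1]
        simp)
    have hbad := hFPF ℚ n d (by omega) F₁ hF₁ (fun i => (y i : ℚ)) hy0 σ hσ
    have hpd := hHALF ℚ n d (by omega) F₁ hF₁ γ₁ (fun i => (y i : ℚ)) hγ₁ hy0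
      ((hav γ₁ (fun i => (y i : ℚ))).1 hne) hbad
    rw [(hav γ₁ (fun i => (y i : ℚ))).2] at hpd
    exact hpd
  exact count _ key

end Pool.Agent.T4h89.OM
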