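import Pool.Agent.T4h89.OM.Stm4

/-!
# Task NIN: a form which is not a combination of the `F_i` is not in the field of fractions of `ℚ[F]`
-/

set_option autoImplicit false

open NumberField IsDedekindDomain Filter Topology

noncomputable section

namespace Pool.Agent.T4h89.OM

namespace NINaux

/-- an integral element of `B` in the field of fractions of `A` is in `A` (`A` integrally closed) -/
theorem quot_mem {A B : Type} [CommRing A] [IsDomain A] [IsIntegrallyClosed A] [CommRing B] [IsDomain B]
    (θ : A →+* B) (hθ : Function.Injective θ) (hfin : θ.Finite) (a a₀ : A) (μ : B) (ha : a ≠ 0)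
    (h : θ a₀ + θ a * μ = 0) : ∃ b : A, θ b = μ := by
  obtain ⟨p, hp, hpμ⟩ := hfin.to_isIntegral μ
  let L := FractionRing B
  let g : A →+* L := (algebraMap B L).comp θ
  have hg : Function.Injective g := (IsFractionRing.injective B L).comp hθ
  let K := FractionRing A
  let ψ : K →+* L := IsFractionRing.lift hg
  have hψ : ∀ z : A, ψ (algebraMap A K z) = g z := fun z => IsFractionRing.lift_algebraMap hg z
  have ha' : algebraMap A K a ≠ 0 := fun h0 => ha (IsFractionRing.injective A K (by rw [h0, map_zero]))
  have hga : g a ≠ 0 := fun h0 => ha (hg (by rw [h0, map_zero]))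
  set x : K := -(algebraMap A K a₀) / algebraMap A K a with hx
  have hψx : ψ x = algebraMap B L μ := by
    rw [hx, map_div₀, map_neg, hψ, hψ, div_eq_iff hga]
    have h1 : algebraMap B L (θ a₀ + θ a * μ) = 0 := by rw [h, map_zero]
    rw [map_add, map_mul] at h1
    show -(algebraMap B L (θ a₀)) = algebraMap B L μ * algebraMap B L (θ a)
    linear_combination -h1
  have hxi : IsIntegral A x := by
    refine ⟨p, hp, ?_⟩
    apply ψ.injective
    rw [map_zero, Polynomial.hom_eval₂, hψx]
    have e1 : ψ.comp (algebraMap A K) = (algebraMap B L).comp θ := RingHom.ext hψ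
    rw [e1, ← Polynomial.hom_eval₂, hpμ, map_zero]
  obtain ⟨b, hb⟩ := IsIntegrallyClosed.isIntegral_iff.1 hxi
  refine ⟨b, IsFractionRing.injective B L ?_⟩
  rw [← hψx, ← hb, hψ]
  rfl

theorem homog_aeval_monomial {n d : ℕ} {F : Fin n → MvPolynomial (Fin n) ℚ} (hF : ∀ i, (F i).IsHomogeneous d)
    (m : Fin n →₀ ℕ) (c : ℚ) :
    (MvPolynomial.aeval F (MvPolynomial.monomial m c)).IsHomogeneous (m.degree * d) := by
  rw [MvPolynomial.aeval_monomial]
  have h1 : (m.prod fun i k => F i ^ k).IsHomogeneous (∑ i ∈ m.support, d * m i) :=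
    MvPolynomial.IsHomogeneous.prod _ _ _ fun i _ => (hF i).pow _
  have h2 : ∑ i ∈ m.support, d * m i = m.degree * d := by
    rw [← Finset.mul_sum, mul_comm]
    rfl
  rw [h2] at h1
  have h3 := (MvPolynomial.isHomogeneous_C (Fin n) c).mul h1
  rw [zero_add] at h3
  exact h3

theorem comp_mem {n d : ℕ} (hd : 1 ≤ d) {F : Fin n → MvPolynomial (Fin n) ℚ}
    (hF : ∀ i, (F i).IsHomogeneous d) (b : MvPolynomial (Fin n) ℚ) :
    MvPolynomial.homogeneousComponent d (MvPolynomial.aeval F b) ∈ Submodule.span ℚ (Set.range F) := by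
  induction b using MvPolynomial.induction_on' with
  | monomial m c =>
    rw [MvPolynomial.homogeneousComponent_of_mem
      ((MvPolynomial.mem_homogeneousSubmodule _ _).2 (homog_aeval_monomial hF m c))]
    split_ifs with h
    · have h1 : m.degree = 1 := by
        have : m.degree * d = 1 * d := by rw [← h, one_mul]
        exact Nat.eq_of_mul_eq_mul_right hd this
      have h2 : ∃ i, m i ≠ 0 := by
        by_contra hc
        push Not at hc
        rw [Finsupp.ext (f := m) (g := 0) hc, map_zero] at h1
        exact absurd h1 (by norm_num)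
      obtain ⟨i, hi0⟩ := h2
      have hi : Finsupp.single i 1 = m := by
        have h3 : m.degree = ∑ j, m j := Finsupp.degree_eq_sum m
        rw [h1] at h3
        have h4 : m i = 1 ∧ ∀ j, j ≠ i → m j = 0 := by
          have h5 : ∑ j, m j = m i + ∑ j ∈ Finset.univ.erase i, m j :=
            (Finset.add_sum_erase _ _ (Finset.mem_univ i)).symm
          have h6 : ∑ j ∈ Finset.univ.erase i, m j = 0 := by omega
          refine ⟨by omega, fun j hj => ?_⟩
          exact Finset.sum_eq_zero_iff.1 h6 j (Finset.mem_erase.2 ⟨hj, Finset.mem_univ j⟩)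
        ext j
        by_cases hj : j = i
        · rw [hj, Finsupp.single_eq_same, h4.1]
        · rw [Finsupp.single_eq_of_ne hj, h4.2 j hj]
      rw [← hi, MvPolynomial.aeval_monomial, Finsupp.prod_single_index (by simp), pow_one,
        ← Algebra.smul_def]
      exact Submodule.smul_mem _ _ (Submodule.subset_span ⟨i, rfl⟩)
    · exact Submodule.zero_mem _
  | add p q hp hq =>
    rw [map_add, map_add]
    exact Submodule.add_mem _ hp hq

end NINaux

open NINaux in
theorem t_NIN : S_NIN := by
  intro n d hd F hF hfin hinj m hm hspan a a₀ h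
  by_contra ha
  obtain ⟨b, hb⟩ := quot_mem
    (MvPolynomial.aeval F : MvPolynomial (Fin n) ℚ →ₐ[ℚ] MvPolynomial (Fin n) ℚ).toRingHom hinj hfin a a₀ _ ha h
  apply hspan
  have h1 := comp_mem hd hF b
  have h2 : MvPolynomial.aeval F b = MvPolynomial.monomial m (1 : ℚ) := hb
  rw [h2, MvPolynomial.homogeneousComponent_of_mem
    ((MvPolynomial.mem_homogeneousSubmodule _ _).2 (MvPolynomial.isHomogeneous_monomial _ hm)), if_pos rfl] at h1
  exact h1

end Pool.Agent.T4h89.OM
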