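import Pool.Agent.T4h89.OM.Stm4

/-!
# Project OM, task NLQ
-/

set_option autoImplicit false

open MvPolynomial

noncomputable section

namespace Pool.Agent.T4h89.OM

namespace NLQ

attribute [local instance] MvPolynomial.gradedAlgebra in
theorem hc_mul {n : ℕ} (c f : MvPolynomial (Fin n) ℚ) {d r : ℕ} (hf : f.IsHomogeneous d)
    (hr : d ≤ r) : homogeneousComponent r (c * f) = homogeneousComponent (r - d) c * f := by
  have h := DirectSum.coe_decompose_mul_of_right_mem_of_le
    (𝒜 := homogeneousSubmodule (Fin n) ℚ) (a := c) (b := f) (i := d) (n := r)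
    ((mem_homogeneousSubmodule d f).2 hf) hr
  have e : ∀ (p : MvPolynomial (Fin n) ℚ) (m : ℕ),
      ((DirectSum.decompose (homogeneousSubmodule (Fin n) ℚ) p m :
        homogeneousSubmodule (Fin n) ℚ m) : MvPolynomial (Fin n) ℚ) = homogeneousComponent m p :=
    fun p m => decomposition.decompose'_apply p m
  rwa [e, e] at h

end NLQ

theorem t_NLQ : S_NLQ := by
  intro n d F hF
  classical
  have h1 : ∀ i, X i ∈ (Ideal.span (Set.range F)).radical := by
    intro i
    rw [← vanishingIdeal_zeroLocus_eq_radical (K := AlgebraicClosure ℚ)]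
    intro x hx
    have h0 : x = 0 := hF.zero x fun j => hx _ (Ideal.subset_span ⟨j, rfl⟩)
    rw [aeval_X, h0]
    rfl
  choose r hr using h1
  choose c hc using fun i => Ideal.mem_span_range_iff_exists_fun.1 (hr i)
  have hle : ∀ i, r i ≤ d + ∑ j, r j := fun i =>
    (Finset.single_le_sum (f := r) (fun _ _ => Nat.zero_le _) (Finset.mem_univ i)).trans
      (Nat.le_add_left _ _)
  refine ⟨d + ∑ j, r j, fun i j => homogeneousComponent (d + ∑ j, r j - d)
    (X i ^ (d + ∑ j, r j - r i) * c i j), Nat.le_add_right _ _, fun i j =>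
    homogeneousComponent_isHomogeneous _ _, fun i => ?_⟩
  have h2 : X i ^ (d + ∑ j, r j) = ∑ j, X i ^ (d + ∑ j, r j - r i) * c i j * F j := by
    rw [← Nat.sub_add_cancel (hle i), pow_add, ← hc i, Finset.mul_sum, Nat.add_sub_cancel]
    exact Finset.sum_congr rfl fun j _ => by ring
  have h3 : homogeneousComponent (d + ∑ j, r j) (X i ^ (d + ∑ j, r j) : MvPolynomial (Fin n) ℚ) =
      X i ^ (d + ∑ j, r j) := by
    rw [homogeneousComponent_of_mem ((mem_homogeneousSubmodule _ _).2 (isHomogeneous_X_pow i _)),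
      if_pos rfl]
  rw [← h3]
  conv_lhs => rw [h2]
  rw [map_sum]
  exact Finset.sum_congr rfl fun j _ => NLQ.hc_mul _ _ (hF.hom j) (Nat.le_add_right _ _)

end Pool.Agent.T4h89.OM
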