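import Pool.Agent.T4h89.OM.Stm4
import Pool.Agent.T4h89.OM.Lem

/-! # SCI: multiplying all forms by a constant changes nothing -/

set_option autoImplicit false

open NumberField IsDedekindDomain Filter Topology

noncomputable section

namespace Pool.Agent.T4h89.OM

namespace SCIaux

variable {K : Type} [Field K] {n : ℕ}

lemma ev_C (F : Fin n → MvPolynomial (Fin n) K) (c : K) (x : Fin n → K) :
    ev (fun i => MvPolynomial.C c * F i) x = c • ev F x := by
  funext i
  show MvPolynomial.eval x (MvPolynomial.C c * F i) = c * MvPolynomial.eval x (F i)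
  rw [map_mul, MvPolynomial.eval_C]

lemma iter_C {d : ℕ} {F : Fin n → MvPolynomial (Fin n) K} (hF : ∀ i, (F i).IsHomogeneous d)
    {c : K} (hc : c ≠ 0) (x : Fin n → K) (m : ℕ) :
    ∃ u : K, u ≠ 0 ∧ (ev (fun i => MvPolynomial.C c * F i))^[m] x = u • (ev F)^[m] x := by
  induction m with
  | zero => exact ⟨1, one_ne_zero, (one_smul _ _).symm⟩
  | succ m ih =>
    obtain ⟨u, hu, h⟩ := ih
    refine ⟨c * u ^ d, mul_ne_zero hc (pow_ne_zero _ hu), ?_⟩
    rw [Function.iterate_succ_apply', Function.iterate_succ_apply', h, ev_C, ev_smul hF, smul_smul]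

lemma par_smul {x y : Fin n → K} {u : K} (hu : u ≠ 0) (h : Par (u • x) y) : Par x y := by
  intro i j
  have h1 := h i j
  simp only [Pi.smul_apply, smul_eq_mul, mul_assoc] at h1
  exact mul_left_cancel₀ hu h1

lemma cong_smul [NumberField K] (v : HeightOneSpectrum (𝓞 K)) {x y : Fin n → K} {u : K}
    (hu : u ≠ 0) : Cong v (u • x) y ↔ Cong v x y := by
  constructor
  · rintro ⟨a, b, h1, ⟨i, h2⟩, h3, h4, h5⟩
    have e : ∀ i, a * u * x i = a * (u • x) i := by
      intro i
      simp only [Pi.smul_apply, smul_eq_mul]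
      ring
    refine ⟨a * u, b, fun i => ?_, ⟨i, ?_⟩, h3, h4, fun i => ?_⟩
    · rw [e]
      exact h1 i
    · rw [e]
      exact h2
    · rw [e]
      exact h5 i
  · rintro ⟨a, b, h1, ⟨i, h2⟩, h3, h4, h5⟩
    have e : ∀ i, a * u⁻¹ * (u • x) i = a * x i := by
      intro i
      simp only [Pi.smul_apply, smul_eq_mul]
      field_simp
    refine ⟨a * u⁻¹, b, fun i => ?_, ⟨i, ?_⟩, h3, h4, fun i => ?_⟩
    · rw [e]
      exact h1 i
    · rw [e]
      exact h2
    · rw [e]
      exact h5 i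

end SCIaux

theorem t_SCI : S_SCI := by
  intro K _ _ n d F hF c hc
  refine ⟨⟨fun i => ?_, fun x hx => ?_⟩, fun γ₁ γ₂ => ⟨fun h m => ?_, ?_⟩⟩
  · have := (MvPolynomial.isHomogeneous_C (Fin n) c).mul (hF.hom i)
    rwa [zero_add] at this
  · refine hF.zero x fun i => ?_
    have h := hx i
    rw [map_mul, MvPolynomial.aeval_C] at h
    refine (mul_eq_zero.1 h).resolve_left ?_
    rwa [map_eq_zero]
  · intro hp
    obtain ⟨u, hu, e⟩ := SCIaux.iter_C hF.hom hc γ₁ m
    rw [e] at hp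
    exact h m (SCIaux.par_smul hu hp)
  · ext v
    show (∀ m : ℕ, ¬ Cong v ((ev fun i => MvPolynomial.C c * F i)^[m] γ₁) γ₂) ↔
      (∀ m : ℕ, ¬ Cong v ((ev F)^[m] γ₁) γ₂)
    refine forall_congr' fun m => not_congr ?_
    obtain ⟨u, hu, e⟩ := SCIaux.iter_C hF.hom hc γ₁ m
    rw [e]
    exact SCIaux.cong_smul v hu

end Pool.Agent.T4h89.OM
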