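import Pool.Agent.T4h89.OM.Final1
import Pool.Agent.T4h89.OM.T_NLQ
import Pool.Agent.T4h89.OM.T_ITG
import Pool.Agent.T4h89.OM.T_FGB
import Pool.Agent.T4h89.OM.T_AIN
import Pool.Agent.T4h89.OM.T_DGF
import Pool.Agent.T4h89.OM.T_DIM
import Pool.Agent.T4h89.OM.T_NIN
import Pool.Agent.T4h89.OM.T_DGD
import Pool.Agent.T4h89.OM.T_DGL
import Pool.Agent.T4h89.OM.T_ALG
import Pool.Agent.T4h89.OM.T_HIF
import Pool.Agent.T4h89.OM.T_JBU
import Pool.Agent.T4h89.OM.T_JTR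
import Pool.Agent.T4h89.OM.T_JOR
import Pool.Agent.T4h89.OM.T_FPI
import Pool.Agent.T4h89.OM.T_FPF
import Pool.Agent.T4h89.OM.T_SCI
import Pool.Agent.T4h89.OM.T_MAIN4
import Pool.Agent.R939.HI.Base

/-!
# Orbits of a point avoiding another point modulo primes: assembly of the fourth result
-/

set_option autoImplicit false

namespace Pool.Agent.T4h89.OM

theorem main4 : S_MAIN4 :=
  t_MAIN4 t_NLQ t_ITG t_FGB t_AIN t_DGF t_DIM t_NIN t_DGD
    (t_HIF Pool.Agent.R939.HI.genT t_DGL t_ALG) (t_JOR t_JBU t_JTR)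
    (t_FPF (t_FPI step' good' t_CHO) gdq' t_CNG) t_SCI half'

end Pool.Agent.T4h89.OM
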