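import Pool.Agent.T4h89.OM.Defs
import Pool.Agent.K3h30.RS.Stm2

/-!
# Orbits of a point avoiding another point modulo primes (MP_df4dfc_nt): statements of the parts
-/

set_option autoImplicit false

open NumberField IsDedekindDomain Filter

noncomputable section

namespace Pool.Agent.T4h89.OM

open Pool.Agent.K3h30.RS (PosProportion)

/-- change of the coefficients -/
def mapF {n : ℕ} {R S : Type} [CommRing R] [CommRing S] (φ : R →+* S)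
    (F : Fin n → MvPolynomial (Fin n) R) : Fin n → MvPolynomial (Fin n) S :=
  fun i => MvPolynomial.map φ (F i)

/-- the vectors `x` and `y` are proportional modulo the ideal `I` -/
def ParMod {n : ℕ} {R : Type} [CommRing R] (I : Ideal R) (x y : Fin n → R) : Prop :=
  ∀ i j, x i * y j - x j * y i ∈ I

/-! ## A. Finite fibres -/

/-- finite fibres of homogeneous polynomial maps without nontrivial zero -/
def S_FIN : Prop :=
  ∀ (Ω : Type) [Field Ω] [IsAlgClosed Ω] (n d : ℕ), 1 ≤ d → ∀ F : Fin n → MvPolynomial (Fin n) Ω,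
    (∀ i, (F i).IsHomogeneous d) → (∀ x, ev F x = 0 → x = 0) →
      ∀ w : Fin n → Ω, {x | ev F x = w}.Finite

/-- Nullstellensatz, spread out to almost all primes -/
def S_NUL : Prop :=
  ∀ (Ω : Type) [Field Ω] [CharZero Ω] [IsAlgClosed Ω] [Algebra.IsAlgebraic ℚ Ω] (n : ℕ)
    (ι : Type) [Finite ι] (g : ι → MvPolynomial (Fin n) (𝓞 Ω)) (q : MvPolynomial (Fin n) (𝓞 Ω)),
    (∀ x : Fin n → Ω, (∀ i, MvPolynomial.aeval x (g i) = 0) → MvPolynomial.aeval x q = 0) →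
      ∃ D : ℕ, D ≠ 0 ∧ ∀ (k : Type) [Field k] (φ : 𝓞 Ω →+* k), (D : k) ≠ 0 →
        ∀ z : Fin n → k, (∀ i, MvPolynomial.eval₂ φ z (g i) = 0) → MvPolynomial.eval₂ φ z q = 0

/-- the fibres over finitely many points, in characteristic zero and modulo almost all primes -/
def S_STEP : Prop :=
  ∀ (Ω : Type) [Field Ω] [CharZero Ω] [IsAlgClosed Ω] [Algebra.IsAlgebraic ℚ Ω] (n d : ℕ), 1 ≤ d →
    ∀ F : Fin n → MvPolynomial (Fin n) (𝓞 Ω), (∀ i, (F i).IsHomogeneous d) →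
    (∀ x : Fin n → Ω, (∀ i, MvPolynomial.aeval x (F i) = 0) → x = 0) →
    ∀ W : Finset (Fin n → 𝓞 Ω), (∀ w ∈ W, w ≠ 0) →
      ∃ (T : Finset (Fin n → 𝓞 Ω)) (D : ℕ), D ≠ 0 ∧
        (∀ t ∈ T, t ≠ 0 ∧ ∃ w ∈ W, Par (ev F t) w) ∧
        ∀ (k : Type) [Field k] (φ : 𝓞 Ω →+* k), (D : k) ≠ 0 → (∀ t ∈ T, φ ∘ t ≠ 0) ∧
          ∀ z : Fin n → k, z ≠ 0 → ∀ w ∈ W, Par (ev (mapF φ F) z) (φ ∘ w) → ∃ t ∈ T, Par z (φ ∘ t)

/-- good reduction at almost all primes -/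
def S_GOOD : Prop :=
  ∀ (Ω : Type) [Field Ω] [CharZero Ω] [IsAlgClosed Ω] [Algebra.IsAlgebraic ℚ Ω] (n : ℕ)
    (F : Fin n → MvPolynomial (Fin n) (𝓞 Ω)),
    (∀ x : Fin n → Ω, (∀ i, MvPolynomial.aeval x (F i) = 0) → x = 0) →
      ∃ D : ℕ, D ≠ 0 ∧ ∀ (k : Type) [Field k] (φ : 𝓞 Ω →+* k), (D : k) ≠ 0 →
        ∀ z : Fin n → k, ev (mapF φ F) z = 0 → z = 0

/-! ## B. Frobenius automorphisms -/

/-- common denominators prime to `v` -/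
def S_DNM : Prop :=
  ∀ (K : Type) [Field K] [NumberField K] (v : HeightOneSpectrum (𝓞 K)) (ι : Type) [Finite ι]
    (x : ι → K), (∀ i, v.valuation K (x i) ≤ 1) →
      ∃ (D : 𝓞 K) (y : ι → 𝓞 K), D ∉ v.asIdeal ∧ ∀ i, (y i : K) = D * x i

/-- The Frobenius automorphism at `v` (one of them) and the vectors over `L` which it fixes up to
proportionality: their reductions are defined over the residue field of `v`. -/
def S_FRB : Prop :=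
  ∀ (K : Type) [Field K] [NumberField K] (L : IntermediateField K (AlgebraicClosure K))
    [FiniteDimensional K L] [Normal K L] (v : HeightOneSpectrum (𝓞 K)),
    ∃ (σ : L ≃ₐ[K] L) (Q : Ideal (𝓞 (AlgebraicClosure K))), Q.IsMaximal ∧
      Q.comap (algebraMap (𝓞 K) (𝓞 (AlgebraicClosure K))) = v.asIdeal ∧
      ∀ (n : ℕ) (t : Fin n → L), t ≠ 0 → Par (fun i => σ (t i)) t →
        ∃ a y : Fin n → 𝓞 (AlgebraicClosure K),
          Par (fun i => ((a i : 𝓞 (AlgebraicClosure K)) : AlgebraicClosure K))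
            (fun i => ((t i : L) : AlgebraicClosure K)) ∧
          (∃ i, a i ∉ Q) ∧ (∃ i, y i ∉ Q) ∧ ParMod Q a y ∧
          ∀ i, y i ^ (Ideal.absNorm v.asIdeal) - y i ∈ Q

/-- Chebotarev, with prime ideals of the ring of all algebraic integers -/
def S_CHO : Prop :=
  ∀ (K : Type) [Field K] [NumberField K] (L : IntermediateField K (AlgebraicClosure K))
    [FiniteDimensional K L] (σ : L ≃ₐ[K] L) (bad : Finset (HeightOneSpectrum (𝓞 K))),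
    PosProportion (fun v : HeightOneSpectrum (𝓞 K) => v ∉ bad ∧
      ∃ Q : Ideal (𝓞 (AlgebraicClosure K)), Q.IsMaximal ∧
        Q.comap (algebraMap (𝓞 K) (𝓞 (AlgebraicClosure K))) = v.asIdeal ∧
        ∀ (x x' : 𝓞 (AlgebraicClosure K)) (y : L), ((x : AlgebraicClosure K)) = y →
          (x' : AlgebraicClosure K) = σ y → x' - x ^ (Ideal.absNorm v.asIdeal) ∈ Q)

/-- first entry of an orbit of a finite set -/
def S_ENT : Prop :=
  ∀ (V : Type) [Finite V] (g : V → V) (W : Set V) (y : V) (M : ℕ), Nat.card V ≤ M → g^[M] y ∈ W →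
    ∃ j < M, g^[j] y ∈ W

/-- a positive proportion in the sense of `π(x)` is a positive density -/
def S_DEN : Prop :=
  ∀ (K : Type) [Field K] [NumberField K] (P : HeightOneSpectrum (𝓞 K) → Prop),
    PosProportion P → PosDens {v | P v}

/-! ## C. The main criterion, integral form -/

/-- Let `C` be a finite set of points and `v₀` a prime ideal of good reduction such that points
which enter `C` at time `M` do not enter `C` earlier modulo the prime ideals above `v₀`. If the orbit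
of `γ` avoids `C`, then it avoids `C` modulo a positive proportion of the prime ideals. -/
def S_CORE : Prop :=
  ∀ (K : Type) [Field K] [NumberField K] (n d : ℕ), 1 ≤ d →
    ∀ F : Fin n → MvPolynomial (Fin n) (𝓞 K), (∀ i, (F i).IsHomogeneous d) →
    (∀ x : Fin n → AlgebraicClosure K, (∀ i, MvPolynomial.aeval x (F i) = 0) → x = 0) →
    ∀ C : Finset (Fin n → 𝓞 K), (∀ c ∈ C, c ≠ 0) → ∀ v₀ : HeightOneSpectrum (𝓞 K),
    (∀ Q : Ideal (𝓞 (AlgebraicClosure K)), Q.IsMaximal →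
      Q.comap (algebraMap (𝓞 K) (𝓞 (AlgebraicClosure K))) = v₀.asIdeal →
      (∀ z : Fin n → 𝓞 (AlgebraicClosure K),
        (∀ i, ev (mapF (algebraMap (𝓞 K) (𝓞 (AlgebraicClosure K))) F) z i ∈ Q) → ∀ i, z i ∈ Q) ∧
      ∀ a : Fin n → 𝓞 (AlgebraicClosure K), (∃ i, a i ∉ Q) → ∀ M : ℕ,
        (∃ c ∈ C, Par ((ev (mapF (algebraMap (𝓞 K) (𝓞 (AlgebraicClosure K))) F))^[M + 1] a)
          (algebraMap (𝓞 K) (𝓞 (AlgebraicClosure K)) ∘ c)) →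
        (∀ c ∈ C, ¬ Par ((ev (mapF (algebraMap (𝓞 K) (𝓞 (AlgebraicClosure K))) F))^[M] a)
          (algebraMap (𝓞 K) (𝓞 (AlgebraicClosure K)) ∘ c)) →
        ∀ j ≤ M, ∀ c ∈ C, ¬ ParMod Q
          ((ev (mapF (algebraMap (𝓞 K) (𝓞 (AlgebraicClosure K))) F))^[j] a)
          (algebraMap (𝓞 K) (𝓞 (AlgebraicClosure K)) ∘ c)) →
    ∀ γ : Fin n → 𝓞 K, γ ≠ 0 → (∀ (m : ℕ), ∀ c ∈ C, ¬ Par ((ev F)^[m] γ) c) →
    PosProportion (fun v : HeightOneSpectrum (𝓞 K) =>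
      (∀ c ∈ C, ∃ i, c i ∉ v.asIdeal) ∧ ∀ m : ℕ, (∃ i, (ev F)^[m] γ i ∉ v.asIdeal) ∧
        ∀ c ∈ C, ¬ ParMod v.asIdeal ((ev F)^[m] γ) c)

/-! ## D. The two cases, integral form, and the passage to `K` -/

/-- the conclusion, integral form: for a positive proportion of the prime ideals the orbit of `γ₁` does not
meet `γ₂` -/
def Concl {K : Type} [Field K] [NumberField K] {n : ℕ} (F : Fin n → MvPolynomial (Fin n) (𝓞 K))
    (γ₁ γ₂ : Fin n → 𝓞 K) : Prop :=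
  PosProportion (fun v : HeightOneSpectrum (𝓞 K) =>
    (∃ i, γ₂ i ∉ v.asIdeal) ∧ ∀ m : ℕ, (∃ i, (ev F)^[m] γ₁ i ∉ v.asIdeal) ∧
      ¬ ParMod v.asIdeal ((ev F)^[m] γ₁) γ₂)

/-- `F` has good reduction at `v` (tested modulo the maximal ideals of the ring of all algebraic
integers over `v`) -/
def GoodQ {K : Type} [Field K] [NumberField K] {n : ℕ} (F : Fin n → MvPolynomial (Fin n) (𝓞 K))
    (v : HeightOneSpectrum (𝓞 K)) : Prop :=
  ∀ Q : Ideal (𝓞 (AlgebraicClosure K)), Q.IsMaximal →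
    Q.comap (algebraMap (𝓞 K) (𝓞 (AlgebraicClosure K))) = v.asIdeal →
    ∀ z : Fin n → 𝓞 (AlgebraicClosure K),
      (∀ i, ev (mapF (algebraMap (𝓞 K) (𝓞 (AlgebraicClosure K))) F) z i ∈ Q) → ∀ i, z i ∈ Q

/-- `γ₂` is not periodic modulo one prime ideal of good reduction -/
def S_CRIT : Prop :=
  ∀ (K : Type) [Field K] [NumberField K] (n d : ℕ), 1 ≤ d →
    ∀ F : Fin n → MvPolynomial (Fin n) (𝓞 K), (∀ i, (F i).IsHomogeneous d) →
    (∀ x : Fin n → AlgebraicClosure K, (∀ i, MvPolynomial.aeval x (F i) = 0) → x = 0) →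
    ∀ (γ₁ γ₂ : Fin n → 𝓞 K), γ₁ ≠ 0 → γ₂ ≠ 0 → (∀ m : ℕ, ¬ Par ((ev F)^[m] γ₁) γ₂) →
    ∀ v₀ : HeightOneSpectrum (𝓞 K), GoodQ F v₀ → (∃ i, γ₂ i ∉ v₀.asIdeal) →
    (∀ m : ℕ, 1 ≤ m → ¬ ParMod v₀.asIdeal ((ev F)^[m] γ₂) γ₂) → Concl F γ₁ γ₂

/-- good reduction at almost all prime ideals -/
def S_GDQ : Prop :=
  ∀ (K : Type) [Field K] [NumberField K] (n : ℕ) (F : Fin n → MvPolynomial (Fin n) (𝓞 K)),
    (∀ x : Fin n → AlgebraicClosure K, (∀ i, MvPolynomial.aeval x (F i) = 0) → x = 0) →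
    ∃ bad : Finset (HeightOneSpectrum (𝓞 K)), ∀ v ∉ bad, GoodQ F v

/-- `γ₂` is periodic -/
def S_CYC : Prop :=
  ∀ (K : Type) [Field K] [NumberField K] (n d : ℕ), 1 ≤ d →
    ∀ F : Fin n → MvPolynomial (Fin n) (𝓞 K), (∀ i, (F i).IsHomogeneous d) →
    (∀ x : Fin n → AlgebraicClosure K, (∀ i, MvPolynomial.aeval x (F i) = 0) → x = 0) →
    ∀ (γ₁ γ₂ : Fin n → 𝓞 K), γ₁ ≠ 0 → γ₂ ≠ 0 → (∀ m : ℕ, ¬ Par ((ev F)^[m] γ₁) γ₂) →
    (∃ m : ℕ, 1 ≤ m ∧ Par ((ev F)^[m] γ₂) γ₂) → Concl F γ₁ γ₂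

/-- `γ₂` is preperiodic, not periodic: not periodic modulo almost all prime ideals -/
def S_SPR : Prop :=
  ∀ (K : Type) [Field K] [NumberField K] (n d : ℕ), 1 ≤ d →
    ∀ F : Fin n → MvPolynomial (Fin n) (𝓞 K), (∀ i, (F i).IsHomogeneous d) →
    (∀ x : Fin n → AlgebraicClosure K, (∀ i, MvPolynomial.aeval x (F i) = 0) → x = 0) →
    ∀ γ₂ : Fin n → 𝓞 K, γ₂ ≠ 0 → (∃ m m' : ℕ, m < m' ∧ Par ((ev F)^[m] γ₂) ((ev F)^[m'] γ₂)) →
    (¬ ∃ m : ℕ, 1 ≤ m ∧ Par ((ev F)^[m] γ₂) γ₂) →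
    ∃ bad : Finset (HeightOneSpectrum (𝓞 K)), ∀ v ∉ bad,
      ∀ m : ℕ, 1 ≤ m → ¬ ParMod v.asIdeal ((ev F)^[m] γ₂) γ₂

/-- the congruence of points, in terms of integral coordinates -/
def S_CNG : Prop :=
  ∀ (K : Type) [Field K] [NumberField K] (n : ℕ) (v : HeightOneSpectrum (𝓞 K)) (x y : Fin n → K)
    (x' y' : Fin n → 𝓞 K) (a b : K), a ≠ 0 → b ≠ 0 → (∀ i, (x' i : K) = a * x i) →
    (∀ i, (y' i : K) = b * y i) → (∃ i, x' i ∉ v.asIdeal) → (∃ i, y' i ∉ v.asIdeal) →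
    (Cong v x y ↔ ParMod v.asIdeal x' y')

/-- integral forms and coordinates -/
def S_SCL : Prop :=
  ∀ (K : Type) [Field K] [NumberField K] (n d : ℕ) (F : Fin n → MvPolynomial (Fin n) K),
    IsMor d F → ∀ γ₁ γ₂ : Fin n → K, γ₁ ≠ 0 → γ₂ ≠ 0 →
    ∃ (F' : Fin n → MvPolynomial (Fin n) (𝓞 K)) (γ₁' γ₂' : Fin n → 𝓞 K),
      (∀ i, (F' i).IsHomogeneous d) ∧
      (∀ x : Fin n → AlgebraicClosure K, (∀ i, MvPolynomial.aeval x (F' i) = 0) → x = 0) ∧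
      γ₁' ≠ 0 ∧ γ₂' ≠ 0 ∧
      (∀ m : ℕ, ∃ a : K, a ≠ 0 ∧ ∀ i, (((ev F')^[m] γ₁' i : 𝓞 K) : K) = a * (ev F)^[m] γ₁ i) ∧
      (∀ m : ℕ, ∃ a : K, a ≠ 0 ∧ ∀ i, (((ev F')^[m] γ₂' i : 𝓞 K) : K) = a * (ev F)^[m] γ₂ i)

/-- the same with the good reduction at a given prime ideal preserved -/
def S_SCG : Prop :=
  ∀ (K : Type) [Field K] [NumberField K] (n d : ℕ) (F : Fin n → MvPolynomial (Fin n) K),
    IsMor d F → ∀ γ₁ γ₂ : Fin n → K, γ₁ ≠ 0 → γ₂ ≠ 0 → ∀ v : HeightOneSpectrum (𝓞 K), GoodRed v F →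
    ∃ (F' : Fin n → MvPolynomial (Fin n) (𝓞 K)) (γ₁' γ₂' : Fin n → 𝓞 K),
      (∀ i, (F' i).IsHomogeneous d) ∧
      (∀ x : Fin n → AlgebraicClosure K, (∀ i, MvPolynomial.aeval x (F' i) = 0) → x = 0) ∧
      γ₁' ≠ 0 ∧ γ₂' ≠ 0 ∧
      (∀ m : ℕ, ∃ a : K, a ≠ 0 ∧ ∀ i, (((ev F')^[m] γ₁' i : 𝓞 K) : K) = a * (ev F)^[m] γ₁ i) ∧
      (∀ m : ℕ, ∃ a : K, a ≠ 0 ∧ ∀ i, (((ev F')^[m] γ₂' i : 𝓞 K) : K) = a * (ev F)^[m] γ₂ i) ∧
      GoodQ F' v ∧ ∃ i, γ₂' i ∉ v.asIdeal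

/-- **Result 1.** The target point is preperiodic, or not periodic modulo one prime ideal of good
reduction. -/
def S_MAIN1 : Prop :=
  ∀ (K : Type) [Field K] [NumberField K] (n d : ℕ), 1 ≤ d →
    ∀ F : Fin n → MvPolynomial (Fin n) K, IsMor d F → ∀ γ₁ γ₂ : Fin n → K, γ₁ ≠ 0 → γ₂ ≠ 0 →
    (∀ m : ℕ, ¬ Par ((ev F)^[m] γ₁) γ₂) →
    ((∃ m m' : ℕ, m < m' ∧ Par ((ev F)^[m] γ₂) ((ev F)^[m'] γ₂)) ∨
      ∃ v : HeightOneSpectrum (𝓞 K), GoodRed v F ∧ ∀ m : ℕ, 1 ≤ m → ¬ Cong v ((ev F)^[m] γ₂) γ₂) →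
    PosDens (Avoid F γ₁ γ₂)

/-- the same if `γ₂` is not periodic modulo infinitely many prime ideals -/
def S_HALF : Prop :=
  ∀ (K : Type) [Field K] [NumberField K] (n d : ℕ), 1 ≤ d →
    ∀ F : Fin n → MvPolynomial (Fin n) K, IsMor d F → ∀ γ₁ γ₂ : Fin n → K, γ₁ ≠ 0 → γ₂ ≠ 0 →
    (∀ m : ℕ, ¬ Par ((ev F)^[m] γ₁) γ₂) →
    (∀ bad : Finset (HeightOneSpectrum (𝓞 K)), ∃ v ∉ bad, ∀ m : ℕ, 1 ≤ m →
      ¬ Cong v ((ev F)^[m] γ₂) γ₂) →
    PosDens (Avoid F γ₁ γ₂)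

/-! ## E. Triangular maps -/

/-- two periodic points -/
def S_PER : Prop :=
  ∀ (Ω : Type) [Field Ω] [CharZero Ω] [IsAlgClosed Ω] (f : Polynomial Ω), 2 ≤ f.natDegree →
    ∃ δ₁ δ₂ : Ω, δ₁ ≠ δ₂ ∧ f.eval (f.eval δ₁) = δ₁ ∧ f.eval (f.eval δ₂) = δ₂

/-- A point with infinite orbit under a polynomial in one variable is not periodic modulo infinitely
many prime ideals (the unit equation). -/
def S_UEQ : Prop :=
  ∀ (K : Type) [Field K] [NumberField K] (f : Polynomial K), 2 ≤ f.natDegree → ∀ α : K,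
    (∀ i j : ℕ, i < j → (fun x => f.eval x)^[i] α ≠ (fun x => f.eval x)^[j] α) →
    ∀ bad : Finset (HeightOneSpectrum (𝓞 K)), ∃ v ∉ bad, (∀ i, v.valuation K (f.coeff i) ≤ 1) ∧
      v.valuation K α ≤ 1 ∧ ∀ m : ℕ, 1 ≤ m → ¬ v.valuation K ((fun x => f.eval x)^[m] α - α) < 1

/-- triangular forms: `F_i` is a form of degree `d` in `X_0, …, X_i` with nonzero coefficient at
`X_i ^ d` -/
structure Tri {K : Type} [Field K] {n : ℕ} (d : ℕ) (F : Fin n → MvPolynomial (Fin n) K) : Prop where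
  hom : ∀ i, (F i).IsHomogeneous d
  vars : ∀ i, ∀ j ∈ (F i).vars, j ≤ i
  lead : ∀ i, (F i).coeff (Finsupp.single i d) ≠ 0

/-- triangular forms define a morphism -/
def S_TRM : Prop :=
  ∀ (K : Type) [Field K] (n d : ℕ), 1 ≤ d → ∀ F : Fin n → MvPolynomial (Fin n) K, Tri d F → IsMor d F

/-- a point with infinite orbit under triangular forms is not periodic modulo infinitely many primes -/
def S_TRI : Prop :=
  ∀ (K : Type) [Field K] [NumberField K] (n d : ℕ), 2 ≤ d →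
    ∀ F : Fin n → MvPolynomial (Fin n) K, Tri d F → ∀ γ : Fin n → K, γ ≠ 0 →
    (∀ i j : ℕ, i < j → ¬ Par ((ev F)^[i] γ) ((ev F)^[j] γ)) →
    ∀ bad : Finset (HeightOneSpectrum (𝓞 K)), ∃ v ∉ bad, ∀ m : ℕ, 1 ≤ m →
      ¬ Cong v ((ev F)^[m] γ) γ

/-- **Result 2.** Both questions for triangular maps. -/
def S_MAIN2 : Prop :=
  ∀ (K : Type) [Field K] [NumberField K] (n d : ℕ), 2 ≤ d →
    ∀ F : Fin n → MvPolynomial (Fin n) K, Tri d F → ∀ γ₁ γ₂ : Fin n → K, γ₁ ≠ 0 → γ₂ ≠ 0 →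
    (∀ m : ℕ, ¬ Par ((ev F)^[m] γ₁) γ₂) → PosDens (Avoid F γ₁ γ₂)

end Pool.Agent.T4h89.OM
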