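import Pool.Agent.T4h89.OM.Stm

/-!
# Orbits of a point avoiding another point modulo primes (MP_df4dfc_nt): almost all maps
-/

set_option autoImplicit false

open NumberField IsDedekindDomain Filter Topology

noncomputable section

namespace Pool.Agent.T4h89.OM

/-- the exponents of the monomials of degree `d` in `n` variables -/
abbrev Mon (n d : ℕ) : Type := {m : Fin n →₀ ℕ // m ∈ Finset.finsuppAntidiag Finset.univ d}

/-- the forms of degree `d` with the coefficients `c` -/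
def formsOf {n d : ℕ} {R : Type} [CommRing R] (c : Fin n → Mon n d → R) :
    Fin n → MvPolynomial (Fin n) R :=
  fun i => ∑ m : Mon n d, MvPolynomial.monomial m.1 (c i m)

/-- almost all integer vectors lie modulo some prime number in a given set of positive proportion -/
def S_SIEVE : Prop :=
  ∀ (ι : Type) [Fintype ι] (G : ∀ p : ℕ, Set (ι → ZMod p)) (p₀ : ℕ) (θ : ℝ), 0 < θ →
    (∀ p : ℕ, p.Prime → p₀ ≤ p → θ * (p : ℝ) ^ Fintype.card ι ≤ Nat.card (G p)) →
    Tendsto (fun B : ℕ => (Nat.card {x : ι → ℤ // (∀ i, |x i| ≤ B) ∧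
      ∃ p : ℕ, p.Prime ∧ p₀ ≤ p ∧ (fun i => ((x i : ℤ) : ZMod p)) ∈ G p} : ℝ) /
        (2 * B + 1 : ℝ) ^ Fintype.card ι) atTop (𝓝 1)

/-- a polynomial `R` in the coefficients, nonzero modulo every prime number, such that the multiples
`R(c) X_i ^ r` of powers of the variables are combinations of the forms with the coefficients `c` -/
def S_RES : Prop :=
  ∀ n d : ℕ, 1 ≤ d → ∃ R : MvPolynomial (Fin n × Mon n d) ℤ,
    (∀ p : ℕ, p.Prime → MvPolynomial.map (Int.castRingHom (ZMod p)) R ≠ 0) ∧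
    ∀ c : Fin n → Mon n d → ℤ, ∃ (r : ℕ) (G : Fin n → Fin n → MvPolynomial (Fin n) ℤ), ∀ i,
      MvPolynomial.C (MvPolynomial.eval (fun s : Fin n × Mon n d => c s.1 s.2) R) * MvPolynomial.X i ^ r =
        ∑ j, G i j * formsOf c j

/-- few zeros of a nonzero polynomial modulo `p` -/
def S_ZER : Prop :=
  ∀ (σ : Type) [Fintype σ] (R : MvPolynomial σ ℤ),
    (∀ p : ℕ, p.Prime → MvPolynomial.map (Int.castRingHom (ZMod p)) R ≠ 0) →
    ∃ t : ℕ, ∀ p : ℕ, p.Prime →
      p * Nat.card {c : σ → ZMod p // MvPolynomial.eval c (MvPolynomial.map (Int.castRingHom (ZMod p)) R) = 0} ≤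
        t * p ^ Fintype.card σ

/-- the values of random forms of degree `d ≥ 2` at up to three pairwise not proportional vectors are
independent -/
def S_IND : Prop :=
  ∀ (n d : ℕ), 2 ≤ d → ∀ p : ℕ, p.Prime → ∀ k : ℕ, k ≤ 3 → ∀ x : Fin k → Fin n → ZMod p,
    (∀ i, x i ≠ 0) → (∀ i j, i ≠ j → ¬ Par (x i) (x j)) → ∀ w : Fin k → Fin n → ZMod p,
      p ^ (k * n) * Nat.card {c : Fin n → Mon n d → ZMod p // ∀ i, ev (formsOf c) (x i) = w i} =
        p ^ (n * Fintype.card (Mon n d))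

/-- a positive proportion of the maps modulo `p` misses a given point -/
def S_BON : Prop :=
  ∀ (n d : ℕ), 2 ≤ n → 2 ≤ d → ∃ p₀ : ℕ, ∀ p : ℕ, p.Prime → p₀ ≤ p → ∀ y : Fin n → ZMod p, y ≠ 0 →
    p ^ (n * Fintype.card (Mon n d)) ≤
      4 * Nat.card {c : Fin n → Mon n d → ZMod p // ∀ x : Fin n → ZMod p, x ≠ 0 →
        Par (ev (formsOf c) x) y → ev (formsOf c) x = 0}

/-- **Result 3.** For 100 percent of the pairs of integral coefficient vectors `c` of `n` forms of
degree `d` in `n` variables and integral vectors `y`, ordered by the maximum of the absolute values, the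
forms define a morphism, `y` is nonzero, and for every point `γ₁` whose orbit does not contain `y` the set of
the prime numbers modulo which the orbit of `γ₁` avoids `y` has positive density. -/
def S_MAIN3 : Prop :=
  ∀ (n d : ℕ), 2 ≤ n → 2 ≤ d →
    Tendsto (fun B : ℕ =>
      (Nat.card {p : (Fin n → Mon n d → ℤ) × (Fin n → ℤ) // ((∀ i m, |p.1 i m| ≤ B) ∧ ∀ i, |p.2 i| ≤ B) ∧
        IsMor d (formsOf fun i m => ((p.1 i m : ℤ) : ℚ)) ∧ p.2 ≠ 0 ∧
        ∀ γ₁ : Fin n → ℚ, γ₁ ≠ 0 →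
          (∀ m : ℕ, ¬ Par ((ev (formsOf fun i m => ((p.1 i m : ℤ) : ℚ)))^[m] γ₁) (fun i => (p.2 i : ℚ))) →
          PosDens (Avoid (formsOf fun i m => ((p.1 i m : ℤ) : ℚ)) γ₁ (fun i => (p.2 i : ℚ)))} : ℝ) /
      (Nat.card {p : (Fin n → Mon n d → ℤ) × (Fin n → ℤ) //
        (∀ i m, |p.1 i m| ≤ B) ∧ ∀ i, |p.2 i| ≤ B} : ℝ)) atTop (𝓝 1)

end Pool.Agent.T4h89.OM
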