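import Pool.Agent.T4h89.OM.Stm
import Pool.Agent.W275.UB.Fin
import Pool.Agent.W275.UB.Stm2

/-!
# Orbits of a point avoiding another point modulo primes (MP_df4dfc_nt): every morphism over ℚ, almost all
targets

Let `A = ℚ[Y]`, `B = ℚ[X]` and `θ : A → B`, `Y_i ↦ F_i` (this is `MvPolynomial.aeval F`). `Ind F m` says that
`B` contains `m` elements linearly independent over `A`.
-/

set_option autoImplicit false

open NumberField IsDedekindDomain Filter Topology

noncomputable section

namespace Pool.Agent.T4h89.OM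

open Pool.Agent.K3h30.RS (PosProportion)
open Pool.Agent.W275.UB (EE gn D0 S_genT)

/-- `B` is a finite module over `A` -/
def FinM {n : ℕ} (F : Fin n → MvPolynomial (Fin n) ℚ) : Prop :=
  (MvPolynomial.aeval F : MvPolynomial (Fin n) ℚ →ₐ[ℚ] MvPolynomial (Fin n) ℚ).toRingHom.Finite

/-- there are `m` polynomials linearly independent over `ℚ[F]` -/
def Ind {n : ℕ} (F : Fin n → MvPolynomial (Fin n) ℚ) (m : ℕ) : Prop :=
  ∃ b : Fin m → MvPolynomial (Fin n) ℚ, ∀ a : Fin m → MvPolynomial (Fin n) ℚ,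
    ∑ i, MvPolynomial.aeval F (a i) * b i = 0 → ∀ i, a i = 0

/-- NLQ. Proof: over the algebraic closure `Ω` the Nullstellensatz gives `X_i ^ r = ∑_j G_ij F_j` with a common
`r` (`MvPolynomial.vanishingIdeal_zeroLocus_eq_radical` or T_NUL; the forms have no common zero but `0`). Let
`ρ : Ω →ₗ[ℚ] ℚ` be linear with `ρ 1 = 1` (`Module.exists_...`/ a left inverse of `Algebra.linearMap ℚ Ω`), applied to
the coefficients it commutes with the multiplication by the rational polynomials `F_j`; so `G` can be taken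
over `ℚ`. Then replace `G_ij` by its homogeneous component of degree `r - d` (compare the components of degree
`r`; `r ≥ d` may be assumed by multiplying with `X_i ^ d`). -/
def S_NLQ : Prop :=
  ∀ (n d : ℕ) (F : Fin n → MvPolynomial (Fin n) ℚ), IsMor d F →
    ∃ (r : ℕ) (G : Fin n → Fin n → MvPolynomial (Fin n) ℚ), d ≤ r ∧
      (∀ i j, (G i j).IsHomogeneous (r - d)) ∧ ∀ i, MvPolynomial.X i ^ r = ∑ j, G i j * F j

/-- ITG. Proof: the finitely many monomials with all exponents `< r` generate `B` as a module over `A`: by strong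
induction on the degree each monomial `m` is in the span `N` of these; if `X_i ^ r` divides `m`, then
`m = X_i ^ r m' = ∑_j (G_ij m') F_j` and `G_ij m'` has degree `deg m - d < deg m`; all its monomials lie in `N` and
`F_j = θ(Y_j)`. (Compare `FINx` in T_FIN.) -/
def S_ITG : Prop :=
  ∀ (n d r : ℕ), 1 ≤ d → ∀ (F : Fin n → MvPolynomial (Fin n) ℚ)
    (G : Fin n → Fin n → MvPolynomial (Fin n) ℚ), d ≤ r → (∀ i j, (G i j).IsHomogeneous (r - d)) →
    (∀ i, MvPolynomial.X i ^ r = ∑ j, G i j * F j) → FinM F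

/-- FGB. Proof: `Ind F 0` holds; if `B` is generated by `k` elements over `A`, then `Ind F m` implies `m ≤ k`
(`linearIndependent_le_span'`, the ring `A` is commutative and nontrivial; use `Fintype.linearIndependent_iff`). Take
the largest `M`. -/
def S_FGB : Prop :=
  ∀ (n : ℕ) (F : Fin n → MvPolynomial (Fin n) ℚ), FinM F →
    ∃ M : ℕ, Ind F M ∧ ∀ m, Ind F m → m ≤ M

/-- AIN: `θ` is injective. Proof: `B` is algebraic over `ℚ[F]`, so `F` contains a transcendence basis of
`B` over `ℚ`, which has `n` elements (`MvPolynomial.trdeg...`, `IsTranscendenceBasis`); or directly by dimensions: if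
`P(F) = 0`, `P ≠ 0`, then ... the dimension of `A/(P)` in degrees `≤ D` is `O(D^(n-1))`. Or: `ringKrullDim` of
`B` is `n`, that of `A / ker θ` (integral extension, `B` is finite and faithful over it) is `< n` if `ker θ ≠ 0`
(`ringKrullDim_quotient_succ_le_of_nonZeroDivisor`, `Algebra.IsIntegral.ringKrullDim_eq` or similar). -/
def S_AIN : Prop :=
  ∀ (n : ℕ) (F : Fin n → MvPolynomial (Fin n) ℚ), FinM F →
    Function.Injective (MvPolynomial.aeval F : MvPolynomial (Fin n) ℚ →ₐ[ℚ] MvPolynomial (Fin n) ℚ)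

/-- DGF: the fibres have at most `M` points. Proof: let `S` be a finite set of points of the fibre over `y`. There is a
linear form `ℓ = ∑ c_i X_i` over `ℚ` which separates the points of `S` (finitely many proper subspaces of
conditions; e.g. `c_i = t ^ i` with `t` a suitable natural number). `B` is an `A`-algebra by `θ`, a domain,
`ℓ` is integral over `A` (`RingHom.Finite.to_isIntegral`), `A` is integrally closed. The `M + 1` elements
`1, ℓ, …, ℓ ^ M` are linearly dependent over `A` (otherwise `Ind F (M + 1)`), so there is a nonzero polynomial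
`p` over `A` of degree `≤ M` with `p(ℓ) = 0`, and `minpoly A ℓ ∣ p` (`minpoly.isIntegrallyClosed_dvd`), so
`q := minpoly A ℓ` is monic of degree `≤ M`. Apply the evaluation `B → Ω` at `x ∈ S`: the monic polynomial
`q^y` (coefficients evaluated at `y`) vanishes at `ℓ(x)`. So `#S ≤ #roots ≤ M`. -/
def S_DGF : Prop :=
  ∀ (n M : ℕ) (F : Fin n → MvPolynomial (Fin n) ℚ), FinM F →
    Function.Injective (MvPolynomial.aeval F : MvPolynomial (Fin n) ℚ →ₐ[ℚ] MvPolynomial (Fin n) ℚ) →
    (∀ m, Ind F m → m ≤ M) → ∀ (y : Fin n → ℚ) (S : Finset (Fin n → AlgebraicClosure ℚ)),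
      (∀ x ∈ S, ∀ i, MvPolynomial.aeval x (F i) = algebraMap ℚ (AlgebraicClosure ℚ) (y i)) → S.card ≤ M

/-- DIM: a monomial of degree `d` which is not a combination of the forms. Proof: the `n + 1` monomials `X_i ^ d`
and `X_0 ^ (d - 1) X_1` are linearly independent, so they are not all in the span of the `n` forms. -/
def S_DIM : Prop :=
  ∀ (n d : ℕ), 2 ≤ n → 2 ≤ d → ∀ F : Fin n → MvPolynomial (Fin n) ℚ,
    ∃ m : Fin n →₀ ℕ, m.degree = d ∧
      (MvPolynomial.monomial m (1 : ℚ)) ∉ Submodule.span ℚ (Set.range F)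

/-- NIN: such a monomial `μ` is not in the field of fractions of `ℚ[F]`. Proof: suppose `θ(a) μ = θ(a₀)` with
`a ≠ 0`. `μ` is integral over `A` and lies in the fraction field of `θ(A)`, and `A` is integrally closed (`IsIntegrallyClosed`;
the element `a₀ / a` of `Frac A` is integral over `A`: transport the integral equation of `μ` through the
injective map `θ`), so `a ∣ a₀` in `A` and `μ = θ(b)`. Compare the components of degree `d`: the component of degree
`d` of `θ(b)` is `∑ b_i F_i` where `b_i` is the coefficient of `Y_i` in `b` (`θ` maps a form of degree `k` to a form of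
degree `k d`, `d ≥ 1`). So `μ` is in the span. -/
def S_NIN : Prop :=
  ∀ (n d : ℕ), 1 ≤ d → ∀ F : Fin n → MvPolynomial (Fin n) ℚ, (∀ i, (F i).IsHomogeneous d) → FinM F →
    Function.Injective (MvPolynomial.aeval F : MvPolynomial (Fin n) ℚ →ₐ[ℚ] MvPolynomial (Fin n) ℚ) →
    ∀ m : Fin n →₀ ℕ, m.degree = d →
      (MvPolynomial.monomial m (1 : ℚ)) ∉ Submodule.span ℚ (Set.range F) →
      ∀ a a₀ : MvPolynomial (Fin n) ℚ,
        MvPolynomial.aeval F a₀ + MvPolynomial.aeval F a * MvPolynomial.monomial m (1 : ℚ) = 0 → a = 0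

/-- DGD: `Ind F (d + 1)` with the family `1, X_0, …, X_0 ^ (d - 1), μ`. Proof: let
`θ(a_0) + ∑_{1 ≤ j < d} θ(a_j) X_0 ^ j + θ(a_d) μ = 0`. All homogeneous components of `θ(a)` have degree divisible by
`d`. Take the components of degree congruent to `j` modulo `d`: `θ(a_j) X_0 ^ j = 0` for `1 ≤ j < d`, so `a_j = 0` by
injectivity, and `θ(a_0) + θ(a_d) μ = 0`, so `a_d = 0` by the hypothesis, and `a_0 = 0`. (A convenient way to
separate: coefficients at the monomials `m` with `m.degree % d = j`.) -/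
def S_DGD : Prop :=
  ∀ (n d : ℕ), 1 ≤ n → 1 ≤ d → ∀ F : Fin n → MvPolynomial (Fin n) ℚ, (∀ i, (F i).IsHomogeneous d) →
    Function.Injective (MvPolynomial.aeval F : MvPolynomial (Fin n) ℚ →ₐ[ℚ] MvPolynomial (Fin n) ℚ) →
    ∀ m : Fin n →₀ ℕ, m.degree = d →
      (∀ a a₀ : MvPolynomial (Fin n) ℚ,
        MvPolynomial.aeval F a₀ + MvPolynomial.aeval F a * MvPolynomial.monomial m (1 : ℚ) = 0 → a = 0) →
      Ind F (d + 1)

/-- DGL: degree of the generic point. Proof: `L` has characteristic `0`; `ψ : B → L`, `X_i ↦ x_i`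
(`MvPolynomial.eval₂Hom (Rat.castHom L) x`). (1) `ψ ∘ θ` is injective: a nonzero `a ∈ ℚ[Y]` has a nonzero integer multiple
`a₀ ∈ ℤ[Y]`, and `ψ(θ(a₀)) = gn a₀ ≠ 0`. (2) `ψ` is injective: its kernel meets `θ(A)` in `0` and `B` is a domain
integral over `A` (`Ideal.eq_bot_of_comap_eq_bot`, algebra structure by `θ`). (3) the `ψ(b_i)` are linearly
independent over `EE` : by `LinearIndependent.iff_fractionRing` it is enough over `ℤ[Y]`; if
`∑ gn(a_i) ψ(b_i) = 0`, then `ψ(∑ θ(a_i) b_i) = 0`, so `a_i = 0`. (4) `LinearIndependent.fintype_card_le_finrank`. -/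
def S_DGL : Prop :=
  ∀ (n m : ℕ) (F₀ : Fin n → MvPolynomial (Fin n) ℤ), FinM (mapF (Int.castRingHom ℚ) F₀) →
    Ind (mapF (Int.castRingHom ℚ) F₀) m →
    ∀ (L : Type) [Field L] [Algebra (EE (Fin n)) L] [FiniteDimensional (EE (Fin n)) L] (x : Fin n → L),
      (∀ i, MvPolynomial.eval₂ (Int.castRingHom L) x (F₀ i) = gn (Fin n) L (MvPolynomial.X i)) →
      m ≤ Module.finrank (EE (Fin n)) L

/-- ALG. Proof: `X_j` is integral over `A`: a monic `P ∈ A[T]` with `P(X_j) = 0` in `B`. Apply `X ↦ x`: the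
monic polynomial over `ℚ[Y] → Ω` vanishes at `x_j`; its coefficients are in the image of `EE` (`ℚ ⊂ EE`). -/
def S_ALG : Prop :=
  ∀ (n : ℕ) (F₀ : Fin n → MvPolynomial (Fin n) ℤ), FinM (mapF (Int.castRingHom ℚ) F₀) →
    ∀ (Ω : Type) [Field Ω] [IsAlgClosed Ω] [Algebra (EE (Fin n)) Ω] (x : Fin n → Ω),
      (∀ i, MvPolynomial.eval₂ (Int.castRingHom Ω) x (F₀ i) = gn (Fin n) Ω (MvPolynomial.X i)) →
      ∀ j, IsAlgebraic (EE (Fin n)) (x j)

/-- HIF: Hilbert irreducibility for the fibres. Proof: `M = 0` is trivial (`finrank < 0`). Otherwise apply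
`S_genT` with `ι = τ = Fin n`, `D = M - 1`, `h = 1` and
`G = Set.range fun i => MvPolynomial.map MvPolynomial.C (F₀ i) - MvPolynomial.C (MvPolynomial.X i)`. By S_ALG its first
hypothesis holds; if the set were not of density zero, there would be `L`, `x` of degree `≤ M - 1`, against S_DGL. -/
def S_HIF : Prop :=
  ∀ (n M : ℕ) (F₀ : Fin n → MvPolynomial (Fin n) ℤ), FinM (mapF (Int.castRingHom ℚ) F₀) →
    Ind (mapF (Int.castRingHom ℚ) F₀) M →
    D0 {y : Fin n → ℤ | ∃ (K : Type) (_ : Field K) (_ : NumberField K) (x : Fin n → K),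
      Module.finrank ℚ K < M ∧ ∀ i, MvPolynomial.aeval x (F₀ i) = (y i : K)}

/-- JBU: a transitive group action without common class. Proof: let `H` be the (finite) image of `G` in the permutations
of `X`, and let `Y` be the quotient of `X` by `r` with the induced action of `H` (or of the image of `G` in
`Equiv.Perm Y`), transitive, with at least two elements. By the lemma of Burnside
(`MulAction.sum_card_fixedBy_eq_card_orbits_mul_card_group`) the mean number of fixed points is one; the identity has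
more than one; so some element has none. -/
def S_JBU : Prop :=
  ∀ (G X : Type) [Group G] [MulAction G X] [Finite X] (r : Setoid X),
    (∀ (g : G) (x y : X), r x y → r (g • x) (g • y)) → (∀ x y : X, ∃ g : G, g • x = y) →
    (∃ x y : X, ¬ r x y) → ∃ g : G, ∀ x : X, ¬ r (g • x) x

/-- JTR: transitivity on the fibre. Proof: let `x` be in the fibre, `E = ℚ(x_1, …, x_n) ⊂ Ω`
(`IntermediateField.adjoin ℚ (Set.range x)`), a number field; by hypothesis `[E : ℚ] ≥ M`. It has `[E : ℚ]` embeddings
`τ` in `Ω` (`AlgHom.card`), the points `τ(x)` are distinct and in the fibre, which has at most `M` points. So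
every point `x'` of the fibre is `τ(x)` (otherwise the image together with `x'` has more than `M` points), and `τ` extends to an
automorphism of `Ω` (`AlgHom.liftNormal`, bijective as `Ω` is algebraic; `Algebra.IsAlgebraic.algHom_bijective`). -/
def S_JTR : Prop :=
  ∀ (n M : ℕ) (F : Fin n → MvPolynomial (Fin n) ℚ) (y : Fin n → ℚ),
    (∀ S : Finset (Fin n → AlgebraicClosure ℚ),
      (∀ x ∈ S, ∀ i, MvPolynomial.aeval x (F i) = algebraMap ℚ (AlgebraicClosure ℚ) (y i)) →
      S.card ≤ M) →
    (∀ (K : Type) [Field K] [NumberField K] (x : Fin n → K),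
      (∀ i, MvPolynomial.aeval x (F i) = algebraMap ℚ K (y i)) → M ≤ Module.finrank ℚ K) →
    (∀ x x' : Fin n → AlgebraicClosure ℚ,
      (∀ i, MvPolynomial.aeval x (F i) = algebraMap ℚ (AlgebraicClosure ℚ) (y i)) →
      (∀ i, MvPolynomial.aeval x' (F i) = algebraMap ℚ (AlgebraicClosure ℚ) (y i)) →
      ∃ σ : AlgebraicClosure ℚ ≃ₐ[ℚ] AlgebraicClosure ℚ, ∀ i, σ (x i) = x' i) ∧
    ∀ x : Fin n → AlgebraicClosure ℚ,
      (∀ i, MvPolynomial.aeval x (F i) = algebraMap ℚ (AlgebraicClosure ℚ) (y i)) →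
      ∃ S : Finset (Fin n → AlgebraicClosure ℚ), S.card = M ∧
        ∀ x ∈ S, ∀ i, MvPolynomial.aeval x (F i) = algebraMap ℚ (AlgebraicClosure ℚ) (y i)

/-- JOR: an automorphism without fixed point in the projective fibre. Proof: let `T` be the fibre over `y`,
finite with at most `M` points. If it is empty, take `σ = 1`: a point `x ≠ 0` with `F(x)` proportional to `y` has
`F(x) = c y`, `c ≠ 0`, and with `μ ^ d = c⁻¹` the vector `μ x` is in `T`, a contradiction. Otherwise `T` has `M > d`
points by the second part of S_JTR; not all of them are proportional, because proportional points of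
`T` differ by a factor `λ` with `λ ^ d = 1` (at most `d` values). Apply S_JBU to the group
`Ω ≃ₐ[ℚ] Ω` acting on the subtype `T` and the equivalence relation `Par` (`Par.symm`, `Par.trans` in Lem; all vectors of
`T` are nonzero as `y ≠ 0`, and `Par` is preserved by automorphisms). As above every point of the projective
fibre has a representative in `T`. -/
def S_JOR : Prop :=
  ∀ (n d M : ℕ), 1 ≤ d → d < M → ∀ F : Fin n → MvPolynomial (Fin n) ℚ, IsMor d F →
    ∀ y : Fin n → ℚ, y ≠ 0 →
    (∀ S : Finset (Fin n → AlgebraicClosure ℚ),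
      (∀ x ∈ S, ∀ i, MvPolynomial.aeval x (F i) = algebraMap ℚ (AlgebraicClosure ℚ) (y i)) →
      S.card ≤ M) →
    (∀ (K : Type) [Field K] [NumberField K] (x : Fin n → K),
      (∀ i, MvPolynomial.aeval x (F i) = algebraMap ℚ K (y i)) → M ≤ Module.finrank ℚ K) →
    ∃ σ : AlgebraicClosure ℚ ≃ₐ[ℚ] AlgebraicClosure ℚ, ∀ x : Fin n → AlgebraicClosure ℚ, x ≠ 0 →
      Par (fun i => MvPolynomial.aeval x (F i)) (fun i => algebraMap ℚ (AlgebraicClosure ℚ) (y i)) →
      ¬ Par (fun i => σ (x i)) x

/-- FPI: an automorphism without fixed points in the fibre gives prime ideals modulo which `y` has no rational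
preimage. Proof: adapt the second half of T_CORE (M = 0): `Ω = AlgebraicClosure K`, `ι : 𝓞 K → 𝓞 Ω`,
`FO = mapF ι F`. S_STEP with `W = {ι ∘ y}` gives `T`, `DT`. Let `L` be the normal closure of the field of the
coordinates of `T`, `σL` the restriction of `σ` to `L` (`AlgEquiv.restrictNormal`), `s t = σ ∘ t`; not
`Par (s t) t` for `t ∈ T`, so not modulo primes not dividing some `D2` (`npar_vec` in T_CORE). Good reduction
outside `D1` (S_GOOD), `φ ∘ ι ∘ y ≠ 0` outside `D3` (`nz_vec`). Take (S_CHO; a positive proportion is not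
empty) `v` outside `bad` and the divisors of the product `D`, with `Q`. If `ParMod v (F^m y) y`, `m ≥ 1`, put
`z = φ(ι(F^(m-1) y)) ≠ 0`, `z_i ^ r = z_i`; there is `t ∈ T` with `Par z (φ ∘ t)`, hence `Par z (φ ∘ s t)`, so
`Par (φ ∘ s t) (φ ∘ t)`, a contradiction. -/
def S_FPI : Prop :=
  ∀ (K : Type) [Field K] [NumberField K] (n d : ℕ), 1 ≤ d →
    ∀ F : Fin n → MvPolynomial (Fin n) (𝓞 K), (∀ i, (F i).IsHomogeneous d) →
    (∀ x : Fin n → AlgebraicClosure K, (∀ i, MvPolynomial.aeval x (F i) = 0) → x = 0) →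
    ∀ y : Fin n → 𝓞 K, y ≠ 0 → ∀ σ : AlgebraicClosure K ≃ₐ[K] AlgebraicClosure K,
    (∀ x : Fin n → AlgebraicClosure K, x ≠ 0 → Par (fun i => MvPolynomial.aeval x (F i))
      (fun i => algebraMap (𝓞 K) (AlgebraicClosure K) (y i)) → ¬ Par (fun i => σ (x i)) x) →
    ∀ bad : Finset (HeightOneSpectrum (𝓞 K)), ∃ v ∉ bad, ∀ m : ℕ, 1 ≤ m →
      ¬ ParMod v.asIdeal ((ev F)^[m] y) y

/-- FPF: the same for forms over `K`. Proof: clear denominators (`SCLaux.clearPoly`, `SCLaux.clear`, `SCLaux.iter` in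
T_SCL): `F' = D F`, `y' = e y` integral; the fibres of `F'` over `y'` and of `F` over `y` in the projective space are
the same. Apply S_FPI with `bad` enlarged by the prime ideals of bad reduction (S_GDQ) and those containing all
`y'_i` (finitely many, `Ideal.finite_factors`), and S_CNG (the iterates have a unit coordinate by good
reduction, see T_MAIN1). -/
def S_FPF : Prop :=
  ∀ (K : Type) [Field K] [NumberField K] (n d : ℕ), 1 ≤ d →
    ∀ F : Fin n → MvPolynomial (Fin n) K, IsMor d F → ∀ y : Fin n → K, y ≠ 0 →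
    ∀ σ : AlgebraicClosure K ≃ₐ[K] AlgebraicClosure K,
    (∀ x : Fin n → AlgebraicClosure K, x ≠ 0 → Par (fun i => MvPolynomial.aeval x (F i))
      (fun i => algebraMap K (AlgebraicClosure K) (y i)) → ¬ Par (fun i => σ (x i)) x) →
    ∀ bad : Finset (HeightOneSpectrum (𝓞 K)), ∃ v ∉ bad, ∀ m : ℕ, 1 ≤ m →
      ¬ Cong v ((ev F)^[m] y) y

/-- SCI: multiplying all forms by a constant changes nothing. Proof: the iterates change by nonzero factors; `Par` and
`Cong` are invariant under such factors. -/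
def S_SCI : Prop :=
  ∀ (K : Type) [Field K] [NumberField K] (n d : ℕ) (F : Fin n → MvPolynomial (Fin n) K), IsMor d F →
    ∀ c : K, c ≠ 0 → IsMor d (fun i => MvPolynomial.C c * F i) ∧
      ∀ γ₁ γ₂ : Fin n → K,
        ((∀ m : ℕ, ¬ Par ((ev F)^[m] γ₁) γ₂) →
          ∀ m : ℕ, ¬ Par ((ev fun i => MvPolynomial.C c * F i)^[m] γ₁) γ₂) ∧
        Avoid (fun i => MvPolynomial.C c * F i) γ₁ γ₂ = Avoid F γ₁ γ₂

/-- **Result 4.** For every morphism `Φ` over `ℚ` of degree at least two of a projective space of positive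
dimension the statement holds for 100 percent of the integral target vectors `y` and all starting points. -/
def S_MAIN4 : Prop :=
  ∀ (n d : ℕ), 2 ≤ n → 2 ≤ d → ∀ F : Fin n → MvPolynomial (Fin n) ℚ, IsMor d F →
    Tendsto (fun B : ℕ =>
      (Nat.card {y : Fin n → ℤ // (∀ i, |y i| ≤ B) ∧ y ≠ 0 ∧
        ∀ γ₁ : Fin n → ℚ, γ₁ ≠ 0 →
          (∀ m : ℕ, ¬ Par ((ev F)^[m] γ₁) (fun i => (y i : ℚ))) →
          PosDens (Avoid F γ₁ (fun i => (y i : ℚ)))} : ℝ) /
      (2 * B + 1 : ℝ) ^ n) atTop (𝓝 1)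

end Pool.Agent.T4h89.OM
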