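import Pool.Agent.T4h89.OM.Stm
import Pool.Agent.T4h89.OM.T_MAIN3

/-!
# Several orbits avoiding several points modulo primes (MP_7b3af4_nt, MP_63749c_nt)
-/

set_option autoImplicit false

open NumberField IsDedekindDomain Filter Topology

noncomputable section

namespace Pool.Agent.T4h89.OM

open Pool.Agent.K3h30.RS (PosProportion)

/-- the polynomial map `x ↦ f(x)` of the projective line, in homogeneous coordinates -/
def polyMap {K : Type} [Field K] (f : Polynomial K) : Fin 2 → MvPolynomial (Fin 2) K :=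
  ![∑ k ∈ Finset.range (f.natDegree + 1), MvPolynomial.C (f.coeff k) * MvPolynomial.X 0 ^ k *
      MvPolynomial.X 1 ^ (f.natDegree - k), MvPolynomial.X 1 ^ f.natDegree]

/-! ## A. The criterion for several maps -/

/-- MCOR: the criterion for several maps, integral form (adapt T_CORE and T_CRIT) -/
def S_MCOR : Prop :=
  ∀ (K : Type) [Field K] [NumberField K] (n g : ℕ) (d : Fin g → ℕ), (∀ i, 1 ≤ d i) →
    ∀ F : Fin g → Fin n → MvPolynomial (Fin n) (𝓞 K), (∀ i j, (F i j).IsHomogeneous (d i)) →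
    (∀ i, ∀ x : Fin n → AlgebraicClosure K, (∀ j, MvPolynomial.aeval x (F i j) = 0) → x = 0) →
    ∀ x y : Fin g → Fin n → 𝓞 K, (∀ i, x i ≠ 0) → (∀ i, y i ≠ 0) →
    (∀ i (m : ℕ), ¬ Par ((ev (F i))^[m] (x i)) (y i)) →
    ∀ v₀ : HeightOneSpectrum (𝓞 K), (∀ i, GoodQ (F i) v₀) → (∀ i, ∃ j, y i j ∉ v₀.asIdeal) →
    (∀ i (m : ℕ), 1 ≤ m → ¬ ParMod v₀.asIdeal ((ev (F i))^[m] (y i)) (y i)) →
    PosProportion (fun v : HeightOneSpectrum (𝓞 K) => ∀ i,
      (∃ j, y i j ∉ v.asIdeal) ∧ ∀ m : ℕ, (∃ j, (ev (F i))^[m] (x i) j ∉ v.asIdeal) ∧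
        ¬ ParMod v.asIdeal ((ev (F i))^[m] (x i)) (y i))

/-- MONE: the criterion over `K`. Proof: S_SCG for each `i` (with `γ₁ = x i`, `γ₂ = y i`), then S_MCOR, S_CNG
and S_DEN, exactly as in the second case of `t_MAIN1` in T_MAIN1 (lemmas `avoid'`, `nonper`, `concl_dens`). -/
def S_MONE : Prop :=
  ∀ (K : Type) [Field K] [NumberField K] (n g : ℕ) (d : Fin g → ℕ), (∀ i, 1 ≤ d i) →
    ∀ F : Fin g → Fin n → MvPolynomial (Fin n) K, (∀ i, IsMor (d i) (F i)) →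
    ∀ x y : Fin g → Fin n → K, (∀ i, x i ≠ 0) → (∀ i, y i ≠ 0) →
    (∀ i (m : ℕ), ¬ Par ((ev (F i))^[m] (x i)) (y i)) →
    ∀ v : HeightOneSpectrum (𝓞 K), (∀ i, GoodRed v (F i)) →
    (∀ i (m : ℕ), 1 ≤ m → ¬ Cong v ((ev (F i))^[m] (y i)) (y i)) →
    PosDens {v : HeightOneSpectrum (𝓞 K) | ∀ i, v ∈ Avoid (F i) (x i) (y i)}

/-- MHALF: the same with infinitely many prime ideals instead of one of good reduction. Proof: S_SCL for each
`i`, S_GDQ, S_MCOR, S_CNG, S_DEN, exactly as `t_HALF` in T_MAIN1. -/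
def S_MHALF : Prop :=
  ∀ (K : Type) [Field K] [NumberField K] (n g : ℕ) (d : Fin g → ℕ), (∀ i, 1 ≤ d i) →
    ∀ F : Fin g → Fin n → MvPolynomial (Fin n) K, (∀ i, IsMor (d i) (F i)) →
    ∀ x y : Fin g → Fin n → K, (∀ i, x i ≠ 0) → (∀ i, y i ≠ 0) →
    (∀ i (m : ℕ), ¬ Par ((ev (F i))^[m] (x i)) (y i)) →
    (∀ bad : Finset (HeightOneSpectrum (𝓞 K)), ∃ v ∉ bad,
      ∀ i (m : ℕ), 1 ≤ m → ¬ Cong v ((ev (F i))^[m] (y i)) (y i)) →
    PosDens {v : HeightOneSpectrum (𝓞 K) | ∀ i, v ∈ Avoid (F i) (x i) (y i)}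

/-- MFPI: one automorphism without fixed points in all fibres, integral form. Proof: adapt T_FPI (S_FPI in Stm4):
take for `T` the union of the finite sets given by S_STEP for the maps `F i` and `W = {ι ∘ y i}`, `L` the
normal closure of the field of all coordinates, the rest is the same for each `i`. -/
def S_MFPI : Prop :=
  ∀ (K : Type) [Field K] [NumberField K] (n g : ℕ) (d : Fin g → ℕ), (∀ i, 1 ≤ d i) →
    ∀ F : Fin g → Fin n → MvPolynomial (Fin n) (𝓞 K), (∀ i j, (F i j).IsHomogeneous (d i)) →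
    (∀ i, ∀ x : Fin n → AlgebraicClosure K, (∀ j, MvPolynomial.aeval x (F i j) = 0) → x = 0) →
    ∀ y : Fin g → Fin n → 𝓞 K, (∀ i, y i ≠ 0) → ∀ σ : AlgebraicClosure K ≃ₐ[K] AlgebraicClosure K,
    (∀ i, ∀ x : Fin n → AlgebraicClosure K, x ≠ 0 → Par (fun j => MvPolynomial.aeval x (F i j))
      (fun j => algebraMap (𝓞 K) (AlgebraicClosure K) (y i j)) → ¬ Par (fun j => σ (x j)) x) →
    ∀ bad : Finset (HeightOneSpectrum (𝓞 K)), ∃ v ∉ bad, ∀ i (m : ℕ), 1 ≤ m →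
      ¬ ParMod v.asIdeal ((ev (F i))^[m] (y i)) (y i)

/-- MFPF: the same over `K`. Proof: adapt T_FPF. -/
def S_MFPF : Prop :=
  ∀ (K : Type) [Field K] [NumberField K] (n g : ℕ) (d : Fin g → ℕ), (∀ i, 1 ≤ d i) →
    ∀ F : Fin g → Fin n → MvPolynomial (Fin n) K, (∀ i, IsMor (d i) (F i)) →
    ∀ y : Fin g → Fin n → K, (∀ i, y i ≠ 0) → ∀ σ : AlgebraicClosure K ≃ₐ[K] AlgebraicClosure K,
    (∀ i, ∀ x : Fin n → AlgebraicClosure K, x ≠ 0 → Par (fun j => MvPolynomial.aeval x (F i j))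
      (fun j => algebraMap K (AlgebraicClosure K) (y i j)) → ¬ Par (fun j => σ (x j)) x) →
    ∀ bad : Finset (HeightOneSpectrum (𝓞 K)), ∃ v ∉ bad, ∀ i (m : ℕ), 1 ≤ m →
      ¬ Cong v ((ev (F i))^[m] (y i)) (y i)

/-! ## B. Polynomials over `ℚ` and almost all targets -/

/-- MISS: a polynomial of degree `d ≥ 2` with `d ∣ p - 1` misses at least `p / (2 d)` values modulo `p`.
Proof: let `r(b)` be the number of `a` with `f(a) = b`, `U = (p - 1) / d ≥ 1`. For `u < U` the polynomial `f ^ u` has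
degree `< p - 1`, so `∑_b r(b) b ^ u = ∑_a f(a) ^ u = 0` in `ZMod p` (`FiniteField.sum_pow_lt_card_sub_one`
linearly extended), and `f ^ U` has degree `p - 1` and leading coefficient `c ≠ 0`, so
`∑_b r(b) b ^ U = - c ≠ 0`. As `∑_b b ^ u = 0` for `u < p - 1` and `U < p - 1`, the function `R(b) = r(b) - 1` (in `ZMod p`)
satisfies `∑_b R(b) b ^ u = 0` for `u < U` and `≠ 0` for `u = U`. So `R` is not zero and orthogonal to all
polynomials of degree `< U`; hence its support has at least `U + 1` elements (otherwise take the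
polynomial `∏ (X - b')` over the support without one point `b`, of degree `< U`: the sum is `R(b) ∏(b - b') ≠ 0`). As
`0 ≤ r(b) ≤ d < p` (roots of `f - b`), `R(b) ≠ 0` means `r(b) ≠ 1`. From `∑_b (r(b) - 1) = 0` (integers):
`#{r = 0} = ∑_{r(b) ≥ 2} (r(b) - 1) ≥ #{r ≥ 2}`, so `2 #{r = 0} ≥ #{r ≠ 1} ≥ U + 1`, and `d (U + 1) ≥ p`. -/
def S_MISS : Prop :=
  ∀ (p : ℕ), p.Prime → ∀ f : Polynomial (ZMod p), 2 ≤ f.natDegree → f.natDegree ∣ p - 1 →
    p ≤ 2 * f.natDegree * Nat.card {b : ZMod p // ∀ a, f.eval a ≠ b}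

/-- SIEVI: the sieve with an infinite set of primes. Proof: T_SIEVE with the primes `Nat.nth (· ∈ P) j` instead of
`pr p₀ j` (`Nat.nth_mem_of_infinite`, `Nat.nth_injective`). -/
def S_SIEVI : Prop :=
  ∀ (ι : Type) [Fintype ι] (P : Set ℕ) (G : ∀ p : ℕ, Set (ι → ZMod p)) (θ : ℝ), 0 < θ → P.Infinite →
    (∀ p ∈ P, p.Prime) → (∀ p ∈ P, θ * (p : ℝ) ^ Fintype.card ι ≤ Nat.card (G p)) →
    Tendsto (fun B : ℕ => (Nat.card {x : ι → ℤ // (∀ i, |x i| ≤ B) ∧
      ∃ p ∈ P, (fun i => ((x i : ℤ) : ZMod p)) ∈ G p} : ℝ) /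
        (2 * B + 1 : ℝ) ^ Fintype.card ι) atTop (𝓝 1)

/-- PMR. Proof: both components are homogeneous of degree `natDegree`; if `x` is a common zero, then `x 1 = 0` (the degree is
`≥ 1`) and then `leadingCoeff * (x 0) ^ natDegree = 0`. -/
def S_PMR : Prop :=
  ∀ (K : Type) [Field K] (f : Polynomial K), 1 ≤ f.natDegree → IsMor f.natDegree (polyMap f)

/-- PRED: reduction of a polynomial modulo large primes `p` (`MAIN3.vp p` is the prime ideal over `p`, T_MAIN3).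
Proof: let `N ≥ 1` with `N f = map f₀`, `f₀` integral, and `p₀` larger than `N` and the leading coefficient of
`f₀`; `fp = N⁻¹ f₀` modulo `p`. Good reduction: with `c = 1`, `X_1 ^ d = F_1`, and `X_0 ^ d`... : modulo `F_1 = X_1 ^ d`:
with `r = 2 d`, `X_1 ^ (2d) = X_1 ^ d F_1` and `X_0 ^ (2d) = G F_0 + G' F_1` with `v`-integral `G, G'`: divide
`(a X_0 ^ d) ^ 2`, `a X_0 ^ d = F_0 - X_1 H`, where `H` has `v`-integral coefficients, `a` is the leading coefficient, a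
`v`-unit; so `a ^ d' X_0 ^ (d d')` is congruent to `(-1)^d' X_1 ^ d' H ^ d'` modulo `F_0`, take `d' = d` and `r = d * d`.
Iterates: for `b` an integer `(ev polyMap f)^[m] ![b, 1] = ![f^m(b), 1]` with `v`-integral `f^m(b)`; two such vectors `![s, 1]`,
`![t, 1]` with `v`-integral `s`, `t` are congruent iff `v(s - t) < 1`. If `m ≥ 1` and `f^m(b) ≡ b`, then the residue class
of `b` in `ZMod p` is `fp` of the residue class of `f^(m-1)(b)`. (The residue class of a `v`-integral rational number in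
`ZMod p`: numerator divided by denominator; or clear denominators.) -/
def S_PRED : Prop :=
  ∀ f : Polynomial ℚ, 2 ≤ f.natDegree → ∃ p₀ : ℕ, ∀ (p : ℕ) [Fact p.Prime], p₀ ≤ p →
    ∃ fp : Polynomial (ZMod p), fp.natDegree = f.natDegree ∧ GoodRed (MAIN3.vp p) (polyMap f) ∧
      ∀ b : ℤ, (∀ a : ZMod p, fp.eval a ≠ (b : ZMod p)) → ∀ m : ℕ, 1 ≤ m →
        ¬ Cong (MAIN3.vp p) ((ev (polyMap f))^[m] ![(b : ℚ), 1]) ![(b : ℚ), 1]

/-- **Result A** (MP_7b3af4_nt): for all polynomials `f_1, …, f_g` over `ℚ` of degrees at least two and 100 percent of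
the integral targets `(b_1, …, b_g)`: for all starting points a positive density of the primes avoids all
collisions. Proof: let `D = ∏ deg f_i`, `P` the primes `p ≡ 1` modulo `D` larger than all `p₀` of S_PRED
(`Nat.exists_prime_gt_modEq_one`), `G_p` the vectors `b` with `b_i` not a value of `fp_i` for all `i`:
`card G_p = ∏ card{..} ≥ ∏ p / (2 d_i)` by S_MISS. S_SIEVI gives for almost all `b` a prime `p`, and S_MONE applies with
`v = MAIN3.vp p`. -/
def S_RESA : Prop :=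
  ∀ (g : ℕ) (f : Fin g → Polynomial ℚ), (∀ i, 2 ≤ (f i).natDegree) →
    Tendsto (fun B : ℕ => (Nat.card {b : Fin g → ℤ // (∀ i, |b i| ≤ B) ∧
      ∀ α : Fin g → Fin 2 → ℚ, (∀ i, α i ≠ 0) →
        (∀ i (m : ℕ), ¬ Par ((ev (polyMap (f i)))^[m] (α i)) ![(b i : ℚ), 1]) →
        PosDens {v : HeightOneSpectrum (𝓞 ℚ) |
          ∀ i, v ∈ Avoid (polyMap (f i)) (α i) ![(b i : ℚ), 1]}} : ℝ) / (2 * B + 1 : ℝ) ^ g)
      atTop (𝓝 1)

/-- **Result B** (MP_63749c_nt): for a polynomial `f` over `ℚ` of degree at least two, for 100 percent of the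
integral vectors `(b_1, …, b_g)`, a positive density of the primes has the property that none of the `b_i` is
periodic modulo `p` (and none is periodic). Proof: as S_RESA with `f_i = f`, and S_MONE with `x i = f(y i)`
(`ev (polyMap f) (y i)`): `b_i` is not periodic modulo `v = MAIN3.vp p`, hence not periodic (equal vectors up to
proportionality are congruent), and `v ∈ Avoid (polyMap f) (f y) y` says that `y` is not periodic modulo `v`. -/
def S_RESB : Prop :=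
  ∀ (g : ℕ) (f : Polynomial ℚ), 2 ≤ f.natDegree →
    Tendsto (fun B : ℕ => (Nat.card {b : Fin g → ℤ // (∀ i, |b i| ≤ B) ∧
      PosDens {v : HeightOneSpectrum (𝓞 ℚ) | ∀ (i : Fin g) (m : ℕ), 1 ≤ m →
        ¬ Cong v ((ev (polyMap f))^[m] ![(b i : ℚ), 1]) ![(b i : ℚ), 1]}} : ℝ) / (2 * B + 1 : ℝ) ^ g)
      atTop (𝓝 1)

/-! ## C. Maps of degree two and unicritical polynomials over arbitrary number fields -/

/-- QSUB. Proof: `Q = y_1 F_0 - y_0 F_1` is a binary quadratic form over `K`; `Par (F x) y` is `Q(x) = 0`. It is not zero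
(otherwise `F` maps everything to `y`, against the hypothesis, e.g. `x = ![1, 0]`) and has no zero over `K`. Write
`Q = a X_0 ^ 2 + b X_0 X_1 + c X_1 ^ 2`; `a ≠ 0` (otherwise `![1, 0]` is a zero), so the zeros over the algebraic closure are
the multiples of `![α, 1]`, `![α', 1]` with `a t ^ 2 + b t + c = a (t - α) (t - α')`, `α, α' ∉ K`. Let `H` be the
group of the `σ` with `σ α = α`; it is not everything, as `α ∉ K` (Galois theory, the algebraic closure is Galois over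
`K`: `IsGalois.mem_bot_iff_fixed` or `IntermediateField.fixingSubgroup`). For `σ ∉ H`: `σ α = α'` (a root of
`Q(t, 1)`), `α' ≠ α`, and `σ α' ≠ α'` (otherwise `α + α' ∈ K` gives `σ α = α`). -/
def S_QSUB : Prop :=
  ∀ (K : Type) [Field K] [NumberField K] (F : Fin 2 → MvPolynomial (Fin 2) K), IsMor 2 F →
    ∀ y : Fin 2 → K, y ≠ 0 → (∀ x : Fin 2 → K, x ≠ 0 → ¬ Par (ev F x) y) →
    ∃ H : Subgroup (AlgebraicClosure K ≃ₐ[K] AlgebraicClosure K), H ≠ ⊤ ∧
      ∀ σ, σ ∉ H → ∀ x : Fin 2 → AlgebraicClosure K, x ≠ 0 →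
        Par (fun j => MvPolynomial.aeval x (F j)) (fun j => algebraMap K (AlgebraicClosure K) (y j)) →
        ¬ Par (fun j => σ (x j)) x

/-- USUB: unicritical polynomials. Let `E ⊂ Ω` be an intermediate field containing a primitive `d`-th root of unity `ζ`. Proof:
`x ^ d = β - c` has a root `a ∈ Ω`, `a ∉ E`, all roots are `ζ ^ j a`. Let `H` be the group of the `σ` fixing all elements of
`E` and `a`; it is strictly smaller than the group of those fixing `E` (`E` is the fixed field of its fixing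
subgroup as `Ω / K` is Galois: `InfiniteGalois.fixedField_fixingSubgroup` or `IsGalois` of `Ω / E`). If `σ` fixes `E` and
`σ a ≠ a`, then `σ (ζ ^ j a) = ζ ^ j σ a ≠ ζ ^ j a`. The points of the fibre of `polyMap (X ^ d + C c)` over
`![β, 1]` are the multiples of `![ζ ^ j a, 1]` (`x 1 ≠ 0` because otherwise `x 0 = 0`). -/
def S_USUB : Prop :=
  ∀ (K : Type) [Field K] [NumberField K] (d : ℕ), 2 ≤ d →
    ∀ (E : IntermediateField K (AlgebraicClosure K)) (ζ : AlgebraicClosure K), ζ ∈ E →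
    IsPrimitiveRoot ζ d → ∀ c β : K, (∀ a ∈ E, a ^ d ≠ algebraMap K (AlgebraicClosure K) (β - c)) →
    ∃ H : Subgroup (AlgebraicClosure K ≃ₐ[K] AlgebraicClosure K), H < E.fixingSubgroup ∧
      ∀ σ ∈ E.fixingSubgroup, σ ∉ H → ∀ x : Fin 2 → AlgebraicClosure K, x ≠ 0 →
        Par (fun j => MvPolynomial.aeval x (polyMap (Polynomial.X ^ d + Polynomial.C c) j))
          (fun j => algebraMap K (AlgebraicClosure K) ((![β, 1] : Fin 2 → K) j)) →
        ¬ Par (fun j => σ (x j)) x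

/-- UNI2: a group is not the union of two proper subgroups -/
def S_UNI2 : Prop :=
  ∀ (G : Type) [Group G] (E H₁ H₂ : Subgroup G), H₁ < E → H₂ < E → ∃ σ ∈ E, σ ∉ H₁ ∧ σ ∉ H₂

/-- **Result C** (MP_7b3af4_nt): two maps of degree two over any number field, targets without rational
preimage. Proof: S_QSUB twice, S_UNI2 with `E = ⊤`, S_MFPF (g = 2) and S_MHALF. -/
def S_RESC : Prop :=
  ∀ (K : Type) [Field K] [NumberField K] (F₁ F₂ : Fin 2 → MvPolynomial (Fin 2) K), IsMor 2 F₁ →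
    IsMor 2 F₂ → ∀ α₁ α₂ β₁ β₂ : Fin 2 → K, α₁ ≠ 0 → α₂ ≠ 0 → β₁ ≠ 0 → β₂ ≠ 0 →
    (∀ m : ℕ, ¬ Par ((ev F₁)^[m] α₁) β₁) → (∀ m : ℕ, ¬ Par ((ev F₂)^[m] α₂) β₂) →
    (∀ x : Fin 2 → K, x ≠ 0 → ¬ Par (ev F₁ x) β₁) → (∀ x : Fin 2 → K, x ≠ 0 → ¬ Par (ev F₂ x) β₂) →
    PosDens (Avoid F₁ α₁ β₁ ∩ Avoid F₂ α₂ β₂)

/-- **Result D** (MP_63749c_nt): maps of degree two over any number field and two points without rational
preimage. Proof: S_RESC with `α_i = F(γ_i)` (the `γ_i` are not periodic as they have no rational preimage). -/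
def S_RESD : Prop :=
  ∀ (K : Type) [Field K] [NumberField K] (F : Fin 2 → MvPolynomial (Fin 2) K), IsMor 2 F →
    ∀ γ₁ γ₂ : Fin 2 → K, γ₁ ≠ 0 → γ₂ ≠ 0 →
    (∀ x : Fin 2 → K, x ≠ 0 → ¬ Par (ev F x) γ₁) → (∀ x : Fin 2 → K, x ≠ 0 → ¬ Par (ev F x) γ₂) →
    PosDens {v : HeightOneSpectrum (𝓞 K) | ∀ m : ℕ, 1 ≤ m →
      ¬ Cong v ((ev F)^[m] γ₁) γ₁ ∧ ¬ Cong v ((ev F)^[m] γ₂) γ₂}

/-- **Result E** (both problems): two unicritical polynomials `x ^ d_i + c_i`; `β_i - c_i` is not a `d_i`-th power in the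
field `E` generated by the roots of unity of orders `d_1`, `d_2`. Proof: S_USUB twice, S_UNI2, S_MFPF, S_MHALF; S_PMR
(`natDegree (X ^ d + C c) = d`). -/
def S_RESE : Prop :=
  ∀ (K : Type) [Field K] [NumberField K] (d₁ d₂ : ℕ), 2 ≤ d₁ → 2 ≤ d₂ →
    ∀ (E : IntermediateField K (AlgebraicClosure K)) (ζ₁ ζ₂ : AlgebraicClosure K), ζ₁ ∈ E → ζ₂ ∈ E →
    IsPrimitiveRoot ζ₁ d₁ → IsPrimitiveRoot ζ₂ d₂ → ∀ c₁ c₂ β₁ β₂ : K,
    (∀ a ∈ E, a ^ d₁ ≠ algebraMap K (AlgebraicClosure K) (β₁ - c₁)) →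
    (∀ a ∈ E, a ^ d₂ ≠ algebraMap K (AlgebraicClosure K) (β₂ - c₂)) →
    ∀ α₁ α₂ : Fin 2 → K, α₁ ≠ 0 → α₂ ≠ 0 →
    (∀ m : ℕ, ¬ Par ((ev (polyMap (Polynomial.X ^ d₁ + Polynomial.C c₁)))^[m] α₁) ![β₁, 1]) →
    (∀ m : ℕ, ¬ Par ((ev (polyMap (Polynomial.X ^ d₂ + Polynomial.C c₂)))^[m] α₂) ![β₂, 1]) →
    PosDens (Avoid (polyMap (Polynomial.X ^ d₁ + Polynomial.C c₁)) α₁ ![β₁, 1] ∩
      Avoid (polyMap (Polynomial.X ^ d₂ + Polynomial.C c₂)) α₂ ![β₂, 1])

end Pool.Agent.T4h89.OM
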