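import Pool.Agent.T4h89.OM.Stm5

/-!
# Several orbits avoiding several points modulo primes: one arbitrary target, the others almost all
-/

set_option autoImplicit false

open NumberField IsDedekindDomain Filter Topology

noncomputable section

namespace Pool.Agent.T4h89.OM

open Pool.Agent.K3h30.RS (PosProportion)

/-- DEG1: a set of prime ideals of positive proportion contains infinitely many of prime norm. Proof: if `v` is not of
prime norm and lies over `p`, then `p ^ 2 ≤ N v`, and at most `[K : ℚ]` prime ideals lie over `p`; so at most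
`[K : ℚ] √X` prime ideals of norm `≤ X` are not of prime norm, and `c π(X)` is larger than `[K : ℚ] √X + #bad` for
large `X` (`π(X) / √X → ∞`, e.g. from the lower bound of Chebyshev). -/
def S_DEG1 : Prop :=
  ∀ (K : Type) [Field K] [NumberField K] (P : HeightOneSpectrum (𝓞 K) → Prop), PosProportion P →
    ∀ bad : Finset (HeightOneSpectrum (𝓞 K)), ∃ v ∉ bad, P v ∧ (Ideal.absNorm v.asIdeal).Prime

/-- ONE: let `ζ ∈ K` be a primitive root of unity of order `D` and `v` a prime ideal of `K` of prime norm `p` prime to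
`D`. Then `p ≡ 1` modulo `D`, and `Cong` over `ℚ` modulo `p` implies `Cong` over `K` modulo `v`. Proof: the residue field
has `p` elements and the reduction of `ζ` has order `D` (`X ^ D - 1` is separable modulo `v`), so `D ∣ p - 1`. The
valuation of `v` on `ℚ` : for rational `r`, `vp p` valuation `≤ 1` implies `v`-valuation `≤ 1`, and `< 1` implies `< 1`,
`= 1` implies `= 1` (write `r = s / t` with `t` prime to `p`; `p ∈ v`; integers prime to `p` are not in `v`). -/
def S_ONE : Prop :=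
  ∀ (K : Type) [Field K] [NumberField K] (D : ℕ) (ζ : K), IsPrimitiveRoot ζ D →
    ∀ (v : HeightOneSpectrum (𝓞 K)) (p : ℕ) [Fact p.Prime], Ideal.absNorm v.asIdeal = p →
      D.Coprime p → p % D = 1 % D ∧ ∀ (n : ℕ) (x y : Fin n → ℚ), Cong (MAIN3.vp p) x y →
        Cong v (fun i => algebraMap ℚ K (x i)) (fun i => algebraMap ℚ K (y i))

/-- INFP: a rational number `β` which is not periodic for `f` is not periodic modulo infinitely many primes `p ≡ 1`
modulo `D`. Proof: over `K = ℚ(ζ_D)` (`CyclotomicField D ℚ`): `β` is not periodic modulo infinitely many prime ideals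
`v` (S_UEQ if the orbit is infinite; trivial if it is finite), so by the criterion S_MCOR (for one map, with the
starting point `f(β)`) for a positive proportion of `v`; use S_DEG1 and S_ONE. -/
def S_INFP : Prop :=
  ∀ f : Polynomial ℚ, 2 ≤ f.natDegree → ∀ β : ℚ, (∀ m : ℕ, 1 ≤ m → (fun x => f.eval x)^[m] β ≠ β) →
    ∀ D : ℕ, 1 ≤ D → ∀ N : ℕ, ∃ p : ℕ, ∃ _ : Fact p.Prime, N ≤ p ∧ p % D = 1 % D ∧
      ∀ m : ℕ, 1 ≤ m → ¬ Cong (MAIN3.vp p) ((ev (polyMap f))^[m] ![β, 1]) ![β, 1]

/-- **Result A2** (MP_7b3af4_nt): one arbitrary target which is not periodic, the others almost all. Proof: as S_RESA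
with `P` the set of the primes `p ≡ 1` modulo `D = ∏ deg f_i`, larger than the bounds of S_PRED for `f₀` and all `f_i`,
modulo which `β₀` is not periodic (infinite by S_INFP); S_MONE for the `g + 1` maps `Fin.cons f₀ f`. -/
def S_RESA2 : Prop :=
  ∀ (g : ℕ) (f₀ : Polynomial ℚ) (f : Fin g → Polynomial ℚ), 2 ≤ f₀.natDegree →
    (∀ i, 2 ≤ (f i).natDegree) → ∀ β₀ : ℚ, (∀ m : ℕ, 1 ≤ m → (fun x => f₀.eval x)^[m] β₀ ≠ β₀) →
    Tendsto (fun B : ℕ => (Nat.card {b : Fin g → ℤ // (∀ i, |b i| ≤ B) ∧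
      ∀ (α₀ : Fin 2 → ℚ) (α : Fin g → Fin 2 → ℚ), α₀ ≠ 0 → (∀ i, α i ≠ 0) →
        (∀ m : ℕ, ¬ Par ((ev (polyMap f₀))^[m] α₀) ![β₀, 1]) →
        (∀ i (m : ℕ), ¬ Par ((ev (polyMap (f i)))^[m] (α i)) ![(b i : ℚ), 1]) →
        PosDens {v : HeightOneSpectrum (𝓞 ℚ) | v ∈ Avoid (polyMap f₀) α₀ ![β₀, 1] ∧
          ∀ i, v ∈ Avoid (polyMap (f i)) (α i) ![(b i : ℚ), 1]}} : ℝ) / (2 * B + 1 : ℝ) ^ g)
      atTop (𝓝 1)

/-- **Result B2** (MP_63749c_nt): a polynomial `f` over `ℚ`, one arbitrary rational number `γ` which is not periodic and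
100 percent of the integral vectors `b`: a positive density of the primes `p` has the property that neither `γ`
nor any of the `b_i` is periodic modulo `p`. -/
def S_RESB2 : Prop :=
  ∀ (g : ℕ) (f : Polynomial ℚ), 2 ≤ f.natDegree →
    ∀ γ : ℚ, (∀ m : ℕ, 1 ≤ m → (fun x => f.eval x)^[m] γ ≠ γ) →
    Tendsto (fun B : ℕ => (Nat.card {b : Fin g → ℤ // (∀ i, |b i| ≤ B) ∧
      PosDens {v : HeightOneSpectrum (𝓞 ℚ) | ∀ m : ℕ, 1 ≤ m →
        ¬ Cong v ((ev (polyMap f))^[m] ![γ, 1]) ![γ, 1] ∧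
        ∀ i : Fin g, ¬ Cong v ((ev (polyMap f))^[m] ![(b i : ℚ), 1]) ![(b i : ℚ), 1]}} : ℝ) /
          (2 * B + 1 : ℝ) ^ g)
      atTop (𝓝 1)

end Pool.Agent.T4h89.OM
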