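import Pool.Agent.T4h89.OM.Stm

/-! Project OM, task FIN: homogeneous polynomial maps without nontrivial zero have finite fibres. -/

set_option autoImplicit false
set_option linter.all false

namespace Pool.Agent.T4h89.OM.FINx

open MvPolynomial Pool.Agent.T4h89.OM

section

variable {Ω : Type} [Field Ω] {n : ℕ}

attribute [local instance] MvPolynomial.gradedAlgebra in
theorem hc_mul {N d : ℕ} (p F : MvPolynomial (Fin n) Ω) (hF : F.IsHomogeneous d) (h : d ≤ N) :
    homogeneousComponent N (p * F) = homogeneousComponent (N - d) p * F := by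
  have h1 := DirectSum.coe_decompose_mul_of_right_mem_of_le
    (𝒜 := homogeneousSubmodule (Fin n) Ω) (a := p) (b := F) (i := d) (n := N) hF h
  have h2 := decomposition.decompose'_apply (R := Ω) (σ := Fin n) (p * F) N
  have h3 := decomposition.decompose'_apply (R := Ω) (σ := Fin n) p (N - d)
  rw [← h2, ← h3]
  exact h1

/-- monomials of large degree are in an ideal which contains powers of the variables -/
theorem mono_mem {I : Ideal (MvPolynomial (Fin n) Ω)} {r : ℕ} (hr : ∀ i, (X i : MvPolynomial (Fin n) Ω) ^ r ∈ I)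
    (m : Fin n →₀ ℕ) (hm : n * r + 1 ≤ m.degree) (c : Ω) : monomial m c ∈ I := by
  have h1 : ∃ i, r ≤ m i := by
    by_contra hc
    push Not at hc
    have h2 : m.degree ≤ ∑ i : Fin n, r := by
      rw [Finsupp.degree_eq_sum]
      exact Finset.sum_le_sum fun i _ => (hc i).le
    simp at h2
    omega
  obtain ⟨i, hi⟩ := h1
  have h3 : m = (m - Finsupp.single i r) + Finsupp.single i r := by
    rw [tsub_add_cancel_of_le]
    rw [Finsupp.single_le_iff]
    exact hi
  have h4 : (monomial m c : MvPolynomial (Fin n) Ω) =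
      monomial (m - Finsupp.single i r) c * X i ^ r := by
    rw [X_pow_eq_monomial, monomial_mul, mul_one, ← h3]
  rw [h4]
  exact I.mul_mem_left _ (hr i)

theorem homog_mem {I : Ideal (MvPolynomial (Fin n) Ω)} {r : ℕ} (hr : ∀ i, (X i : MvPolynomial (Fin n) Ω) ^ r ∈ I)
    {N : ℕ} (hN : n * r + 1 ≤ N) {p : MvPolynomial (Fin n) Ω} (hp : p.IsHomogeneous N) : p ∈ I := by
  rw [p.as_sum]
  refine I.sum_mem fun m hm => ?_
  apply mono_mem hr
  have h1 : m.degree = N := by
    by_contra hc
    exact (mem_support_iff.1 hm) (hp.coeff_eq_zero hc)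
  omega

/-- polynomials of small degree -/
noncomputable def VV (Ω : Type) [Field Ω] (n D : ℕ) : Submodule Ω (MvPolynomial (Fin n) Ω) :=
  Submodule.span Ω ((fun m : Fin n →₀ ℕ => (monomial m (1 : Ω) : MvPolynomial (Fin n) Ω)) ''
    {m | m.degree < D})

theorem VV_fg (D : ℕ) : (VV Ω n D).FG := by
  apply Submodule.fg_span
  apply Set.Finite.image
  refine (Set.finite_Iic (Finsupp.equivFunOnFinite.symm fun _ : Fin n => D)).subset ?_
  intro m hm
  rw [Set.mem_Iic]
  intro i
  have h1 : m i ≤ m.degree := Finsupp.le_degree i m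
  have h2 : m.degree < D := hm
  change m i ≤ D
  omega

theorem homog_VV {D N : ℕ} (hN : N < D) {p : MvPolynomial (Fin n) Ω} (hp : p.IsHomogeneous N) :
    p ∈ VV Ω n D := by
  rw [p.as_sum]
  refine Submodule.sum_mem _ fun m hm => ?_
  have h1 : m.degree = N := by
    by_contra hc
    exact (mem_support_iff.1 hm) (hp.coeff_eq_zero hc)
  have h2 : (monomial m (coeff m p) : MvPolynomial (Fin n) Ω) = coeff m p • monomial m 1 := by
    rw [smul_monomial, smul_eq_mul, mul_one]
  rw [h2]
  exact Submodule.smul_mem _ _ (Submodule.subset_span ⟨m, by change m.degree < D; omega, rfl⟩)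

theorem homog_red {d r : ℕ} (hd : 1 ≤ d) {F : Fin n → MvPolynomial (Fin n) Ω}
    (hF : ∀ i, (F i).IsHomogeneous d) (w : Fin n → Ω)
    (hr : ∀ i, (X i : MvPolynomial (Fin n) Ω) ^ r ∈ Ideal.span (Set.range F)) :
    ∀ (N : ℕ) (p : MvPolynomial (Fin n) Ω), p.IsHomogeneous N →
      p ∈ (Ideal.span (Set.range fun i => F i - C (w i))).restrictScalars Ω ⊔
        VV Ω n (n * r + 1 + d) := by
  intro N
  induction N using Nat.strong_induction_on with
  | _ N ih =>
    intro p hp
    by_cases hN : N < n * r + 1 + d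
    · exact Submodule.mem_sup_right (homog_VV hN hp)
    · have h1 : p ∈ Ideal.span (Set.range F) := homog_mem hr (by omega) hp
      obtain ⟨H, hH⟩ := (Ideal.mem_span_range_iff_exists_fun).1 h1
      have h2 : p = ∑ j, homogeneousComponent (N - d) (H j) * F j := by
        have h3 := congrArg (homogeneousComponent N) hH
        rw [map_sum, homogeneousComponent_of_mem (m := N) (n := N) hp, if_pos rfl] at h3
        rw [← h3]
        refine Finset.sum_congr rfl fun j _ => ?_
        exact hc_mul _ _ (hF j) (by omega)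
      have h4 : p = ∑ j, homogeneousComponent (N - d) (H j) * (F j - C (w j)) +
          ∑ j, w j • homogeneousComponent (N - d) (H j) := by
        rw [← Finset.sum_add_distrib]
        conv_lhs => rw [h2]
        refine Finset.sum_congr rfl fun j _ => ?_
        rw [smul_eq_C_mul]
        ring
      rw [h4]
      refine Submodule.add_mem _ (Submodule.mem_sup_left ?_) ?_
      · rw [Submodule.restrictScalars_mem]
        exact Ideal.sum_mem _ fun j _ => Ideal.mul_mem_left _ _ (Ideal.subset_span ⟨j, rfl⟩)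
      · refine Submodule.sum_mem _ fun j _ => Submodule.smul_mem _ _ ?_
        exact ih (N - d) (by omega) _ (homogeneousComponent_isHomogeneous _ _)

theorem all_red {d r : ℕ} (hd : 1 ≤ d) {F : Fin n → MvPolynomial (Fin n) Ω}
    (hF : ∀ i, (F i).IsHomogeneous d) (w : Fin n → Ω)
    (hr : ∀ i, (X i : MvPolynomial (Fin n) Ω) ^ r ∈ Ideal.span (Set.range F))
    (p : MvPolynomial (Fin n) Ω) :
    p ∈ (Ideal.span (Set.range fun i => F i - C (w i))).restrictScalars Ω ⊔
        VV Ω n (n * r + 1 + d) := by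
  rw [← sum_homogeneousComponent p]
  exact Submodule.sum_mem _ fun N _ => homog_red hd hF w hr N _
    (homogeneousComponent_isHomogeneous _ _)

theorem fin_quot {d r : ℕ} (hd : 1 ≤ d) {F : Fin n → MvPolynomial (Fin n) Ω}
    (hF : ∀ i, (F i).IsHomogeneous d) (w : Fin n → Ω)
    (hr : ∀ i, (X i : MvPolynomial (Fin n) Ω) ^ r ∈ Ideal.span (Set.range F)) :
    Module.Finite Ω (MvPolynomial (Fin n) Ω ⧸ Ideal.span (Set.range fun i => F i - C (w i))) := by
  set I := Ideal.span (Set.range fun i => F i - C (w i)) with hI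
  have h1 : (VV Ω n (n * r + 1 + d)).map (Ideal.Quotient.mkₐ Ω I).toLinearMap = ⊤ := by
    rw [eq_top_iff]
    intro y _
    obtain ⟨p, rfl⟩ := Ideal.Quotient.mk_surjective y
    obtain ⟨a, ha, b, hb, hab⟩ := Submodule.mem_sup.1 (all_red hd hF w hr p)
    refine ⟨b, hb, ?_⟩
    rw [← hab]
    change Ideal.Quotient.mk I b = Ideal.Quotient.mk I (a + b)
    rw [map_add, Ideal.Quotient.eq_zero_iff_mem.2 ha, zero_add]
  exact ⟨h1 ▸ (VV_fg _).map _⟩

end

theorem t_FIN : S_FIN := by
  classical
  intro Ω _ _ n d hd F hF hz w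
  -- powers of the variables
  have h1 : ∀ i, ∃ r : ℕ, (X i : MvPolynomial (Fin n) Ω) ^ r ∈ Ideal.span (Set.range F) := by
    intro i
    have h2 : (X i : MvPolynomial (Fin n) Ω) ∈ (Ideal.span (Set.range F)).radical := by
      rw [← vanishingIdeal_zeroLocus_eq_radical (K := Ω), mem_vanishingIdeal_iff]
      intro x hx
      have h3 : x = 0 := by
        apply hz
        funext j
        have := hx (F j) (Ideal.subset_span ⟨j, rfl⟩)
        change eval x (F j) = 0
        rw [← coe_aeval_eq_eval]
        exact this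
      rw [h3, aeval_X]
      rfl
    exact h2
  choose r hr using h1
  have h2 : ∀ i, (X i : MvPolynomial (Fin n) Ω) ^ (∑ j, r j) ∈ Ideal.span (Set.range F) := by
    intro i
    have h3 : ∑ j, r j = (∑ j, r j - r i) + r i := by
      have := Finset.single_le_sum (f := r) (fun _ _ => Nat.zero_le _) (Finset.mem_univ i)
      omega
    rw [h3, pow_add]
    exact Ideal.mul_mem_left _ _ (hr i)
  haveI := fin_quot hd hF w h2
  set I := Ideal.span (Set.range fun i => F i - C (w i)) with hI
  have h4 : ∀ i, ∃ p : Polynomial Ω, p.Monic ∧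
      Polynomial.aeval (Ideal.Quotient.mk I (X i)) p = 0 := by
    intro i
    obtain ⟨p, hp, hp2⟩ := IsIntegral.of_finite Ω (Ideal.Quotient.mk I (X i))
    exact ⟨p, hp, hp2⟩
  choose p hp hp2 using h4
  refine Set.Finite.subset (Set.Finite.pi' fun i => ((p i).roots.toFinset.finite_toSet)) ?_
  intro x hx
  have hx' : ev F x = w := hx
  have h5 : ∀ a ∈ I, aeval x a = 0 := by
    intro a ha
    have : I ≤ RingHom.ker (aeval x : MvPolynomial (Fin n) Ω →ₐ[Ω] Ω) := by
      rw [hI, Ideal.span_le]
      rintro _ ⟨j, rfl⟩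
      change aeval x (F j - C (w j)) = 0
      rw [map_sub, aeval_C, ← congrFun hx' j]
      change _ - ev F x j = 0
      unfold ev
      rw [← coe_aeval_eq_eval]
      simp
    exact this ha
  intro i
  change x i ∈ ((p i).roots.toFinset : Set Ω)
  rw [Finset.mem_coe, Multiset.mem_toFinset, Polynomial.mem_roots (hp i).ne_zero,
    Polynomial.IsRoot.def]
  have h6 := congrArg (Ideal.Quotient.liftₐ I (aeval x) h5) (hp2 i)
  rw [map_zero, ← Polynomial.aeval_algHom_apply] at h6
  have h7 : (Ideal.Quotient.liftₐ I (aeval x) h5) (Ideal.Quotient.mk I (X i)) = x i := by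
    change aeval x (X i) = x i
    rw [aeval_X]
  rw [h7] at h6
  rwa [Polynomial.coe_aeval_eq_eval] at h6

end Pool.Agent.T4h89.OM.FINx

namespace Pool.Agent.T4h89.OM

theorem t_FIN : S_FIN := FINx.t_FIN

end Pool.Agent.T4h89.OM
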