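import Pool.Agent.T4h89.OM.Stm4

/-!
# JTR (helper75): transitivity on the fibre
-/

set_option autoImplicit false

open NumberField

noncomputable section

namespace Pool.Agent.T4h89.OM

namespace JTRaux

theorem algE : (DivisionRing.toRatAlgebra : Algebra ℚ (AlgebraicClosure ℚ)) =
    AlgebraicClosure.instAlgebra ℚ := Subsingleton.elim _ _

instance isAlg : Algebra.IsAlgebraic ℚ (AlgebraicClosure ℚ) := by
  rw [algE]; exact AlgebraicClosure.isAlgebraic ℚ

instance isAC : IsAlgClosure ℚ (AlgebraicClosure ℚ) := ⟨inferInstance, isAlg⟩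

instance isNormal : Normal ℚ (AlgebraicClosure ℚ) := IsAlgClosure.normal ℚ (AlgebraicClosure ℚ)

theorem ext_aut (E : IntermediateField ℚ (AlgebraicClosure ℚ)) (τ : E →ₐ[ℚ] AlgebraicClosure ℚ) :
    ∃ σ : AlgebraicClosure ℚ ≃ₐ[ℚ] AlgebraicClosure ℚ, ∀ e : E, σ (e : AlgebraicClosure ℚ) = τ e := by
  let φ : AlgebraicClosure ℚ →ₐ[ℚ] AlgebraicClosure ℚ := τ.liftNormal (AlgebraicClosure ℚ)
  have hφ : ∀ e : E, φ (e : AlgebraicClosure ℚ) = τ e := fun e =>
    τ.liftNormal_commutes (AlgebraicClosure ℚ) e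
  exact ⟨AlgEquiv.ofBijective φ (Algebra.IsAlgebraic.algHom_bijective φ), hφ⟩

theorem core (n M : ℕ) (F : Fin n → MvPolynomial (Fin n) ℚ) (y : Fin n → ℚ)
    (h1 : ∀ S : Finset (Fin n → AlgebraicClosure ℚ),
      (∀ x ∈ S, ∀ i, MvPolynomial.aeval x (F i) = algebraMap ℚ (AlgebraicClosure ℚ) (y i)) →
      S.card ≤ M)
    (h2 : ∀ (K : Type) [Field K] [NumberField K] (x : Fin n → K),
      (∀ i, MvPolynomial.aeval x (F i) = algebraMap ℚ K (y i)) → M ≤ Module.finrank ℚ K)
    (x : Fin n → AlgebraicClosure ℚ)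
    (hx : ∀ i, MvPolynomial.aeval x (F i) = algebraMap ℚ (AlgebraicClosure ℚ) (y i)) :
    ∃ S : Finset (Fin n → AlgebraicClosure ℚ), S.card = M ∧
      (∀ x' ∈ S, ∀ i, MvPolynomial.aeval x' (F i) = algebraMap ℚ (AlgebraicClosure ℚ) (y i)) ∧
      ∀ x' ∈ S, ∃ σ : AlgebraicClosure ℚ ≃ₐ[ℚ] AlgebraicClosure ℚ, ∀ i, σ (x i) = x' i := by
  classical
  let E : IntermediateField ℚ (AlgebraicClosure ℚ) := IntermediateField.adjoin ℚ (Set.range x)
  have : Finite (Set.range x) := Set.finite_range x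
  have hfd : FiniteDimensional ℚ E := IntermediateField.finiteDimensional_adjoin fun z _ =>
    (Algebra.IsAlgebraic.isAlgebraic z).isIntegral
  have : NumberField E := { to_charZero := inferInstance, to_finiteDimensional := hfd }
  have hm : ∀ i, x i ∈ E := fun i => IntermediateField.subset_adjoin _ _ ⟨i, rfl⟩
  let x0 : Fin n → E := fun i => ⟨x i, hm i⟩
  have hx0 : ∀ i, MvPolynomial.aeval x0 (F i) = algebraMap ℚ E (y i) := fun i => by
    have e := hx i
    rw [MvPolynomial.aeval_def] at e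
    have e2 : (E.val : E →+* AlgebraicClosure ℚ) (MvPolynomial.aeval x0 (F i)) =
        MvPolynomial.eval₂ (algebraMap ℚ (AlgebraicClosure ℚ)) x (F i) := by
      rw [MvPolynomial.aeval_def, MvPolynomial.hom_eval₂]
      congr 1
    have e3 : (E.val : E →+* AlgebraicClosure ℚ) (algebraMap ℚ E (y i)) =
        algebraMap ℚ (AlgebraicClosure ℚ) (y i) :=
      RingHom.congr_fun (RingHom.ext_rat ((E.val : E →+* AlgebraicClosure ℚ).comp (algebraMap ℚ E))
        (algebraMap ℚ (AlgebraicClosure ℚ))) (y i)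
    exact (E.val : E →+* AlgebraicClosure ℚ).injective (e2.trans (e.trans e3.symm))
  have hM := h2 E x0 hx0
  let f : (E →ₐ[ℚ] AlgebraicClosure ℚ) → (Fin n → AlgebraicClosure ℚ) := fun τ i => τ (x0 i)
  have hf : Function.Injective f := fun τ τ' h => by
    refine IntermediateField.algHom_ext_of_eq_adjoin (F := ℚ) (S := E) (s := Set.range x) rfl ?_
    rintro _ ⟨i, rfl⟩
    exact congrFun h i
  let S := Finset.univ.image f
  have hS : ∀ x' ∈ S, ∀ i, MvPolynomial.aeval x' (F i) = algebraMap ℚ (AlgebraicClosure ℚ) (y i) := by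
    intro x' hx' i
    obtain ⟨τ, -, rfl⟩ := Finset.mem_image.1 hx'
    have e := congrArg (τ : E →+* AlgebraicClosure ℚ) (hx0 i)
    rw [MvPolynomial.aeval_def, MvPolynomial.hom_eval₂] at e
    rw [MvPolynomial.aeval_def]
    refine Eq.trans ?_ (e.trans ?_)
    · congr 1
      exact RingHom.ext_rat _ _
    · exact RingHom.congr_fun (RingHom.ext_rat ((τ : E →+* AlgebraicClosure ℚ).comp (algebraMap ℚ E))
        (algebraMap ℚ (AlgebraicClosure ℚ))) (y i)
  have hc : S.card = Module.finrank ℚ E := by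
    rw [Finset.card_image_of_injective _ hf, Finset.card_univ]
    exact AlgHom.card ℚ E (AlgebraicClosure ℚ)
  refine ⟨S, le_antisymm (h1 S hS) (hc ▸ hM), hS, fun x' hx' => ?_⟩
  obtain ⟨τ, -, rfl⟩ := Finset.mem_image.1 hx'
  obtain ⟨σ, hσ⟩ := ext_aut E τ
  exact ⟨σ, fun i => hσ (x0 i)⟩

end JTRaux

theorem t_JTR : S_JTR := by
  classical
  intro n M F y h1 h2
  refine ⟨fun x x' hx hx' => ?_, fun x hx => ?_⟩
  · obtain ⟨S, hS, hS1, hS2⟩ := JTRaux.core n M F y h1 h2 x hx
    refine hS2 x' (by_contra fun hn => ?_)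
    have := h1 (insert x' S) fun z hz => by
      rcases Finset.mem_insert.1 hz with rfl | hz
      · exact hx'
      · exact hS1 z hz
    rw [Finset.card_insert_of_notMem hn, hS] at this
    omega
  · obtain ⟨S, hS, hS1, -⟩ := JTRaux.core n M F y h1 h2 x hx
    exact ⟨S, hS, hS1⟩

end Pool.Agent.T4h89.OM
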