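import Pool.Agent.T4h89.OM.Stm5
import Pool.Agent.T4h89.OM.T_CORE

/-! OM: the criterion for several maps, integral form. -/

set_option autoImplicit false

open NumberField IsDedekindDomain Filter

noncomputable section

namespace Pool.Agent.T4h89.OM

open Pool.Agent.K3h30.RS (PosProportion)

namespace MCOR

variable {K : Type} [Field K] [NumberField K]

/-- a vector fixed by the Frobenius automorphism up to proportionality does not enter `C` late -/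
lemma claimB (hENT : S_ENT) {n d : ℕ} (hd : 1 ≤ d)
    (F : Fin n → MvPolynomial (Fin n) (𝓞 K)) (hF : ∀ i, (F i).IsHomogeneous d)
    (C : Finset (Fin n → 𝓞 K)) (v₀ : HeightOneSpectrum (𝓞 K))
    (hv₀ : ∀ Q : Ideal (𝓞 (AlgebraicClosure K)), Q.IsMaximal →
      Q.comap (algebraMap (𝓞 K) (𝓞 (AlgebraicClosure K))) = v₀.asIdeal →
      (∀ z : Fin n → 𝓞 (AlgebraicClosure K),
        (∀ i, ev (mapF (algebraMap (𝓞 K) (𝓞 (AlgebraicClosure K))) F) z i ∈ Q) → ∀ i, z i ∈ Q) ∧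
      ∀ a : Fin n → 𝓞 (AlgebraicClosure K), (∃ i, a i ∉ Q) → ∀ M : ℕ,
        (∃ c ∈ C, Par ((ev (mapF (algebraMap (𝓞 K) (𝓞 (AlgebraicClosure K))) F))^[M + 1] a)
          (algebraMap (𝓞 K) (𝓞 (AlgebraicClosure K)) ∘ c)) →
        (∀ c ∈ C, ¬ Par ((ev (mapF (algebraMap (𝓞 K) (𝓞 (AlgebraicClosure K))) F))^[M] a)
          (algebraMap (𝓞 K) (𝓞 (AlgebraicClosure K)) ∘ c)) →
        ∀ j ≤ M, ∀ c ∈ C, ¬ ParMod Q
          ((ev (mapF (algebraMap (𝓞 K) (𝓞 (AlgebraicClosure K))) F))^[j] a)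
          (algebraMap (𝓞 K) (𝓞 (AlgebraicClosure K)) ∘ c))
    (h0 : ∀ x : Fin n → 𝓞 (AlgebraicClosure K),
      ev (mapF (algebraMap (𝓞 K) (𝓞 (AlgebraicClosure K))) F) x = 0 → x = 0)
    (L : IntermediateField K (AlgebraicClosure K)) (σ : L ≃ₐ[K] L)
    (Q : Ideal (𝓞 (AlgebraicClosure K))) (hQ : Q.IsMaximal)
    (hQv : Q.comap (algebraMap (𝓞 K) (𝓞 (AlgebraicClosure K))) = v₀.asIdeal)
    (hfrb : ∀ (n : ℕ) (t : Fin n → L), t ≠ 0 → Par (fun i => σ (t i)) t →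
        ∃ a y : Fin n → 𝓞 (AlgebraicClosure K),
          Par (fun i => ((a i : 𝓞 (AlgebraicClosure K)) : AlgebraicClosure K))
            (fun i => ((t i : L) : AlgebraicClosure K)) ∧
          (∃ i, a i ∉ Q) ∧ (∃ i, y i ∉ Q) ∧ ParMod Q a y ∧
          ∀ i, y i ^ (Ideal.absNorm v₀.asIdeal) - y i ∈ Q) :
    ∀ (t : Fin n → 𝓞 (AlgebraicClosure K)) (tL : Fin n → L),
      (∀ i, (tL i : AlgebraicClosure K) = t i) → t ≠ 0 → ∀ M : ℕ, Ideal.absNorm v₀.asIdeal ^ n ≤ M + 1 →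
      (∃ c ∈ C, Par ((ev (mapF (algebraMap (𝓞 K) (𝓞 (AlgebraicClosure K))) F))^[M + 1] t)
          (algebraMap (𝓞 K) (𝓞 (AlgebraicClosure K)) ∘ c)) →
      (∀ c ∈ C, ¬ Par ((ev (mapF (algebraMap (𝓞 K) (𝓞 (AlgebraicClosure K))) F))^[M] t)
          (algebraMap (𝓞 K) (𝓞 (AlgebraicClosure K)) ∘ c)) →
      ¬ Par (fun i => σ (tL i)) tL := by
  intro t tL htL ht0 M hM hent hnent hpar
  have htL0 : tL ≠ 0 := by
    intro h
    apply ht0
    funext i
    apply RingOfIntegers.coe_injective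
    have h1 : (tL i : AlgebraicClosure K) =
        algebraMap (𝓞 (AlgebraicClosure K)) (AlgebraicClosure K) (t i) := htL i
    rw [h] at h1
    rw [← h1]
    simp
  obtain ⟨a, y, ha, ha0, hy0, hay, hyq⟩ := hfrb n tL htL0 hpar
  obtain ⟨ι, hι⟩ : ∃ ι : 𝓞 K →+* 𝓞 (AlgebraicClosure K),
      ι = algebraMap (𝓞 K) (𝓞 (AlgebraicClosure K)) := ⟨_, rfl⟩
  rw [← hι] at hv₀ h0 hent hnent
  obtain ⟨FO, hFO⟩ : ∃ FO, FO = mapF ι F := ⟨_, rfl⟩
  have hFOh : ∀ i, (FO i).IsHomogeneous d := by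
    rw [hFO]
    exact hom_mapF ι hF
  rw [← hFO] at hv₀ h0 hent hnent
  -- `a` is proportional to `t`
  have hat : Par a t := by
    apply par_of_map (algebraMap (𝓞 (AlgebraicClosure K)) (AlgebraicClosure K))
      RingOfIntegers.coe_injective
    have e1 : (fun i => ((tL i : L) : AlgebraicClosure K)) =
        (algebraMap (𝓞 (AlgebraicClosure K)) (AlgebraicClosure K)) ∘ t := by
      funext i
      exact htL i
    rw [← e1]
    exact ha
  have ha00 : a ≠ 0 := by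
    intro h
    obtain ⟨i, hi⟩ := ha0
    apply hi
    rw [h]
    exact Q.zero_mem
  obtain ⟨hgood, hsep⟩ := hv₀ Q hQ (hι ▸ hQv)
  have hent' : ∃ c ∈ C, Par ((ev FO)^[M + 1] a) (ι ∘ c) := by
    obtain ⟨c, hc, hcp⟩ := hent
    exact ⟨c, hc, (hat.iter hd hFOh (M + 1)).trans hcp (iter_ne_zero h0 ht0 _)⟩
  have hnent' : ∀ c ∈ C, ¬ Par ((ev FO)^[M] a) (ι ∘ c) := by
    intro c hc hcp
    exact hnent c hc ((hat.symm.iter hd hFOh M).trans hcp (iter_ne_zero h0 ha00 _))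
  have hno := hsep a ha0 M hent' hnent'
  -- the residue field
  let _ : Field (𝓞 (AlgebraicClosure K) ⧸ Q) := Ideal.Quotient.field Q
  obtain ⟨φ, hφ⟩ : ∃ φ : 𝓞 (AlgebraicClosure K) →+* (𝓞 (AlgebraicClosure K) ⧸ Q),
      φ = Ideal.Quotient.mk Q := ⟨_, rfl⟩
  have hφQ : ∀ x, φ x = 0 ↔ x ∈ Q := fun x => by rw [hφ, Ideal.Quotient.eq_zero_iff_mem]
  have hker : RingHom.ker φ = Q := by rw [hφ, Ideal.mk_ker]
  have hsurj : Function.Surjective φ := by rw [hφ]; exact Ideal.Quotient.mk_surjective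
  have hkerι : RingHom.ker (φ.comp ι) = v₀.asIdeal := by rw [hφ, hι]; exact ker_comp v₀ Q hQv
  obtain ⟨fr, hfr, hfix, hq2⟩ := frob_hom v₀ (φ.comp ι) hkerι
  obtain ⟨q, hq⟩ : ∃ q, q = Ideal.absNorm v₀.asIdeal := ⟨_, rfl⟩
  rw [← hq] at hM hyq hfr hfix hq2
  have hcomp : mapF φ FO = mapF (φ.comp ι) F := by rw [hFO, mapF_mapF]
  have hgk : ∀ z : Fin n → (𝓞 (AlgebraicClosure K) ⧸ Q), ev (mapF φ FO) z = 0 → z = 0 := by
    intro z hz
    obtain ⟨w, hw⟩ := hsurj.comp_left z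
    change φ ∘ w = z at hw
    rw [← hw, ev_mapF] at hz
    have h1 := hgood w (fun i => (hφQ _).1 (congrFun hz i))
    rw [← hw]
    funext i
    exact (hφQ _).2 (h1 i)
  have hkh : ∀ i, (mapF φ FO i).IsHomogeneous d := hom_mapF φ hFOh
  have hka : φ ∘ a ≠ 0 := by
    intro h
    obtain ⟨i, hi⟩ := ha0
    exact hi ((hφQ _).1 (congrFun h i))
  have hky : φ ∘ y ≠ 0 := by
    intro h
    obtain ⟨i, hi⟩ := hy0
    exact hi ((hφQ _).1 (congrFun h i))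
  have hay' : Par (φ ∘ a) (φ ∘ y) := by
    rw [par_map_iff, hker]
    exact hay
  have hyq' : ∀ i, (φ ∘ y) i ^ q = (φ ∘ y) i := by
    intro i
    have h1 := (hφQ _).2 (hyq i)
    rw [map_sub, map_pow, sub_eq_zero] at h1
    exact h1
  obtain ⟨hfinV, hcardV⟩ := fixed_finite (n := n) (𝓞 (AlgebraicClosure K) ⧸ Q) q hq2
  let g : {z : Fin n → (𝓞 (AlgebraicClosure K) ⧸ Q) // z ≠ 0 ∧ ∀ i, z i ^ q = z i} →
      {z : Fin n → (𝓞 (AlgebraicClosure K) ⧸ Q) // z ≠ 0 ∧ ∀ i, z i ^ q = z i} := fun z =>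
    ⟨ev (mapF φ FO) z.1, fun h => z.2.1 (hgk _ h), by
      rw [hcomp]
      exact ev_fixed (φ.comp ι) fr hfr hfix F z.1 z.2.2⟩
  have hgit : ∀ (j : ℕ) z, (g^[j] z).1 = (ev (mapF φ FO))^[j] z.1 := by
    intro j z
    induction j with
    | zero => rfl
    | succ j ih =>
      rw [Function.iterate_succ_apply', Function.iterate_succ_apply', ← ih]
  obtain ⟨c, hc, hcp⟩ := hent'
  have hMM : (ev (mapF φ FO))^[M + 1] (φ ∘ a) ≠ 0 := iter_ne_zero hgk hka _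
  obtain ⟨j, hj, c', hc', hjc⟩ := hENT _ g {z | ∃ c ∈ C, Par z.1 (φ ∘ (ι ∘ c))} ⟨φ ∘ y, hky, hyq'⟩ (M + 1)
    (hcardV.trans hM) (by
      refine ⟨c, hc, ?_⟩
      rw [hgit]
      refine (hay'.symm.iter hd hkh (M + 1)).trans ?_ hMM
      rw [ev_mapF_iter]
      exact hcp.map φ)
  rw [hgit] at hjc
  refine hno j (by omega) c' hc' ?_
  rw [← hker, ← par_map_iff, ← ev_mapF_iter]
  refine (hay'.iter hd hkh j).trans hjc (iter_ne_zero hgk hky _)


/-- the separation condition for one target which is not periodic modulo `v₀` -/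
lemma crit_sep {n d : ℕ} (hd : 1 ≤ d) (F : Fin n → MvPolynomial (Fin n) (𝓞 K))
    (hF : ∀ i, (F i).IsHomogeneous d) (γ₂ : Fin n → 𝓞 K) (v₀ : HeightOneSpectrum (𝓞 K))
    (hgood : GoodQ F v₀) (hγ₂v : ∃ i, γ₂ i ∉ v₀.asIdeal)
    (hper : ∀ m : ℕ, 1 ≤ m → ¬ ParMod v₀.asIdeal ((ev F)^[m] γ₂) γ₂) :
    ∀ Q : Ideal (𝓞 (AlgebraicClosure K)), Q.IsMaximal →
      Q.comap (algebraMap (𝓞 K) (𝓞 (AlgebraicClosure K))) = v₀.asIdeal →
      (∀ z : Fin n → 𝓞 (AlgebraicClosure K),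
        (∀ i, ev (mapF (algebraMap (𝓞 K) (𝓞 (AlgebraicClosure K))) F) z i ∈ Q) → ∀ i, z i ∈ Q) ∧
      ∀ a : Fin n → 𝓞 (AlgebraicClosure K), (∃ i, a i ∉ Q) → ∀ M : ℕ,
        (∃ c ∈ ({γ₂} : Finset (Fin n → 𝓞 K)), Par ((ev (mapF (algebraMap (𝓞 K) (𝓞 (AlgebraicClosure K))) F))^[M + 1] a)
          (algebraMap (𝓞 K) (𝓞 (AlgebraicClosure K)) ∘ c)) →
        (∀ c ∈ ({γ₂} : Finset (Fin n → 𝓞 K)), ¬ Par ((ev (mapF (algebraMap (𝓞 K) (𝓞 (AlgebraicClosure K))) F))^[M] a)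
          (algebraMap (𝓞 K) (𝓞 (AlgebraicClosure K)) ∘ c)) →
        ∀ j ≤ M, ∀ c ∈ ({γ₂} : Finset (Fin n → 𝓞 K)), ¬ ParMod Q
          ((ev (mapF (algebraMap (𝓞 K) (𝓞 (AlgebraicClosure K))) F))^[j] a)
          (algebraMap (𝓞 K) (𝓞 (AlgebraicClosure K)) ∘ c) := by
  intro Q hQ hQv
  refine ⟨hgood Q hQ hQv, ?_⟩
  intro a ha M hM1 hM2 j hj c hc hcon
  rw [Finset.mem_singleton.1 hc] at hcon
  obtain ⟨c', hc', hM1⟩ := hM1
  rw [Finset.mem_singleton.1 hc'] at hM1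
  -- the residue field
  haveI := hQ
  let k := 𝓞 (AlgebraicClosure K) ⧸ Q
  let π : 𝓞 (AlgebraicClosure K) →+* k := Ideal.Quotient.mk Q
  let ι : 𝓞 K →+* 𝓞 (AlgebraicClosure K) := algebraMap (𝓞 K) (𝓞 (AlgebraicClosure K))
  let G := mapF ι F
  have hG : ∀ i, (G i).IsHomogeneous d := hom_mapF ι hF
  have hGk : ∀ i, (mapF π G i).IsHomogeneous d := hom_mapF π hG
  have hz : ∀ z : Fin n → k, ev (mapF π G) z = 0 → z = 0 := by
    intro z hz
    choose z' hz' using fun i => Ideal.Quotient.mk_surjective (z i)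
    have e : z = π ∘ z' := funext fun i => (hz' i).symm
    rw [e, ev_mapF] at hz
    have := hgood Q hQ hQv z' (fun i => by
      have := congrFun hz i
      exact Ideal.Quotient.eq_zero_iff_mem.1 this)
    rw [e]
    funext i
    exact Ideal.Quotient.eq_zero_iff_mem.2 (this i)
  have hπ : ∀ (x y : Fin n → 𝓞 (AlgebraicClosure K)), ParMod Q x y ↔ Par (π ∘ x) (π ∘ y) := by
    intro x y
    rw [par_map_iff, Ideal.mk_ker]
  rw [hπ] at hcon
  -- nonzero vectors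
  have ha' : π ∘ a ≠ 0 := by
    obtain ⟨i, hi⟩ := ha
    intro h0
    exact hi (Ideal.Quotient.eq_zero_iff_mem.1 (congrFun h0 i))
  have hg' : π ∘ (ι ∘ γ₂) ≠ 0 := by
    obtain ⟨i, hi⟩ := hγ₂v
    intro h0
    have h1 : ι (γ₂ i) ∈ Q := Ideal.Quotient.eq_zero_iff_mem.1 (congrFun h0 i)
    apply hi
    rw [← hQv]
    exact h1
  have hit : ∀ (m : ℕ) (x : Fin n → 𝓞 (AlgebraicClosure K)),
      π ∘ ((ev G)^[m] x) = (ev (mapF π G))^[m] (π ∘ x) := fun m x => (ev_mapF_iter π G x m).symm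
  have e1 : Par (π ∘ ((ev G)^[M + 1] a)) (π ∘ ((ev G)^[M + 1 - j] (ι ∘ γ₂))) := by
    have h2 := hcon.iter hd hGk (M + 1 - j)
    rw [← hit, ← hit, ← Function.iterate_add_apply, Nat.sub_add_cancel (by omega)] at h2
    exact h2
  have e2 : Par (π ∘ ((ev G)^[M + 1] a)) (π ∘ (ι ∘ γ₂)) := hM1.map π
  have e3 : Par (π ∘ ((ev G)^[M + 1 - j] (ι ∘ γ₂))) (π ∘ (ι ∘ γ₂)) := by
    refine e1.symm.trans e2 ?_
    rw [hit]
    exact iter_ne_zero hz ha' _
  rw [← hπ] at e3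
  apply hper (M + 1 - j) (by omega)
  intro i l
  have h3 := e3 i l
  have h4 : (ev G)^[M + 1 - j] (ι ∘ γ₂) = ι ∘ ((ev F)^[M + 1 - j] γ₂) :=
    ev_mapF_iter ι F γ₂ _
  rw [h4] at h3
  rw [← hQv, Ideal.mem_comap, map_sub, map_mul, map_mul]
  exact h3

open Classical in
/-- the conclusion for one map, for the prime ideals with the given Frobenius automorphism -/
lemma keyOne (hGOOD : S_GOOD) {n d : ℕ} (hd : 1 ≤ d)
    (F : Fin n → MvPolynomial (Fin n) (𝓞 K)) (hF : ∀ i, (F i).IsHomogeneous d)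
    (hz : ∀ x : Fin n → AlgebraicClosure K, (∀ i, MvPolynomial.aeval x (F i) = 0) → x = 0)
    (C : Finset (Fin n → 𝓞 K)) (hC : ∀ c ∈ C, c ≠ 0)
    (γ : Fin n → 𝓞 K) (hγ : γ ≠ 0) (hav : ∀ (m : ℕ), ∀ c ∈ C, ¬ Par ((ev F)^[m] γ) c)
    (ι : 𝓞 K →+* 𝓞 (AlgebraicClosure K)) (hι : ι = algebraMap (𝓞 K) (𝓞 (AlgebraicClosure K)))
    (FO : Fin n → MvPolynomial (Fin n) (𝓞 (AlgebraicClosure K))) (hFO : FO = mapF ι F)
    (CO : Finset (Fin n → 𝓞 (AlgebraicClosure K))) (hCO : CO = C.image fun c => ι ∘ c)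
    (M : ℕ) (T : Finset (Fin n → 𝓞 (AlgebraicClosure K))) (DT : ℕ) (hDT : DT ≠ 0)
    (hT1 : ∀ t ∈ T, t ≠ 0 ∧ ∃ c ∈ CO, Par ((ev FO)^[M + 1] t) c)
    (hT2 : ∀ (k : Type) [Field k] (φ : 𝓞 (AlgebraicClosure K) →+* k), (DT : k) ≠ 0 →
        (∀ t ∈ T, φ ∘ t ≠ 0) ∧
        ∀ z : Fin n → k, z ≠ 0 → ∀ c ∈ CO, Par ((ev (mapF φ FO))^[M + 1] z) (φ ∘ c) →
          ∃ t ∈ T, Par z (φ ∘ t))
    (L : IntermediateField K (AlgebraicClosure K)) (σ : L ≃ₐ[K] L)
    (hTL : ∀ t ∈ T, ∀ i, (t i : AlgebraicClosure K) ∈ L)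
    (hσ : ∀ (t : Fin n → 𝓞 (AlgebraicClosure K)) (tL : Fin n → L),
      (∀ i, (tL i : AlgebraicClosure K) = t i) → t ≠ 0 →
      (∃ c ∈ C, Par ((ev FO)^[M + 1] t) (ι ∘ c)) →
      (∀ c ∈ C, ¬ Par ((ev FO)^[M] t) (ι ∘ c)) → ¬ Par (fun i => σ (tL i)) tL) :
    ∃ D : ℕ, D ≠ 0 ∧ ∀ v : HeightOneSpectrum (𝓞 K), ((D : ℕ) : 𝓞 K) ∉ v.asIdeal →
      (∃ Q : Ideal (𝓞 (AlgebraicClosure K)), Q.IsMaximal ∧
        Q.comap (algebraMap (𝓞 K) (𝓞 (AlgebraicClosure K))) = v.asIdeal ∧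
        ∀ (x x' : 𝓞 (AlgebraicClosure K)) (y : L), ((x : AlgebraicClosure K)) = y →
          (x' : AlgebraicClosure K) = σ y → x' - x ^ (Ideal.absNorm v.asIdeal) ∈ Q) →
      ((∀ c ∈ C, ∃ i, c i ∉ v.asIdeal) ∧ ∀ m : ℕ, (∃ i, (ev F)^[m] γ i ∉ v.asIdeal) ∧
        ∀ c ∈ C, ¬ ParMod v.asIdeal ((ev F)^[m] γ) c) := by
  classical
  have hιinj : Function.Injective ι := by
    rw [hι]
    exact FaithfulSMul.algebraMap_injective _ _
  have hFOh : ∀ i, (FO i).IsHomogeneous d := by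
    rw [hFO]
    exact hom_mapF ι hF
  have hzO : ∀ x : Fin n → AlgebraicClosure K, (∀ i, MvPolynomial.aeval x (FO i) = 0) → x = 0 := by
    intro x hx
    apply hz x
    intro i
    have h1 := hx i
    rw [hFO, hι] at h1
    change MvPolynomial.aeval x (MvPolynomial.map (algebraMap (𝓞 K) (𝓞 (AlgebraicClosure K))) (F i)) = 0 at h1
    rw [MvPolynomial.aeval_map_algebraMap] at h1
    exact h1
  have halg : Algebra.IsAlgebraic ℚ (AlgebraicClosure K) := Algebra.IsAlgebraic.trans ℚ K _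
  -- the conjugate vectors
  have hconj : ∀ t ∈ T, ∃ (tL : Fin n → L) (s : Fin n → 𝓞 (AlgebraicClosure K)),
      (∀ i, (tL i : AlgebraicClosure K) = t i) ∧ ∀ i, (s i : AlgebraicClosure K) = σ (tL i) := by
    intro t ht
    refine ⟨fun i => ⟨t i, hTL t ht i⟩, ?_⟩
    have h1 : ∀ i, ∃ s : 𝓞 (AlgebraicClosure K), (s : AlgebraicClosure K) = σ ⟨t i, hTL t ht i⟩ := by
      intro i
      have h2 : IsIntegral ℤ (t i : AlgebraicClosure K) := (t i).isIntegral_coe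
      have h3 : IsIntegral ℤ (⟨t i, hTL t ht i⟩ : L) := by
        rw [← isIntegral_algebraMap_iff (B := AlgebraicClosure K) (algebraMap L (AlgebraicClosure K)).injective]
        exact h2
      have h4 : IsIntegral ℤ (σ ⟨t i, hTL t ht i⟩) := h3.map (σ : L →+* L).toIntAlgHom
      have h5 : IsIntegral ℤ ((σ ⟨t i, hTL t ht i⟩ : L) : AlgebraicClosure K) :=
        h4.map (algebraMap L (AlgebraicClosure K)).toIntAlgHom
      exact ⟨⟨_, h5⟩, rfl⟩
    choose s hs using h1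
    exact ⟨s, fun i => rfl, hs⟩
  choose! tL s htL hs using hconj
  -- the excluded primes
  obtain ⟨D1, hD1, hg⟩ := hGOOD (AlgebraicClosure K) n FO hzO
  obtain ⟨D2, hD2, hgσ⟩ := exists_common T (fun t D => ∀ (k : Type) [Field k]
      (φ : 𝓞 (AlgebraicClosure K) →+* k), (D : k) ≠ 0 → ¬ Par (s t) t → ¬ Par (φ ∘ s t) (φ ∘ t))
      (fun t D D' hdvd h k _ φ hk => h k φ (cast_ne_of_dvd hdvd hk))
      (fun t _ => by
        by_cases h : Par (s t) t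
        · exact ⟨1, one_ne_zero, fun k _ φ _ h' => absurd h h'⟩
        · obtain ⟨D, hD, h'⟩ := npar_vec _ _ h
          exact ⟨D, hD, fun k _ φ hk _ => h' k φ hk⟩)
  obtain ⟨D3, hD3, hgγ⟩ := nz_vec (ι ∘ γ) (by
    intro h
    apply hγ
    funext i
    apply hιinj
    rw [Pi.zero_apply, map_zero]
    exact congrFun h i)
  obtain ⟨D4, hD4, hgc⟩ := exists_common C (fun c D => ∀ (k : Type) [Field k]
      (φ : 𝓞 (AlgebraicClosure K) →+* k), (D : k) ≠ 0 → φ ∘ (ι ∘ c) ≠ 0)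
      (fun t D D' hdvd h k _ φ hk => h k φ (cast_ne_of_dvd hdvd hk))
      (fun c hc => nz_vec (ι ∘ c) (by
        intro h
        apply hC c hc
        funext i
        apply hιinj
        rw [Pi.zero_apply, map_zero]
        exact congrFun h i))
  obtain ⟨D5, hD5, hgm⟩ := exists_common (Finset.range (M + 1) ×ˢ C) (fun p D => ∀ (k : Type) [Field k]
      (φ : 𝓞 (AlgebraicClosure K) →+* k), (D : k) ≠ 0 → ¬ Par (φ ∘ (ι ∘ (ev F)^[p.1] γ)) (φ ∘ (ι ∘ p.2)))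
      (fun t D D' hdvd h k _ φ hk => h k φ (cast_ne_of_dvd hdvd hk))
      (fun p hp => npar_vec _ _ (by
        intro h
        exact hav p.1 p.2 (Finset.mem_product.1 hp).2 (par_of_map ι hιinj h)))
  obtain ⟨D, hDdef⟩ : ∃ D : ℕ, D = DT * (D1 * (D2 * (D3 * (D4 * D5)))) := ⟨_, rfl⟩
  have hD0 : D ≠ 0 := by
    rw [hDdef]
    exact mul_ne_zero hDT (mul_ne_zero hD1 (mul_ne_zero hD2 (mul_ne_zero hD3 (mul_ne_zero hD4 hD5))))
  have hdT : DT ∣ D := by rw [hDdef]; exact Dvd.intro _ rfl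
  have hd1 : D1 ∣ D := by rw [hDdef]; exact (Dvd.intro _ rfl : D1 ∣ _).trans (Dvd.intro_left _ rfl)
  have hd2 : D2 ∣ D := by
    rw [hDdef]
    exact ((Dvd.intro _ rfl : D2 ∣ D2 * (D3 * (D4 * D5))).trans (Dvd.intro_left D1 rfl)).trans
      (Dvd.intro_left DT rfl)
  have hd3 : D3 ∣ D := by
    rw [hDdef]
    exact (((Dvd.intro _ rfl : D3 ∣ D3 * (D4 * D5)).trans (Dvd.intro_left D2 rfl)).trans
      (Dvd.intro_left D1 rfl)).trans (Dvd.intro_left DT rfl)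
  have hd4 : D4 ∣ D := by
    rw [hDdef]
    exact ((((Dvd.intro _ rfl : D4 ∣ D4 * D5).trans (Dvd.intro_left D3 rfl)).trans
      (Dvd.intro_left D2 rfl)).trans (Dvd.intro_left D1 rfl)).trans (Dvd.intro_left DT rfl)
  have hd5 : D5 ∣ D := by
    rw [hDdef]
    exact ((((Dvd.intro_left _ rfl : D5 ∣ D4 * D5).trans (Dvd.intro_left D3 rfl)).trans
      (Dvd.intro_left D2 rfl)).trans (Dvd.intro_left D1 rfl)).trans (Dvd.intro_left DT rfl)
  refine ⟨D, hD0, ?_⟩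
  rintro v hDv ⟨Q, hQ, hQv, hfrob⟩
  let _ : Field (𝓞 (AlgebraicClosure K) ⧸ Q) := Ideal.Quotient.field Q
  obtain ⟨φ, hφ⟩ : ∃ φ : 𝓞 (AlgebraicClosure K) →+* (𝓞 (AlgebraicClosure K) ⧸ Q),
    φ = Ideal.Quotient.mk Q := ⟨_, rfl⟩
  have hφQ : ∀ x, φ x = 0 ↔ x ∈ Q := fun x => by rw [hφ, Ideal.Quotient.eq_zero_iff_mem]
  have hkerι : RingHom.ker (φ.comp ι) = v.asIdeal := by rw [hφ, hι]; exact ker_comp v Q hQv
  have hDk : ((D : ℕ) : 𝓞 (AlgebraicClosure K) ⧸ Q) ≠ 0 := by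
    intro h
    apply hDv
    rw [← hkerι, RingHom.mem_ker, map_natCast]
    exact h
  obtain ⟨hTnz, hTlift⟩ := hT2 _ φ (cast_ne_of_dvd hdT hDk)
  have hgk := hg _ φ (cast_ne_of_dvd hd1 hDk)
  have hgσ' := fun t ht => hgσ t ht _ φ (cast_ne_of_dvd hd2 hDk)
  have hgγ' := hgγ _ φ (cast_ne_of_dvd hd3 hDk)
  have hgc' := fun c hc => hgc c hc _ φ (cast_ne_of_dvd hd4 hDk)
  have hgm' := fun p hp => hgm p hp _ φ (cast_ne_of_dvd hd5 hDk)
  obtain ⟨fr, hfr, hfix, hq2⟩ := frob_hom v (φ.comp ι) hkerι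
  obtain ⟨r, hr⟩ : ∃ r, r = Ideal.absNorm v.asIdeal := ⟨_, rfl⟩
  rw [← hr] at hfrob hfr hfix hq2
  have hFk : mapF φ FO = mapF (φ.comp ι) F := by rw [hFO, mapF_mapF]
  have hkh : ∀ i, (mapF φ FO i).IsHomogeneous d := hom_mapF φ hFOh
  have hit : ∀ m, φ ∘ (ι ∘ (ev F)^[m] γ) = (ev (mapF φ FO))^[m] (φ ∘ (ι ∘ γ)) := by
    intro m
    rw [← ev_mapF_iter ι, ← hFO, ← ev_mapF_iter φ]
  have hne : ∀ m, φ ∘ (ι ∘ (ev F)^[m] γ) ≠ 0 := by
    intro m
    rw [hit]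
    exact iter_ne_zero hgk hgγ' m
  have hmem : ∀ x : Fin n → 𝓞 K, φ ∘ (ι ∘ x) ≠ 0 → ∃ i, x i ∉ v.asIdeal := by
    intro x hx
    obtain ⟨i, hi⟩ := Function.ne_iff.1 hx
    refine ⟨i, fun h => hi ?_⟩
    rw [← hkerι, RingHom.mem_ker] at h
    exact h
  have hpm : ∀ x y : Fin n → 𝓞 K, ParMod v.asIdeal x y ↔ Par (φ ∘ (ι ∘ x)) (φ ∘ (ι ∘ y)) := by
    intro x y
    rw [← hkerι, ← par_map_iff]
    rfl
  refine ⟨fun c hc => hmem c (hgc' c hc), fun m => ⟨hmem _ (hne m), ?_⟩⟩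
  intro c hc hcm
  have hex : ∃ m, ∃ c ∈ C, ParMod v.asIdeal ((ev F)^[m] γ) c := ⟨m, c, hc, hcm⟩
  obtain ⟨m, hm, hmin⟩ : ∃ m, (∃ c ∈ C, ParMod v.asIdeal ((ev F)^[m] γ) c) ∧
      ∀ m' < m, ¬ ∃ c ∈ C, ParMod v.asIdeal ((ev F)^[m'] γ) c :=
    ⟨Nat.find hex, Nat.find_spec hex, fun m' hm' => Nat.find_min hex hm'⟩
  obtain ⟨c, hc, hcm⟩ := hm
  rw [hpm] at hcm
  rcases Nat.lt_or_ge m (M + 1) with hlt | hge
  · exact hgm' (m, c) (Finset.mem_product.2 ⟨Finset.mem_range.2 hlt, hc⟩) hcm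
  · obtain ⟨m', rfl⟩ : ∃ m', m = M + 1 + m' := ⟨m - (M + 1), by omega⟩
    obtain ⟨z, hzdef⟩ : ∃ z, z = φ ∘ (ι ∘ (ev F)^[m'] γ) := ⟨_, rfl⟩
    have hz0 : z ≠ 0 := by rw [hzdef]; exact hne m'
    have hz1 : (ev (mapF φ FO))^[M + 1] z = φ ∘ (ι ∘ (ev F)^[M + 1 + m'] γ) := by
      rw [hzdef, hit, hit, ← Function.iterate_add_apply]
    have hz2 : (ev (mapF φ FO))^[M] z = φ ∘ (ι ∘ (ev F)^[M + m'] γ) := by
      rw [hzdef, hit, hit, ← Function.iterate_add_apply]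
    rw [← hz1] at hcm
    obtain ⟨t, ht, hzt⟩ := hTlift z hz0 (ι ∘ c) (by rw [hCO]; exact Finset.mem_image_of_mem _ hc) hcm
    have ht0 := (hT1 t ht).1
    have hnent : ∀ c ∈ C, ¬ Par ((ev FO)^[M] t) (ι ∘ c) := by
      intro c' hc' hpar
      apply hmin (M + m') (by omega)
      refine ⟨c', hc', ?_⟩
      rw [hpm, ← hz2]
      refine (hzt.iter hd hkh M).trans ?_ (iter_ne_zero hgk (hTnz t ht) M)
      rw [ev_mapF_iter]
      exact hpar.map φ
    have hent : ∃ c ∈ C, Par ((ev FO)^[M + 1] t) (ι ∘ c) := by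
      obtain ⟨w, hw, hwp⟩ := (hT1 t ht).2
      rw [hCO, Finset.mem_image] at hw
      obtain ⟨c', hc', rfl⟩ := hw
      exact ⟨c', hc', hwp⟩
    have hnp := hσ t (tL t) (htL t ht) ht0 hent hnent
    have hnp' : ¬ Par (s t) t := by
      intro h
      apply hnp
      intro i j
      have h1 := h i j
      apply Subtype.coe_injective
      have h2 := congrArg (algebraMap (𝓞 (AlgebraicClosure K)) (AlgebraicClosure K)) h1
      rw [map_mul, map_mul] at h2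
      have e1 := hs t ht i
      have e2 := hs t ht j
      have e3 := htL t ht i
      have e4 := htL t ht j
      change ((σ (tL t i) : L) : AlgebraicClosure K) * ((tL t j : L) : AlgebraicClosure K) =
        ((σ (tL t j) : L) : AlgebraicClosure K) * ((tL t i : L) : AlgebraicClosure K)
      rw [← e1, ← e2, e3, e4]
      exact h2
    apply hgσ' t ht hnp'
    -- the Frobenius automorphism fixes the reduction of `t`
    have hzfix : ∀ i, z i ^ r = z i := by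
      intro i
      rw [hzdef]
      exact hfix _
    have hst : ∀ i, φ (s t i) = φ (t i) ^ r := by
      intro i
      have h1 := (hφQ _).2 (hfrob (t i) (s t i) (tL t i) (htL t ht i).symm (hs t ht i))
      rw [map_sub, map_pow, sub_eq_zero] at h1
      exact h1
    have hzs : Par z (φ ∘ s t) := by
      intro i j
      rw [Function.comp_apply, Function.comp_apply, hst, hst, ← hzfix i, ← hzfix j, ← mul_pow, ← mul_pow]
      have := hzt i j
      rw [Function.comp_apply, Function.comp_apply] at this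
      rw [this]
    exact hzs.symm.trans hzt hz0

end MCOR

open MCOR in
theorem t_MCOR (hSTEP : S_STEP) (hGOOD : S_GOOD) (hFRB : S_FRB) (hCHO : S_CHO) (hENT : S_ENT) :
    S_MCOR := by
  classical
  intro K _ _ n g d hd F hF hz x y hx hy hav v₀ hgood hyv hper
  have halg : Algebra.IsAlgebraic ℚ (AlgebraicClosure K) := Algebra.IsAlgebraic.trans ℚ K _
  obtain ⟨ι, hι⟩ : ∃ ι : 𝓞 K →+* 𝓞 (AlgebraicClosure K),
      ι = algebraMap (𝓞 K) (𝓞 (AlgebraicClosure K)) := ⟨_, rfl⟩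
  have hιinj : Function.Injective ι := by
    rw [hι]
    exact FaithfulSMul.algebraMap_injective _ _
  obtain ⟨FO, hFO⟩ : ∃ FO : Fin g → Fin n → MvPolynomial (Fin n) (𝓞 (AlgebraicClosure K)),
      FO = fun i => mapF ι (F i) := ⟨_, rfl⟩
  have hFOi : ∀ i, FO i = mapF ι (F i) := fun i => by rw [hFO]
  have hFOh : ∀ i j, (FO i j).IsHomogeneous (d i) := by
    intro i
    rw [hFOi]
    exact hom_mapF ι (hF i)
  have hzO : ∀ i, ∀ x : Fin n → AlgebraicClosure K, (∀ j, MvPolynomial.aeval x (FO i j) = 0) → x = 0 := by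
    intro i x hx
    apply hz i x
    intro j
    have h1 := hx j
    rw [hFOi, hι] at h1
    change MvPolynomial.aeval x (MvPolynomial.map (algebraMap (𝓞 K) (𝓞 (AlgebraicClosure K))) (F i j)) = 0 at h1
    rw [MvPolynomial.aeval_map_algebraMap] at h1
    exact h1
  have h0 : ∀ i, ∀ x : Fin n → 𝓞 (AlgebraicClosure K), ev (FO i) x = 0 → x = 0 := by
    intro i x hx
    have h1 := hzO i (fun j => (x j : AlgebraicClosure K)) (fun j => by
      have h3 : MvPolynomial.aeval (fun j => (x j : AlgebraicClosure K)) (FO i j) =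
          algebraMap (𝓞 (AlgebraicClosure K)) (AlgebraicClosure K) (MvPolynomial.eval x (FO i j)) :=
        MvPolynomial.aeval_algebraMap_apply (B := AlgebraicClosure K) x (FO i j)
      have h2 : MvPolynomial.eval x (FO i j) = 0 := congrFun hx j
      rw [h3, h2, map_zero])
    funext j
    apply RingOfIntegers.coe_injective
    rw [Pi.zero_apply, map_zero]
    exact congrFun h1 j
  obtain ⟨q, hq⟩ : ∃ q, q = Ideal.absNorm v₀.asIdeal := ⟨_, rfl⟩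
  obtain ⟨M, hM⟩ : ∃ M, M = q ^ n := ⟨_, rfl⟩
  have hCO0 : ∀ i, ∀ c ∈ (({y i} : Finset (Fin n → 𝓞 K)).image fun c => ι ∘ c), c ≠ 0 := by
    intro i c hc
    rw [Finset.mem_image] at hc
    obtain ⟨c', hc', rfl⟩ := hc
    rw [Finset.mem_singleton.1 hc']
    intro h
    apply hy i
    funext j
    apply hιinj
    rw [Pi.zero_apply, map_zero]
    exact congrFun h j
  have hstep := fun i => iter_step hSTEP hGOOD (hd i) (FO i) (hFOh i) (hzO i)
    (({y i} : Finset (Fin n → 𝓞 K)).image fun c => ι ∘ c) (hCO0 i) (M + 1)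
  choose T DT hDT hT1 hT2 using hstep
  -- the field of the coordinates
  obtain ⟨S, hS⟩ : ∃ S : Finset (AlgebraicClosure K),
      S = Finset.univ.biUnion fun i => (T i).biUnion fun t =>
        Finset.univ.image fun j => (t j : AlgebraicClosure K) := ⟨_, rfl⟩
  have hSint : ∀ x ∈ (S : Set (AlgebraicClosure K)), IsIntegral K x := fun x _ =>
    Algebra.IsIntegral.isIntegral x
  have hfdS : FiniteDimensional K (IntermediateField.adjoin K (S : Set (AlgebraicClosure K))) :=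
    IntermediateField.finiteDimensional_adjoin hSint
  let L : IntermediateField K (AlgebraicClosure K) := IntermediateField.normalClosure K
    (IntermediateField.adjoin K (S : Set (AlgebraicClosure K))) (AlgebraicClosure K)
  have hL1 : FiniteDimensional K L := normalClosure.is_finiteDimensional K _ _
  have hL2 : Normal K L := normalClosure.normal K _ _
  have hTL : ∀ i, ∀ t ∈ T i, ∀ j, (t j : AlgebraicClosure K) ∈ L := by
    intro i t ht j
    have h1 : (t j : AlgebraicClosure K) ∈ IntermediateField.adjoin K (S : Set (AlgebraicClosure K)) := by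
      apply IntermediateField.subset_adjoin
      rw [hS, Finset.mem_coe, Finset.mem_biUnion]
      refine ⟨i, Finset.mem_univ _, ?_⟩
      rw [Finset.mem_biUnion]
      exact ⟨t, ht, Finset.mem_image.2 ⟨j, Finset.mem_univ _, rfl⟩⟩
    exact IntermediateField.le_normalClosure _ h1
  obtain ⟨σ, Q, hQ, hQv, hfrb⟩ := hFRB K L v₀
  have hkey := fun i => keyOne hGOOD (hd i) (F i) (hF i) (hz i) {y i} (by
      intro c hc
      rw [Finset.mem_singleton.1 hc]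
      exact hy i) (x i) (hx i) (by
      intro m c hc
      rw [Finset.mem_singleton.1 hc]
      exact hav i m) ι hι (FO i) (hFOi i) _ rfl M (T i) (DT i) (hDT i) (hT1 i) (hT2 i) L σ (hTL i) (by
      intro t tL htL ht0 hent hnent
      have hA := claimB hENT (hd i) (F i) (hF i) {y i} v₀
        (crit_sep (hd i) (F i) (hF i) (y i) v₀ (hgood i) (hyv i) (hper i))
        (by rw [← hι, ← hFOi]; exact h0 i) L σ Q hQ hQv hfrb t tL htL ht0 M
        (by rw [← hq]; omega)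
      rw [← hι, ← hFOi] at hA
      exact hA hent hnent)
  choose D hD0 hD using hkey
  have hP0 : (∏ i, D i) ≠ 0 := Finset.prod_ne_zero_iff.2 fun i _ => hD0 i
  have hbadfin : {v : HeightOneSpectrum (𝓞 K) | ((∏ i, D i : ℕ) : 𝓞 K) ∈ v.asIdeal}.Finite := by
    have h1 : Ideal.span {((∏ i, D i : ℕ) : 𝓞 K)} ≠ 0 := by
      rw [Ideal.zero_eq_bot, Ne, Ideal.span_singleton_eq_bot]
      exact_mod_cast hP0
    refine (Ideal.finite_factors h1).subset ?_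
    intro v hv
    change v.asIdeal ∣ _
    rw [Ideal.dvd_span_singleton]
    exact hv
  obtain ⟨c0, hc0, hc0'⟩ := hCHO K L σ hbadfin.toFinset
  refine ⟨c0, hc0, hc0'.mono fun X hX => hX.trans ?_⟩
  have key : ∀ v : HeightOneSpectrum (𝓞 K), (v ∉ hbadfin.toFinset ∧
      ∃ Q : Ideal (𝓞 (AlgebraicClosure K)), Q.IsMaximal ∧
        Q.comap (algebraMap (𝓞 K) (𝓞 (AlgebraicClosure K))) = v.asIdeal ∧
        ∀ (x x' : 𝓞 (AlgebraicClosure K)) (y : L), ((x : AlgebraicClosure K)) = y →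
          (x' : AlgebraicClosure K) = σ y → x' - x ^ (Ideal.absNorm v.asIdeal) ∈ Q) →
      ∀ i, (∃ j, y i j ∉ v.asIdeal) ∧ ∀ m : ℕ, (∃ j, (ev (F i))^[m] (x i) j ∉ v.asIdeal) ∧
        ¬ ParMod v.asIdeal ((ev (F i))^[m] (x i)) (y i) := by
    rintro v ⟨hvbad, hv⟩ i
    obtain ⟨h1, h2⟩ := hD i v (by
      intro h
      apply hvbad
      rw [Set.Finite.mem_toFinset]
      change ((∏ i, D i : ℕ) : 𝓞 K) ∈ v.asIdeal
      rw [← Finset.mul_prod_erase Finset.univ D (Finset.mem_univ i), Nat.cast_mul]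
      exact Ideal.mul_mem_right _ _ h) hv
    exact ⟨h1 (y i) (Finset.mem_singleton_self _), fun m =>
      ⟨(h2 m).1, (h2 m).2 (y i) (Finset.mem_singleton_self _)⟩⟩
  have hfin : Finite {v : HeightOneSpectrum (𝓞 K) //
      (∀ i, (∃ j, y i j ∉ v.asIdeal) ∧ ∀ m : ℕ, (∃ j, (ev (F i))^[m] (x i) j ∉ v.asIdeal) ∧
        ¬ ParMod v.asIdeal ((ev (F i))^[m] (x i)) (y i)) ∧ Ideal.absNorm v.asIdeal ≤ X} := by
    have h7 := Ideal.finite_setOfPred_absNorm_le (S := 𝓞 K) X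
    have h8 : Finite {I : Ideal (𝓞 K) // Ideal.absNorm I ≤ X} := h7
    refine Finite.of_injective (fun v => (⟨v.1.asIdeal, v.2.2⟩ :
      {I : Ideal (𝓞 K) // Ideal.absNorm I ≤ X})) ?_
    intro v w hvw
    apply Subtype.ext
    apply HeightOneSpectrum.ext
    exact congrArg Subtype.val hvw
  refine Nat.cast_le.2 (Nat.card_le_card_of_injective (fun v => ⟨v.1, key v.1 v.2.1, v.2.2⟩) ?_)
  intro v w hvw
  apply Subtype.ext
  exact congrArg (fun x => x.1) hvw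

end Pool.Agent.T4h89.OM
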