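import Pool.Agent.T4h89.OM.Stm5
import Pool.Agent.T4h89.OM.T_SCL
import Pool.Agent.T4h89.OM.T_SPR
import Pool.Agent.T4h89.OM.T_MAIN1

/-! OM part 5: one automorphism without fixed points in the fibres of several maps, forms over the field. -/

set_option autoImplicit false

open NumberField IsDedekindDomain Filter Topology

noncomputable section

namespace Pool.Agent.T4h89.OM

open SCLaux SPR CYC MAIN1 in
theorem t_MFPF (hMFPI : S_MFPI) (hGDQ : S_GDQ) (hCNG : S_CNG) : S_MFPF := by
  classical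
  intro K _ _ n g d hd F hF y hy σ hσ bad
  choose D F' hD hF' using fun i => clearPoly (F i)
  choose e y' he hy' using fun i => clear (Fin n) (y i)
  have inj := FaithfulSMul.algebraMap_injective (𝓞 K) K
  have hne : ∀ E : 𝓞 K, E ≠ 0 → algebraMap (𝓞 K) K E ≠ 0 := fun E hE => by
    rwa [Ne, FaithfulSMul.algebraMap_eq_zero_iff]
  have hy0 : ∀ i, y' i ≠ 0 := by
    intro i hcon
    apply hy i
    funext j
    have h1 := hy' i j
    rw [hcon, Pi.zero_apply, map_zero] at h1
    exact (mul_eq_zero.1 h1.symm).resolve_left (hne (e i) (he i))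
  have hhom : ∀ i j, (F' i j).IsHomogeneous (d i) := by
    intro i j
    refine MvPolynomial.IsHomogeneous.of_map inj ?_
    rw [hF' i j]
    have h1 := (MvPolynomial.isHomogeneous_C (Fin n) (algebraMap (𝓞 K) K (D i))).mul ((hF i).hom j)
    rwa [zero_add] at h1
  have hae : ∀ i (x : Fin n → AlgebraicClosure K) (j : Fin n), MvPolynomial.aeval x (F' i j) =
      algebraMap K (AlgebraicClosure K) (algebraMap (𝓞 K) K (D i)) * MvPolynomial.aeval x (F i j) := by
    intro i x j
    rw [← MvPolynomial.aeval_map_algebraMap K x (F' i j), hF' i j, map_mul, MvPolynomial.aeval_C]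
  have hz : ∀ i, ∀ x : Fin n → AlgebraicClosure K, (∀ j, MvPolynomial.aeval x (F' i j) = 0) → x = 0 := by
    intro i x hx
    refine (hF i).zero x fun j => ?_
    have h1 := hx j
    rw [hae] at h1
    refine (mul_eq_zero.1 h1).resolve_left ?_
    exact (map_ne_zero _).2 (hne (D i) (hD i))
  have r2 : ∀ i, Rel (F i) (y i) (F' i) (y' i) := fun i m =>
    iter (F i) (F' i) (D i) (hD i) (hF i).hom (hF' i) (y i) (y' i) _ (hne (e i) (he i)) (hy' i) m
  choose bad2 hbad2 using fun i => hGDQ K n (F' i) (hz i)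
  choose bad3 hbad3 using fun i => exists_v (y' i) (hy0 i)
  obtain ⟨v, hv, hnp⟩ := hMFPI K n g d hd F' hhom hz y' hy0 σ (by
    intro i x hx0 hpar
    apply hσ i x hx0
    intro j l
    have h1 := hpar j l
    have e2 : ∀ j, algebraMap (𝓞 K) (AlgebraicClosure K) (y' i j) =
        algebraMap K (AlgebraicClosure K) (algebraMap (𝓞 K) K (e i)) *
          algebraMap K (AlgebraicClosure K) (y i j) := by
      intro j
      rw [← map_mul, ← hy' i j]
      exact IsScalarTower.algebraMap_apply (𝓞 K) K (AlgebraicClosure K) (y' i j)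
    change MvPolynomial.aeval x (F' i j) * algebraMap (𝓞 K) (AlgebraicClosure K) (y' i l) =
      MvPolynomial.aeval x (F' i l) * algebraMap (𝓞 K) (AlgebraicClosure K) (y' i j) at h1
    rw [hae, hae, e2, e2] at h1
    change MvPolynomial.aeval x (F i j) * algebraMap K (AlgebraicClosure K) (y i l) =
      MvPolynomial.aeval x (F i l) * algebraMap K (AlgebraicClosure K) (y i j)
    have h2 : algebraMap K (AlgebraicClosure K) (algebraMap (𝓞 K) K (D i)) ≠ 0 :=
      (map_ne_zero _).2 (hne (D i) (hD i))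
    have h3 : algebraMap K (AlgebraicClosure K) (algebraMap (𝓞 K) K (e i)) ≠ 0 :=
      (map_ne_zero _).2 (hne (e i) (he i))
    refine mul_left_cancel₀ (mul_ne_zero h2 h3) ?_
    linear_combination h1) (bad ∪ Finset.univ.biUnion bad2 ∪ Finset.univ.biUnion bad3)
  rw [Finset.mem_union, Finset.mem_union, not_or, not_or, Finset.mem_biUnion, Finset.mem_biUnion] at hv
  have hv2 : ∀ i, v ∉ bad2 i := fun i h => hv.1.2 ⟨i, Finset.mem_univ i, h⟩
  have hv3 : ∀ i, v ∉ bad3 i := fun i h => hv.2 ⟨i, Finset.mem_univ i, h⟩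
  refine ⟨v, hv.1.1, ?_⟩
  intro i m hm hc
  obtain ⟨a, ha, ha'⟩ := r2 i m
  obtain ⟨b, hb, hb'⟩ := r2 i 0
  exact hnp i m hm ((hCNG K n v _ _ _ _ a b ha hb ha' hb'
    (good_iter (hbad2 i v (hv2 i)) (hbad3 i v (hv3 i)) m) (hbad3 i v (hv3 i))).1 hc)

end Pool.Agent.T4h89.OM
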