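import Pool.Agent.T4h89.OM.Stm5
import Pool.Agent.T4h89.OM.T_MAIN1

/-! OM: the criterion for several maps over `K`. -/

set_option autoImplicit false

open NumberField IsDedekindDomain Filter

noncomputable section

namespace Pool.Agent.T4h89.OM

open Pool.Agent.K3h30.RS (PosProportion)

namespace MHALF

open SPR CYC MAIN1

variable {K : Type} [Field K] [NumberField K] {n : ℕ}

theorem concl_dens {g : ℕ} (hCNG : S_CNG) (hDEN : S_DEN)
    {F : Fin g → Fin n → MvPolynomial (Fin n) K}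
    {x y : Fin g → Fin n → K} {F' : Fin g → Fin n → MvPolynomial (Fin n) (𝓞 K)}
    {x' y' : Fin g → Fin n → 𝓞 K}
    (r1 : ∀ i, Rel (F i) (x i) (F' i) (x' i)) (r2 : ∀ i, Rel (F i) (y i) (F' i) (y' i))
    (h : PosProportion (fun v : HeightOneSpectrum (𝓞 K) => ∀ i,
      (∃ j, y' i j ∉ v.asIdeal) ∧ ∀ m : ℕ, (∃ j, (ev (F' i))^[m] (x' i) j ∉ v.asIdeal) ∧
        ¬ ParMod v.asIdeal ((ev (F' i))^[m] (x' i)) (y' i))) :
    PosDens {v : HeightOneSpectrum (𝓞 K) | ∀ i, v ∈ Avoid (F i) (x i) (y i)} := by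
  have h1 : PosProportion (fun v : HeightOneSpectrum (𝓞 K) => ∀ i, v ∈ Avoid (F i) (x i) (y i)) := by
    refine pos_mono ?_ h
    intro v hv i m hc
    obtain ⟨hy, hv⟩ := hv i
    obtain ⟨hx, hn⟩ := hv m
    obtain ⟨a, ha, ha'⟩ := r1 i m
    obtain ⟨b, hb, hb'⟩ := r2 i 0
    exact hn ((hCNG K n v _ _ _ _ a b ha hb ha' hb' hx hy).1 hc)
  exact hDEN K _ h1

end MHALF

open SPR CYC MAIN1 MHALF in
theorem t_MONE (hMCOR : S_MCOR) (hCNG : S_CNG) (hSCG : S_SCG) (hDEN : S_DEN) : S_MONE := by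
  intro K _ _ n g d hd F hF x y hx hy hav v hg hnp
  have h1 := fun i => hSCG K n (d i) (F i) (hF i) (x i) (y i) (hx i) (hy i) v (hg i)
  choose F' x' y' hhom hz hn1 hn2 r1 r2 hg' hi using h1
  apply MHALF.concl_dens hCNG hDEN r1 r2
  exact hMCOR K n g d hd F' hhom hz x' y' hn1 hn2 (fun i => avoid' (r1 i) (r2 i) (hav i)) v hg' hi
    (fun i => nonper hCNG (r2 i) (hg' i) (hi i) (hnp i))

open SPR CYC MAIN1 MHALF in
theorem t_MHALF (hMCOR : S_MCOR) (hGDQ : S_GDQ) (hCNG : S_CNG) (hSCL : S_SCL) (hDEN : S_DEN) :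
    S_MHALF := by
  classical
  intro K _ _ n g d hd F hF x y hx hy hav hcase
  have h1 := fun i => hSCL K n (d i) (F i) (hF i) (x i) (y i) (hx i) (hy i)
  choose F' x' y' hhom hz hn1 hn2 r1 r2 using h1
  apply MHALF.concl_dens hCNG hDEN r1 r2
  have h2 := fun i => hGDQ K n (F' i) (hz i)
  choose bad2 hbad2 using h2
  have h3 := fun i => exists_v (y' i) (hn2 i)
  choose bad3 hbad3 using h3
  obtain ⟨v, hv, hnp⟩ := hcase (Finset.univ.biUnion fun i => bad2 i ∪ bad3 i)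
  have hv' : ∀ i, v ∉ bad2 i ∧ v ∉ bad3 i := by
    intro i
    constructor
    · intro h
      exact hv (Finset.mem_biUnion.2 ⟨i, Finset.mem_univ _, Finset.mem_union_left _ h⟩)
    · intro h
      exact hv (Finset.mem_biUnion.2 ⟨i, Finset.mem_univ _, Finset.mem_union_right _ h⟩)
  exact hMCOR K n g d hd F' hhom hz x' y' hn1 hn2 (fun i => avoid' (r1 i) (r2 i) (hav i)) v
    (fun i => hbad2 i v (hv' i).1) (fun i => hbad3 i v (hv' i).2)
    (fun i => nonper hCNG (r2 i) (hbad2 i v (hv' i).1) (hbad3 i v (hv' i).2) (hnp i))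

end Pool.Agent.T4h89.OM
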