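import Pool.Agent.T4h89.OM.Stm5

/-! Project OM, part MISS: value sets of polynomials modulo a prime. -/

set_option autoImplicit false

namespace Pool.Agent.T4h89.OM

namespace MISS

open Finset

theorem miss (p : ℕ) (hp : p.Prime) (f : Polynomial (ZMod p)) (h2 : 2 ≤ f.natDegree)
    (hd : f.natDegree ∣ p - 1) :
    p ≤ 2 * f.natDegree * Nat.card {b : ZMod p // ∀ a, f.eval a ≠ b} := by
  classical
  have := Fact.mk hp
  obtain ⟨U, hU⟩ := hd
  have hp2 := hp.two_le
  have hU1 : 1 ≤ U := by
    rcases Nat.eq_zero_or_pos U with h | h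
    · rw [h] at hU
      omega
    · exact h
  have hUp : U < p - 1 := by
    rw [hU]
    nlinarith
  have hsum : ∀ g : Polynomial (ZMod p), g.natDegree < p - 1 → ∑ a : ZMod p, g.eval a = 0 := by
    intro g hg
    simp_rw [Polynomial.eval_eq_sum_range]
    rw [Finset.sum_comm]
    refine Finset.sum_eq_zero fun i hi => ?_
    rw [← Finset.mul_sum, FiniteField.sum_pow_lt_card_sub_one, mul_zero]
    rw [ZMod.card]
    have := Finset.mem_range.1 hi
    omega
  have hone : ∑ a : ZMod p, a ^ (p - 1) = -1 := by
    have h1 : ∀ a : ZMod p, a ^ (p - 1) = 1 - if a = 0 then 1 else 0 := by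
      intro a
      split_ifs with h
      · rw [h, zero_pow (by omega)]
        ring
      · rw [ZMod.pow_card_sub_one_eq_one h]
        ring
    rw [Finset.sum_congr rfl fun a _ => h1 a, Finset.sum_sub_distrib]
    simp
  have htop : ∑ a : ZMod p, (f ^ U).eval a = - f.leadingCoeff ^ U := by
    have hdeg : (f ^ U).natDegree = p - 1 := by
      rw [Polynomial.natDegree_pow, hU, mul_comm]
    have hc : (f ^ U).coeff (p - 1) = f.leadingCoeff ^ U := by
      rw [← hdeg, Polynomial.coeff_natDegree, Polynomial.leadingCoeff_pow]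
    simp_rw [Polynomial.eval_eq_sum_range, hdeg]
    rw [Finset.sum_comm, Finset.sum_range_succ, Finset.sum_eq_zero, zero_add]
    · rw [← Finset.mul_sum, hone, hc, mul_neg_one]
    · intro i hi
      rw [← Finset.mul_sum, FiniteField.sum_pow_lt_card_sub_one, mul_zero]
      rw [ZMod.card]
      have := Finset.mem_range.1 hi
      omega
  let h : ZMod p → ℕ := fun b => (univ.filter fun a => f.eval a = b).card
  have hfib : ∀ φ : ZMod p → ZMod p, ∑ a, φ (f.eval a) = ∑ b, (h b : ZMod p) * φ b := by
    intro φ
    rw [← Finset.sum_fiberwise univ (fun a => f.eval a)]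
    refine Finset.sum_congr rfl fun b _ => ?_
    rw [Finset.sum_congr rfl (g := fun _ => φ b) fun a ha => by rw [(mem_filter.1 ha).2],
      Finset.sum_const, nsmul_eq_mul]
  have horth : ∀ g : Polynomial (ZMod p), g.natDegree < U →
      ∑ b, ((h b : ZMod p) - 1) * g.eval b = 0 := by
    intro g hg
    simp_rw [sub_mul, one_mul]
    rw [Finset.sum_sub_distrib, ← hfib (fun b => g.eval b), hsum g (by omega), sub_zero]
    have h1 : (g.comp f).natDegree < p - 1 := by
      rw [Polynomial.natDegree_comp, hU, mul_comm]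
      exact Nat.mul_lt_mul_of_pos_left hg (by omega)
    have := hsum (g.comp f) h1
    simpa [Polynomial.eval_comp] using this
  set S : Finset (ZMod p) := univ.filter fun b => (h b : ZMod p) - 1 ≠ 0 with hS
  have hSne : S.Nonempty := by
    by_contra hemp
    rw [Finset.not_nonempty_iff_eq_empty] at hemp
    have hR : ∀ b, (h b : ZMod p) - 1 = 0 := by
      intro b
      by_contra hb
      have : b ∈ S := mem_filter.2 ⟨mem_univ _, hb⟩
      rw [hemp] at this
      exact absurd this (Finset.notMem_empty _)
    have h1 : ∑ b, ((h b : ZMod p) - 1) * b ^ U = 0 := by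
      refine Finset.sum_eq_zero fun b _ => ?_
      rw [hR b, zero_mul]
    simp_rw [sub_mul, one_mul] at h1
    rw [Finset.sum_sub_distrib, ← hfib (fun b => b ^ U)] at h1
    have h3 : ∑ b : ZMod p, b ^ U = 0 := FiniteField.sum_pow_lt_card_sub_one _ _ (by
      rw [ZMod.card]
      exact hUp)
    have h4 : ∑ a : ZMod p, (f.eval a) ^ U = - f.leadingCoeff ^ U := by
      rw [← htop]
      simp
    rw [h3, h4, sub_zero, neg_eq_zero] at h1
    have hf0 : f ≠ 0 := by
      rintro rfl
      simp at h2
    exact (pow_ne_zero _ (Polynomial.leadingCoeff_ne_zero.2 hf0)) h1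
  have hScard : U + 1 ≤ S.card := by
    by_contra hlt
    push Not at hlt
    obtain ⟨b, hb⟩ := hSne
    have hprod := horth (∏ c ∈ S.erase b, (Polynomial.X - Polynomial.C c)) (by
      rw [Polynomial.natDegree_prod_of_monic _ _ fun c _ => Polynomial.monic_X_sub_C c]
      simp only [Polynomial.natDegree_X_sub_C, Finset.sum_const, smul_eq_mul, mul_one]
      rw [Finset.card_erase_of_mem hb]
      have : 0 < S.card := Finset.card_pos.2 ⟨b, hb⟩
      omega)
    rw [Finset.sum_eq_single b] at hprod
    · rw [Polynomial.eval_prod] at hprod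
      rcases mul_eq_zero.1 hprod with h0 | h0
      · exact (mem_filter.1 hb).2 h0
      · obtain ⟨c, hc, hc0⟩ := Finset.prod_eq_zero_iff.1 h0
        simp only [Polynomial.eval_sub, Polynomial.eval_X, Polynomial.eval_C] at hc0
        exact (Finset.mem_erase.1 hc).1 (sub_eq_zero.1 hc0).symm
    · intro c _ hcb
      by_cases hc : (h c : ZMod p) - 1 = 0
      · rw [hc, zero_mul]
      · have hcS : c ∈ S.erase b := Finset.mem_erase.2 ⟨hcb, mem_filter.2 ⟨mem_univ _, hc⟩⟩
        rw [Polynomial.eval_prod, Finset.prod_eq_zero hcS (by simp), mul_zero]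
    · intro hb'
      exact absurd (mem_univ b) hb'
  -- counting
  have hcount : ∑ b, h b = p := by
    have h1 := Finset.card_eq_sum_card_fiberwise (f := fun a : ZMod p => f.eval a) (s := univ)
      (t := univ) (fun a _ => mem_univ _)
    rw [Finset.card_univ, ZMod.card] at h1
    exact h1.symm
  have hne : (univ.filter fun b : ZMod p => h b ≠ 1).card + p ≤
      2 * (univ.filter fun b : ZMod p => h b = 0).card + p := by
    have h1 : ∑ b : ZMod p, ((if h b ≠ 1 then 1 else 0) + 1) ≤
        ∑ b : ZMod p, (2 * (if h b = 0 then 1 else 0) + h b) := by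
      refine Finset.sum_le_sum fun b _ => ?_
      rcases Nat.lt_or_ge (h b) 2 with hlt | hge
      · interval_cases h b <;> simp
      · have e1 : h b ≠ 1 := by omega
        have e2 : h b ≠ 0 := by omega
        rw [if_pos e1, if_neg e2]
        omega
    rw [Finset.sum_add_distrib, Finset.sum_add_distrib, hcount, ← Finset.mul_sum] at h1
    simp only [Finset.sum_const, Finset.card_univ, ZMod.card, smul_eq_mul, mul_one] at h1
    rw [Finset.card_filter, Finset.card_filter]
    exact h1
  have hsub : S ⊆ univ.filter fun b : ZMod p => h b ≠ 1 := by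
    intro b hb
    refine mem_filter.2 ⟨mem_univ _, fun h1 => (mem_filter.1 hb).2 ?_⟩
    rw [h1]
    simp
  have hcardS := Finset.card_le_card hsub
  have hcard0 : Nat.card {b : ZMod p // ∀ a, f.eval a ≠ b} =
      (univ.filter fun b : ZMod p => h b = 0).card := by
    rw [Nat.card_eq_fintype_card, Fintype.card_subtype]
    congr 1
    ext b
    simp [h, Finset.card_eq_zero, Finset.filter_eq_empty_iff]
  rw [hcard0]
  have h5 : U + 1 ≤ 2 * (univ.filter fun b : ZMod p => h b = 0).card := by omega
  calc p ≤ f.natDegree * (U + 1) := by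
        rw [mul_add, ← hU]
        omega
    _ ≤ f.natDegree * (2 * (univ.filter fun b : ZMod p => h b = 0).card) :=
        Nat.mul_le_mul_left _ h5
    _ = _ := by ring

end MISS

theorem t_MISS : S_MISS := fun p hp f h2 hd => MISS.miss p hp f h2 hd

end Pool.Agent.T4h89.OM
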