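import Pool.Agent.T4h89.OM.Stm5

/-! # PMR: a polynomial defines a morphism of the projective line -/

set_option autoImplicit false

noncomputable section

namespace Pool.Agent.T4h89.OM

open MvPolynomial

theorem t_PMR : S_PMR := by
  intro K _ f hf
  constructor
  · refine Fin.forall_fin_two.2 ⟨?_, ?_⟩
    · show (∑ k ∈ Finset.range (f.natDegree + 1), MvPolynomial.C (f.coeff k) *
        MvPolynomial.X 0 ^ k * MvPolynomial.X 1 ^ (f.natDegree - k) :
        MvPolynomial (Fin 2) K).IsHomogeneous f.natDegree
      refine IsHomogeneous.sum _ _ _ fun k hk => ?_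
      have hk' : k ≤ f.natDegree := Nat.lt_succ_iff.1 (Finset.mem_range.1 hk)
      have h := ((isHomogeneous_C (Fin 2) (f.coeff k)).mul (isHomogeneous_X_pow (0 : Fin 2) k)).mul
        (isHomogeneous_X_pow (R := K) (1 : Fin 2) (f.natDegree - k))
      have e : 0 + k + (f.natDegree - k) = f.natDegree := by omega
      rwa [e] at h
    · exact isHomogeneous_X_pow (1 : Fin 2) f.natDegree
  · intro x hx
    have h0 := hx 0
    have h1 := hx 1
    have e1 : MvPolynomial.aeval x (polyMap f 1) = x 1 ^ f.natDegree := by
      show MvPolynomial.aeval x (MvPolynomial.X 1 ^ f.natDegree) = _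
      rw [map_pow, aeval_X]
    rw [e1] at h1
    have hx1 : x 1 = 0 := by
      exact pow_eq_zero_iff (by omega) |>.1 h1
    have e0 : MvPolynomial.aeval x (polyMap f 0) =
        algebraMap K (AlgebraicClosure K) f.leadingCoeff * x 0 ^ f.natDegree := by
      show MvPolynomial.aeval x (∑ k ∈ Finset.range (f.natDegree + 1),
        MvPolynomial.C (f.coeff k) * MvPolynomial.X 0 ^ k *
          MvPolynomial.X 1 ^ (f.natDegree - k)) = _
      rw [map_sum, Finset.sum_eq_single f.natDegree]
      · rw [map_mul, map_mul, map_pow, map_pow, aeval_X, aeval_X, aeval_C, Nat.sub_self, pow_zero,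
          mul_one]
        rfl
      · intro k hk hne
        have hk' : k < f.natDegree := by
          have := Finset.mem_range.1 hk
          omega
        rw [map_mul, map_pow _ (MvPolynomial.X 1), aeval_X, hx1, zero_pow (by omega), mul_zero]
      · intro h
        exact absurd (Finset.mem_range.2 (Nat.lt_succ_self _)) h
    rw [e0] at h0
    have hlc : algebraMap K (AlgebraicClosure K) f.leadingCoeff ≠ 0 := by
      rw [Ne, map_eq_zero]
      intro h
      rw [Polynomial.leadingCoeff_eq_zero] at h
      rw [h, Polynomial.natDegree_zero] at hf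
      omega
    have hx0 : x 0 = 0 := by
      rcases mul_eq_zero.1 h0 with h | h
      · exact absurd h hlc
      · exact pow_eq_zero_iff (by omega) |>.1 h
    funext i
    revert i
    exact Fin.forall_fin_two.2 ⟨hx0, hx1⟩

end Pool.Agent.T4h89.OM
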