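import Pool.Agent.T4h89.OM.Stm5
import Pool.Agent.T4h89.OM.Lem
import Pool.Agent.T4h89.OM.T_CNG
import Pool.Agent.T4h89.OM.T_SCL

/-! OM: reduction of a polynomial modulo large primes. -/

set_option autoImplicit false

open NumberField IsDedekindDomain Filter Topology

noncomputable section

namespace Pool.Agent.T4h89.OM

namespace PRED

/-- binary form with coefficients `a` -/
def hf {R : Type} [CommRing R] (a : ℕ → R) (d : ℕ) : MvPolynomial (Fin 2) R :=
  ∑ k ∈ Finset.range (d + 1), MvPolynomial.C (a k) * MvPolynomial.X 0 ^ k *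
      MvPolynomial.X 1 ^ (d - k)

lemma hf_map {R S : Type} [CommRing R] [CommRing S] (φ : R →+* S) (a : ℕ → R) (d : ℕ) :
    MvPolynomial.map φ (hf a d) = hf (fun k => φ (a k)) d := by
  unfold hf
  rw [map_sum]
  refine Finset.sum_congr rfl fun k _ => ?_
  rw [map_mul, map_mul, map_pow, map_pow, MvPolynomial.map_C, MvPolynomial.map_X,
    MvPolynomial.map_X]

lemma hf_smul {R : Type} [CommRing R] (c : R) (a : ℕ → R) (d : ℕ) :
    MvPolynomial.C c * hf a d = hf (fun k => c * a k) d := by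
  unfold hf
  rw [Finset.mul_sum]
  refine Finset.sum_congr rfl fun k _ => ?_
  rw [map_mul]
  ring

lemma hf_hom {R : Type} [CommRing R] (a : ℕ → R) (d : ℕ) : (hf a d).IsHomogeneous d := by
  unfold hf
  refine MvPolynomial.IsHomogeneous.sum _ _ _ fun k hk => ?_
  have hk' : k ≤ d := Nat.lt_succ_iff.1 (Finset.mem_range.1 hk)
  have h1 := ((MvPolynomial.isHomogeneous_C (Fin 2) (a k)).mul
    ((MvPolynomial.isHomogeneous_X R (0 : Fin 2)).pow k)).mul
    ((MvPolynomial.isHomogeneous_X R (1 : Fin 2)).pow (d - k))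
  have e : 0 + 1 * k + 1 * (d - k) = d := by omega
  rwa [e] at h1

lemma hf_eval {R : Type} [CommRing R] (a : ℕ → R) (d : ℕ) (x : Fin 2 → R) :
    MvPolynomial.eval x (hf a d) = ∑ k ∈ Finset.range (d + 1), a k * x 0 ^ k * x 1 ^ (d - k) := by
  unfold hf
  rw [map_sum]
  refine Finset.sum_congr rfl fun k _ => ?_
  rw [map_mul, map_mul, map_pow, map_pow, MvPolynomial.eval_C, MvPolynomial.eval_X,
    MvPolynomial.eval_X]

/-- the integral forms -/
def Ph (a : ℕ → ℤ) (d : ℕ) (N : ℤ) : Fin 2 → MvPolynomial (Fin 2) ℤ :=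
  ![hf a d, MvPolynomial.C N * MvPolynomial.X 1 ^ d]

/-- powers of the variables as combinations of the forms -/
lemma res (a : ℕ → ℤ) (d : ℕ) (N : ℤ) (hd : 1 ≤ d) :
    ∃ G : Fin 2 → Fin 2 → MvPolynomial (Fin 2) ℤ, ∀ i,
      MvPolynomial.C (N * a d ^ d) * MvPolynomial.X i ^ (d * d) = ∑ j, G i j * Ph a d N j := by
  set H : MvPolynomial (Fin 2) ℤ := ∑ k ∈ Finset.range d, MvPolynomial.C (a k) *
    MvPolynomial.X 0 ^ k * MvPolynomial.X 1 ^ (d - k - 1) with hH
  set x : MvPolynomial (Fin 2) ℤ := MvPolynomial.C (a d) * MvPolynomial.X 0 ^ d with hx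
  set y : MvPolynomial (Fin 2) ℤ := -(MvPolynomial.X 1 * H) with hy
  have h1 : hf a d = x - y := by
    unfold hf
    rw [Finset.sum_range_succ, hx, hy, hH, Nat.sub_self, pow_zero, mul_one, sub_neg_eq_add,
      Finset.mul_sum, add_comm]
    congr 1
    refine Finset.sum_congr rfl fun k hk => ?_
    have hk' := Finset.mem_range.1 hk
    have e : d - k = (d - k - 1) + 1 := by omega
    conv_lhs => rw [e]
    rw [pow_succ]
    ring
  obtain ⟨Q, hQ⟩ := sub_dvd_pow_sub_pow x y d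
  refine ⟨![![MvPolynomial.C N * Q, (-1) ^ d * H ^ d],
    ![0, MvPolynomial.C (a d ^ d) * MvPolynomial.X 1 ^ (d * d - d)]], fun i => ?_⟩
  have hdd : d * d - d + d = d * d := Nat.sub_add_cancel (Nat.le_mul_of_pos_left d hd)
  fin_cases i
  · simp only [Fin.zero_eta, Fin.isValue, Fin.sum_univ_two, Matrix.cons_val_zero,
      Matrix.cons_val_one, Ph]
    have h2 : y ^ d = (-1) ^ d * (MvPolynomial.X 1 ^ d * H ^ d) := by
      rw [hy, neg_pow, mul_pow]
    have h3 : x ^ d = MvPolynomial.C (a d ^ d) * MvPolynomial.X 0 ^ (d * d) := by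
      rw [hx, mul_pow, ← pow_mul, ← map_pow]
    rw [h1, map_mul, mul_assoc, ← h3]
    rw [← h1] at hQ ⊢
    linear_combination MvPolynomial.C N * hQ + MvPolynomial.C N * h2
  · simp only [Fin.mk_one, Fin.isValue, Fin.sum_univ_two, Matrix.cons_val_zero,
      Matrix.cons_val_one, Ph, zero_mul, zero_add]
    rw [map_mul]
    conv_lhs => rw [← hdd, pow_add]
    ring

theorem good (p : ℕ) [Fact p.Prime] {n : ℕ} (Φ : Fin n → MvPolynomial (Fin n) ℤ)
    (P : Fin n → MvPolynomial (Fin n) ℚ) (c : ℚ)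
    (hc : ∀ i, MvPolynomial.C c * P i = MvPolynomial.map (Int.castRingHom ℚ) (Φ i))
    (ρ : ℤ) (r : ℕ) (G : Fin n → Fin n → MvPolynomial (Fin n) ℤ)
    (h : ∀ i, MvPolynomial.C ρ * MvPolynomial.X i ^ r = ∑ j, G i j * Φ j)
    (hρ : (ρ : ZMod p) ≠ 0) : GoodRed (MAIN3.vp p) P := by
  have hρ0 : (ρ : ℚ) ≠ 0 := by
    intro h0
    have h1 : ρ = 0 := by exact_mod_cast h0
    rw [h1] at hρ
    simp at hρ
  refine ⟨c, fun i m => ?_, r, fun i j => MvPolynomial.C ((ρ : ℚ)⁻¹) *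
    MvPolynomial.map (Int.castRingHom ℚ) (G i j), fun i j m => ?_, fun i => ?_⟩
  · rw [← MvPolynomial.coeff_C_mul, hc, MvPolynomial.coeff_map]
    exact MAIN3.val_int p _
  · rw [MvPolynomial.coeff_C_mul, MvPolynomial.coeff_map, map_mul, map_inv₀,
      MAIN3.val_unit p ρ hρ, inv_one, one_mul]
    exact MAIN3.val_int p _
  · have h1 := congrArg (MvPolynomial.map (Int.castRingHom ℚ)) (h i)
    rw [map_mul, map_pow, MvPolynomial.map_C, MvPolynomial.map_X, map_sum] at h1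
    have h2 : MvPolynomial.C ((ρ : ℚ)⁻¹) * (MvPolynomial.C (ρ : ℚ) * MvPolynomial.X i ^ r) =
      (MvPolynomial.X i ^ r : MvPolynomial (Fin n) ℚ) := by
      rw [← mul_assoc, ← map_mul, inv_mul_cancel₀ hρ0, map_one, one_mul]
    rw [← h2]
    change MvPolynomial.C ((ρ : ℚ)⁻¹) * (MvPolynomial.C ((Int.castRingHom ℚ) ρ) *
      MvPolynomial.X i ^ r) = _
    rw [h1, Finset.mul_sum]
    refine Finset.sum_congr rfl fun j _ => ?_
    rw [map_mul, hc, mul_assoc]

lemma ne_of_lt (p : ℕ) (N : ℤ) (hN : N ≠ 0) (h : N.natAbs < p) : (N : ZMod p) ≠ 0 := by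
  intro h0
  have h1 := (ZMod.intCast_zmod_eq_zero_iff_dvd N p).1 h0
  have h2 := Int.natAbs_dvd_natAbs.2 h1
  rw [Int.natAbs_natCast] at h2
  exact absurd (Nat.le_of_dvd (Int.natAbs_pos.2 hN) h2) (not_le.2 h)

/-- binary forms and polynomials -/
lemma dehom {F : Type} [Field F] (q : Polynomial F) (d : ℕ) (hq : q.natDegree ≤ d) (s t : F)
    (ht : t ≠ 0) : ∑ k ∈ Finset.range (d + 1), q.coeff k * s ^ k * t ^ (d - k) =
      t ^ d * q.eval (s / t) := by
  rw [Polynomial.eval_eq_sum_range' (Nat.lt_succ_of_le hq), Finset.mul_sum]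
  refine Finset.sum_congr rfl fun k hk => ?_
  have hk' : k ≤ d := Nat.lt_succ_iff.1 (Finset.mem_range.1 hk)
  have e : t ^ d = t ^ (d - k) * t ^ k := by rw [← pow_add, Nat.sub_add_cancel hk']
  rw [e, div_pow]
  field_simp

end PRED

open PRED in
theorem t_PRED : S_PRED := by
  intro f hf2
  obtain ⟨b, hbm, hb⟩ := IsLocalization.integerNormalization_spec (nonZeroDivisors ℤ) f
  set g : Polynomial ℤ := IsLocalization.integerNormalization (nonZeroDivisors ℤ) f with hg
  set N : ℤ := b with hN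
  have hN0 : N ≠ 0 := nonZeroDivisors.ne_zero hbm
  have hNQ : (N : ℚ) ≠ 0 := by exact_mod_cast hN0
  set d := f.natDegree with hd
  have hco : ∀ k, ((g.coeff k : ℤ) : ℚ) = N * f.coeff k := by
    intro k
    have h1 := congrArg (fun q : Polynomial ℚ => q.coeff k) hb
    simp only [Polynomial.coeff_map, Polynomial.coeff_smul] at h1
    rw [← zsmul_eq_mul]
    exact h1
  have hgd : g.natDegree = d := by
    have h1 : (g.map (algebraMap ℤ ℚ)).natDegree = g.natDegree :=
      Polynomial.natDegree_map_eq_of_injective (algebraMap ℤ ℚ).injective_int g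
    rw [← h1, hb]
    show ((N : ℤ) • f).natDegree = _
    rw [zsmul_eq_mul]
    have h2 : ((N : ℤ) : Polynomial ℚ) = Polynomial.C (N : ℚ) := by simp
    rw [h2, Polynomial.natDegree_C_mul hNQ]
  set l : ℤ := g.coeff d with hl
  have hl0 : l ≠ 0 := by
    rw [hl, ← hgd]
    intro h0
    have h1 : g = 0 := Polynomial.leadingCoeff_eq_zero.1 h0
    rw [h1, Polynomial.natDegree_zero] at hgd
    omega
  refine ⟨N.natAbs + l.natAbs + 1, fun p _ hp => ?_⟩
  have hNp : (N : ZMod p) ≠ 0 := ne_of_lt p N hN0 (by omega)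
  have hlp : (l : ZMod p) ≠ 0 := ne_of_lt p l hl0 (by omega)
  set gp : Polynomial (ZMod p) := g.map (Int.castRingHom (ZMod p)) with hgp
  have hgpd : gp.natDegree = d := by
    rw [hgp, Polynomial.natDegree_map_of_leadingCoeff_ne_zero, hgd]
    show (Int.castRingHom (ZMod p)) (g.coeff g.natDegree) ≠ 0
    rw [hgd]
    exact hlp
  refine ⟨Polynomial.C (N : ZMod p)⁻¹ * gp, ?_, ?_, ?_⟩
  · rw [Polynomial.natDegree_C_mul (inv_ne_zero hNp), hgpd]
  · obtain ⟨G, hG⟩ := res g.coeff d N (by omega)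
    refine good p (Ph g.coeff d N) (polyMap f) (N : ℚ) (fun i => ?_) _ _ G hG ?_
    · fin_cases i
      · show MvPolynomial.C (N : ℚ) * hf f.coeff d = MvPolynomial.map _ (hf g.coeff d)
        rw [hf_smul, hf_map]
        congr 1
        funext k
        exact (hco k).symm
      · show MvPolynomial.C (N : ℚ) * MvPolynomial.X 1 ^ d =
          MvPolynomial.map _ (MvPolynomial.C N * MvPolynomial.X 1 ^ d)
        rw [map_mul, map_pow, MvPolynomial.map_C, MvPolynomial.map_X]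
        rfl
    · push_cast
      exact mul_ne_zero hNp (pow_ne_zero _ hlp)
  · intro b hb m hm hcong
    -- the iterates, in integers
    set Φ := Ph g.coeff d N with hΦ
    have hunit : ∀ k : ℕ, (((ev Φ)^[k] ![b, 1] 1 : ℤ) : ZMod p) ≠ 0 := by
      intro k
      induction k with
      | zero => simp
      | succ k ih =>
        rw [Function.iterate_succ_apply']
        have h1 : ev Φ ((ev Φ)^[k] ![b, 1]) 1 = N * ((ev Φ)^[k] ![b, 1] 1) ^ d := by
          show MvPolynomial.eval _ (MvPolynomial.C N * MvPolynomial.X 1 ^ d) = _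
          rw [map_mul, map_pow, MvPolynomial.eval_C, MvPolynomial.eval_X]
        rw [h1, Int.cast_mul, Int.cast_pow]
        exact mul_ne_zero hNp (pow_ne_zero _ ih)
    have hhom : ∀ i, (polyMap f i).IsHomogeneous d := by
      intro i
      fin_cases i
      · exact hf_hom f.coeff d
      · show (MvPolynomial.X 1 ^ d : MvPolynomial (Fin 2) ℚ).IsHomogeneous d
        have h1 := (MvPolynomial.isHomogeneous_X ℚ (1 : Fin 2)).pow d
        rwa [one_mul] at h1
    have hmap : ∀ i, MvPolynomial.map (algebraMap (𝓞 ℚ) ℚ)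
        (mapF (Int.castRingHom (𝓞 ℚ)) Φ i) =
        MvPolynomial.C (algebraMap (𝓞 ℚ) ℚ (N : 𝓞 ℚ)) * polyMap f i := by
      intro i
      have h0 : (algebraMap (𝓞 ℚ) ℚ).comp (Int.castRingHom (𝓞 ℚ)) = Int.castRingHom ℚ :=
        RingHom.ext_int _ _
      show MvPolynomial.map _ (MvPolynomial.map _ (Φ i)) = _
      rw [MvPolynomial.map_map, h0, map_intCast]
      fin_cases i
      · show MvPolynomial.map _ (hf g.coeff d) = MvPolynomial.C (N : ℚ) * hf f.coeff d
        rw [hf_smul, hf_map]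
        congr 1
        funext k
        exact hco k
      · show MvPolynomial.map _ (MvPolynomial.C N * MvPolynomial.X 1 ^ d) =
          MvPolynomial.C (N : ℚ) * MvPolynomial.X 1 ^ d
        rw [map_mul, map_pow, MvPolynomial.map_C, MvPolynomial.map_X]
        rfl
    obtain ⟨c, hc0, hc⟩ := SCLaux.iter (polyMap f) (mapF (Int.castRingHom (𝓞 ℚ)) Φ) (N : 𝓞 ℚ)
      (by exact_mod_cast hN0) hhom hmap ![(b : ℚ), 1]
      ((Int.castRingHom (𝓞 ℚ)) ∘ ![b, 1]) 1 one_ne_zero (fun i => by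
        fin_cases i
        · simp
        · simp) m
    rw [ev_mapF_iter] at hc
    have hun : ∃ i, ((Int.castRingHom (𝓞 ℚ)) ∘ (ev Φ)^[m] ![b, 1]) i ∉ (MAIN3.vp p).asIdeal :=
      ⟨1, fun h => hunit m ((MAIN3.int_mem_vp p _).1 h)⟩
    have hpm := (t_CNG ℚ 2 (MAIN3.vp p) _ _ ((Int.castRingHom (𝓞 ℚ)) ∘ (ev Φ)^[m] ![b, 1])
      ((Int.castRingHom (𝓞 ℚ)) ∘ ![b, 1]) c 1 hc0 one_ne_zero hc (fun i => by
        fin_cases i
        · simp
        · simp) hun ⟨1, fun h => hunit 0 ((MAIN3.int_mem_vp p _).1 h)⟩).1 hcong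
    have h01 := hpm 0 1
    obtain ⟨k, rfl⟩ : ∃ k, m = k + 1 := ⟨m - 1, by omega⟩
    set u := (ev Φ)^[k] ![b, 1] with hu
    have hz : (ev Φ)^[k + 1] ![b, 1] = ev Φ u := by
      rw [Function.iterate_succ_apply']
    rw [hz] at h01
    have h2 : ((ev Φ u 0 * 1 - ev Φ u 1 * b : ℤ) : ZMod p) = 0 := by
      rw [← MAIN3.int_mem_vp]
      have h3 : (((ev Φ u 0 * 1 - ev Φ u 1 * b : ℤ)) : 𝓞 ℚ) =
          ((Int.castRingHom (𝓞 ℚ)) ∘ ev Φ u) 0 * ((Int.castRingHom (𝓞 ℚ)) ∘ ![b, 1]) 1 -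
          ((Int.castRingHom (𝓞 ℚ)) ∘ ev Φ u) 1 * ((Int.castRingHom (𝓞 ℚ)) ∘ ![b, 1]) 0 := by
        simp
      rw [h3]
      exact h01
    have he0 : ((ev Φ u 0 : ℤ) : ZMod p) = (u 1 : ZMod p) ^ d * gp.eval ((u 0 : ZMod p) / u 1) := by
      rw [← dehom gp d hgpd.le (u 0 : ZMod p) (u 1) (hunit k)]
      show ((MvPolynomial.eval u (hf g.coeff d) : ℤ) : ZMod p) = _
      rw [hf_eval]
      push_cast
      refine Finset.sum_congr rfl fun i _ => ?_
      rw [hgp, Polynomial.coeff_map]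
      rfl
    have he1 : ((ev Φ u 1 : ℤ) : ZMod p) = (N : ZMod p) * (u 1 : ZMod p) ^ d := by
      have h1 : ev Φ u 1 = N * (u 1) ^ d := by
        show MvPolynomial.eval _ (MvPolynomial.C N * MvPolynomial.X 1 ^ d) = _
        rw [map_mul, map_pow, MvPolynomial.eval_C, MvPolynomial.eval_X]
      rw [h1]
      push_cast
      rfl
    apply hb ((u 0 : ZMod p) / u 1)
    rw [Int.cast_sub, Int.cast_mul, Int.cast_mul, he0, he1, Int.cast_one, mul_one] at h2
    rw [Polynomial.eval_mul, Polynomial.eval_C]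
    have h4 : (u 1 : ZMod p) ^ d ≠ 0 := pow_ne_zero _ (hunit k)
    have h5 : (u 1 : ZMod p) ^ d * (gp.eval ((u 0 : ZMod p) / u 1) - N * b) = 0 := by
      linear_combination h2
    have h6 := (mul_eq_zero.1 h5).resolve_left h4
    rw [sub_eq_zero.1 h6, inv_mul_cancel_left₀ hNp]

end Pool.Agent.T4h89.OM
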