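import Pool.Agent.T4h89.OM.Stm5
import Pool.Agent.T4h89.OM.Lem

/-! OM: the fibres of maps of degree two without rational points. -/

set_option autoImplicit false

open NumberField IsDedekindDomain Filter Topology

noncomputable section

namespace Pool.Agent.T4h89.OM

namespace QSUB

open Finsupp in
/-- binary quadratic forms -/
lemma quad {K : Type} [Field K] (P : MvPolynomial (Fin 2) K) (hP : P.IsHomogeneous 2) :
    ∃ a b c : K, ∀ (A : Type) [CommRing A] [Algebra K A] (x : Fin 2 → A),
      MvPolynomial.aeval x P = algebraMap K A a * x 0 ^ 2 + algebraMap K A b * (x 0 * x 1) +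
        algebraMap K A c * x 1 ^ 2 := by
  classical
  refine ⟨P.coeff (single 0 2), P.coeff (single 0 1 + single 1 1), P.coeff (single 1 2),
    fun A _ _ x => ?_⟩
  rw [MvPolynomial.aeval_def, MvPolynomial.eval₂_eq']
  set S : Finset (Fin 2 →₀ ℕ) := {single 0 2, single 0 1 + single 1 1, single 1 2} with hS
  have hsub : P.support ⊆ S := by
    intro m hm
    have h1 : m.degree = 2 := by
      have := hP (MvPolynomial.mem_support_iff.1 hm)
      rw [Finsupp.degree_eq_weight_one]
      exact this
    rw [Finsupp.degree_eq_sum, Fin.sum_univ_two] at h1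
    rw [hS, Finset.mem_insert, Finset.mem_insert, Finset.mem_singleton]
    have h3 : m 0 = 2 ∨ m 0 = 1 ∨ m 0 = 0 := by omega
    rcases h3 with h3 | h3 | h3
    · left
      ext i
      fin_cases i
      · simp [h3]
      · simp; omega
    · right; left
      ext i
      fin_cases i
      · simp [h3]
      · simp; omega
    · right; right
      ext i
      fin_cases i
      · simp [h3]
      · simp; omega
  rw [Finset.sum_subset hsub (fun m _ hm => by
    rw [MvPolynomial.notMem_support_iff.1 hm, map_zero, zero_mul])]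
  have h1 : (single 0 2 : Fin 2 →₀ ℕ) ∉
      ({single 0 1 + single 1 1, single 1 2} : Finset (Fin 2 →₀ ℕ)) := by
    rw [Finset.mem_insert, Finset.mem_singleton]
    rintro (h | h)
    · have := DFunLike.congr_fun h 0
      simp at this
    · have := DFunLike.congr_fun h 0
      simp at this
  have h2 : (single 0 1 + single 1 1 : Fin 2 →₀ ℕ) ∉ ({single 1 2} : Finset (Fin 2 →₀ ℕ)) := by
    rw [Finset.mem_singleton]
    intro h
    have := DFunLike.congr_fun h 0
    simp at this
  rw [hS, Finset.sum_insert h1, Finset.sum_insert h2, Finset.sum_singleton]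
  simp only [Fin.prod_univ_two, Fin.isValue, Finsupp.add_apply]
  simp
  ring

end QSUB

open QSUB in
theorem t_QSUB : S_QSUB := by
  intro K _ _ F hF y hy hno
  set Ω := AlgebraicClosure K with hΩ
  set P : MvPolynomial (Fin 2) K := MvPolynomial.C (y 1) * F 0 - MvPolynomial.C (y 0) * F 1
    with hP
  have hPh : P.IsHomogeneous 2 := by
    have h0 := (MvPolynomial.isHomogeneous_C (Fin 2) (y 1)).mul (hF.hom 0)
    have h1 := (MvPolynomial.isHomogeneous_C (Fin 2) (y 0)).mul (hF.hom 1)
    rw [zero_add] at h0 h1
    exact h0.sub h1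
  obtain ⟨a, b, c, hq⟩ := quad P hPh
  -- the fibre
  have hpar : ∀ x : Fin 2 → Ω, Par (fun j => MvPolynomial.aeval x (F j))
      (fun j => algebraMap K Ω (y j)) → algebraMap K Ω a * x 0 ^ 2 +
        algebraMap K Ω b * (x 0 * x 1) + algebraMap K Ω c * x 1 ^ 2 = 0 := by
    intro x hx
    have h1 := hx 0 1
    rw [← hq Ω x, hP, map_sub, map_mul, map_mul, MvPolynomial.aeval_C, MvPolynomial.aeval_C]
    simp only at h1
    linear_combination h1
  have hparK : ∀ x : Fin 2 → K, x ≠ 0 → a * x 0 ^ 2 + b * (x 0 * x 1) + c * x 1 ^ 2 ≠ 0 := by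
    intro x hx0 hx
    apply hno x hx0
    have h1 := hq K x
    rw [Algebra.algebraMap_self, RingHom.id_apply, RingHom.id_apply, RingHom.id_apply, hx, hP,
      map_sub, map_mul, map_mul, MvPolynomial.aeval_C, MvPolynomial.aeval_C] at h1
    have h2 : ∀ j, MvPolynomial.aeval x (F j) = ev F x j := fun j => by
      show MvPolynomial.aeval x (F j) = MvPolynomial.eval x (F j)
      rw [MvPolynomial.aeval_def, MvPolynomial.eval₂_eq_eval_map, Algebra.algebraMap_self,
        MvPolynomial.map_id]
    rw [h2, h2, Algebra.algebraMap_self, RingHom.id_apply, RingHom.id_apply] at h1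
    intro i j
    fin_cases i <;> fin_cases j
    · rfl
    · show ev F x 0 * y 1 = ev F x 1 * y 0
      linear_combination h1
    · show ev F x 1 * y 0 = ev F x 0 * y 1
      linear_combination -h1
    · rfl
  have ha : a ≠ 0 := by
    intro h0
    refine hparK ![1, 0] (fun h => ?_) ?_
    · have := congrFun h 0
      simp at this
    · simp [h0]
  have h2K : (2 : K) ≠ 0 := two_ne_zero
  obtain ⟨δ, hδ⟩ := IsAlgClosed.exists_pow_nat_eq (algebraMap K Ω (b ^ 2 - 4 * a * c))
    (n := 2) (by norm_num)
  have hδK : δ ∉ Set.range (algebraMap K Ω) := by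
    rintro ⟨e, rfl⟩
    have he : e ^ 2 = b ^ 2 - 4 * a * c := by
      apply (algebraMap K Ω).injective
      rw [← hδ, map_pow]
    refine hparK ![(-b + e) / (2 * a), 1] (fun h => ?_) ?_
    · have := congrFun h 1
      simp at this
    · simp only [Matrix.cons_val_zero, Matrix.cons_val_one, Fin.isValue]
      field_simp
      linear_combination he
  have hδ0 : δ ≠ 0 := fun h => hδK ⟨0, by rw [map_zero, h]⟩
  refine ⟨MulAction.stabilizer (Ω ≃ₐ[K] Ω) δ, fun htop => hδK ?_, fun σ hσ x hx hxp hxs => ?_⟩
  · rw [InfiniteGalois.mem_range_algebraMap_iff_fixed]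
    intro σ
    have h1 : σ ∈ MulAction.stabilizer (Ω ≃ₐ[K] Ω) δ := by
      rw [htop]
      exact Subgroup.mem_top σ
    exact MulAction.mem_stabilizer_iff.1 h1
  · have haΩ : algebraMap K Ω a ≠ 0 := by
      rwa [Ne, map_eq_zero]
    have h2Ω : (2 : Ω) ≠ 0 := two_ne_zero
    have hσδ : σ δ = -δ := by
      have h1 : (σ δ - δ) * (σ δ + δ) = 0 := by
        have h2 : σ δ ^ 2 = δ ^ 2 := by
          rw [← map_pow, hδ, AlgEquiv.commutes]
        linear_combination h2
      rcases mul_eq_zero.1 h1 with h2 | h2
      · exfalso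
        apply hσ
        rw [MulAction.mem_stabilizer_iff]
        exact sub_eq_zero.1 h2
      · exact eq_neg_of_add_eq_zero_left h2
    have hQ := hpar x hxp
    have hx1 : x 1 ≠ 0 := by
      intro h1
      apply hx
      rw [h1] at hQ
      have h2 : algebraMap K Ω a * x 0 ^ 2 = 0 := by linear_combination hQ
      have h3 := (mul_eq_zero.1 h2).resolve_left haΩ
      funext i
      fin_cases i
      · exact eq_zero_of_pow_eq_zero h3
      · exact h1
    have hs : σ (x 0) * x 1 = σ (x 1) * x 0 := hxs 0 1
    set A := algebraMap K Ω a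
    set B := algebraMap K Ω b
    set C := algebraMap K Ω c
    have hδ2 : δ ^ 2 = B ^ 2 - 4 * A * C := by
      rw [hδ]
      simp only [map_sub, map_pow, map_mul, map_ofNat]
      rfl
    have hfac : (2 * A * x 0 + B * x 1 - δ * x 1) * (2 * A * x 0 + B * x 1 + δ * x 1) = 0 := by
      linear_combination 4 * A * hQ - x 1 ^ 2 * hδ2
    have hσA : σ A = A := AlgEquiv.commutes σ a
    have hσB : σ B = B := AlgEquiv.commutes σ b
    have hσ2 : σ 2 = 2 := map_ofNat σ 2
    have hσx1 : σ (x 1) ≠ 0 := fun h => hx1 (by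
      rw [← map_zero σ] at h
      exact σ.injective h)
    have hcontra : ∀ ε : Ω, (ε = 1 ∨ ε = -1) → 2 * A * x 0 + B * x 1 + ε * δ * x 1 = 0 → False := by
      intro ε hε h
      have hσε : σ ε = ε := by
        rcases hε with rfl | rfl
        · exact map_one σ
        · rw [map_neg, map_one]
      have hεn : ε ≠ 0 := by
        rcases hε with rfl | rfl
        · exact one_ne_zero
        · exact neg_ne_zero.2 one_ne_zero
      have h1 := congrArg σ h
      simp only [map_add, map_mul, map_zero, hσA, hσB, hσ2, hσδ, hσε] at h1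
      have h2 : 2 * ε * δ * (σ (x 1) * x 1) = 0 := by
        linear_combination σ (x 1) * h - x 1 * h1 + 2 * A * hs
      have h3 : 2 * ε * δ ≠ 0 := mul_ne_zero (mul_ne_zero h2Ω hεn) hδ0
      exact (mul_ne_zero h3 (mul_ne_zero hσx1 hx1)) h2
    rcases mul_eq_zero.1 hfac with h | h
    · exact hcontra (-1) (Or.inr rfl) (by linear_combination h)
    · exact hcontra 1 (Or.inl rfl) (by linear_combination h)

end Pool.Agent.T4h89.OM
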