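import Pool.Agent.T4h89.OM.Stm5

/-! # RESA: polynomials over `ℚ` and almost all targets -/

set_option autoImplicit false

open NumberField IsDedekindDomain Filter Topology

noncomputable section

namespace Pool.Agent.T4h89.OM

namespace RESA

/-- the counting argument, for any property of the target vectors which follows from a good prime -/
theorem core (hSIEVI : S_SIEVI) (hMISS : S_MISS) (hPRED : S_PRED) (g : ℕ)
    (f : Fin g → Polynomial ℚ) (hf : ∀ i, 2 ≤ (f i).natDegree) (Good : (Fin g → ℤ) → Prop)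
    (hGood : ∀ (p : ℕ) [Fact p.Prime] (b : Fin g → ℤ), (∀ i,
      GoodRed (MAIN3.vp p) (polyMap (f i)) ∧ ∀ m : ℕ, 1 ≤ m →
        ¬ Cong (MAIN3.vp p) ((ev (polyMap (f i)))^[m] ![(b i : ℚ), 1]) ![(b i : ℚ), 1]) →
      Good b) :
    Tendsto (fun B : ℕ => (Nat.card {b : Fin g → ℤ // (∀ i, |b i| ≤ B) ∧ Good b} : ℝ) /
      (2 * B + 1 : ℝ) ^ g) atTop (𝓝 1) := by
  classical
  choose p₀ hp₀ using fun i => hPRED (f i) (hf i)
  obtain ⟨D, hD⟩ : ∃ D, D = ∏ i, (f i).natDegree := ⟨_, rfl⟩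
  have hD0 : D ≠ 0 := by
    rw [hD]
    exact Finset.prod_ne_zero_iff.2 fun i _ => by have := hf i; omega
  have hdvd : ∀ i, (f i).natDegree ∣ D := fun i => by
    rw [hD]
    exact Finset.dvd_prod_of_mem _ (Finset.mem_univ i)
  let P : Set ℕ := {p | p.Prime ∧ p ≡ 1 [MOD D] ∧ ∀ i, p₀ i ≤ p}
  have hPinf : P.Infinite := by
    refine Set.infinite_of_forall_exists_gt fun n => ?_
    obtain ⟨p, hp, hpn, hpD⟩ := Nat.exists_prime_gt_modEq_one (k := D) (n + ∑ i, p₀ i) hD0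
    refine ⟨p, ⟨hp, hpD, fun i => ?_⟩, by omega⟩
    have := Finset.single_le_sum (f := p₀) (fun i _ => Nat.zero_le _) (Finset.mem_univ i)
    omega
  let G : ∀ p : ℕ, Set (Fin g → ZMod p) := fun p =>
    {z | ∀ x : Fin g → ℤ, (fun i => ((x i : ℤ) : ZMod p)) = z → Good x}
  obtain ⟨θ, hθ⟩ : ∃ θ : ℝ, θ = (∏ i, (2 * ((f i).natDegree : ℝ)))⁻¹ := ⟨_, rfl⟩
  have hprod : 0 < ∏ i, (2 * ((f i).natDegree : ℝ)) := Finset.prod_pos fun i _ => by
    have : 0 < (f i).natDegree := by have := hf i; omega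
    positivity
  have hθ0 : 0 < θ := by rw [hθ]; exact inv_pos.2 hprod
  have hcard : ∀ p ∈ P, θ * (p : ℝ) ^ Fintype.card (Fin g) ≤ Nat.card (G p) := by
    rintro p ⟨hp, hpD, hpp⟩
    have : Fact p.Prime := ⟨hp⟩
    choose fp hfp1 hfp2 hfp3 using fun i => hp₀ i p (hpp i)
    have hsub : ∀ z : Fin g → ZMod p, (∀ i, ∀ a, (fp i).eval a ≠ z i) → z ∈ G p := by
      intro z hz x hx
      refine hGood p x fun i => ⟨hfp2 i, fun m hm => hfp3 i (x i) (fun a ha => ?_) m hm⟩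
      refine hz i a ?_
      rw [ha]
      exact congrFun hx i
    have hle : Nat.card {z : Fin g → ZMod p // ∀ i, ∀ a, (fp i).eval a ≠ z i} ≤
        Nat.card (G p) :=
      Nat.card_le_card_of_injective (fun z => (⟨z.1, hsub z.1 z.2⟩ : G p))
        fun a b hab => Subtype.ext (congrArg (fun z => z.1) hab)
    have hpi : Nat.card {z : Fin g → ZMod p // ∀ i, ∀ a, (fp i).eval a ≠ z i} =
        ∏ i, Nat.card {b : ZMod p // ∀ a, (fp i).eval a ≠ b} := by
      rw [Nat.card_congr (Equiv.subtypePiEquivPi (β := fun _ : Fin g => ZMod p)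
        (p := fun i b => ∀ a, (fp i).eval a ≠ b)), Nat.card_pi]
    have hmiss : ∀ i, (p : ℝ) ≤ 2 * ((f i).natDegree : ℝ) *
        (Nat.card {b : ZMod p // ∀ a, (fp i).eval a ≠ b} : ℝ) := by
      intro i
      have h1 := hMISS p hp (fp i) (by rw [hfp1]; exact hf i) (by
        rw [hfp1]
        exact (hdvd i).trans ((Nat.modEq_iff_dvd' hp.one_le).1 hpD.symm))
      rw [hfp1] at h1
      exact_mod_cast h1
    have h2 : (p : ℝ) ^ g ≤ (∏ i, (2 * ((f i).natDegree : ℝ))) *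
        ∏ i, (Nat.card {b : ZMod p // ∀ a, (fp i).eval a ≠ b} : ℝ) := by
      rw [← Finset.prod_mul_distrib]
      have h3 : (p : ℝ) ^ g = ∏ _i : Fin g, (p : ℝ) := by
        rw [Finset.prod_const, Finset.card_univ, Fintype.card_fin]
      rw [h3]
      exact Finset.prod_le_prod (fun i _ => Nat.cast_nonneg _) fun i _ => hmiss i
    rw [Fintype.card_fin]
    have h4 : θ * (p : ℝ) ^ g ≤ ∏ i, (Nat.card {b : ZMod p // ∀ a, (fp i).eval a ≠ b} : ℝ) := by
      rw [hθ, inv_mul_le_iff₀ hprod]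
      exact h2
    refine h4.trans ?_
    have h5 : ((∏ i, Nat.card {b : ZMod p // ∀ a, (fp i).eval a ≠ b} : ℕ) : ℝ) ≤
        (Nat.card (G p) : ℝ) := by
      rw [← hpi]
      exact_mod_cast hle
    rw [Nat.cast_prod] at h5
    exact h5
  have hS := hSIEVI (Fin g) P G θ hθ0 hPinf (fun p hp => hp.1) hcard
  rw [Fintype.card_fin] at hS
  have hfin : ∀ B : ℕ, Finite {b : Fin g → ℤ // ∀ i, |b i| ≤ (B : ℤ)} := fun B =>
    MAIN3.finite_box (Fin g) B
  have hpos : ∀ B : ℕ, (0 : ℝ) < (2 * B + 1 : ℝ) ^ g := fun B => by positivity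
  refine tendsto_of_tendsto_of_tendsto_of_le_of_le hS tendsto_const_nhds ?_ ?_
  · intro B
    refine div_le_div_of_nonneg_right ?_ (hpos B).le
    have hf1 := hfin B
    have hf2 : Finite {b : Fin g → ℤ // (∀ i, |b i| ≤ (B : ℤ)) ∧ Good b} :=
      Finite.of_injective (fun b => (⟨b.1, b.2.1⟩ : {b : Fin g → ℤ // ∀ i, |b i| ≤ (B : ℤ)}))
        fun a b hab => Subtype.ext (congrArg (fun z => z.1) hab)
    refine Nat.cast_le.2 (Nat.card_le_card_of_injective (fun x => ⟨x.1, x.2.1, ?_⟩)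
        fun a b hab => Subtype.ext (congrArg (fun z => z.1) hab))
    obtain ⟨p, _, hg⟩ := x.2.2
    exact hg x.1 rfl
  · intro B
    have hf1 := hfin B
    have hle : Nat.card {b : Fin g → ℤ // (∀ i, |b i| ≤ (B : ℤ)) ∧ Good b} ≤
        Nat.card {b : Fin g → ℤ // ∀ i, |b i| ≤ (B : ℤ)} :=
      Nat.card_le_card_of_injective (fun b => ⟨b.1, b.2.1⟩)
        fun a b hab => Subtype.ext (congrArg (fun z => z.1) hab)
    rw [MAIN3.card_box (Fin g) B, Fintype.card_fin] at hle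
    have hle' : (Nat.card {b : Fin g → ℤ // (∀ i, |b i| ≤ (B : ℤ)) ∧ Good b} : ℝ) ≤
        (2 * B + 1 : ℝ) ^ g := by exact_mod_cast hle
    exact div_le_one_of_le₀ hle' (hpos B).le

theorem one_ne {K : Type} [Field K] (b : K) : (![b, 1] : Fin 2 → K) ≠ 0 := by
  intro h
  have := congrFun h 1
  simp at this

end RESA

theorem t_RESA (hMONE : S_MONE) (hSIEVI : S_SIEVI) (hMISS : S_MISS) (hPMR : S_PMR)
    (hPRED : S_PRED) : S_RESA := by
  intro g f hf
  refine RESA.core hSIEVI hMISS hPRED g f hf _ ?_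
  intro p _ b hb α hα hpar
  exact hMONE ℚ 2 g (fun i => (f i).natDegree) (fun i => by have := hf i; omega)
    (fun i => polyMap (f i)) (fun i => hPMR ℚ (f i) (by have := hf i; omega)) α
    (fun i => ![(b i : ℚ), 1]) hα (fun i => RESA.one_ne _) hpar (MAIN3.vp p)
    (fun i => (hb i).1) fun i m hm => (hb i).2 m hm

end Pool.Agent.T4h89.OM
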