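import Pool.Agent.T4h89.OM.Stm5
import Pool.Agent.T4h89.OM.T_RESA

/-! # RESB: several points, none periodic modulo a positive density of primes -/

set_option autoImplicit false

open NumberField IsDedekindDomain Filter Topology

noncomputable section

namespace Pool.Agent.T4h89.OM

namespace RESB

/-- proportional vectors are congruent -/
theorem cong_of_par {K : Type} [Field K] [NumberField K] {n : ℕ} (v : HeightOneSpectrum (𝓞 K))
    {x y : Fin n → K} (hx : x ≠ 0) (hy : y ≠ 0) (h : Par x y) : Cong v x y := by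
  obtain ⟨j0, hj0⟩ := Function.ne_iff.1 hx
  have hj0' : x j0 ≠ 0 := hj0
  obtain ⟨i0, -, hi0⟩ := Finset.exists_max_image Finset.univ (fun i => v.valuation K (x i))
    ⟨j0, Finset.mem_univ j0⟩
  have hxi : x i0 ≠ 0 := by
    intro h0
    have h1 := hi0 j0 (Finset.mem_univ _)
    rw [h0, map_zero] at h1
    exact hj0' ((map_eq_zero _).1 (le_zero_iff.1 h1))
  have hyi : y i0 ≠ 0 := by
    intro h0
    apply hy
    funext j
    have h1 := h i0 j
    rw [h0, mul_zero] at h1
    exact (mul_eq_zero.1 h1).resolve_left hxi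
  have hyx : ∀ j, (y i0)⁻¹ * y j = (x i0)⁻¹ * x j := by
    intro j
    have h1 := h i0 j
    field_simp
    linear_combination h1
  have hle : ∀ i, v.valuation K ((x i0)⁻¹ * x i) ≤ 1 := by
    intro i
    have h1 := hi0 i (Finset.mem_univ _)
    have hv0 : v.valuation K (x i0) ≠ 0 := (map_ne_zero _).2 hxi
    rw [map_mul, map_inv₀]
    calc (v.valuation K (x i0))⁻¹ * v.valuation K (x i)
        ≤ (v.valuation K (x i0))⁻¹ * v.valuation K (x i0) := mul_le_mul_right h1 _
      _ = 1 := inv_mul_cancel₀ hv0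
  refine ⟨(x i0)⁻¹, (y i0)⁻¹, hle, ⟨i0, ?_⟩, fun i => ?_, ⟨i0, ?_⟩, fun i => ?_⟩
  · rw [inv_mul_cancel₀ hxi, map_one]
  · rw [hyx i]
    exact hle i
  · rw [inv_mul_cancel₀ hyi, map_one]
  · rw [hyx i, sub_self, map_zero]
    exact zero_lt_one

theorem ev_ne {K : Type} [Field K] {n d : ℕ} {F : Fin n → MvPolynomial (Fin n) K}
    (hF : IsMor d F) {x : Fin n → K} (hx : x ≠ 0) : ev F x ≠ 0 := by
  intro h
  apply hx
  have h1 := hF.zero (fun i => algebraMap K (AlgebraicClosure K) (x i)) fun i => by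
    have h2 : MvPolynomial.eval x (F i) = 0 := congrFun h i
    have h3 : MvPolynomial.aeval (fun i => algebraMap K (AlgebraicClosure K) (x i)) (F i) =
        algebraMap K (AlgebraicClosure K) (MvPolynomial.eval x (F i)) := by
      have := MvPolynomial.aeval_algebraMap_apply (AlgebraicClosure K) x (F i)
      exact this
    rw [h3, h2, map_zero]
  funext i
  have h4 := congrFun h1 i
  exact (map_eq_zero _).1 h4

theorem iter_ne {K : Type} [Field K] {n d : ℕ} {F : Fin n → MvPolynomial (Fin n) K}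
    (hF : IsMor d F) {x : Fin n → K} (hx : x ≠ 0) (m : ℕ) : (ev F)^[m] x ≠ 0 := by
  induction m with
  | zero => exact hx
  | succ m ih =>
    rw [Function.iterate_succ_apply']
    exact ev_ne hF ih

end RESB

theorem t_RESB (hMONE : S_MONE) (hSIEVI : S_SIEVI) (hMISS : S_MISS) (hPMR : S_PMR)
    (hPRED : S_PRED) : S_RESB := by
  intro g f hf
  refine RESA.core hSIEVI hMISS hPRED g (fun _ => f) (fun _ => hf) _ ?_
  intro p _ b hb
  have hmor : IsMor f.natDegree (polyMap f) := hPMR ℚ f (by omega)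
  have hy : ∀ i : Fin g, (![(b i : ℚ), 1] : Fin 2 → ℚ) ≠ 0 := fun i => RESA.one_ne _
  have hx : ∀ i : Fin g, ev (polyMap f) ![(b i : ℚ), 1] ≠ 0 := fun i => RESB.ev_ne hmor (hy i)
  have h := hMONE ℚ 2 g (fun _ => f.natDegree) (fun _ => by omega)
    (fun _ => polyMap f) (fun _ => hmor) (fun i => ev (polyMap f) ![(b i : ℚ), 1])
    (fun i => ![(b i : ℚ), 1]) hx hy (fun i m hpar => ?_) (MAIN3.vp p)
    (fun i => (hb i).1) fun i m hm => (hb i).2 m hm
  · have e : {v : HeightOneSpectrum (𝓞 ℚ) | ∀ (i : Fin g) (m : ℕ), 1 ≤ m →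
        ¬ Cong v ((ev (polyMap f))^[m] ![(b i : ℚ), 1]) ![(b i : ℚ), 1]} =
        {v : HeightOneSpectrum (𝓞 ℚ) | ∀ i : Fin g,
          v ∈ Avoid (polyMap f) (ev (polyMap f) ![(b i : ℚ), 1]) ![(b i : ℚ), 1]} := by
      ext v
      constructor
      · intro hv i m
        rw [← Function.iterate_succ_apply]
        exact hv i (m + 1) (by omega)
      · intro hv i m hm
        obtain ⟨k, rfl⟩ : ∃ k, m = k + 1 := ⟨m - 1, by omega⟩
        rw [Function.iterate_succ_apply]
        exact hv i k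
    rw [e]
    exact h
  · rw [← Function.iterate_succ_apply] at hpar
    exact (hb i).2 (m + 1) (by omega)
      (RESB.cong_of_par _ (RESB.iter_ne hmor (hy i) _) (hy i) hpar)

end Pool.Agent.T4h89.OM
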