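import Pool.Agent.T4h89.OM.Stm6
import Pool.Agent.T4h89.OM.T_RESB

/-! # RESB2: one arbitrary point and almost all others, none periodic modulo primes -/

set_option autoImplicit false

open NumberField IsDedekindDomain Filter Topology

noncomputable section

namespace Pool.Agent.T4h89.OM

namespace RESB2

/-- the counting argument with a set `Q` of primes, for any property of the target vectors which
follows from a good prime -/
theorem core2 (hSIEVI : S_SIEVI) (hMISS : S_MISS) (hPRED : S_PRED) (g : ℕ)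
    (f : Fin g → Polynomial ℚ) (hf : ∀ i, 2 ≤ (f i).natDegree) (Q : ℕ → Prop)
    (hQ : ∀ D : ℕ, 1 ≤ D → ∀ N : ℕ, ∃ p : ℕ, p.Prime ∧ N ≤ p ∧ p % D = 1 % D ∧ Q p)
    (Good : (Fin g → ℤ) → Prop)
    (hGood : ∀ (p : ℕ) [Fact p.Prime] (b : Fin g → ℤ), Q p → (∀ i,
      GoodRed (MAIN3.vp p) (polyMap (f i)) ∧ ∀ m : ℕ, 1 ≤ m →
        ¬ Cong (MAIN3.vp p) ((ev (polyMap (f i)))^[m] ![(b i : ℚ), 1]) ![(b i : ℚ), 1]) →
      Good b) :
    Tendsto (fun B : ℕ => (Nat.card {b : Fin g → ℤ // (∀ i, |b i| ≤ B) ∧ Good b} : ℝ) /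
      (2 * B + 1 : ℝ) ^ g) atTop (𝓝 1) := by
  classical
  choose p₀ hp₀ using fun i => hPRED (f i) (hf i)
  obtain ⟨D, hD⟩ : ∃ D, D = ∏ i, (f i).natDegree := ⟨_, rfl⟩
  have hD0 : D ≠ 0 := by
    rw [hD]
    exact Finset.prod_ne_zero_iff.2 fun i _ => by have := hf i; omega
  have hdvd : ∀ i, (f i).natDegree ∣ D := fun i => by
    rw [hD]
    exact Finset.dvd_prod_of_mem _ (Finset.mem_univ i)
  let P : Set ℕ := {p | p.Prime ∧ p ≡ 1 [MOD D] ∧ (∀ i, p₀ i ≤ p) ∧ Q p}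
  have hPinf : P.Infinite := by
    refine Set.infinite_of_forall_exists_gt fun n => ?_
    obtain ⟨p, hp, hpn, hpD, hpQ⟩ := hQ D (Nat.one_le_iff_ne_zero.2 hD0) (n + 1 + ∑ i, p₀ i)
    refine ⟨p, ⟨hp, hpD, fun i => ?_, hpQ⟩, by omega⟩
    have := Finset.single_le_sum (f := p₀) (fun i _ => Nat.zero_le _) (Finset.mem_univ i)
    omega
  let G : ∀ p : ℕ, Set (Fin g → ZMod p) := fun p =>
    {z | ∀ x : Fin g → ℤ, (fun i => ((x i : ℤ) : ZMod p)) = z → Good x}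
  obtain ⟨θ, hθ⟩ : ∃ θ : ℝ, θ = (∏ i, (2 * ((f i).natDegree : ℝ)))⁻¹ := ⟨_, rfl⟩
  have hprod : 0 < ∏ i, (2 * ((f i).natDegree : ℝ)) := Finset.prod_pos fun i _ => by
    have : 0 < (f i).natDegree := by have := hf i; omega
    positivity
  have hθ0 : 0 < θ := by rw [hθ]; exact inv_pos.2 hprod
  have hcard : ∀ p ∈ P, θ * (p : ℝ) ^ Fintype.card (Fin g) ≤ Nat.card (G p) := by
    rintro p ⟨hp, hpD, hpp, hpQ⟩
    have : Fact p.Prime := ⟨hp⟩
    choose fp hfp1 hfp2 hfp3 using fun i => hp₀ i p (hpp i)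
    have hsub : ∀ z : Fin g → ZMod p, (∀ i, ∀ a, (fp i).eval a ≠ z i) → z ∈ G p := by
      intro z hz x hx
      refine hGood p x hpQ fun i => ⟨hfp2 i, fun m hm => hfp3 i (x i) (fun a ha => ?_) m hm⟩
      refine hz i a ?_
      rw [ha]
      exact congrFun hx i
    have hle : Nat.card {z : Fin g → ZMod p // ∀ i, ∀ a, (fp i).eval a ≠ z i} ≤
        Nat.card (G p) :=
      Nat.card_le_card_of_injective (fun z => (⟨z.1, hsub z.1 z.2⟩ : G p))
        fun a b hab => Subtype.ext (congrArg (fun z => z.1) hab)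
    have hpi : Nat.card {z : Fin g → ZMod p // ∀ i, ∀ a, (fp i).eval a ≠ z i} =
        ∏ i, Nat.card {b : ZMod p // ∀ a, (fp i).eval a ≠ b} := by
      rw [Nat.card_congr (Equiv.subtypePiEquivPi (β := fun _ : Fin g => ZMod p)
        (p := fun i b => ∀ a, (fp i).eval a ≠ b)), Nat.card_pi]
    have hmiss : ∀ i, (p : ℝ) ≤ 2 * ((f i).natDegree : ℝ) *
        (Nat.card {b : ZMod p // ∀ a, (fp i).eval a ≠ b} : ℝ) := by
      intro i
      have h1 := hMISS p hp (fp i) (by rw [hfp1]; exact hf i) (by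
        rw [hfp1]
        exact (hdvd i).trans ((Nat.modEq_iff_dvd' hp.one_le).1 hpD.symm))
      rw [hfp1] at h1
      exact_mod_cast h1
    have h2 : (p : ℝ) ^ g ≤ (∏ i, (2 * ((f i).natDegree : ℝ))) *
        ∏ i, (Nat.card {b : ZMod p // ∀ a, (fp i).eval a ≠ b} : ℝ) := by
      rw [← Finset.prod_mul_distrib]
      have h3 : (p : ℝ) ^ g = ∏ _i : Fin g, (p : ℝ) := by
        rw [Finset.prod_const, Finset.card_univ, Fintype.card_fin]
      rw [h3]
      exact Finset.prod_le_prod (fun i _ => Nat.cast_nonneg _) fun i _ => hmiss i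
    rw [Fintype.card_fin]
    have h4 : θ * (p : ℝ) ^ g ≤ ∏ i, (Nat.card {b : ZMod p // ∀ a, (fp i).eval a ≠ b} : ℝ) := by
      rw [hθ, inv_mul_le_iff₀ hprod]
      exact h2
    refine h4.trans ?_
    have h5 : ((∏ i, Nat.card {b : ZMod p // ∀ a, (fp i).eval a ≠ b} : ℕ) : ℝ) ≤
        (Nat.card (G p) : ℝ) := by
      rw [← hpi]
      exact_mod_cast hle
    rw [Nat.cast_prod] at h5
    exact h5
  have hS := hSIEVI (Fin g) P G θ hθ0 hPinf (fun p hp => hp.1) hcard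
  rw [Fintype.card_fin] at hS
  have hfin : ∀ B : ℕ, Finite {b : Fin g → ℤ // ∀ i, |b i| ≤ (B : ℤ)} := fun B =>
    MAIN3.finite_box (Fin g) B
  have hpos : ∀ B : ℕ, (0 : ℝ) < (2 * B + 1 : ℝ) ^ g := fun B => by positivity
  refine tendsto_of_tendsto_of_tendsto_of_le_of_le hS tendsto_const_nhds ?_ ?_
  · intro B
    refine div_le_div_of_nonneg_right ?_ (hpos B).le
    have hf1 := hfin B
    have hf2 : Finite {b : Fin g → ℤ // (∀ i, |b i| ≤ (B : ℤ)) ∧ Good b} :=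
      Finite.of_injective (fun b => (⟨b.1, b.2.1⟩ : {b : Fin g → ℤ // ∀ i, |b i| ≤ (B : ℤ)}))
        fun a b hab => Subtype.ext (congrArg (fun z => z.1) hab)
    refine Nat.cast_le.2 (Nat.card_le_card_of_injective (fun x => ⟨x.1, x.2.1, ?_⟩)
        fun a b hab => Subtype.ext (congrArg (fun z => z.1) hab))
    obtain ⟨p, _, hg⟩ := x.2.2
    exact hg x.1 rfl
  · intro B
    have hf1 := hfin B
    have hle : Nat.card {b : Fin g → ℤ // (∀ i, |b i| ≤ (B : ℤ)) ∧ Good b} ≤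
        Nat.card {b : Fin g → ℤ // ∀ i, |b i| ≤ (B : ℤ)} :=
      Nat.card_le_card_of_injective (fun b => ⟨b.1, b.2.1⟩)
        fun a b hab => Subtype.ext (congrArg (fun z => z.1) hab)
    rw [MAIN3.card_box (Fin g) B, Fintype.card_fin] at hle
    have hle' : (Nat.card {b : Fin g → ℤ // (∀ i, |b i| ≤ (B : ℤ)) ∧ Good b} : ℝ) ≤
        (2 * B + 1 : ℝ) ^ g := by exact_mod_cast hle
    exact div_le_one_of_le₀ hle' (hpos B).le

/-- the primes modulo which `β` is not periodic, with good reduction -/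
theorem inf2 (hPRED : S_PRED) (hINFP : S_INFP) (f : Polynomial ℚ) (hf : 2 ≤ f.natDegree) (β : ℚ)
    (hβ : ∀ m : ℕ, 1 ≤ m → (fun x => f.eval x)^[m] β ≠ β) (D : ℕ) (hD : 1 ≤ D) (N : ℕ) :
    ∃ p : ℕ, p.Prime ∧ N ≤ p ∧ p % D = 1 % D ∧ ∃ _ : Fact p.Prime,
      GoodRed (MAIN3.vp p) (polyMap f) ∧ ∀ m : ℕ, 1 ≤ m →
        ¬ Cong (MAIN3.vp p) ((ev (polyMap f))^[m] ![β, 1]) ![β, 1] := by
  obtain ⟨p₀, hp₀⟩ := hPRED f hf
  obtain ⟨p, hp, hpN, hpD, hper⟩ := hINFP f hf β hβ D hD (N + p₀)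
  obtain ⟨fp, -, hgood, -⟩ := hp₀ p (by omega)
  exact ⟨p, hp.out, by omega, hpD, hp, hgood, hper⟩

end RESB2

theorem t_RESB2 (hMONE : S_MONE) (hSIEVI : S_SIEVI) (hMISS : S_MISS) (hPMR : S_PMR)
    (hPRED : S_PRED) (hINFP : S_INFP) : S_RESB2 := by
  intro g f hf γ hγ
  refine RESB2.core2 hSIEVI hMISS hPRED g (fun _ => f) (fun _ => hf)
    (fun p => ∃ _ : Fact p.Prime, GoodRed (MAIN3.vp p) (polyMap f) ∧ ∀ m : ℕ, 1 ≤ m →
        ¬ Cong (MAIN3.vp p) ((ev (polyMap f))^[m] ![γ, 1]) ![γ, 1])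
    (fun D hD N => RESB2.inf2 hPRED hINFP f hf γ hγ D hD N) _ ?_
  intro p _ b hQ hb
  obtain ⟨_, hQ1, hQ2⟩ := hQ
  have hmor : IsMor f.natDegree (polyMap f) := hPMR ℚ f (by omega)
  -- all points
  obtain ⟨y, hy0⟩ : ∃ y : Fin (g + 1) → Fin 2 → ℚ,
    y = Fin.cons ![γ, 1] (fun i => ![(b i : ℚ), 1]) := ⟨_, rfl⟩
  have y0 : y 0 = ![γ, 1] := by rw [hy0]; rfl
  have ys : ∀ i : Fin g, y i.succ = ![(b i : ℚ), 1] := fun i => by rw [hy0]; rfl
  have hy : ∀ i, y i ≠ 0 := by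
    intro i
    refine Fin.cases ?_ (fun j => ?_) i
    · rw [y0]; exact RESA.one_ne _
    · rw [ys]; exact RESA.one_ne _
  have hper : ∀ i (m : ℕ), 1 ≤ m →
      ¬ Cong (MAIN3.vp p) ((ev (polyMap f))^[m] (y i)) (y i) := by
    intro i
    refine Fin.cases ?_ (fun j => ?_) i
    · rw [y0]; exact hQ2
    · rw [ys]; exact (hb j).2
  have hx : ∀ i, ev (polyMap f) (y i) ≠ 0 := fun i => RESB.ev_ne hmor (hy i)
  have h := hMONE ℚ 2 (g + 1) (fun _ => f.natDegree) (fun _ => by omega)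
    (fun _ => polyMap f) (fun _ => hmor) (fun i => ev (polyMap f) (y i))
    y hx hy (fun i m hpar => ?_) (MAIN3.vp p) (fun i => hQ1) hper
  · have e : {v : HeightOneSpectrum (𝓞 ℚ) | ∀ m : ℕ, 1 ≤ m →
        ¬ Cong v ((ev (polyMap f))^[m] ![γ, 1]) ![γ, 1] ∧
        ∀ i : Fin g, ¬ Cong v ((ev (polyMap f))^[m] ![(b i : ℚ), 1]) ![(b i : ℚ), 1]} =
        {v : HeightOneSpectrum (𝓞 ℚ) | ∀ i : Fin (g + 1),
          v ∈ Avoid (polyMap f) (ev (polyMap f) (y i)) (y i)} := by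
      ext v
      constructor
      · intro hv i m
        rw [← Function.iterate_succ_apply]
        refine Fin.cases ?_ (fun j => ?_) i
        · rw [y0]; exact (hv (m + 1) (by omega)).1
        · rw [ys]; exact (hv (m + 1) (by omega)).2 j
      · intro hv m hm
        obtain ⟨k, rfl⟩ : ∃ k, m = k + 1 := ⟨m - 1, by omega⟩
        rw [Function.iterate_succ_apply]
        refine ⟨?_, fun i => ?_⟩
        · have := hv 0 k
          rwa [y0] at this
        · have := hv i.succ k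
          rw [ys] at this
          rwa [Function.iterate_succ_apply]
    rw [e]
    exact h
  · rw [← Function.iterate_succ_apply] at hpar
    exact hper i (m + 1) (by omega)
      (RESB.cong_of_par _ (RESB.iter_ne hmor (hy i) _) (hy i) hpar)

end Pool.Agent.T4h89.OM
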