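import Pool.Agent.T4h89.OM.Stm5

/-! # RESC: two maps of degree two -/

set_option autoImplicit false

open NumberField IsDedekindDomain Filter Topology

noncomputable section

namespace Pool.Agent.T4h89.OM

theorem t_RESC (hQSUB : S_QSUB) (hUNI2 : S_UNI2) (hMFPF : S_MFPF) (hMHALF : S_MHALF) :
    S_RESC := by
  intro K _ _ F₁ F₂ hF₁ hF₂ α₁ α₂ β₁ β₂ hα₁ hα₂ hβ₁ hβ₂ hp₁ hp₂ hn₁ hn₂
  obtain ⟨H₁, hH₁, h₁⟩ := hQSUB K F₁ hF₁ β₁ hβ₁ hn₁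
  obtain ⟨H₂, hH₂, h₂⟩ := hQSUB K F₂ hF₂ β₂ hβ₂ hn₂
  obtain ⟨σ, -, hσ₁, hσ₂⟩ := hUNI2 _ ⊤ H₁ H₂ (lt_top_iff_ne_top.2 hH₁) (lt_top_iff_ne_top.2 hH₂)
  let F : Fin 2 → Fin 2 → MvPolynomial (Fin 2) K := ![F₁, F₂]
  let d : Fin 2 → ℕ := ![2, 2]
  let x : Fin 2 → Fin 2 → K := ![α₁, α₂]
  let y : Fin 2 → Fin 2 → K := ![β₁, β₂]
  have hd : ∀ i, 1 ≤ d i := Fin.forall_fin_two.2 ⟨by show 1 ≤ 2; omega, by show 1 ≤ 2; omega⟩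
  have hF : ∀ i, IsMor (d i) (F i) := Fin.forall_fin_two.2 ⟨hF₁, hF₂⟩
  have hx : ∀ i, x i ≠ 0 := Fin.forall_fin_two.2 ⟨hα₁, hα₂⟩
  have hy : ∀ i, y i ≠ 0 := Fin.forall_fin_two.2 ⟨hβ₁, hβ₂⟩
  have h3 := hMFPF K 2 2 d hd F hF y hy σ (Fin.forall_fin_two.2 ⟨h₁ σ hσ₁, h₂ σ hσ₂⟩)
  have h4 := hMHALF K 2 2 d hd F hF x y hx hy (Fin.forall_fin_two.2 ⟨hp₁, hp₂⟩) h3
  have e : {v : HeightOneSpectrum (𝓞 K) | ∀ i, v ∈ Avoid (F i) (x i) (y i)} =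
      Avoid F₁ α₁ β₁ ∩ Avoid F₂ α₂ β₂ := by
    ext v
    exact Fin.forall_fin_two
  rw [← e]
  exact h4

end Pool.Agent.T4h89.OM
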