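import Pool.Agent.T4h89.OM.Stm5

/-! # RESD: maps of degree two and two points -/

set_option autoImplicit false

open NumberField IsDedekindDomain Filter Topology

noncomputable section

namespace Pool.Agent.T4h89.OM

theorem RESD.ev_ne {K : Type} [Field K] {n d : ℕ} {F : Fin n → MvPolynomial (Fin n) K}
    (hF : IsMor d F) {x : Fin n → K} (hx : x ≠ 0) : ev F x ≠ 0 := by
  intro h
  apply hx
  have h1 := hF.zero (fun i => algebraMap K (AlgebraicClosure K) (x i)) fun i => by
    have h2 : MvPolynomial.eval x (F i) = 0 := congrFun h i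
    have h3 : MvPolynomial.aeval (fun i => algebraMap K (AlgebraicClosure K) (x i)) (F i) =
        algebraMap K (AlgebraicClosure K) (MvPolynomial.eval x (F i)) := by
      have := MvPolynomial.aeval_algebraMap_apply (AlgebraicClosure K) x (F i)
      exact this
    rw [h3, h2, map_zero]
  funext i
  have h4 := congrFun h1 i
  exact (map_eq_zero _).1 h4

theorem t_RESD (hRESC : S_RESC) : S_RESD := by
  intro K _ _ F hF γ₁ γ₂ hγ₁ hγ₂ hn₁ hn₂
  have hit : ∀ (γ : Fin 2 → K), γ ≠ 0 → ∀ m : ℕ, (ev F)^[m] γ ≠ 0 := by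
    intro γ hγ m
    induction m with
    | zero => exact hγ
    | succ m ih =>
      rw [Function.iterate_succ_apply']
      exact RESD.ev_ne hF ih
  have h := hRESC K F F hF hF (ev F γ₁) (ev F γ₂) γ₁ γ₂ (RESD.ev_ne hF hγ₁) (RESD.ev_ne hF hγ₂)
    hγ₁ hγ₂
    (fun m => by
      rw [← Function.iterate_succ_apply, Function.iterate_succ_apply']
      exact hn₁ _ (hit γ₁ hγ₁ m))
    (fun m => by
      rw [← Function.iterate_succ_apply, Function.iterate_succ_apply']
      exact hn₂ _ (hit γ₂ hγ₂ m)) hn₁ hn₂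
  have e : {v : HeightOneSpectrum (𝓞 K) | ∀ m : ℕ, 1 ≤ m →
      ¬ Cong v ((ev F)^[m] γ₁) γ₁ ∧ ¬ Cong v ((ev F)^[m] γ₂) γ₂} =
      Avoid F (ev F γ₁) γ₁ ∩ Avoid F (ev F γ₂) γ₂ := by
    ext v
    constructor
    · intro hv
      refine ⟨fun m => ?_, fun m => ?_⟩
      · rw [← Function.iterate_succ_apply]
        exact (hv (m + 1) (by omega)).1
      · rw [← Function.iterate_succ_apply]
        exact (hv (m + 1) (by omega)).2
    · rintro ⟨hv1, hv2⟩ m hm
      obtain ⟨k, rfl⟩ : ∃ k, m = k + 1 := ⟨m - 1, by omega⟩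
      refine ⟨?_, ?_⟩
      · rw [Function.iterate_succ_apply]
        exact hv1 k
      · rw [Function.iterate_succ_apply]
        exact hv2 k
  rw [e]
  exact h

end Pool.Agent.T4h89.OM
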