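import Pool.Agent.T4h89.OM.Stm5

/-! # RESE: two unicritical polynomials -/

set_option autoImplicit false

open NumberField IsDedekindDomain Filter Topology

noncomputable section

namespace Pool.Agent.T4h89.OM

theorem t_RESE (hUSUB : S_USUB) (hUNI2 : S_UNI2) (hPMR : S_PMR) (hMFPF : S_MFPF)
    (hMHALF : S_MHALF) : S_RESE := by
  intro K _ _ d₁ d₂ hd₁ hd₂ E ζ₁ ζ₂ hE₁ hE₂ hζ₁ hζ₂ c₁ c₂ β₁ β₂ ha₁ ha₂ α₁ α₂ hα₁ hα₂ hp₁ hp₂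
  obtain ⟨H₁, hH₁, h₁⟩ := hUSUB K d₁ hd₁ E ζ₁ hE₁ hζ₁ c₁ β₁ ha₁
  obtain ⟨H₂, hH₂, h₂⟩ := hUSUB K d₂ hd₂ E ζ₂ hE₂ hζ₂ c₂ β₂ ha₂
  obtain ⟨σ, hσE, hσ₁, hσ₂⟩ := hUNI2 _ E.fixingSubgroup H₁ H₂ hH₁ hH₂
  have hdeg : ∀ (d : ℕ) (c : K), 2 ≤ d →
      IsMor d (polyMap (Polynomial.X ^ d + Polynomial.C c)) := by
    intro d c hd
    have h := hPMR K (Polynomial.X ^ d + Polynomial.C c)
      (by rw [Polynomial.natDegree_X_pow_add_C]; omega)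
    rwa [Polynomial.natDegree_X_pow_add_C] at h
  have hone : ∀ β : K, (![β, 1] : Fin 2 → K) ≠ 0 := by
    intro β h
    have := congrFun h 1
    simp at this
  let F : Fin 2 → Fin 2 → MvPolynomial (Fin 2) K :=
    ![polyMap (Polynomial.X ^ d₁ + Polynomial.C c₁), polyMap (Polynomial.X ^ d₂ + Polynomial.C c₂)]
  let d : Fin 2 → ℕ := ![d₁, d₂]
  let x : Fin 2 → Fin 2 → K := ![α₁, α₂]
  let y : Fin 2 → Fin 2 → K := ![![β₁, 1], ![β₂, 1]]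
  have hd : ∀ i, 1 ≤ d i := Fin.forall_fin_two.2 ⟨by show 1 ≤ d₁; omega, by show 1 ≤ d₂; omega⟩
  have hF : ∀ i, IsMor (d i) (F i) :=
    Fin.forall_fin_two.2 ⟨hdeg d₁ c₁ hd₁, hdeg d₂ c₂ hd₂⟩
  have hx : ∀ i, x i ≠ 0 := Fin.forall_fin_two.2 ⟨hα₁, hα₂⟩
  have hy : ∀ i, y i ≠ 0 := Fin.forall_fin_two.2 ⟨hone β₁, hone β₂⟩
  have h3 := hMFPF K 2 2 d hd F hF y hy σ
    (Fin.forall_fin_two.2 ⟨h₁ σ hσE hσ₁, h₂ σ hσE hσ₂⟩)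
  have h4 := hMHALF K 2 2 d hd F hF x y hx hy (Fin.forall_fin_two.2 ⟨hp₁, hp₂⟩) h3
  have e : {v : HeightOneSpectrum (𝓞 K) | ∀ i, v ∈ Avoid (F i) (x i) (y i)} =
      Avoid (polyMap (Polynomial.X ^ d₁ + Polynomial.C c₁)) α₁ ![β₁, 1] ∩
        Avoid (polyMap (Polynomial.X ^ d₂ + Polynomial.C c₂)) α₂ ![β₂, 1] := by
    ext v
    exact Fin.forall_fin_two
  rw [← e]
  exact h4

end Pool.Agent.T4h89.OM
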