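import Pool.Agent.T4h89.OM.Stm

/-!
Task UEQ: a point with infinite orbit under a polynomial is not periodic modulo infinitely many
prime ideals (core, from the unit equation).
-/

set_option autoImplicit false

open NumberField IsDedekindDomain

namespace Pool.Agent.T4h89.OM.UEQ

section
variable {F Γ : Type} [Field F] [LinearOrderedCommGroupWithZero Γ] (w : Valuation F Γ)

theorem ev_lt {f : Polynomial F} (hf : ∀ i, w (f.coeff i) ≤ 1) {x y : F} (hx : w x ≤ 1)
    (hy : w y ≤ 1) (h : w (x - y) < 1) : w (f.eval x - f.eval y) < 1 := by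
  have hpow : ∀ (z : F), w z ≤ 1 → ∀ n : ℕ, w (z ^ n) ≤ 1 := by
    intro z hz n
    rw [map_pow]
    exact pow_le_one₀ zero_le hz
  have hd : ∀ n : ℕ, w (x ^ n - y ^ n) < 1 := by
    intro n
    induction n with
    | zero => simp
    | succ n ih =>
      have e : x ^ (n + 1) - y ^ (n + 1) = (x ^ n - y ^ n) * x + y ^ n * (x - y) := by ring
      rw [e]
      refine lt_of_le_of_lt (w.map_add _ _) (max_lt ?_ ?_)
      · rw [map_mul]
        exact lt_of_le_of_lt (mul_le_of_le_one_right zero_le hx) ih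
      · rw [map_mul]
        exact lt_of_le_of_lt (mul_le_of_le_one_left zero_le (hpow y hy n)) h
  rw [Polynomial.eval_eq_sum_range, Polynomial.eval_eq_sum_range, ← Finset.sum_sub_distrib]
  refine w.map_sum_lt one_ne_zero ?_
  intro i _
  rw [← mul_sub, map_mul]
  exact lt_of_le_of_lt (mul_le_of_le_one_left zero_le (hf i)) (hd i)

theorem ev_le {f : Polynomial F} (hf : ∀ i, w (f.coeff i) ≤ 1) {x : F} (hx : w x ≤ 1) :
    w (f.eval x) ≤ 1 := by
  rw [Polynomial.eval_eq_sum_range]
  refine w.map_sum_le ?_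
  intro i _
  rw [map_mul, map_pow]
  exact mul_le_one' (hf i) (pow_le_one₀ zero_le hx)

theorem it_le {f : Polynomial F} (hf : ∀ i, w (f.coeff i) ≤ 1) {x : F} (hx : w x ≤ 1) (m : ℕ) :
    w ((fun x => f.eval x)^[m] x) ≤ 1 := by
  induction m with
  | zero => exact hx
  | succ m ih =>
    rw [Function.iterate_succ_apply']
    exact ev_le w hf ih

theorem it_lt {f : Polynomial F} (hf : ∀ i, w (f.coeff i) ≤ 1) {x y : F} (hx : w x ≤ 1)
    (hy : w y ≤ 1) (h : w (x - y) < 1) (m : ℕ) :
    w ((fun x => f.eval x)^[m] x - (fun x => f.eval x)^[m] y) < 1 := by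
  induction m with
  | zero => exact h
  | succ m ih =>
    rw [Function.iterate_succ_apply', Function.iterate_succ_apply']
    exact ev_lt w hf (it_le w hf hx m) (it_le w hf hy m) ih

theorem trans_lt {x y z : F} (h1 : w (x - y) < 1) (h2 : w (y - z) < 1) : w (x - z) < 1 := by
  have e : x - z = (x - y) + (y - z) := by ring
  rw [e]
  exact lt_of_le_of_lt (w.map_add _ _) (max_lt h1 h2)

theorem per_mul {f : Polynomial F} (hf : ∀ i, w (f.coeff i) ≤ 1) {x : F} (hx : w x ≤ 1) {m : ℕ}
    (h : w ((fun x => f.eval x)^[m] x - x) < 1) (N : ℕ) :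
    w ((fun x => f.eval x)^[m * N] x - x) < 1 := by
  induction N with
  | zero => simp
  | succ N ih =>
    have e : m * (N + 1) = m * N + m := by ring
    rw [e, Function.iterate_add_apply]
    exact trans_lt w (it_lt w hf (it_le w hf hx m) hx h (m * N)) ih

theorem it_two {f : Polynomial F} {δ : F} (hδ : f.eval (f.eval δ) = δ) (j : ℕ) :
    (fun x => f.eval x)^[j] δ = δ ∨ (fun x => f.eval x)^[j] δ = f.eval δ := by
  induction j with
  | zero => exact Or.inl rfl
  | succ j ih =>
    rw [Function.iterate_succ_apply']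
    rcases ih with h | h
    · rw [h]
      exact Or.inr rfl
    · rw [h]
      exact Or.inl hδ

theorem unit_per {f : Polynomial F} (hf : ∀ i, w (f.coeff i) ≤ 1) {x δ : F} (hx : w x ≤ 1)
    (hδ1 : w δ ≤ 1) (hδ : f.eval (f.eval δ) = δ) {m : ℕ} (hm : 1 ≤ m)
    (h : w ((fun x => f.eval x)^[m] x - x) < 1) (h1 : w (x - δ) = 1)
    (h2 : w (x - f.eval δ) = 1) (k : ℕ) : w ((fun x => f.eval x)^[k] x - δ) = 1 := by
  have hle : w ((fun x => f.eval x)^[k] x - δ) ≤ 1 :=
    (w.map_sub _ _).trans (max_le (it_le w hf hx k) hδ1)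
  rcases lt_or_eq_of_le hle with hlt | heq
  · exfalso
    have h3 := it_lt w hf (it_le w hf hx k) hδ1 hlt (m * k - k)
    rw [← Function.iterate_add_apply] at h3
    have e : m * k - k + k = m * k := Nat.sub_add_cancel (Nat.le_mul_of_pos_left k hm)
    rw [e] at h3
    have h4 := per_mul w hf hx h k
    rw [w.map_sub_swap] at h4
    have h5 := trans_lt w h4 h3
    rcases it_two hδ (m * k - k) with h6 | h6
    · rw [h6, h1] at h5
      exact lt_irrefl _ h5
    · rw [h6, h2] at h5
      exact lt_irrefl _ h5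
  · exact heq

end

section
variable {L : Type} [Field L] [NumberField L]

theorem pole_finite (x : L) : {v : HeightOneSpectrum (𝓞 L) | ¬ v.valuation L x ≤ 1}.Finite := by
  refine (HeightOneSpectrum.Support.finite (𝓞 L) x).subset ?_
  intro v hv
  exact not_le.1 hv

theorem supp_finite {x : L} (hx : x ≠ 0) :
    {v : HeightOneSpectrum (𝓞 L) | v.valuation L x ≠ 1}.Finite := by
  apply Set.Finite.subset ((HeightOneSpectrum.Support.finite (𝓞 L) x).union
    (HeightOneSpectrum.Support.finite (𝓞 L) x⁻¹))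
  intro v hv
  rcases lt_or_gt_of_ne hv with h | h
  · right
    change 1 < v.valuation L x⁻¹
    rw [map_inv₀]
    exact (one_lt_inv₀ (by
      rw [zero_lt_iff]
      exact (Valuation.ne_zero_iff _).mpr hx)).mpr h
  · left
    exact h

end

section
variable {K L : Type} [Field K] [NumberField K] [Field L] [NumberField L] [Algebra K L]

theorem over_finite (bad : Finset (HeightOneSpectrum (𝓞 K))) :
    {w : HeightOneSpectrum (𝓞 L) | w.under (𝓞 K) ∈ bad}.Finite := by
  have h1 : ∀ v : HeightOneSpectrum (𝓞 K),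
      {w : HeightOneSpectrum (𝓞 L) | w.asIdeal ∈ Ideal.primesOver v.asIdeal (𝓞 L)}.Finite := by
    intro v
    have : v.asIdeal.IsMaximal := v.isMaximal
    refine (IsDedekindDomain.primesOver_finite v.asIdeal (𝓞 L)).preimage ?_
    intro a _ b _ hab
    exact HeightOneSpectrum.ext hab
  refine (Set.Finite.biUnion bad.finite_toSet fun v _ => h1 v).subset ?_
  intro w hw
  simp only [Set.mem_iUnion]
  exact ⟨w.under (𝓞 K), hw, w.isPrime, ⟨rfl⟩⟩

theorem val_pow (w : HeightOneSpectrum (𝓞 L)) : ∃ e : ℕ, e ≠ 0 ∧ ∀ x : K,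
    (w.under (𝓞 K)).valuation K x ^ e = w.valuation L (algebraMap K L x) := by
  have : w.asIdeal.LiesOver (w.under (𝓞 K)).asIdeal := ⟨rfl⟩
  exact ⟨_, Ideal.IsDedekindDomain.ramificationIdx'_ne_zero_of_liesOver w.asIdeal
    (w.under (𝓞 K)).ne_bot, fun x => HeightOneSpectrum.valuation_liesOver L (w.under (𝓞 K)) w x⟩

theorem val_le (w : HeightOneSpectrum (𝓞 L)) {x : K} :
    w.valuation L (algebraMap K L x) ≤ 1 ↔ (w.under (𝓞 K)).valuation K x ≤ 1 := by
  obtain ⟨e, he, h⟩ := val_pow (K := K) w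
  rw [← h]
  refine ⟨fun h1 => ?_, fun h1 => pow_le_one₀ zero_le h1⟩
  by_contra h2
  exact absurd h1 (not_le.2 (one_lt_pow₀ (not_le.1 h2) he))

theorem val_lt (w : HeightOneSpectrum (𝓞 L)) {x : K} :
    w.valuation L (algebraMap K L x) < 1 ↔ (w.under (𝓞 K)).valuation K x < 1 := by
  obtain ⟨e, he, h⟩ := val_pow (K := K) w
  rw [← h]
  refine ⟨fun h1 => ?_, fun h1 => pow_lt_one₀ zero_le h1 he⟩
  by_contra h2
  exact absurd h1 (not_lt.2 (one_le_pow₀ (not_lt.1 h2)))

theorem map_it (f : Polynomial K) (α : K) (m : ℕ) :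
    algebraMap K L ((fun x => f.eval x)^[m] α) =
      (fun x => (f.map (algebraMap K L)).eval x)^[m] (algebraMap K L α) := by
  induction m with
  | zero => rfl
  | succ m ih =>
    rw [Function.iterate_succ_apply', Function.iterate_succ_apply', ← ih]
    exact (Polynomial.eval_map_apply (algebraMap K L) _).symm

/-- the unit equation -/
def UE : Prop := ∀ (L : Type) [Field L] [NumberField L] (S : Set (HeightOneSpectrum (𝓞 L))),
  S.Finite → {x : L | x ≠ 0 ∧ 1 - x ≠ 0 ∧
    ∀ v ∉ S, v.valuation L x = 1 ∧ v.valuation L (1 - x) = 1}.Finite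

theorem main_L (hU : UE) (f : Polynomial K) (α : K)
    (hα : ∀ i j : ℕ, i < j → (fun x => f.eval x)^[i] α ≠ (fun x => f.eval x)^[j] α)
    (bad : Finset (HeightOneSpectrum (𝓞 K)))
    (hcon : ∀ v ∉ bad, (∀ i, v.valuation K (f.coeff i) ≤ 1) → v.valuation K α ≤ 1 →
      ∃ m : ℕ, 1 ≤ m ∧ v.valuation K ((fun x => f.eval x)^[m] α - α) < 1)
    (d₁ d₂ : L) (h12 : d₁ ≠ d₂)
    (h1 : (f.map (algebraMap K L)).eval ((f.map (algebraMap K L)).eval d₁) = d₁)
    (h2 : (f.map (algebraMap K L)).eval ((f.map (algebraMap K L)).eval d₂) = d₂) : False := by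
  classical
  set g := f.map (algebraMap K L) with hg
  set a : L := algebraMap K L α with ha
  have hinj : ∀ i j : ℕ, i < j → (fun x => g.eval x)^[i] a ≠ (fun x => g.eval x)^[j] a := by
    intro i j hij h
    rw [ha, hg, ← map_it, ← map_it] at h
    exact hα i j hij ((algebraMap K L).injective h)
  -- the orbit of `a` avoids points of period two
  have hne : ∀ d : L, g.eval (g.eval d) = d → ∀ k : ℕ, (fun x => g.eval x)^[k] a ≠ d := by
    intro d hd k h
    apply hinj k (k + 2) (by omega)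
    have e : k + 2 = 2 + k := by ring
    rw [e, Function.iterate_add_apply, h]
    exact hd.symm
  have hne' : ∀ d : L, g.eval (g.eval d) = d → a - g.eval d ≠ 0 := by
    intro d hd h
    refine hne (g.eval d) ?_ 0 (sub_eq_zero.1 h)
    rw [hd]
  have e12 : d₂ - d₁ ≠ 0 := sub_ne_zero.2 h12.symm
  have ha1 : a - d₁ ≠ 0 := sub_ne_zero.2 (hne d₁ h1 0)
  have ha2 : a - d₂ ≠ 0 := sub_ne_zero.2 (hne d₂ h2 0)
  set S : Set (HeightOneSpectrum (𝓞 L)) := {w | w.under (𝓞 K) ∈ bad} ∪
    (⋃ i ∈ (f.support : Set ℕ), {w | ¬ w.valuation L (algebraMap K L (f.coeff i)) ≤ 1}) ∪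
    {w | ¬ w.valuation L a ≤ 1} ∪ {w | ¬ w.valuation L d₁ ≤ 1} ∪ {w | ¬ w.valuation L d₂ ≤ 1} ∪
    {w | w.valuation L (a - d₁) ≠ 1} ∪ {w | w.valuation L (a - d₂) ≠ 1} ∪
    {w | w.valuation L (a - g.eval d₁) ≠ 1} ∪ {w | w.valuation L (a - g.eval d₂) ≠ 1} ∪
    {w | w.valuation L (d₂ - d₁) ≠ 1} with hS
  have hSf : S.Finite := by
    rw [hS]
    refine ((((((((Set.Finite.union ?_ ?_).union (pole_finite _)).union (pole_finite _)).union
      (pole_finite _)).union (supp_finite ha1)).union (supp_finite ha2)).union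
      (supp_finite (hne' d₁ h1))).union (supp_finite (hne' d₂ h2))).union (supp_finite e12)
    · exact over_finite bad
    · exact Set.Finite.biUnion f.support.finite_toSet fun i _ => pole_finite _
  have hfin := hU L S hSf
  have hw : ∀ w ∉ S, ∀ k : ℕ, w.valuation L ((fun x => g.eval x)^[k] a - d₁) = 1 ∧
      w.valuation L ((fun x => g.eval x)^[k] a - d₂) = 1 ∧ w.valuation L (d₂ - d₁) = 1 := by
    intro w hw k
    simp only [hS, Set.mem_union, Set.mem_ofPred_eq, not_or, not_not, Set.mem_iUnion,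
      not_exists] at hw
    obtain ⟨⟨⟨⟨⟨⟨⟨⟨⟨b1, b2⟩, b3⟩, b4⟩, b5⟩, b6⟩, b7⟩, b8⟩, b9⟩, b10⟩ := hw
    have hc : ∀ i, w.valuation L (algebraMap K L (f.coeff i)) ≤ 1 := by
      intro i
      by_cases hi : i ∈ f.support
      · exact b2 i hi
      · rw [Polynomial.notMem_support_iff.1 hi, map_zero, map_zero]
        exact zero_le
    obtain ⟨m, hm, hm1⟩ := hcon (w.under (𝓞 K)) b1 (fun i => (val_le w).1 (hc i))
      ((val_le w).1 b3)
    rw [← val_lt w, map_sub, map_it] at hm1
    have hgc : ∀ i, w.valuation L (g.coeff i) ≤ 1 := by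
      intro i
      rw [hg, Polynomial.coeff_map]
      exact hc i
    exact ⟨unit_per _ hgc b3 b4 h1 hm hm1 b6 b8 k, unit_per _ hgc b3 b5 h2 hm hm1 b7 b9 k, b10⟩
  obtain ⟨k, k', hkk, heq⟩ : ∃ k k' : ℕ, k < k' ∧
      ((fun x => g.eval x)^[k] a - d₁) / (d₂ - d₁) =
        ((fun x => g.eval x)^[k'] a - d₁) / (d₂ - d₁) := by
    have hmaps : Set.MapsTo (fun k : ℕ => ((fun x => g.eval x)^[k] a - d₁) / (d₂ - d₁))
        (Set.univ : Set ℕ) {x : L | x ≠ 0 ∧ 1 - x ≠ 0 ∧
          ∀ v ∉ S, v.valuation L x = 1 ∧ v.valuation L (1 - x) = 1} := by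
      intro k _
      have e : 1 - ((fun x => g.eval x)^[k] a - d₁) / (d₂ - d₁) =
          -(((fun x => g.eval x)^[k] a - d₂) / (d₂ - d₁)) := by
        field_simp
        ring
      refine ⟨div_ne_zero (sub_ne_zero.2 (hne d₁ h1 k)) e12, ?_, ?_⟩
      · show 1 - ((fun x => g.eval x)^[k] a - d₁) / (d₂ - d₁) ≠ 0
        rw [e]
        exact neg_ne_zero.2 (div_ne_zero (sub_ne_zero.2 (hne d₂ h2 k)) e12)
      · intro v hv
        obtain ⟨c1, c2, c3⟩ := hw v hv k
        refine ⟨?_, ?_⟩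
        · show v.valuation L (((fun x => g.eval x)^[k] a - d₁) / (d₂ - d₁)) = 1
          rw [map_div₀, c1, c3, div_one]
        · show v.valuation L (1 - ((fun x => g.eval x)^[k] a - d₁) / (d₂ - d₁)) = 1
          rw [e, Valuation.map_neg, map_div₀, c2, c3, div_one]
    obtain ⟨k, -, k', -, hne1, heq⟩ := Set.infinite_univ.exists_ne_map_eq_of_mapsTo hmaps hfin
    rcases lt_or_gt_of_ne hne1 with h | h
    · exact ⟨k, k', h, heq⟩
    · exact ⟨k', k, h, heq.symm⟩
  apply hinj k k' hkk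
  have h5 := (div_left_inj' e12).1 heq
  exact sub_left_inj.1 h5

end

theorem core (hper : S_PER) (hU : UE) : S_UEQ := by
  intro K _ _ f hf α hα bad
  by_contra hcon
  push Not at hcon
  have hcon' : ∀ v ∉ bad, (∀ i, v.valuation K (f.coeff i) ≤ 1) → v.valuation K α ≤ 1 →
      ∃ m : ℕ, 1 ≤ m ∧ v.valuation K ((fun x => f.eval x)^[m] α - α) < 1 := hcon
  obtain ⟨δ₁, δ₂, h12, h1, h2⟩ := hper (AlgebraicClosure K) (f.map (algebraMap K _))
    (by rw [Polynomial.natDegree_map]; exact hf)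
  let L : IntermediateField K (AlgebraicClosure K) :=
    IntermediateField.adjoin K {δ₁, δ₂}
  have hd1 : δ₁ ∈ L := IntermediateField.subset_adjoin K _ (by simp)
  have hd2 : δ₂ ∈ L := IntermediateField.subset_adjoin K _ (by simp)
  have hfd : FiniteDimensional K L := by
    refine IntermediateField.finiteDimensional_adjoin ?_
    intro x _
    exact (AlgebraicClosure.isAlgebraic K).isIntegral.isIntegral x
  have hnf : NumberField L := NumberField.of_module_finite K L
  have hev : ∀ x : L, (((f.map (algebraMap K L)).eval x : L) : AlgebraicClosure K) =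
      (f.map (algebraMap K (AlgebraicClosure K))).eval (x : AlgebraicClosure K) := by
    intro x
    have h3 := Polynomial.eval_map_apply (p := f.map (algebraMap K L)) (algebraMap L (AlgebraicClosure K)) x
    rw [Polynomial.map_map, ← IsScalarTower.algebraMap_eq] at h3
    exact h3.symm
  refine main_L (L := L) hU f α hα bad hcon' ⟨δ₁, hd1⟩ ⟨δ₂, hd2⟩ ?_ ?_ ?_
  · intro h
    exact h12 (congrArg Subtype.val h)
  · apply Subtype.ext
    rw [hev, hev]
    exact h1
  · apply Subtype.ext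
    rw [hev, hev]
    exact h2

end Pool.Agent.T4h89.OM.UEQ
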