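import Pool.Agent.T4h89.OM.Stm5

/-! # UNI2: a group is not the union of two proper subgroups -/

set_option autoImplicit false

noncomputable section

namespace Pool.Agent.T4h89.OM

theorem t_UNI2 : S_UNI2 := by
  intro G _ E H₁ H₂ h₁ h₂
  obtain ⟨a, haE, ha⟩ := SetLike.exists_of_lt h₁
  obtain ⟨b, hbE, hb⟩ := SetLike.exists_of_lt h₂
  by_cases ha2 : a ∈ H₂
  · by_cases hb1 : b ∈ H₁
    · refine ⟨a * b, E.mul_mem haE hbE, fun h => ha ?_, fun h => hb ?_⟩
      · exact (H₁.mul_mem_cancel_right hb1).1 h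
      · exact (H₂.mul_mem_cancel_left ha2).1 h
    · exact ⟨b, hbE, hb1, hb⟩
  · exact ⟨a, haE, ha, ha2⟩

end Pool.Agent.T4h89.OM
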